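import Pool.Agent.Lib.H31Z.Defs

/-!
Chunk F2: elementary facts on the probabilities `pn`, `pz`.
-/

namespace H31Z

open Finset

/-- PROOF: the sums are integers; `exact_mod_cast` in the two filters. -/
theorem F2_cast {ι : Type*} (x : ι → ℝ) (w : ι → ℤ) (L : Finset ι) (h : ∀ j ∈ L, x j = (w j : ℝ))
    (s : ℤ) : pn x L (s : ℝ) = pz w L s := by
  have h1 : cn x L (s : ℝ) = cz w L s := by
    unfold cn cz
    congr 1
    ext B
    simp only [Finset.mem_filter, Finset.mem_powerset, and_congr_right_iff]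
    intro hB
    have h2 : ∑ i ∈ B, x i = ((∑ i ∈ B, w i : ℤ) : ℝ) := by
      rw [Int.cast_sum]
      exact Finset.sum_congr rfl fun i hi => h i (hB hi)
    rw [h2]
    exact_mod_cast Iff.rfl
  unfold pn pz
  rw [h1]

/-- PROOF: all subset sums are integers, so the filter is empty. -/
theorem F2_zero {ι : Type*} (x : ι → ℝ) (w : ι → ℤ) (L : Finset ι) (h : ∀ j ∈ L, x j = (w j : ℝ))
    (s : ℝ) (hs : ∀ k : ℤ, s ≠ k) : pn x L s = 0 := by
  have h1 : cn x L s = 0 := by
    unfold cn
    rw [Finset.card_eq_zero, Finset.filter_eq_empty_iff]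
    intro B hB h3
    rw [Finset.mem_powerset] at hB
    have h2 : ∑ i ∈ B, x i = ((∑ i ∈ B, w i : ℤ) : ℝ) := by
      rw [Int.cast_sum]
      exact Finset.sum_congr rfl fun i hi => h i (hB hi)
    exact hs (∑ i ∈ B, w i) (by rw [← h3, h2])
  unfold pn
  rw [h1, Nat.cast_zero, zero_div]

theorem F2_cn_union {ι : Type*} [DecidableEq ι] (x : ι → ℝ) (L E : Finset ι) (hd : Disjoint L E)
    (s : ℝ) : cn x (L ∪ E) s = ∑ B ∈ E.powerset, cn x L (s - ∑ i ∈ B, x i) := by
  classical
  have h1 : ∑ B ∈ E.powerset, cn x L (s - ∑ i ∈ B, x i) =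
      ((E.powerset ×ˢ L.powerset).filter
        (fun p => ∑ i ∈ p.2, x i = s - ∑ i ∈ p.1, x i)).card := by
    rw [Finset.card_filter, Finset.sum_product]
    refine Finset.sum_congr rfl fun B _ => ?_
    unfold cn
    rw [Finset.card_filter]
  rw [h1]
  unfold cn
  symm
  refine Finset.card_bij' (fun p _ => p.2 ∪ p.1) (fun C _ => (C ∩ E, C ∩ L)) ?_ ?_ ?_ ?_
  · rintro ⟨B, A⟩ hp
    simp only [Finset.mem_filter, Finset.mem_product, Finset.mem_powerset] at hp ⊢
    refine ⟨Finset.union_subset_union hp.1.2 hp.1.1, ?_⟩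
    rw [Finset.sum_union (Finset.disjoint_of_subset_left hp.1.2
      (Finset.disjoint_of_subset_right hp.1.1 hd)), hp.2]
    ring
  · intro C hC
    simp only [Finset.mem_filter, Finset.mem_product, Finset.mem_powerset] at hC ⊢
    refine ⟨⟨Finset.inter_subset_right, Finset.inter_subset_right⟩, ?_⟩
    have h2 : C = (C ∩ L) ∪ (C ∩ E) := by
      rw [← Finset.inter_union_distrib_left, Finset.inter_eq_left.2 hC.1]
    have h3 : ∑ i ∈ C, x i = ∑ i ∈ C ∩ L, x i + ∑ i ∈ C ∩ E, x i := by
      rw [← Finset.sum_union (Finset.disjoint_of_subset_left Finset.inter_subset_right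
        (Finset.disjoint_of_subset_right Finset.inter_subset_right hd)), ← h2]
    rw [← hC.2, h3]
    ring
  · rintro ⟨B, A⟩ hp
    simp only [Finset.mem_filter, Finset.mem_product, Finset.mem_powerset] at hp
    rw [Prod.mk.injEq]
    constructor
    · rw [Finset.union_inter_distrib_right, Finset.inter_eq_left.2 hp.1.1,
        Finset.disjoint_iff_inter_eq_empty.1 (Finset.disjoint_of_subset_left hp.1.2 hd),
        Finset.empty_union]
    · rw [Finset.union_inter_distrib_right, Finset.inter_eq_left.2 hp.1.2,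
        Finset.disjoint_iff_inter_eq_empty.1 (Finset.disjoint_of_subset_left hp.1.1 hd.symm),
        Finset.union_empty]
  · intro C hC
    simp only [Finset.mem_filter, Finset.mem_powerset] at hC
    rw [← Finset.inter_union_distrib_left, Finset.inter_eq_left.2 hC.1]

/-- PROOF: split a subset of `L ∪ E` into its two parts (compare
`Pool.Agent.Helper14.ZeroSum.sum_powerset_union`). -/
theorem F2_union {ι : Type*} [DecidableEq ι] (x : ι → ℝ) (L E : Finset ι) (hd : Disjoint L E)
    (s : ℝ) : pn x (L ∪ E) s = (∑ B ∈ E.powerset, pn x L (s - ∑ i ∈ B, x i)) / 2 ^ E.card := by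
  unfold pn
  rw [F2_cn_union x L E hd s, Finset.card_union_of_disjoint hd, Nat.cast_sum, ← Finset.sum_div,
    div_div, pow_add]

/-- PROOF: `F2_union` and the average of numbers at most `A` is at most `A`. -/
theorem F2_le {ι : Type*} [DecidableEq ι] (x : ι → ℝ) (L E : Finset ι) (hd : Disjoint L E)
    (A s : ℝ) (hA : ∀ s, pn x L s ≤ A) : pn x (L ∪ E) s ≤ A := by
  rw [F2_union x L E hd s, div_le_iff₀ (by positivity)]
  refine (Finset.sum_le_card_nsmul _ _ A fun B _ => hA _).trans ?_
  rw [Finset.card_powerset, nsmul_eq_mul, mul_comm]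
  push_cast
  exact le_refl _

/-- PROOF: multiply the equation `∑ = 0` by the nonzero constant. -/
theorem F2_scale {ι : Type*} (x y : ι → ℝ) (I : Finset ι) (g : ℝ) (hg : g ≠ 0)
    (h : ∀ j ∈ I, y j = g * x j) : pn y I 0 = pn x I 0 := by
  have h1 : cn y I 0 = cn x I 0 := by
    unfold cn
    congr 1
    ext B
    simp only [Finset.mem_filter, Finset.mem_powerset, and_congr_right_iff]
    intro hB
    have h2 : ∑ i ∈ B, y i = g * ∑ i ∈ B, x i := by
      rw [Finset.mul_sum]
      exact Finset.sum_congr rfl fun i hi => h i (hB hi)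
    rw [h2, mul_eq_zero, or_iff_right hg]
  unfold pn
  rw [h1]

/-- PROOF: immediate. -/
theorem F2_nonneg {ι : Type*} (x : ι → ℝ) (I : Finset ι) (s : ℝ) : 0 ≤ pn x I s ∧ pn x I s ≤ 1 := by
  unfold pn
  refine ⟨by positivity, ?_⟩
  rw [div_le_one (by positivity)]
  have h1 : cn x I s ≤ 2 ^ I.card := by
    unfold cn
    rw [← Finset.card_powerset]
    exact Finset.card_filter_le _ _
  exact_mod_cast h1

/-- PROOF: a subset of `I ∪ O` splits into a subset of `I` and an arbitrary subset of `O`. -/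
theorem F2_zeros {ι : Type*} [DecidableEq ι] (x : ι → ℝ) (I O : Finset ι) (hd : Disjoint I O)
    (h : ∀ j ∈ O, x j = 0) (s : ℝ) : pn x (I ∪ O) s = pn x I s := by
  rw [F2_union x I O hd s]
  have h1 : ∑ B ∈ O.powerset, pn x I (s - ∑ i ∈ B, x i) = ∑ B ∈ O.powerset, pn x I s := by
    refine Finset.sum_congr rfl fun B hB => ?_
    rw [Finset.mem_powerset] at hB
    rw [Finset.sum_eq_zero fun i hi => h i (hB hi), sub_zero]
  rw [h1, Finset.sum_const, Finset.card_powerset, nsmul_eq_mul, mul_comm]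
  push_cast
  exact mul_div_cancel_right₀ _ (by positivity)

/-- PROOF: unfold; `Nat.card` of the subtype is the card of the filter over `univ.powerset`. -/
theorem F2_ZZ (n : ℕ) (x : Fin n → ℝ) : (ZZ n x : ℝ) = 2 ^ n * pn x Finset.univ 0 := by
  classical
  have h1 : ZZ n x = cn x Finset.univ 0 := by
    unfold ZZ cn
    rw [Nat.card_eq_fintype_card, Fintype.card_subtype, Finset.powerset_univ]
  unfold pn
  rw [h1, Finset.card_univ, Fintype.card_fin]
  field_simp

end H31Z
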