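import Pool.Agent.Lib.H31Z.F2

/-!
Chunk H1: heavy entries.
-/

namespace H31Z

open Finset

theorem H1_pair {ι : Type*} [DecidableEq ι] (x : ι → ℝ) (L E : Finset ι) (hd : Disjoint L E)
    (C : ℝ) (e : ι) (he : e ∈ E) (hp : ∀ s, pn x L s + pn x L (s - x e) ≤ C) :
    pn x (L ∪ E) 0 ≤ C / 2 := by
  have hE : E = insert e (E.erase e) := (Finset.insert_erase he).symm
  have hcard : E.card = (E.erase e).card + 1 := (Finset.card_erase_add_one he).symm
  rw [F2_union x L E hd 0, hcard]
  have h1 : ∑ B ∈ E.powerset, pn x L (0 - ∑ i ∈ B, x i) ≤ ∑ B ∈ (E.erase e).powerset, C := by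
    conv_lhs => rw [hE]
    rw [Finset.sum_powerset_insert (Finset.notMem_erase e E), ← Finset.sum_add_distrib]
    refine Finset.sum_le_sum fun B hB => ?_
    have heB : e ∉ B := fun h => Finset.notMem_erase e E (Finset.mem_powerset.1 hB h)
    rw [Finset.sum_insert heB]
    have h2 := hp (0 - ∑ i ∈ B, x i)
    have h3 : 0 - ∑ i ∈ B, x i - x e = 0 - (x e + ∑ i ∈ B, x i) := by ring
    rwa [h3] at h2
  rw [Finset.sum_const, Finset.card_powerset, nsmul_eq_mul] at h1
  push_cast at h1
  rw [div_le_iff₀ (by positivity), pow_succ]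
  linarith

/-- PROOF. By `F2_union` (with `E = insert e E'`) `pn x (L ∪ E) 0` is the average over
`B ⊆ E.erase e` of `(1/2) (pn x L s1 + pn x L s2)`, `s1 = -∑_B x`, `s2 = s1 - x e`. Since
`|s1 - s2| = |x e| > 2R`, at least one of `s1, s2` is at distance more than `R` from `M`, so the sum
of the two is at most `A + B'`. -/
theorem H1_heavy {ι : Type*} [DecidableEq ι] (x : ι → ℝ) (L E : Finset ι) (hd : Disjoint L E)
    (A B' R M : ℝ) (hA : ∀ s, pn x L s ≤ A) (hB : ∀ s, R < |s - M| → pn x L s ≤ B')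
    (e : ι) (he : e ∈ E) (hx : 2 * R < |x e|) : pn x (L ∪ E) 0 ≤ (A + B') / 2 := by
  refine H1_pair x L E hd (A + B') e he fun s => ?_
  by_cases h1 : R < |s - M|
  · linarith [hB s h1, hA (s - x e)]
  · by_cases h2 : R < |s - x e - M|
    · linarith [hB _ h2, hA s]
    · exfalso
      rw [not_lt] at h1 h2
      have h3 : |x e| ≤ |s - M| + |s - x e - M| := by
        have h4 : x e = (s - M) - (s - x e - M) := by ring
        calc |x e| = |(s - M) - (s - x e - M)| := by rw [← h4]
          _ ≤ |s - M| + |s - x e - M| := abs_sub _ _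
      linarith

/-- PROOF. The same pairing: `s1` and `s2 = s1 - x e` are not both integers, and all subset sums of
`L` are integers (`F2_zero`). -/
theorem H1_nonint {ι : Type*} [DecidableEq ι] (x : ι → ℝ) (w : ι → ℤ) (L E : Finset ι)
    (hd : Disjoint L E) (hw : ∀ j ∈ L, x j = (w j : ℝ)) (A : ℝ) (hA : ∀ s, pn x L s ≤ A)
    (e : ι) (he : e ∈ E) (hx : ∀ k : ℤ, x e ≠ k) : pn x (L ∪ E) 0 ≤ A / 2 := by
  refine H1_pair x L E hd A e he fun s => ?_
  by_cases h1 : ∃ k : ℤ, s = k
  · obtain ⟨k, hk⟩ := h1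
    have h2 : pn x L (s - x e) = 0 := by
      apply F2_zero x w L hw
      intro l hl
      apply hx (k - l)
      rw [hk] at hl
      push_cast
      linarith
    linarith [hA s]
  · push Not at h1
    linarith [F2_zero x w L hw s h1, hA (s - x e)]

/-- PROOF. `F2_union`: the terms with `|-∑_B x - M| ≤ R` are at most `A`, the others at most `B'`;
`|-∑_B x - M| = |∑_B x - (-M)|`. -/
theorem H1_split {ι : Type*} [DecidableEq ι] (x : ι → ℝ) (L E : Finset ι) (hd : Disjoint L E)
    (A B' R M : ℝ) (hA : ∀ s, pn x L s ≤ A) (hB : ∀ s, R < |s - M| → pn x L s ≤ B') (hA0 : 0 ≤ A)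
    (hB0 : 0 ≤ B') : pn x (L ∪ E) 0 ≤ pw x E (-M) R * A + B' := by
  classical
  rw [F2_union x L E hd 0]
  unfold pw
  have h1 : ∑ B ∈ E.powerset, pn x L (0 - ∑ i ∈ B, x i) ≤
      ∑ B ∈ E.powerset, ((if |∑ i ∈ B, x i - -M| ≤ R then A else 0) + B') := by
    refine Finset.sum_le_sum fun B _ => ?_
    split_ifs with h
    · linarith [hA (0 - ∑ i ∈ B, x i)]
    · rw [zero_add]
      apply hB
      rw [not_le] at h
      have h2 : |0 - ∑ i ∈ B, x i - M| = |∑ i ∈ B, x i - -M| := by
        rw [← abs_neg]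
        congr 1
        ring
      rw [h2]
      exact h
  rw [Finset.sum_add_distrib, ← Finset.sum_filter, Finset.sum_const, Finset.sum_const, Finset.card_powerset,
    nsmul_eq_mul, nsmul_eq_mul] at h1
  push_cast at h1
  rw [div_le_iff₀ (by positivity), add_mul, mul_comm (_ / _) A, mul_assoc, div_mul_cancel₀ _ (by positivity)]
  have h3 : A * (↑((E.powerset.filter (fun B => |∑ i ∈ B, x i - -M| ≤ R)).card) : ℝ) =
      (↑((E.powerset.filter (fun B => |∑ i ∈ B, x i - -M| ≤ R)).card) : ℝ) * A := mul_comm _ _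
  rw [h3, mul_comm B']
  convert h1 using 3

end H31Z
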