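import Pool.Agent.Lib.H31Z.Defs

/-!
Chunk G1: Gaussian integrals (pure Mathlib).
-/

namespace H31Z

open MeasureTheory

/-- Gaussian integral with a cosine. PROOF: Mathlib computes the Fourier transform of the Gaussian:
for example `integral_cexp_neg_mul_sq_add_real_mul_I` or `fourierIntegral_gaussian`
(`∫ exp (I t x) exp (-b x^2) dx = (π/b)^(1/2) exp (-t^2/(4b))`); take real parts. Integrability:
bounded continuous times `integrable_exp_neg_mul_sq`. -/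
theorem G1_cos (b l : ℝ) (hb : 0 < b) :
    Integrable (fun t : ℝ => Real.exp (-b * t ^ 2) * Real.cos (l * t)) ∧
    ∫ t : ℝ, Real.exp (-b * t ^ 2) * Real.cos (l * t) =
      Real.sqrt (Real.pi / b) * Real.exp (-l ^ 2 / (4 * b)) := by
  have hb' : 0 < ((b : ℂ)).re := by simpa using hb
  have hint : Integrable (fun t : ℝ => Complex.exp (Complex.I * (l : ℂ) * (t : ℂ)) *
      Complex.exp (-(b : ℂ) * (t : ℂ) ^ 2)) := by
    refine (integrable_cexp_quadratic hb' (Complex.I * (l : ℂ)) 0).congr ?_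
    filter_upwards with t
    rw [← Complex.exp_add, add_zero, add_comm]
  have hre : ∀ t : ℝ, (Complex.exp (Complex.I * (l : ℂ) * (t : ℂ)) *
      Complex.exp (-(b : ℂ) * (t : ℂ) ^ 2)).re = Real.exp (-b * t ^ 2) * Real.cos (l * t) := by
    intro t
    have e1 : Complex.I * (l : ℂ) * (t : ℂ) + -(b : ℂ) * (t : ℂ) ^ 2 =
        ((-b * t ^ 2 : ℝ) : ℂ) + ((l * t : ℝ) : ℂ) * Complex.I := by
      push_cast
      ring
    rw [← Complex.exp_add, e1, Complex.exp_re, Complex.add_re, Complex.add_im, Complex.ofReal_re,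
      Complex.ofReal_im, Complex.re_ofReal_mul, Complex.im_ofReal_mul, Complex.I_re, Complex.I_im,
      mul_zero, add_zero, mul_one, zero_add]
  refine ⟨hint.re.congr (Filter.Eventually.of_forall hre), ?_⟩
  have h1 := fourierIntegral_gaussian hb' (l : ℂ)
  have h2 := congrArg Complex.re h1
  have h3 : (∫ t : ℝ, Complex.exp (Complex.I * (l : ℂ) * (t : ℂ)) *
      Complex.exp (-(b : ℂ) * (t : ℂ) ^ 2)).re =
      ∫ t : ℝ, (Complex.exp (Complex.I * (l : ℂ) * (t : ℂ)) *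
      Complex.exp (-(b : ℂ) * (t : ℂ) ^ 2)).re := (integral_re hint).symm
  rw [h3] at h2
  simp only [hre] at h2
  rw [h2]
  have e2 : ((Real.pi : ℂ) / (b : ℂ)) ^ (1 / 2 : ℂ) = ((Real.sqrt (Real.pi / b) : ℝ) : ℂ) := by
    rw [Real.sqrt_eq_rpow, Complex.ofReal_cpow (by positivity)]
    push_cast
    rfl
  have e3 : Complex.exp (-(l : ℂ) ^ 2 / (4 * (b : ℂ))) = ((Real.exp (-l ^ 2 / (4 * b)) : ℝ) : ℂ) := by
    push_cast
    rfl
  rw [e2, e3, ← Complex.ofReal_mul, Complex.ofReal_re]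

/-- PROOF: on the set `T ≤ |t|` one has `exp (-b t^2) ≤ exp (-b T^2/2) exp (-(b/2) t^2)`; integrate
over all reals (`integral_gaussian (b/2)`: value `sqrt (π/(b/2))`). -/
theorem G1_tail (b T : ℝ) (hb : 0 < b) (hT : 0 ≤ T) :
    ∫ t in {t : ℝ | T ≤ |t|}, Real.exp (-b * t ^ 2) ≤
      Real.exp (-b * T ^ 2 / 2) * Real.sqrt (2 * Real.pi / b) := by
  have hm : MeasurableSet {t : ℝ | T ≤ |t|} := measurableSet_le measurable_const continuous_abs.measurable
  have hb2 : 0 < b / 2 := by positivity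
  have hi := (integrable_exp_neg_mul_sq hb2).const_mul (Real.exp (-b * T ^ 2 / 2))
  calc ∫ t in {t : ℝ | T ≤ |t|}, Real.exp (-b * t ^ 2)
      ≤ ∫ t in {t : ℝ | T ≤ |t|}, Real.exp (-b * T ^ 2 / 2) * Real.exp (-(b / 2) * t ^ 2) := by
        refine setIntegral_mono_on (integrable_exp_neg_mul_sq hb).integrableOn hi.integrableOn hm ?_
        intro t ht
        rw [← Real.exp_add]
        apply Real.exp_le_exp.2
        have ht' : T ≤ |t| := ht
        have h1 : T ^ 2 ≤ t ^ 2 := by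
          rw [← sq_abs t]
          exact pow_le_pow_left₀ hT ht' 2
        nlinarith
    _ ≤ ∫ t : ℝ, Real.exp (-b * T ^ 2 / 2) * Real.exp (-(b / 2) * t ^ 2) := by
        refine setIntegral_le_integral hi ?_
        filter_upwards with t
        simp only [Pi.zero_apply]
        positivity
    _ = _ := by
        rw [integral_const_mul, integral_gaussian]
        congr 2
        field_simp

/-- PROOF: `t^2 ≤ (2/b) exp (b t^2/2)` (as `x ≤ exp x`), so the integrand is at most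
`(2/b) exp (-(b/2) t^2)`; apply `G1_tail` with `b/2`. -/
theorem G1_tail2 (b T : ℝ) (hb : 0 < b) (hT : 0 ≤ T) :
    ∫ t in {t : ℝ | T ≤ |t|}, t ^ 2 * Real.exp (-b * t ^ 2) ≤
      2 / b * (Real.exp (-b * T ^ 2 / 4) * Real.sqrt (4 * Real.pi / b)) := by
  have hm : MeasurableSet {t : ℝ | T ≤ |t|} := measurableSet_le measurable_const continuous_abs.measurable
  have hb2 : 0 < b / 2 := by positivity
  have h0 : Integrable (fun t : ℝ => t ^ 2 * Real.exp (-b * t ^ 2)) := by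
    have h := integrable_rpow_mul_exp_neg_mul_sq hb (s := 2) (by norm_num)
    simpa using h
  have hi := (integrable_exp_neg_mul_sq hb2).const_mul (2 / b)
  have h1 := G1_tail (b / 2) T hb2 hT
  have e1 : 2 * Real.pi / (b / 2) = 4 * Real.pi / b := by
    field_simp
    norm_num
  have e2 : -(b / 2) * T ^ 2 / 2 = -b * T ^ 2 / 4 := by ring
  rw [e1, e2] at h1
  calc ∫ t in {t : ℝ | T ≤ |t|}, t ^ 2 * Real.exp (-b * t ^ 2)
      ≤ ∫ t in {t : ℝ | T ≤ |t|}, 2 / b * Real.exp (-(b / 2) * t ^ 2) := by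
        refine setIntegral_mono_on h0.integrableOn hi.integrableOn hm ?_
        intro t _
        have h2 : b / 2 * t ^ 2 ≤ Real.exp (b / 2 * t ^ 2) := by
          have := Real.add_one_le_exp (b / 2 * t ^ 2)
          linarith
        have h3 : Real.exp (-(b / 2) * t ^ 2) = Real.exp (b / 2 * t ^ 2) * Real.exp (-b * t ^ 2) := by
          rw [← Real.exp_add]
          congr 1
          ring
        rw [h3, ← mul_assoc]
        refine mul_le_mul_of_nonneg_right ?_ (Real.exp_pos _).le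
        have h4 : t ^ 2 = 2 / b * (b / 2 * t ^ 2) := by
          field_simp
        calc t ^ 2 = 2 / b * (b / 2 * t ^ 2) := h4
          _ ≤ 2 / b * Real.exp (b / 2 * t ^ 2) := mul_le_mul_of_nonneg_left h2 (by positivity)
    _ = 2 / b * ∫ t in {t : ℝ | T ≤ |t|}, Real.exp (-(b / 2) * t ^ 2) := by
        rw [integral_const_mul]
    _ ≤ _ := mul_le_mul_of_nonneg_left h1 (by positivity)

theorem G1_rpow (b : ℝ) (hb : 0 < b) (n : ℕ) : b ^ (-(n : ℝ) / 2) = ((Real.sqrt b) ^ n)⁻¹ := by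
  rw [Real.sqrt_eq_rpow, ← Real.rpow_natCast, ← Real.rpow_mul hb.le, ← Real.rpow_neg hb.le]
  congr 1
  ring

theorem G1_even (k : ℕ) (b : ℝ) (hb : 0 < b) :
    Integrable (fun t : ℝ => t ^ (2 * k) * Real.exp (-b * t ^ 2)) ∧
    ∫ t : ℝ, t ^ (2 * k) * Real.exp (-b * t ^ 2) =
      ((Real.sqrt b) ^ (2 * k + 1))⁻¹ * Real.Gamma ((2 * k + 1) / 2) := by
  constructor
  · have h := integrable_rpow_mul_exp_neg_mul_sq hb (s := ((2 * k : ℕ) : ℝ))
      (lt_of_lt_of_le (by norm_num) (Nat.cast_nonneg _))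
    simp only [Real.rpow_natCast] at h
    exact h
  · have h1 := integral_comp_abs (f := fun x : ℝ => x ^ (2 * k) * Real.exp (-b * x ^ 2))
    have h2 : ∀ x : ℝ, |x| ^ (2 * k) * Real.exp (-b * |x| ^ 2) =
        x ^ (2 * k) * Real.exp (-b * x ^ 2) := by
      intro x
      rw [pow_mul, pow_mul, sq_abs]
    simp only [h2] at h1
    rw [h1]
    have h3 := integral_rpow_mul_exp_neg_mul_rpow (p := 2) (q := ((2 * k : ℕ) : ℝ)) (b := b)
      (by norm_num) (lt_of_lt_of_le (by norm_num) (Nat.cast_nonneg _)) hb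
    simp only [Real.rpow_natCast, Real.rpow_two] at h3
    rw [h3]
    have h4 := G1_rpow b hb (2 * k + 1)
    push_cast at h4 ⊢
    rw [h4]
    ring

theorem G1_half : Real.Gamma (3 / 2) = Real.sqrt Real.pi / 2 := by
  have h := Real.Gamma_add_one (s := 1 / 2) (by norm_num)
  rw [Real.Gamma_one_half_eq, show (1 / 2 : ℝ) + 1 = 3 / 2 by norm_num] at h
  rw [h]
  ring

theorem G1_half5 : Real.Gamma (5 / 2) = 3 * Real.sqrt Real.pi / 4 := by
  have h := Real.Gamma_add_one (s := 3 / 2) (by norm_num)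
  rw [G1_half, show (3 / 2 : ℝ) + 1 = 5 / 2 by norm_num] at h
  rw [h]
  ring

theorem G1_half7 : Real.Gamma (7 / 2) = 15 * Real.sqrt Real.pi / 8 := by
  have h := Real.Gamma_add_one (s := 5 / 2) (by norm_num)
  rw [G1_half5, show (5 / 2 : ℝ) + 1 = 7 / 2 by norm_num] at h
  rw [h]
  ring

/-- PROOF: the integrand is even; on `Ioi 0` use `integral_rpow_mul_exp_neg_mul_rpow` (value
`b^(-(q+1)/p) (1/p) Γ((q+1)/p)`, `p = 2`, `q = 2`), `Γ(3/2) = sqrt π / 2`. Or integrate by parts. -/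
theorem G1_two (b : ℝ) (hb : 0 < b) :
    Integrable (fun t : ℝ => t ^ 2 * Real.exp (-b * t ^ 2)) ∧
    ∫ t : ℝ, t ^ 2 * Real.exp (-b * t ^ 2) = Real.sqrt (Real.pi / b) / (2 * b) := by
  obtain ⟨h1, h2⟩ := G1_even 1 b hb
  refine ⟨h1, ?_⟩
  have h3 : (∫ t : ℝ, t ^ 2 * Real.exp (-b * t ^ 2)) = ∫ t : ℝ, t ^ (2 * 1) * Real.exp (-b * t ^ 2) :=
    rfl
  have hs : 0 < Real.sqrt b := Real.sqrt_pos.2 hb
  have hb2 : b = Real.sqrt b ^ 2 := (Real.sq_sqrt hb.le).symm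
  rw [h3, h2, Nat.cast_one, show ((2 : ℝ) * 1 + 1) / 2 = 3 / 2 by norm_num, G1_half,
    Real.sqrt_div Real.pi_pos.le]
  conv_rhs => rw [show (2 : ℝ) * b = 2 * Real.sqrt b ^ 2 by rw [← hb2]]
  field_simp

/-- PROOF: as `G1_two`, `Γ(5/2) = 3 sqrt π / 4`. -/
theorem G1_four (b : ℝ) (hb : 0 < b) :
    Integrable (fun t : ℝ => t ^ 4 * Real.exp (-b * t ^ 2)) ∧
    ∫ t : ℝ, t ^ 4 * Real.exp (-b * t ^ 2) = 3 * Real.sqrt (Real.pi / b) / (4 * b ^ 2) := by
  obtain ⟨h1, h2⟩ := G1_even 2 b hb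
  refine ⟨h1, ?_⟩
  have h3 : (∫ t : ℝ, t ^ 4 * Real.exp (-b * t ^ 2)) = ∫ t : ℝ, t ^ (2 * 2) * Real.exp (-b * t ^ 2) :=
    rfl
  have hs : 0 < Real.sqrt b := Real.sqrt_pos.2 hb
  have hb2 : b = Real.sqrt b ^ 2 := (Real.sq_sqrt hb.le).symm
  rw [h3, h2, Nat.cast_ofNat, show ((2 : ℝ) * 2 + 1) / 2 = 5 / 2 by norm_num, G1_half5,
    Real.sqrt_div Real.pi_pos.le]
  conv_rhs => rw [show (4 : ℝ) * b ^ 2 = 4 * Real.sqrt b ^ 4 by
    rw [show Real.sqrt b ^ 4 = (Real.sqrt b ^ 2) ^ 2 by ring, ← hb2]]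
  field_simp

/-- PROOF: as `G1_two`, `Γ(7/2) = 15 sqrt π / 8`. -/
theorem G1_six (b : ℝ) (hb : 0 < b) :
    Integrable (fun t : ℝ => t ^ 6 * Real.exp (-b * t ^ 2)) ∧
    ∫ t : ℝ, t ^ 6 * Real.exp (-b * t ^ 2) = 15 * Real.sqrt (Real.pi / b) / (8 * b ^ 3) := by
  obtain ⟨h1, h2⟩ := G1_even 3 b hb
  refine ⟨h1, ?_⟩
  have h3 : (∫ t : ℝ, t ^ 6 * Real.exp (-b * t ^ 2)) = ∫ t : ℝ, t ^ (2 * 3) * Real.exp (-b * t ^ 2) :=
    rfl
  have hs : 0 < Real.sqrt b := Real.sqrt_pos.2 hb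
  have hb2 : b = Real.sqrt b ^ 2 := (Real.sq_sqrt hb.le).symm
  rw [h3, h2, Nat.cast_ofNat, show ((2 : ℝ) * 3 + 1) / 2 = 7 / 2 by norm_num, G1_half7,
    Real.sqrt_div Real.pi_pos.le]
  conv_rhs => rw [show (8 : ℝ) * b ^ 3 = 8 * Real.sqrt b ^ 6 by
    rw [show Real.sqrt b ^ 6 = (Real.sqrt b ^ 2) ^ 3 by ring, ← hb2]]
  field_simp

end H31Z
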