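import Pool.Agent.Lib.H31Z.T1
import Pool.Agent.Lib.H31Z.G1

/-!
Chunk H2: Esseen inequality, counting version.
-/

namespace H31Z

open Finset

theorem H2_K0 (v : ℝ) : 0 ≤ ∫ u in (0 : ℝ)..1, (1 - u) * Real.cos (u * v) := by
  rcases eq_or_ne v 0 with rfl | hv
  · refine intervalIntegral.integral_nonneg zero_le_one fun u hu => ?_
    rw [mul_zero, Real.cos_zero, mul_one]
    linarith [hu.2]
  · have h1 : ∀ u ∈ Set.uIcc (0 : ℝ) 1, HasDerivAt
        (fun u : ℝ => (1 - u) * (Real.sin (u * v) / v) - Real.cos (u * v) / v ^ 2)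
        ((1 - u) * Real.cos (u * v)) u := by
      intro u _
      have hm : HasDerivAt (fun u : ℝ => u * v) v u := by
        simpa using (hasDerivAt_id u).mul_const v
      have h2 : HasDerivAt (fun u : ℝ => 1 - u) (-1) u := by
        simpa using (hasDerivAt_id u).const_sub 1
      have h3 := (hm.sin).div_const v
      have h4 := (hm.cos).div_const (v ^ 2)
      have h5 := (h2.mul h3).sub h4
      refine h5.congr_deriv ?_
      field_simp
      ring
    rw [intervalIntegral.integral_eq_sub_of_hasDerivAt h1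
      ((by fun_prop : Continuous fun u : ℝ => (1 - u) * Real.cos (u * v)).intervalIntegrable _ _)]
    have h6 : Real.cos v ≤ 1 := Real.cos_le_one v
    have h7 : 0 < v ^ 2 := by positivity
    simp only [sub_self, zero_mul, one_mul, Real.sin_zero, Real.cos_zero, zero_div, sub_zero,
      mul_zero, zero_sub]
    have h8 : Real.cos v / v ^ 2 ≤ 1 / v ^ 2 := div_le_div_of_nonneg_right h6 h7.le
    linarith

theorem H2_K1 {v : ℝ} (hv : |v| ≤ 1) : 11 / 24 ≤ ∫ u in (0 : ℝ)..1, (1 - u) * Real.cos (u * v) := by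
  have h1 : ∀ u ∈ Set.uIcc (0 : ℝ) 1, HasDerivAt
      (fun u : ℝ => u - u ^ 2 / 2 - u ^ 3 / 6 + u ^ 4 / 8)
      ((1 - u) * (1 - u ^ 2 / 2)) u := by
    intro u _
    have h2 := (((hasDerivAt_id u).sub ((hasDerivAt_pow 2 u).div_const 2)).sub
      ((hasDerivAt_pow 3 u).div_const 6)).add ((hasDerivAt_pow 4 u).div_const 8)
    refine h2.congr_deriv ?_
    push_cast
    ring
  have h2 : ∫ u in (0 : ℝ)..1, (1 - u) * (1 - u ^ 2 / 2) = 11 / 24 := by
    rw [intervalIntegral.integral_eq_sub_of_hasDerivAt h1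
      ((by fun_prop : Continuous fun u : ℝ => (1 - u) * (1 - u ^ 2 / 2)).intervalIntegrable _ _)]
    norm_num
  rw [← h2]
  refine intervalIntegral.integral_mono_on zero_le_one
    ((by fun_prop : Continuous fun u : ℝ => (1 - u) * (1 - u ^ 2 / 2)).intervalIntegrable _ _)
    ((by fun_prop : Continuous fun u : ℝ => (1 - u) * Real.cos (u * v)).intervalIntegrable _ _) ?_
  intro u hu
  refine mul_le_mul_of_nonneg_left ?_ (by linarith [hu.2])
  have h3 := Real.one_sub_sq_div_two_le_cos (x := u * v)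
  have h4 : v ^ 2 ≤ 1 := by
    have := abs_le.1 hv
    nlinarith
  have h5 : (u * v) ^ 2 ≤ u ^ 2 := by
    rw [mul_pow]
    nlinarith [sq_nonneg u]
  linarith

/-- product formula -/
theorem H2_prod {ι : Type*} (E : Finset ι) (y : ι → ℝ) (φ : ℝ) :
    ∑ B ∈ E.powerset, Real.cos (∑ i ∈ B, y i - φ) =
      2 ^ E.card * (∏ i ∈ E, Real.cos (y i / 2)) * Real.cos ((∑ i ∈ E, y i) / 2 - φ) := by
  classical
  induction E using Finset.induction_on generalizing φ with
  | empty => simp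
  | insert a S ha ih =>
    rw [Finset.sum_powerset_insert ha, ih, Finset.card_insert_of_notMem ha, Finset.prod_insert ha,
      Finset.sum_insert ha]
    have e1 : ∑ B ∈ S.powerset, Real.cos (∑ i ∈ insert a B, y i - φ) =
        ∑ B ∈ S.powerset, Real.cos (∑ i ∈ B, y i - (φ - y a)) := by
      refine Finset.sum_congr rfl fun B hB => ?_
      rw [Finset.sum_insert fun h => ha (Finset.mem_powerset.1 hB h)]
      congr 1
      ring
    rw [e1, ih]
    have e2 : Real.cos ((∑ i ∈ S, y i) / 2 - φ) + Real.cos ((∑ i ∈ S, y i) / 2 - (φ - y a)) =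
        2 * Real.cos (y a / 2) * Real.cos ((y a + ∑ i ∈ S, y i) / 2 - φ) := by
      have e3 : (∑ i ∈ S, y i) / 2 - φ = ((y a + ∑ i ∈ S, y i) / 2 - φ) - y a / 2 := by ring
      have e4 : (∑ i ∈ S, y i) / 2 - (φ - y a) = ((y a + ∑ i ∈ S, y i) / 2 - φ) + y a / 2 := by ring
      rw [e3, e4, Real.cos_sub, Real.cos_add]
      ring
    calc _ = 2 ^ S.card * (∏ i ∈ S, Real.cos (y i / 2)) *
          (Real.cos ((∑ i ∈ S, y i) / 2 - φ) + Real.cos ((∑ i ∈ S, y i) / 2 - (φ - y a))) := by ring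
      _ = _ := by rw [e2]; ring

/-- the average of the cosines -/
theorem H2_avg {ι : Type*} (E : Finset ι) (x : ι → ℝ) (R s u : ℝ) (hR : 0 < R)
    (hx : ∀ e ∈ E, |x e| ≤ 2 * R) (hu : |u| ≤ 1) :
    ∑ B ∈ E.powerset, Real.cos (u * ((∑ i ∈ B, x i - s) / R)) ≤
      2 ^ E.card * Real.exp (-((∑ e ∈ E, x e ^ 2) / (8 * R ^ 2)) * u ^ 2) := by
  have e1 : ∀ B : Finset ι, u * ((∑ i ∈ B, x i - s) / R) =
      ∑ i ∈ B, (u / R * x i) - u / R * s := by
    intro B
    rw [← Finset.mul_sum]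
    ring
  simp only [e1]
  rw [H2_prod, mul_assoc]
  refine mul_le_mul_of_nonneg_left ?_ (by positivity)
  refine (le_abs_self _).trans ?_
  rw [abs_mul, Finset.abs_prod]
  refine (mul_le_of_le_one_right (Finset.prod_nonneg fun _ _ => abs_nonneg _)
    (Real.abs_cos_le_one _)).trans ?_
  have h1 : ∀ i ∈ E, |Real.cos (u / R * x i / 2)| ≤ Real.exp (-(u / R * x i / 2) ^ 2 / 2) := by
    intro i hi
    apply T1_cos_le
    have h2 : |u / R * x i / 2| = |u| * |x i| / (2 * R) := by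
      rw [abs_div, abs_mul, abs_div, abs_of_pos hR, abs_of_pos (by norm_num : (0 : ℝ) < 2)]
      field_simp
    have h3 : |u| * |x i| ≤ 1 * (2 * R) := mul_le_mul hu (hx i hi) (abs_nonneg _) zero_le_one
    have h4 : |u| * |x i| / (2 * R) ≤ 1 := by
      rw [div_le_one (by positivity)]
      linarith
    rw [h2]
    linarith [Real.pi_gt_three]
  refine (Finset.prod_le_prod (fun _ _ => abs_nonneg _) h1).trans (le_of_eq ?_)
  rw [← Real.exp_sum]
  congr 1
  rw [Finset.sum_div, ← Finset.sum_neg_distrib, Finset.sum_mul]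
  refine Finset.sum_congr rfl fun i _ => ?_
  field_simp
  ring

/-- PROOF. For real `v`: `∫_{-1}^{1} (1 - |u|) cos (u v) du = (sin (v/2)/(v/2))^2` (value `1` at
`v = 0`), which is `≥ 0` always and `≥ 9/10` for `|v| ≤ 1` (`sin a ≥ a - a^3/6`, `a = v/2`:
`(1 - 1/24)^2 ≥ 0.918`). With `v = (∑_B x - s)/R` and the average over `B ⊆ E`:
`(9/10) pw x E s R ≤ ∫_{-1}^{1} (1 - |u|) Re[avg_B exp (i u (∑_B x - s)/R)] du`
and `|avg_B exp (i t ∑_B x)| = ∏_{e ∈ E} |cos (t x_e/2)|`, `t = u/R`. For `|u| ≤ 1`: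
`|t x_e/2| ≤ 1 ≤ π/2`, so by `T1_cos_le` the product is at most `exp (-u^2 σ/(8R^2))`,
`σ = ∑_E x^2`. So `(9/10) pw ≤ ∫_ℝ exp (-σ u^2/(8R^2)) du = sqrt (8π) R/sqrt σ ≤ 5.02 R/sqrt σ`. -/
theorem H2_esseen {ι : Type*} (E : Finset ι) (x : ι → ℝ) (R s : ℝ) (hR : 0 < R)
    (hx : ∀ e ∈ E, |x e| ≤ 2 * R) (hσ : 0 < ∑ e ∈ E, x e ^ 2) :
    pw x E s R ≤ 6 * R / Real.sqrt (∑ e ∈ E, x e ^ 2) := by
  classical
  obtain ⟨σ, hσd⟩ : ∃ σ, σ = ∑ e ∈ E, x e ^ 2 := ⟨_, rfl⟩
  rw [← hσd] at hσ ⊢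
  have hσs : 0 < Real.sqrt σ := Real.sqrt_pos.2 hσ
  obtain ⟨b, hb⟩ : ∃ b, b = σ / (8 * R ^ 2) := ⟨_, rfl⟩
  have hb0 : 0 < b := by rw [hb]; positivity
  set D : Finset (Finset ι) := E.powerset.filter (fun B => |∑ i ∈ B, x i - s| ≤ R) with hD
  have h2 : (0 : ℝ) < 2 ^ E.card := by positivity
  have hcont : ∀ v : ℝ, Continuous fun u : ℝ => (1 - u) * Real.cos (u * v) := fun v => by fun_prop
  -- lower bound
  have h3 : (D.card : ℝ) * (11 / 24) ≤
      ∑ B ∈ E.powerset, ∫ u in (0 : ℝ)..1, (1 - u) * Real.cos (u * ((∑ i ∈ B, x i - s) / R)) := by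
    calc (D.card : ℝ) * (11 / 24) = ∑ B ∈ D, (11 / 24 : ℝ) := by
          rw [Finset.sum_const, nsmul_eq_mul]
      _ ≤ ∑ B ∈ D, ∫ u in (0 : ℝ)..1, (1 - u) * Real.cos (u * ((∑ i ∈ B, x i - s) / R)) := by
          refine Finset.sum_le_sum fun B hB => H2_K1 ?_
          rw [abs_div, abs_of_pos hR, div_le_one hR]
          exact (Finset.mem_filter.1 hB).2
      _ ≤ _ := Finset.sum_le_sum_of_subset_of_nonneg (Finset.filter_subset _ _)
          fun B _ _ => H2_K0 _
  -- upper bound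
  have h4 : ∑ B ∈ E.powerset, ∫ u in (0 : ℝ)..1, (1 - u) * Real.cos (u * ((∑ i ∈ B, x i - s) / R)) ≤
      2 ^ E.card * ∫ u in (0 : ℝ)..1, Real.exp (-b * u ^ 2) := by
    rw [← intervalIntegral.integral_finsetSum fun B _ => (hcont _).intervalIntegrable _ _,
      ← intervalIntegral.integral_const_mul]
    refine intervalIntegral.integral_mono_on zero_le_one
      ((continuous_finsetSum _ fun B _ => hcont _).intervalIntegrable _ _)
      ((by fun_prop : Continuous fun u : ℝ => 2 ^ E.card * Real.exp (-b * u ^ 2)).intervalIntegrable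
        _ _) ?_
    intro u hu
    rw [← Finset.mul_sum]
    have h5 := H2_avg E x R s u hR hx (abs_le.2 ⟨by linarith [hu.1], hu.2⟩)
    rw [← hσd, ← hb] at h5
    have h6 : (0 : ℝ) ≤ 2 ^ E.card * Real.exp (-b * u ^ 2) := by positivity
    calc (1 - u) * ∑ B ∈ E.powerset, Real.cos (u * ((∑ i ∈ B, x i - s) / R))
        ≤ (1 - u) * (2 ^ E.card * Real.exp (-b * u ^ 2)) :=
          mul_le_mul_of_nonneg_left h5 (by linarith [hu.2])
      _ ≤ 1 * (2 ^ E.card * Real.exp (-b * u ^ 2)) :=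
          mul_le_mul_of_nonneg_right (by linarith [hu.1]) h6
      _ = _ := one_mul _
  have h5 : ∫ u in (0 : ℝ)..1, Real.exp (-b * u ^ 2) ≤ Real.sqrt (Real.pi / b) / 2 := by
    rw [intervalIntegral.integral_of_le zero_le_one, ← integral_gaussian_Ioi b]
    refine MeasureTheory.setIntegral_mono_set (integrable_exp_neg_mul_sq hb0).integrableOn
      (Filter.Eventually.of_forall fun u => (Real.exp_pos _).le) ?_
    exact (Set.Ioc_subset_Ioi_self).eventuallyLE
  have h6 : Real.sqrt (Real.pi / b) = Real.sqrt (8 * Real.pi) * R / Real.sqrt σ := by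
    rw [eq_div_iff hσs.ne', ← Real.sqrt_mul (by positivity), hb]
    have e1 : Real.pi / (σ / (8 * R ^ 2)) * σ = 8 * Real.pi * R ^ 2 := by
      field_simp
    rw [e1, Real.sqrt_mul (by positivity), Real.sqrt_sq hR.le]
  have h7 : Real.sqrt (8 * Real.pi) ≤ 5.1 := by
    rw [Real.sqrt_le_left (by norm_num)]
    have := Real.pi_lt_d2
    norm_num at this ⊢
    linarith
  have h8 : (D.card : ℝ) / 2 ^ E.card * (11 / 24) ≤ Real.sqrt (8 * Real.pi) * R / Real.sqrt σ / 2 := by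
    rw [← h6, div_mul_eq_mul_div, div_le_iff₀ h2]
    calc _ ≤ _ := h3.trans h4
      _ ≤ 2 ^ E.card * (Real.sqrt (Real.pi / b) / 2) := mul_le_mul_of_nonneg_left h5 h2.le
      _ = _ := mul_comm _ _
  have h9 : pw x E s R = (D.card : ℝ) / 2 ^ E.card := by
    unfold pw
    rw [hD]
  rw [h9]
  have h10 : 0 < R / Real.sqrt σ := by positivity
  have h11 : Real.sqrt (8 * Real.pi) * R / Real.sqrt σ ≤ 5.1 * (R / Real.sqrt σ) := by
    rw [mul_div_assoc]
    exact mul_le_mul_of_nonneg_right h7 h10.le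
  have h12 : 6 * R / Real.sqrt σ = 6 * (R / Real.sqrt σ) := by ring
  rw [h12]
  norm_num at h11 h8 ⊢
  linarith

end H31Z
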