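import Pool.Agent.Lib.H31Z.Defs

/-!
Chunk F1: Fourier inversion for integer subset sums.
-/

namespace H31Z

open MeasureTheory intervalIntegral

theorem F1_one (φ : ℝ) : (1 : ℂ) + Complex.exp ((φ : ℂ) * Complex.I) =
    ((2 * Real.cos (φ / 2) : ℝ) : ℂ) * Complex.exp (((φ / 2 : ℝ) : ℂ) * Complex.I) := by
  have h1 : Complex.exp ((φ : ℂ) * Complex.I) =
      Complex.exp (((φ / 2 : ℝ) : ℂ) * Complex.I) * Complex.exp (((φ / 2 : ℝ) : ℂ) * Complex.I) := by
    rw [← Complex.exp_add]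
    congr 1
    push_cast
    ring
  have h2 : ((2 * Real.cos (φ / 2) : ℝ) : ℂ) =
      Complex.exp (((φ / 2 : ℝ) : ℂ) * Complex.I) + Complex.exp (-((φ / 2 : ℝ) : ℂ) * Complex.I) := by
    push_cast
    rw [Complex.cos]
    ring
  have h3 : Complex.exp (-((φ / 2 : ℝ) : ℂ) * Complex.I) * Complex.exp (((φ / 2 : ℝ) : ℂ) * Complex.I)
      = 1 := by
    rw [← Complex.exp_add, neg_mul, neg_add_cancel, Complex.exp_zero]
  rw [h2, add_mul, h3, h1]
  ring

theorem F1_sum {ι : Type*} (w : ι → ℤ) (L : Finset ι) (s : ℤ) (t : ℝ) :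
    ∑ B ∈ L.powerset, Real.cos (t * (∑ i ∈ B, (w i : ℝ) - s)) =
      2 ^ L.card * ((∏ j ∈ L, Real.cos (t * w j / 2)) * Real.cos (t * (s - mn w L))) := by
  classical
  have h1 : ∏ j ∈ L, ((1 : ℂ) + Complex.exp (((t * w j : ℝ) : ℂ) * Complex.I)) =
      ∑ B ∈ L.powerset, Complex.exp (((t * ∑ i ∈ B, (w i : ℝ) : ℝ) : ℂ) * Complex.I) := by
    rw [Finset.prod_one_add]
    refine Finset.sum_congr rfl fun B _ => ?_
    rw [← Complex.exp_sum]
    congr 1
    push_cast
    rw [Finset.mul_sum, Finset.sum_mul]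
  have h2 : ∏ j ∈ L, ((1 : ℂ) + Complex.exp (((t * w j : ℝ) : ℂ) * Complex.I)) =
      ((2 ^ L.card * ∏ j ∈ L, Real.cos (t * w j / 2) : ℝ) : ℂ) *
        Complex.exp (((t * mn w L : ℝ) : ℂ) * Complex.I) := by
    simp only [F1_one]
    rw [Finset.prod_mul_distrib, ← Complex.exp_sum, ← Complex.ofReal_prod,
      Finset.prod_mul_distrib, Finset.prod_const]
    congr 2
    rw [← Finset.sum_mul, ← Complex.ofReal_sum]
    congr 2
    unfold mn
    rw [Finset.sum_div, Finset.mul_sum]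
    exact Finset.sum_congr rfl fun j _ => by ring
  have h3 := h1.symm.trans h2
  have h4 := congrArg (fun z : ℂ => (z * Complex.exp (((-(t * s) : ℝ) : ℂ) * Complex.I)).re) h3
  simp only [Finset.sum_mul, ← Complex.exp_add, Complex.re_sum] at h4
  have e1 : ∀ B : Finset ι, (Complex.exp (((t * ∑ i ∈ B, (w i : ℝ) : ℝ) : ℂ) * Complex.I +
      ((-(t * s) : ℝ) : ℂ) * Complex.I)).re = Real.cos (t * (∑ i ∈ B, (w i : ℝ) - s)) := by
    intro B
    rw [← add_mul, ← Complex.ofReal_add, Complex.exp_ofReal_mul_I_re]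
    congr 1
    ring
  have e2 : (((2 ^ L.card * ∏ j ∈ L, Real.cos (t * w j / 2) : ℝ) : ℂ) *
        Complex.exp (((t * mn w L : ℝ) : ℂ) * Complex.I) *
        Complex.exp (((-(t * s) : ℝ) : ℂ) * Complex.I)).re =
      2 ^ L.card * ((∏ j ∈ L, Real.cos (t * w j / 2)) * Real.cos (t * (s - mn w L))) := by
    rw [mul_assoc, ← Complex.exp_add, ← add_mul, ← Complex.ofReal_add, Complex.re_ofReal_mul,
      Complex.exp_ofReal_mul_I_re, mul_assoc]
    congr 2
    rw [← Real.cos_neg]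
    congr 1
    ring
  rw [e2] at h4
  rw [← h4]
  exact Finset.sum_congr rfl fun B _ => (e1 B).symm

theorem F1_int (m : ℤ) : ∫ t in (-Real.pi)..Real.pi, Real.cos (t * m) =
    if m = 0 then 2 * Real.pi else 0 := by
  split_ifs with h
  · rw [h]
    simp
    ring
  · have hm : (m : ℝ) ≠ 0 := by exact_mod_cast h
    have h1 := intervalIntegral.integral_comp_mul_right (a := -Real.pi) (b := Real.pi) Real.cos hm
    rw [h1, integral_cos]
    have h2 : Real.sin (Real.pi * m) = 0 := by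
      rw [mul_comm]
      exact Real.sin_int_mul_pi m
    rw [neg_mul, Real.sin_neg, h2]
    simp

theorem F1_cont {ι : Type*} (w : ι → ℤ) (L : Finset ι) (s : ℤ) :
    Continuous fun t : ℝ => (∏ j ∈ L, Real.cos (t * w j / 2)) * Real.cos (t * (s - mn w L)) := by
  refine Continuous.mul (continuous_finsetProd _ fun j _ => ?_) ?_
  · fun_prop
  · fun_prop

/-- PROOF: `∑_{B ⊆ L} exp (i t (∑_B w - s)) = exp (-i t s) ∏_{j ∈ L} (1 + exp (i t w_j))
= ∏ (2 cos (t w_j/2)) * exp (i t (mn w L - s))` (`Finset.prod_one_add` or `Finset.prod_add`,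
`1 + exp (iφ) = 2 cos (φ/2) exp (iφ/2)`). Taking real parts:
`∑_{B ⊆ L} cos (t (∑_B w - s)) = 2^|L| (∏ cos (t w_j/2)) cos (t (s - mn w L))`.
Integrate over `[-π, π]`: `∫ cos (t m) dt = 2π` if `m = 0` and `0` for every other integer `m`. -/
theorem F1_inv {ι : Type*} (w : ι → ℤ) (L : Finset ι) (s : ℤ) :
    pz w L s = 1 / (2 * Real.pi) * ∫ t in (-Real.pi)..Real.pi,
      (∏ j ∈ L, Real.cos (t * w j / 2)) * Real.cos (t * (s - mn w L)) := by
  classical
  have h1 : ∫ t in (-Real.pi)..Real.pi, ∑ B ∈ L.powerset, Real.cos (t * (∑ i ∈ B, (w i : ℝ) - s)) =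
      ∑ B ∈ L.powerset, ∫ t in (-Real.pi)..Real.pi, Real.cos (t * (∑ i ∈ B, (w i : ℝ) - s)) := by
    refine intervalIntegral.integral_finsetSum fun B _ => ?_
    apply Continuous.intervalIntegrable
    fun_prop
  have h2 : ∀ B : Finset ι, ∫ t in (-Real.pi)..Real.pi, Real.cos (t * (∑ i ∈ B, (w i : ℝ) - s)) =
      if ∑ i ∈ B, w i = s then 2 * Real.pi else 0 := by
    intro B
    have h3 := F1_int (∑ i ∈ B, w i - s)
    push_cast at h3
    rw [h3]
    simp only [sub_eq_zero]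
  have h4 : ∫ t in (-Real.pi)..Real.pi, ∑ B ∈ L.powerset, Real.cos (t * (∑ i ∈ B, (w i : ℝ) - s)) =
      2 ^ L.card * ∫ t in (-Real.pi)..Real.pi,
      (∏ j ∈ L, Real.cos (t * w j / 2)) * Real.cos (t * (s - mn w L)) := by
    rw [← intervalIntegral.integral_const_mul]
    simp only [F1_sum]
  rw [h1] at h4
  simp only [h2] at h4
  rw [← Finset.sum_filter, Finset.sum_const, nsmul_eq_mul] at h4
  have h5 : (0 : ℝ) < 2 ^ L.card := by positivity
  have hpi := Real.pi_pos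
  unfold pz cz
  rw [div_eq_iff h5.ne']
  have h6 : ((L.powerset.filter (fun B => ∑ i ∈ B, w i = s)).card : ℝ) =
      1 / (2 * Real.pi) * (((L.powerset.filter (fun B => ∑ i ∈ B, w i = s)).card : ℝ) *
        (2 * Real.pi)) := by
    field_simp
  rw [h6, h4]
  ring

/-- PROOF: `F1_inv` and `|∏ ... cos| ≤ ∏ |cos|`. -/
theorem F1_bound {ι : Type*} (w : ι → ℤ) (L : Finset ι) (s : ℤ) :
    pz w L s ≤ 1 / (2 * Real.pi) * ∫ t in (-Real.pi)..Real.pi,
      ∏ j ∈ L, |Real.cos (t * w j / 2)| := by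
  rw [F1_inv]
  have hpi := Real.pi_pos
  refine mul_le_mul_of_nonneg_left ?_ (by positivity)
  refine intervalIntegral.integral_mono_on (by linarith) ((F1_cont w L s).intervalIntegrable _ _) ?_ ?_
  · apply Continuous.intervalIntegrable
    exact continuous_finsetProd _ fun j _ => by fun_prop
  · intro t _
    calc (∏ j ∈ L, Real.cos (t * w j / 2)) * Real.cos (t * (s - mn w L))
        ≤ |(∏ j ∈ L, Real.cos (t * w j / 2)) * Real.cos (t * (s - mn w L))| := le_abs_self _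
      _ = (∏ j ∈ L, |Real.cos (t * w j / 2)|) * |Real.cos (t * (s - mn w L))| := by
          rw [abs_mul, Finset.abs_prod]
      _ ≤ (∏ j ∈ L, |Real.cos (t * w j / 2)|) * 1 :=
          mul_le_mul_of_nonneg_left (Real.abs_cos_le_one _)
            (Finset.prod_nonneg fun _ _ => abs_nonneg _)
      _ = _ := mul_one _

end H31Z
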