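import Pool.Agent.Lib.H31Z.T1

/-!
Chunk F3: the minor arcs.
-/

namespace H31Z

open Finset

/-- Bezout for a finset of integers. -/
theorem F3_bezout (V : Finset ℤ) : ∃ c : ℤ → ℤ, ∑ v ∈ V, c v * v = V.gcd id := by
  classical
  induction V using Finset.induction_on with
  | empty => exact ⟨fun _ => 0, by simp⟩
  | insert a S ha ih =>
    obtain ⟨c, hc⟩ := ih
    rw [Finset.gcd_insert, ← hc]
    set d := ∑ v ∈ S, c v * v with hd
    refine ⟨fun v => if v = a then Int.gcdA a d else Int.gcdB a d * c v, ?_⟩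
    rw [Finset.sum_insert ha]
    beta_reduce
    rw [if_pos rfl]
    have e1 : ∑ v ∈ S, (if v = a then Int.gcdA a d else Int.gcdB a d * c v) * v =
        Int.gcdB a d * d := by
      rw [hd, Finset.mul_sum]
      refine Finset.sum_congr rfl fun v hv => ?_
      have hva : ¬ v = a := by
        rintro rfl
        exact ha hv
      rw [if_neg hva, mul_assoc]
    rw [e1]
    have e2 : GCDMonoid.gcd (id a) d = ((Int.gcd a d : ℕ) : ℤ) := by
      rw [id, Int.coe_gcd]
    rw [e2, Int.gcd_eq_gcd_ab]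
    ring

theorem F3_const (K : ℕ) : ∃ C : ℝ, 1 ≤ C ∧ ∀ V : Finset ℤ, V ⊆ Finset.Icc (-(K : ℤ)) K →
    ∃ c : ℤ → ℤ, ∑ v ∈ V, c v * v = V.gcd id ∧ ∑ v ∈ V, |(c v : ℝ)| ≤ C := by
  classical
  choose c hc using F3_bezout
  refine ⟨1 + ∑ V ∈ (Finset.Icc (-(K : ℤ)) K).powerset, ∑ v ∈ V, |(c V v : ℝ)|, ?_, ?_⟩
  · have : 0 ≤ ∑ V ∈ (Finset.Icc (-(K : ℤ)) K).powerset, ∑ v ∈ V, |(c V v : ℝ)| :=
      Finset.sum_nonneg fun V _ => Finset.sum_nonneg fun v _ => abs_nonneg _
    linarith
  · intro V hV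
    refine ⟨c V, hc V, ?_⟩
    have h1 : ∑ v ∈ V, |(c V v : ℝ)| ≤
        ∑ V ∈ (Finset.Icc (-(K : ℤ)) K).powerset, ∑ v ∈ V, |(c V v : ℝ)| :=
      Finset.single_le_sum (f := fun V => ∑ v ∈ V, |(c V v : ℝ)|)
        (fun V _ => Finset.sum_nonneg fun v _ => abs_nonneg _) (Finset.mem_powerset.2 hV)
    linarith

/-- Points at distance more than `e` from `π ℤ`. -/
theorem F3_cos {u e : ℝ} (he : 0 < e) (he2 : e ≤ Real.pi / 2) (h : ∀ m : ℤ, e < |u - m * Real.pi|) :
    |Real.cos u| ≤ Real.cos e := by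
  have hpi := Real.pi_pos
  -- reduce to `[-π/2, π/2]`
  obtain ⟨m, hm⟩ : ∃ m : ℤ, |u - m * Real.pi| ≤ Real.pi / 2 := by
    refine ⟨round (u / Real.pi), ?_⟩
    have h1 := abs_sub_round (u / Real.pi)
    have h2 : u - round (u / Real.pi) * Real.pi = (u / Real.pi - round (u / Real.pi)) * Real.pi := by
      field_simp
    rw [h2, abs_mul, abs_of_pos hpi]
    nlinarith
  have h3 : |Real.cos u| = |Real.cos (u - m * Real.pi)| := by
    rw [Real.cos_sub_int_mul_pi, abs_mul, abs_zpow, abs_neg, abs_one, one_zpow, one_mul]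
  have h4 := h m
  have h5 : Real.cos (u - m * Real.pi) = Real.cos |u - m * Real.pi| := (Real.cos_abs _).symm
  have h6 : 0 ≤ Real.cos |u - m * Real.pi| :=
    Real.cos_nonneg_of_neg_pi_div_two_le_of_le (by linarith [abs_nonneg (u - m * Real.pi)]) hm
  rw [h3, h5, abs_of_nonneg h6]
  exact Real.cos_le_cos_of_nonneg_of_le_pi he.le (by linarith) h4.le

/-- Minor arc bound. PROOF. For every finset `V` of integers contained in `[-K, K]` with gcd `1`
fix integers `c_v` with `∑_{v ∈ V} c_v v = 1` (Bezout for a finset: `Finset.gcd`, for example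
`Finset.exists_sum_eq_gcd`-like lemmas or induction); there are finitely many such `V`
(subsets of `Finset.Icc (-K) K`), so there is `C ≥ 1` with `∑_{v ∈ V} |c_v| ≤ C` for all of them.
Put `e = π / (4 K C)`. Let `π/K ≤ |t| ≤ π` and let `V` be the set of values of `w` on `L`, gcd `1`.
If for every `v ∈ V` there were an integer `m_v` with `|t v/2 - m_v π| ≤ e`, then
`|t/2 - mπ| ≤ C e = π/(4K)` with `m = ∑ c_v m_v`. But `π/(2K) ≤ |t/2| ≤ π/2`, so `|t/2 - mπ|` is
at least `π/(2K)` for `m = 0` and at least `π/2` for `m ≠ 0`: contradiction. So some `v ∈ V` has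
distance of `t v/2` to `π ℤ` larger than `e`, hence `|cos (t v/2)| ≤ cos e < 1`. At least `δ N`
indices `j ∈ L` have `w_j = v` (take `j0 ∈ L` with `w j0 = v`), the other factors are at most `1`:
the product is at most `(cos e)^(δ N) = exp (-c N)` with `c = δ log (1/cos e)`. -/
theorem F3_minor (K : ℕ) (hK : 1 ≤ K) (δ : ℝ) (hδ : 0 < δ) :
    ∃ c : ℝ, 0 < c ∧ ∀ (ι : Type) (L : Finset ι) (w : ι → ℤ) (N : ℕ),
      (∀ j ∈ L, |w j| ≤ (K : ℤ)) →
      (∀ j ∈ L, δ * N ≤ ((L.filter (fun i => w i = w j)).card : ℝ)) → L.gcd w = 1 →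
      ∀ t : ℝ, Real.pi / K ≤ |t| → |t| ≤ Real.pi →
        ∏ j ∈ L, |Real.cos (t * w j / 2)| ≤ Real.exp (-c * N) := by
  classical
  obtain ⟨C, hC1, hC⟩ := F3_const K
  have hpi := Real.pi_pos
  have hK' : (1 : ℝ) ≤ K := by exact_mod_cast hK
  have hK0 : (0 : ℝ) < K := by linarith
  have hC0 : (0 : ℝ) < C := by linarith
  obtain ⟨e, he⟩ : ∃ e, e = Real.pi / (4 * K * C) := ⟨_, rfl⟩
  have he0 : 0 < e := by rw [he]; positivity
  have he1 : C * e = Real.pi / (4 * K) := by
    rw [he]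
    field_simp
  have he2 : e ≤ Real.pi / 4 := by
    rw [he]
    refine div_le_div_of_nonneg_left hpi.le (by norm_num) ?_
    nlinarith [mul_le_mul hK' hC1 zero_le_one hK0.le]
  have hce0 : 0 < Real.cos e := Real.cos_pos_of_mem_Ioo ⟨by linarith, by linarith⟩
  have hce1 : Real.cos e < 1 := by
    have h1 := Real.cos_lt_cos_of_nonneg_of_le_pi le_rfl (by linarith : e ≤ Real.pi) he0
    rwa [Real.cos_zero] at h1
  have hlog : Real.log (Real.cos e) < 0 := Real.log_neg hce0 hce1
  refine ⟨δ * -Real.log (Real.cos e), by nlinarith [mul_pos hδ (neg_pos.2 hlog)], ?_⟩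
  intro ι L w N hw hd hg t ht1 ht2
  -- some value of `w` is far
  obtain ⟨j0, hj0, hfar⟩ : ∃ j ∈ L, ∀ m : ℤ, e < |t * w j / 2 - m * Real.pi| := by
    by_contra hcon
    push Not at hcon
    have hVs : L.image w ⊆ Finset.Icc (-(K : ℤ)) K := by
      intro v hv
      obtain ⟨j, hj, rfl⟩ := Finset.mem_image.1 hv
      rw [Finset.mem_Icc]
      exact abs_le.1 (hw j hj)
    obtain ⟨c, hc1, hc2⟩ := hC (L.image w) hVs
    have hgcd : (L.image w).gcd id = 1 := by
      rw [Finset.gcd_image]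
      exact hg
    rw [hgcd] at hc1
    have hm : ∀ v ∈ L.image w, ∃ m : ℤ, |t * v / 2 - m * Real.pi| ≤ e := by
      intro v hv
      obtain ⟨j, hj, rfl⟩ := Finset.mem_image.1 hv
      exact hcon j hj
    choose! m hm using hm
    have h1 : t / 2 - ((∑ v ∈ L.image w, c v * m v : ℤ) : ℝ) * Real.pi =
        ∑ v ∈ L.image w, (c v : ℝ) * (t * v / 2 - m v * Real.pi) := by
      have h2 : (∑ v ∈ L.image w, (c v : ℝ) * v) = 1 := by exact_mod_cast hc1
      have h3 : ∑ v ∈ L.image w, (c v : ℝ) * (t * v / 2 - m v * Real.pi) =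
          t / 2 * (∑ v ∈ L.image w, (c v : ℝ) * v) - (∑ v ∈ L.image w, (c v : ℝ) * m v) * Real.pi := by
        rw [Finset.mul_sum, Finset.sum_mul, ← Finset.sum_sub_distrib]
        refine Finset.sum_congr rfl fun v _ => ?_
        ring
      rw [h3, h2, mul_one]
      push_cast
      rfl
    have h4 : |t / 2 - ((∑ v ∈ L.image w, c v * m v : ℤ) : ℝ) * Real.pi| ≤ Real.pi / (4 * K) := by
      rw [h1]
      refine (Finset.abs_sum_le_sum_abs _ _).trans ?_
      calc ∑ v ∈ L.image w, |(c v : ℝ) * (t * v / 2 - m v * Real.pi)|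
          ≤ ∑ v ∈ L.image w, |(c v : ℝ)| * e := by
            refine Finset.sum_le_sum fun v hv => ?_
            rw [abs_mul]
            exact mul_le_mul_of_nonneg_left (hm v hv) (abs_nonneg _)
        _ = (∑ v ∈ L.image w, |(c v : ℝ)|) * e := by rw [Finset.sum_mul]
        _ ≤ C * e := mul_le_mul_of_nonneg_right hc2 he0.le
        _ = _ := he1
    obtain ⟨M, hM⟩ : ∃ M : ℤ, M = ∑ v ∈ L.image w, c v * m v := ⟨_, rfl⟩
    rw [← hM] at h4
    have h5 : Real.pi / (4 * K) < Real.pi / K := by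
      refine div_lt_div_of_pos_left hpi hK0 ?_
      linarith
    have h6 : Real.pi / (4 * K) * 4 = Real.pi / K := by
      field_simp
    rcases eq_or_ne M 0 with h0 | h0
    · rw [h0] at h4
      simp only [Int.cast_zero, zero_mul, sub_zero, abs_div] at h4
      rw [abs_of_pos (by norm_num : (0 : ℝ) < 2)] at h4
      have : 0 < Real.pi / (4 * K) := by positivity
      linarith
    · have h7 : (1 : ℝ) ≤ |(M : ℝ)| := by
        have : 1 ≤ |M| := Int.one_le_abs h0
        exact_mod_cast this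
      have h8 : Real.pi ≤ |(M : ℝ) * Real.pi| := by
        rw [abs_mul, abs_of_pos hpi]
        nlinarith
      have h9 : |(M : ℝ) * Real.pi| ≤ |t / 2| + |t / 2 - M * Real.pi| := by
        have h10 : (M : ℝ) * Real.pi = t / 2 - (t / 2 - M * Real.pi) := by ring
        calc |(M : ℝ) * Real.pi| = |t / 2 - (t / 2 - M * Real.pi)| := by rw [← h10]
          _ ≤ _ := abs_sub _ _
      have h11 : |t / 2| ≤ Real.pi / 2 := by
        rw [abs_div, abs_of_pos (by norm_num : (0 : ℝ) < 2)]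
        linarith
      have h12 : Real.pi / (4 * K) ≤ Real.pi / 4 := by
        refine div_le_div_of_nonneg_left hpi.le (by norm_num) ?_
        linarith
      linarith
  -- the product
  have hbd : |Real.cos (t * w j0 / 2)| ≤ Real.cos e := F3_cos he0 (by linarith) hfar
  set S := L.filter (fun i => w i = w j0) with hS
  have h1 : ∏ j ∈ L, |Real.cos (t * w j / 2)| ≤ ∏ j ∈ S, |Real.cos (t * w j / 2)| := by
    rw [← Finset.prod_sdiff (Finset.filter_subset (fun i => w i = w j0) L)]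
    refine mul_le_of_le_one_left (Finset.prod_nonneg fun _ _ => abs_nonneg _) ?_
    exact Finset.prod_le_one (fun _ _ => abs_nonneg _) fun j _ => Real.abs_cos_le_one _
  have h2 : ∏ j ∈ S, |Real.cos (t * w j / 2)| ≤ Real.cos e ^ S.card := by
    rw [← Finset.prod_const]
    refine Finset.prod_le_prod (fun _ _ => abs_nonneg _) fun j hj => ?_
    rw [(Finset.mem_filter.1 hj).2]
    exact hbd
  refine h1.trans (h2.trans ?_)
  have h3 : Real.cos e ^ S.card = Real.exp (Real.log (Real.cos e) * S.card) := by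
    rw [mul_comm, Real.exp_nat_mul, Real.exp_log hce0]
  rw [h3, Real.exp_le_exp]
  have h4 := hd j0 hj0
  have h5 : -Real.log (Real.cos e) * (δ * N) ≤ -Real.log (Real.cos e) * (S.card : ℝ) :=
    mul_le_mul_of_nonneg_left h4 (by linarith)
  linarith

end H31Z
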