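import Pool.Agent.Lib.H31Z.T1
import Pool.Agent.Lib.H31Z.G1
import Pool.Agent.Lib.H31Z.F1
import Pool.Agent.Lib.H31Z.F3

/-!
Chunk F5: the local limit theorem.
-/

namespace H31Z

open Finset MeasureTheory

/-- PROOF: induction on `L`: all factors `cos u_j` and `exp (-u_j^2/2)` have absolute value at
most `1`, and `|ab - a'b'| ≤ |a - a'| + |b - b'|` for numbers in `[-1,1]`; each difference is at
most `u_j^4` by `T1_diff`. -/
theorem F5_prod {ι : Type*} (L : Finset ι) (u : ι → ℝ) (hu : ∀ j ∈ L, |u j| ≤ 1) :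
    |∏ j ∈ L, Real.cos (u j) - Real.exp (-(∑ j ∈ L, u j ^ 2) / 2)| ≤ ∑ j ∈ L, u j ^ 4 := by
  classical
  induction L using Finset.induction_on with
  | empty => simp
  | insert a S ha ih =>
    have ih' := ih fun j hj => hu j (Finset.mem_insert_of_mem hj)
    have hua := hu a (Finset.mem_insert_self a S)
    rw [Finset.prod_insert ha, Finset.sum_insert ha, Finset.sum_insert ha]
    have e1 : Real.exp (-(u a ^ 2 + ∑ j ∈ S, u j ^ 2) / 2) =
        Real.exp (-u a ^ 2 / 2) * Real.exp (-(∑ j ∈ S, u j ^ 2) / 2) := by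
      rw [← Real.exp_add]
      congr 1
      ring
    rw [e1]
    set P := ∏ j ∈ S, Real.cos (u j) with hP
    set Q := Real.exp (-(∑ j ∈ S, u j ^ 2) / 2) with hQ
    have hP1 : |P| ≤ 1 := by
      rw [hP, Finset.abs_prod]
      exact Finset.prod_le_one (fun _ _ => abs_nonneg _) fun j _ => Real.abs_cos_le_one _
    have hE1 : Real.exp (-u a ^ 2 / 2) ≤ 1 := by
      rw [Real.exp_le_one_iff]
      have := sq_nonneg (u a)
      linarith
    have hE0 : 0 < Real.exp (-u a ^ 2 / 2) := Real.exp_pos _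
    have hd := T1_diff (u a) hua
    have e2 : Real.cos (u a) * P - Real.exp (-u a ^ 2 / 2) * Q =
        (Real.cos (u a) - Real.exp (-u a ^ 2 / 2)) * P + Real.exp (-u a ^ 2 / 2) * (P - Q) := by
      ring
    rw [e2]
    refine (abs_add_le _ _).trans (add_le_add ?_ ?_)
    · rw [abs_mul]
      calc _ ≤ u a ^ 4 * 1 := by
            refine mul_le_mul hd hP1 (abs_nonneg _) (by positivity)
        _ = u a ^ 4 := mul_one _
    · rw [abs_mul, abs_of_pos hE0]
      calc _ ≤ 1 * |P - Q| := mul_le_mul_of_nonneg_right hE1 (abs_nonneg _)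
        _ ≤ _ := by rw [one_mul]; exact ih'

theorem F5_exp_le {x : ℝ} (hx : 0 < x) : Real.exp (-x) ≤ 1 / x := by
  rw [Real.exp_neg, ← one_div]
  exact one_div_le_one_div_of_le hx (by linarith [Real.add_one_le_exp x])

theorem F5_N0 (A B C η : ℝ) (hη : 0 < η) : ∃ N0 : ℕ, ∀ N : ℕ, N0 ≤ N →
    A ≤ η * N ∧ B ≤ η * Real.sqrt N ∧ C ≤ Real.sqrt N ∧ 1 ≤ N := by
  have t1 : Filter.Tendsto (fun N : ℕ => η * (N : ℝ)) Filter.atTop Filter.atTop :=
    tendsto_natCast_atTop_atTop.const_mul_atTop hη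
  have t2 : Filter.Tendsto (fun N : ℕ => Real.sqrt (N : ℝ)) Filter.atTop Filter.atTop :=
    Real.tendsto_sqrt_atTop.comp tendsto_natCast_atTop_atTop
  have t3 : Filter.Tendsto (fun N : ℕ => η * Real.sqrt (N : ℝ)) Filter.atTop Filter.atTop :=
    t2.const_mul_atTop hη
  have h := ((t1.eventually_ge_atTop A).and ((t3.eventually_ge_atTop B).and
    ((t2.eventually_ge_atTop C).and (Filter.eventually_ge_atTop 1))))
  obtain ⟨N0, hN⟩ := Filter.eventually_atTop.1 h
  exact ⟨N0, hN⟩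

/-- the main estimate with explicit error -/
theorem F5_main {ι : Type*} (L : Finset ι) (w : ι → ℤ) (N K : ℕ) (hK : 1 ≤ K) (hN : 1 ≤ N)
    (c τ : ℝ) (hτ : 0 < τ) (hτK : τ * K ≤ 2)
    (hL1 : (N : ℝ) / 2 ≤ (L.card : ℝ)) (hL2 : L.card ≤ N) (hw : ∀ j ∈ L, w j ≠ 0 ∧ |w j| ≤ (K : ℤ))
    (hm : ∀ t : ℝ, Real.pi / K ≤ |t| → |t| ≤ Real.pi →
        ∏ j ∈ L, |Real.cos (t * w j / 2)| ≤ Real.exp (-c * N)) (s : ℤ) :
    |pz w L s - Real.sqrt (2 / (Real.pi * sg w L)) *
        Real.exp (-2 * (s - mn w L) ^ 2 / sg w L)| ≤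
      1 / (2 * Real.pi) * (2 * τ * (N * (τ * K / 2) ^ 4) +
        2 * (Real.exp (-(N / 16) * τ ^ 2 / 2) * Real.sqrt (32 * Real.pi / N)) +
        2 * Real.pi * Real.exp (-c * N)) := by
  have hpi := Real.pi_pos
  have hpi3 := Real.pi_gt_three
  have hK' : (1 : ℝ) ≤ K := by exact_mod_cast hK
  have hK0 : (0 : ℝ) < K := by linarith
  have hN' : (1 : ℝ) ≤ N := by exact_mod_cast hN
  have hτ2 : τ ≤ 2 := by nlinarith
  have hsg1 : (L.card : ℝ) ≤ sg w L := by
    unfold sg
    rw [Finset.card_eq_sum_ones, Nat.cast_sum]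
    refine Finset.sum_le_sum fun j hj => ?_
    have h1 := (hw j hj).1
    have h2 : (1 : ℤ) ≤ w j ^ 2 := by
      have := sq_pos_of_ne_zero h1
      omega
    push_cast
    exact_mod_cast h2
  obtain ⟨σ, hσ⟩ : ∃ σ, σ = sg w L := ⟨_, rfl⟩
  rw [← hσ] at hsg1 ⊢
  have hσN : (N : ℝ) / 2 ≤ σ := hL1.trans hsg1
  have hσ0 : 0 < σ := by linarith
  obtain ⟨b, hb⟩ : ∃ b, b = σ / 8 := ⟨_, rfl⟩
  have hb0 : 0 < b := by rw [hb]; positivity
  have hbN : (N : ℝ) / 16 ≤ b := by rw [hb]; linarith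
  obtain ⟨l, hl⟩ : ∃ l : ℝ, l = (s : ℝ) - mn w L := ⟨_, rfl⟩
  obtain ⟨hGi, hGv⟩ := G1_cos b l hb0
  -- the product
  set P : ℝ → ℝ := fun t => ∏ j ∈ L, Real.cos (t * w j / 2) with hP
  have hPc : Continuous P := by
    rw [hP]
    fun_prop
  have hsq : ∀ t : ℝ, (∑ j ∈ L, (t * w j / 2) ^ 2) / 2 = b * t ^ 2 := by
    intro t
    rw [hb, hσ, sg]
    have : ∀ j, (t * (w j : ℝ) / 2) ^ 2 = t ^ 2 / 4 * (w j : ℝ) ^ 2 := fun j => by ring
    simp only [this]
    rw [← Finset.mul_sum]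
    ring
  -- the two pointwise bounds
  have hPe : ∀ t : ℝ, |t| ≤ Real.pi / K → |P t| ≤ Real.exp (-b * t ^ 2) := by
    intro t ht
    rw [hP, Finset.abs_prod]
    have h1 : ∀ j ∈ L, |Real.cos (t * w j / 2)| ≤ Real.exp (-(t * w j / 2) ^ 2 / 2) := by
      intro j hj
      apply T1_cos_le
      have h2 : |(w j : ℝ)| ≤ K := by exact_mod_cast (hw j hj).2
      rw [abs_div, abs_mul, abs_of_pos (by norm_num : (0 : ℝ) < 2)]
      have h3 : |t| * |(w j : ℝ)| ≤ Real.pi / K * K :=
        mul_le_mul ht h2 (abs_nonneg _) (by positivity)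
      rw [div_mul_cancel₀ _ hK0.ne'] at h3
      linarith
    refine (Finset.prod_le_prod (fun _ _ => abs_nonneg _) h1).trans (le_of_eq ?_)
    rw [← Real.exp_sum]
    congr 1
    have h4 := hsq t
    have h5 : ∀ j, -(t * (w j : ℝ) / 2) ^ 2 / 2 = -((t * (w j : ℝ) / 2) ^ 2) / 2 := fun j => by ring
    have h6 : ∑ j ∈ L, -(t * (w j : ℝ) / 2) ^ 2 / 2 = -((∑ j ∈ L, (t * w j / 2) ^ 2) / 2) := by
      rw [← Finset.sum_div, Finset.sum_neg_distrib]
      ring
    rw [h6, h4]
    ring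
  have hPd : ∀ t : ℝ, |t| ≤ τ → |P t - Real.exp (-b * t ^ 2)| ≤ N * (τ * K / 2) ^ 4 := by
    intro t ht
    have hu : ∀ j ∈ L, |t * w j / 2| ≤ τ * K / 2 := by
      intro j hj
      have h2 : |(w j : ℝ)| ≤ K := by exact_mod_cast (hw j hj).2
      rw [abs_div, abs_mul, abs_of_pos (by norm_num : (0 : ℝ) < 2)]
      have h3 : |t| * |(w j : ℝ)| ≤ τ * K := mul_le_mul ht h2 (abs_nonneg _) hτ.le
      linarith
    have h1 := F5_prod L (fun j => t * w j / 2) fun j hj => (hu j hj).trans (by linarith)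
    have e1 : -(∑ j ∈ L, (t * (w j : ℝ) / 2) ^ 2) / 2 = -b * t ^ 2 := by
      have := hsq t
      linarith
    rw [e1] at h1
    refine h1.trans ?_
    have h2 : ∀ j ∈ L, (t * (w j : ℝ) / 2) ^ 4 ≤ (τ * K / 2) ^ 4 := by
      intro j hj
      have h3 := hu j hj
      calc (t * (w j : ℝ) / 2) ^ 4 = |t * (w j : ℝ) / 2| ^ 4 := by
            rw [← abs_pow, abs_of_nonneg (by positivity)]
        _ ≤ _ := pow_le_pow_left₀ (abs_nonneg _) h3 4
    refine (Finset.sum_le_card_nsmul L _ _ h2).trans ?_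
    rw [nsmul_eq_mul]
    have h3 : (L.card : ℝ) ≤ N := by exact_mod_cast hL2
    exact mul_le_mul_of_nonneg_right h3 (by positivity)
  -- the difference as one integral
  set I : Set ℝ := Set.Icc (-Real.pi) Real.pi with hI
  set F1 : ℝ → ℝ := I.indicator fun t => P t * Real.cos (t * l) with hF1
  have hF1c : Continuous fun t => P t * Real.cos (t * l) := by fun_prop
  have hF1i : Integrable F1 := by
    rw [hF1, integrable_indicator_iff measurableSet_Icc]
    exact hF1c.continuousOn.integrableOn_Icc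
  have hinv : pz w L s = 1 / (2 * Real.pi) * ∫ t, F1 t := by
    rw [F1_inv, intervalIntegral.integral_of_le (by linarith), ← integral_Icc_eq_integral_Ioc,
      hF1, integral_indicator measurableSet_Icc, ← hl]
  have hval : Real.sqrt (2 / (Real.pi * σ)) * Real.exp (-2 * ((s : ℝ) - mn w L) ^ 2 / σ) =
      1 / (2 * Real.pi) * ∫ t : ℝ, Real.exp (-b * t ^ 2) * Real.cos (l * t) := by
    rw [hGv, ← hl, ← mul_assoc]
    congr 1
    · rw [← Real.sqrt_sq (by positivity : 0 ≤ 1 / (2 * Real.pi)), ← Real.sqrt_mul (by positivity)]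
      congr 1
      rw [hb]
      field_simp
      ring
    · congr 1
      rw [hb]
      field_simp
      ring
  set G : ℝ → ℝ := fun t => Real.exp (-b * t ^ 2) * Real.cos (l * t) with hG
  -- the dominating function
  set J : Set ℝ := Set.Icc (-τ) τ with hJ
  set T : Set ℝ := {t : ℝ | τ ≤ |t|} with hT
  have hTm : MeasurableSet T := (isClosed_le continuous_const continuous_abs).measurableSet
  have hgi : Integrable fun t : ℝ => Real.exp (-b * t ^ 2) := integrable_exp_neg_mul_sq hb0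
  set H1 : ℝ → ℝ := J.indicator fun _ => N * (τ * K / 2) ^ 4 with hH1
  set H2 : ℝ → ℝ := T.indicator fun t => 2 * Real.exp (-b * t ^ 2) with hH2
  set H3 : ℝ → ℝ := I.indicator fun _ => Real.exp (-c * N) with hH3
  have hH1i : Integrable H1 := by
    rw [hH1, integrable_indicator_iff measurableSet_Icc]
    exact continuous_const.continuousOn.integrableOn_Icc
  have hH3i : Integrable H3 := by
    rw [hH3, integrable_indicator_iff measurableSet_Icc]
    exact continuous_const.continuousOn.integrableOn_Icc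
  have hH2i : Integrable H2 := by
    rw [hH2, integrable_indicator_iff hTm]
    exact (hgi.const_mul 2).integrableOn
  have hH1n : ∀ t, 0 ≤ H1 t := fun t => Set.indicator_nonneg (fun _ _ => by positivity) t
  have hH2n : ∀ t, 0 ≤ H2 t := fun t => Set.indicator_nonneg (fun _ _ => by positivity) t
  have hH3n : ∀ t, 0 ≤ H3 t := fun t => Set.indicator_nonneg (fun _ _ => by positivity) t
  have hGle : ∀ t, |G t| ≤ Real.exp (-b * t ^ 2) := by
    intro t
    rw [hG, abs_mul, abs_of_pos (Real.exp_pos _)]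
    exact mul_le_of_le_one_right (Real.exp_pos _).le (Real.abs_cos_le_one _)
  have hdom : ∀ t, ‖F1 t - G t‖ ≤ H1 t + H2 t + H3 t := by
    intro t
    rw [Real.norm_eq_abs]
    by_cases h1 : |t| ≤ τ
    · have hJt : t ∈ J := abs_le.1 h1
      have hIt : t ∈ I := abs_le.1 (h1.trans (by linarith))
      have e1 : F1 t = P t * Real.cos (t * l) := Set.indicator_of_mem hIt _
      have e2 : H1 t = N * (τ * K / 2) ^ 4 := Set.indicator_of_mem hJt _
      have e3 : F1 t - G t = (P t - Real.exp (-b * t ^ 2)) * Real.cos (t * l) := by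
        rw [e1, hG]
        simp only
        rw [mul_comm l t]
        ring
      rw [e3, abs_mul, e2]
      have h2 := hPd t h1
      have h3 : |P t - Real.exp (-b * t ^ 2)| * |Real.cos (t * l)| ≤
          |P t - Real.exp (-b * t ^ 2)| :=
        mul_le_of_le_one_right (abs_nonneg _) (Real.abs_cos_le_one _)
      have := hH2n t
      have := hH3n t
      linarith
    · push Not at h1
      have hTt : t ∈ T := h1.le
      have e2 : H2 t = 2 * Real.exp (-b * t ^ 2) := Set.indicator_of_mem hTt _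
      have h0 : |F1 t - G t| ≤ |F1 t| + |G t| := abs_sub _ _
      have h4 := hGle t
      have h5 := hH1n t
      have h6 := hH3n t
      have h7 : (0 : ℝ) < Real.exp (-b * t ^ 2) := Real.exp_pos _
      by_cases h2 : |t| ≤ Real.pi / K
      · have hIt : t ∈ I := abs_le.1 (h2.trans (div_le_self hpi.le hK'))
        have e1 : F1 t = P t * Real.cos (t * l) := Set.indicator_of_mem hIt _
        have h8 : |F1 t| ≤ |P t| := by
          rw [e1, abs_mul]
          exact mul_le_of_le_one_right (abs_nonneg _) (Real.abs_cos_le_one _)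
        have h9 := hPe t h2
        linarith
      · push Not at h2
        by_cases h3 : |t| ≤ Real.pi
        · have hIt : t ∈ I := abs_le.1 h3
          have e1 : F1 t = P t * Real.cos (t * l) := Set.indicator_of_mem hIt _
          have e3 : H3 t = Real.exp (-c * N) := Set.indicator_of_mem hIt _
          have h8 : |F1 t| ≤ |P t| := by
            rw [e1, abs_mul]
            exact mul_le_of_le_one_right (abs_nonneg _) (Real.abs_cos_le_one _)
          have h9 : |P t| ≤ Real.exp (-c * N) := by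
            rw [hP, Finset.abs_prod]
            exact hm t h2.le h3
          linarith
        · have hIt : t ∉ I := fun h => h3 (abs_le.2 h)
          have e1 : F1 t = 0 := Set.indicator_of_notMem hIt _
          have h8 : |F1 t| = 0 := by rw [e1, abs_zero]
          linarith
  have hHi : Integrable fun t => H1 t + H2 t + H3 t := (hH1i.add hH2i).add hH3i
  have hfin : ‖∫ t, (F1 t - G t)‖ ≤ ∫ t, (H1 t + H2 t + H3 t) :=
    norm_integral_le_of_norm_le hHi (Filter.Eventually.of_forall hdom)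
  have hI1 : ∫ t, H1 t = 2 * τ * (N * (τ * K / 2) ^ 4) := by
    rw [hH1, integral_indicator measurableSet_Icc, setIntegral_const, Real.volume_real_Icc,
      smul_eq_mul, max_eq_left (by linarith)]
    ring
  have hI3 : ∫ t, H3 t = 2 * Real.pi * Real.exp (-c * N) := by
    rw [hH3, integral_indicator measurableSet_Icc, setIntegral_const, Real.volume_real_Icc,
      smul_eq_mul, max_eq_left (by linarith)]
    ring
  have hI2 : ∫ t, H2 t ≤ 2 * (Real.exp (-(N / 16) * τ ^ 2 / 2) * Real.sqrt (32 * Real.pi / N)) := by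
    rw [hH2, integral_indicator hTm, integral_const_mul]
    refine mul_le_mul_of_nonneg_left ((G1_tail b τ hb0 hτ.le).trans ?_) (by norm_num)
    refine mul_le_mul ?_ ?_ (Real.sqrt_nonneg _) (Real.exp_pos _).le
    · rw [Real.exp_le_exp]
      have : (N : ℝ) / 16 * τ ^ 2 ≤ b * τ ^ 2 := mul_le_mul_of_nonneg_right hbN (sq_nonneg _)
      linarith
    · apply Real.sqrt_le_sqrt
      rw [div_le_div_iff₀ hb0 (by linarith)]
      nlinarith
  rw [hinv, hval, ← mul_sub, ← integral_sub hF1i hGi, abs_mul, abs_of_pos (by positivity)]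
  refine mul_le_mul_of_nonneg_left ?_ (by positivity)
  rw [← Real.norm_eq_abs]
  refine hfin.trans ?_
  have e : ∫ t, (H1 t + H2 t + H3 t) = (∫ t, H1 t) + (∫ t, H2 t) + ∫ t, H3 t := by
    rw [← integral_add hH1i hH2i]
    exact integral_add (hH1i.add hH2i) hH3i
  rw [e, hI1, hI3]
  linarith

/-- PROOF: `F1_bound`-type computation. For `|t| ≤ π/K`: `|t w_j/2| ≤ π/2`, so by `T1_cos_le`
the product of `|cos (t w_j/2)|` is at most `exp (-(sg/8) t^2)`, `sg = sg w L`; for
`π/K ≤ |t| ≤ π` it is at most `exp (-cN)` (`F3_minor`).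
Let `b = sg/8 ≥ |L|/8 ≥ N/16`, `T > 0` a constant, `l = s - mn w L`. By `F1_inv`
and `G1_cos` (`(1/2π) ∫ exp (-b t^2) cos (l t) dt = (1/2π) sqrt (8π/sg) exp (-2 l^2/sg)
= sqrt (2/(π sg)) exp (-2 l^2/sg)`) the difference to be estimated is at most `1/(2π)` times
(1) `∫_{|t| ≤ T/√N} ∑ (t w_j/2)^4 dt ≤ 2 (T/√N) N (T K/(2√N))^4 = T^5 K^4/(8 N^(3/2))`
(`F5_prod`, valid when `T K/(2√N) ≤ 1`);
(2) `∫_{T/√N ≤ |t|} exp (-b t^2) dt`, twice, each at most `exp (-b T^2/(2N)) sqrt (2π/b) ≤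
exp (-T^2/32) sqrt (32π/N)` (`G1_tail`);
(3) `2π exp (-cN)`.
Choose `T` with `2 exp (-T^2/32) sqrt (32π) ≤ η`, then `N0` large. (If `L` is such that the
hypotheses fail for large `N` nothing is to be shown; note `K ≥ 1` because `L` is nonempty for
`N ≥ 1`; when `K = 0` take `N0 = 1`: then `L` is empty, but `N/2 ≤ |L|` excludes it.) -/
theorem F5_llt (K : ℕ) (δ η : ℝ) (hδ : 0 < δ) (hη : 0 < η) :
    ∃ N0 : ℕ, ∀ (N : ℕ), N0 ≤ N → ∀ (ι : Type) (L : Finset ι) (w : ι → ℤ),
      (N : ℝ) / 2 ≤ (L.card : ℝ) → L.card ≤ N → (∀ j ∈ L, w j ≠ 0 ∧ |w j| ≤ (K : ℤ)) →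
      (∀ j ∈ L, δ * N ≤ ((L.filter (fun i => w i = w j)).card : ℝ)) → L.gcd w = 1 →
      ∀ s : ℤ, |pz w L s - Real.sqrt (2 / (Real.pi * sg w L)) *
        Real.exp (-2 * (s - mn w L) ^ 2 / sg w L)| ≤ η / Real.sqrt N := by
  rcases Nat.eq_zero_or_pos K with hK0 | hK
  · refine ⟨1, fun N hN ι L w hL1 hL2 hw _ _ s => ?_⟩
    exfalso
    have hN' : (1 : ℝ) ≤ N := by exact_mod_cast hN
    have h1 : 0 < L.card := by
      have : (0 : ℝ) < L.card := by linarith
      exact_mod_cast this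
    obtain ⟨j, hj⟩ := Finset.card_pos.1 h1
    obtain ⟨h2, h3⟩ := hw j hj
    rw [hK0] at h3
    have : |w j| ≤ 0 := by simpa using h3
    exact h2 (abs_eq_zero.1 (le_antisymm this (abs_nonneg _)))
  obtain ⟨c, hc, hmin⟩ := F3_minor K hK δ hδ
  have hpi := Real.pi_pos
  have hpi3 := Real.pi_gt_three
  obtain ⟨S, hS⟩ : ∃ S, S = Real.sqrt (32 * Real.pi) := ⟨_, rfl⟩
  have hS0 : 0 < S := by rw [hS]; positivity
  obtain ⟨T, hT⟩ : ∃ T, T = Real.sqrt (64 * S / η) := ⟨_, rfl⟩
  have hT0 : 0 < T := by rw [hT]; positivity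
  have hT2 : T ^ 2 = 64 * S / η := by rw [hT]; exact Real.sq_sqrt (by positivity)
  obtain ⟨N0, hN0⟩ := F5_N0 (T ^ 5 * K ^ 4 / 8) (2 * Real.pi / c) (T * K / 2) η hη
  refine ⟨N0, fun N hN ι L w hL1 hL2 hw hd hg s => ?_⟩
  obtain ⟨hA, hB, hC, hN1⟩ := hN0 N hN
  have hN' : (1 : ℝ) ≤ N := by exact_mod_cast hN1
  have hNp : (0 : ℝ) < N := by linarith
  have hr : 0 < Real.sqrt N := Real.sqrt_pos.2 hNp
  have hrr : Real.sqrt N ^ 2 = N := Real.sq_sqrt hNp.le
  have hm := hmin ι L w N (fun j hj => (hw j hj).2) hd hg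
  have hKp : (0 : ℝ) < K := by exact_mod_cast hK
  have h1 := F5_main L w N K hK hN1 c (T / Real.sqrt N) (by positivity)
    (by rw [div_mul_eq_mul_div, div_le_iff₀ hr]; linarith) hL1 hL2 hw hm s
  refine h1.trans ?_
  obtain ⟨r, hrd⟩ : ∃ r, r = Real.sqrt N := ⟨_, rfl⟩
  rw [← hrd] at hr hrr hB hC ⊢
  -- first term
  have e1 : 2 * (T / r) * (N * (T / r * K / 2) ^ 4) ≤ η / r := by
    have e2 : 2 * (T / r) * (N * (T / r * K / 2) ^ 4) = (T ^ 5 * K ^ 4 / 8) / N / r := by
      rw [← hrr]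
      field_simp
      ring
    rw [e2]
    refine div_le_div_of_nonneg_right ?_ hr.le
    rw [div_le_iff₀ hNp]
    exact hA
  -- second term
  have e3 : 2 * (Real.exp (-(N / 16) * (T / r) ^ 2 / 2) * Real.sqrt (32 * Real.pi / N)) ≤
      η / r := by
    have e4 : -((N : ℝ) / 16) * (T / r) ^ 2 / 2 = -(T ^ 2 / 32) := by
      rw [div_pow, hrr]
      field_simp
      ring
    have e5 : Real.sqrt (32 * Real.pi / N) = S / r := by
      rw [hS, hrd, Real.sqrt_div (by positivity)]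
    rw [e4, e5]
    have e6 := F5_exp_le (x := T ^ 2 / 32) (by positivity)
    have e7 : 1 / (T ^ 2 / 32) = η / (2 * S) := by
      rw [hT2]
      field_simp
      ring
    rw [e7] at e6
    calc 2 * (Real.exp (-(T ^ 2 / 32)) * (S / r)) ≤ 2 * (η / (2 * S) * (S / r)) := by gcongr
      _ = η / r := by field_simp
  -- third term
  have e8 : 2 * Real.pi * Real.exp (-c * N) ≤ η / r := by
    have e9 := F5_exp_le (x := c * N) (by positivity)
    rw [← neg_mul] at e9
    have e10 : 2 * Real.pi * (1 / (c * N)) ≤ η / r := by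
      have e11 : 2 * Real.pi * (1 / (c * N)) = (2 * Real.pi / c) / N := by field_simp
      rw [e11, div_le_div_iff₀ hNp hr]
      have e12 : 2 * Real.pi / c * r ≤ η * r * r := mul_le_mul_of_nonneg_right hB hr.le
      calc _ ≤ η * r * r := e12
        _ = η * N := by rw [← hrr]; ring
    refine le_trans ?_ e10
    gcongr
  have e13 : 1 / (2 * Real.pi) * (3 * (η / r)) ≤ η / r := by
    have e14 : 0 < η / r := by positivity
    rw [one_div, inv_mul_le_iff₀ (by positivity)]
    nlinarith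
  refine le_trans ?_ e13
  refine mul_le_mul_of_nonneg_left ?_ (by positivity)
  linarith

end H31Z
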