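import Pool.Agent.Lib.H31Z.M6

/-!
Chunk M7: the structure theorem.
-/

namespace H31Z

open Finset

/-- PROOF. Apply `M6_good` with `ε/2`; `K1` the constant, `G`, `j0`. Since
`y_j` is determined by `(d, b)` and `y_{j0}`, the set of values `y(G)` has at most `K1 (2 K1 + 1) ≤ 3 K1^2`
elements (`K1 ≥ 1`). Put `δ = ε/(6 K1^2)`, `N = |I|`,
`L = {j ∈ G : #{i ∈ G : y_i = y_j} ≥ δ N}`; the values taken less than `δ N` times account for at
most `3 K1^2 δ N ≤ (ε/2) N` indices, so `|L| ≥ (1 - ε) N`; and if `j ∈ L`, all `i ∈ G` with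
`y_i = y_j` are in `L`. Let `g = gcd_{j ∈ L} y_j` (`Finset.gcd`, nonzero), `w_j = y_j/g`; the gcd of
the `w_j` is `1` (`Finset.gcd_div_eq_one`, or `Finset.extract_gcd`). BOUND: let `F = K1!`. For
`j ∈ L`: `d_j y_j = b_j y_{j0}`, so `F y_j = (b_j F/d_j) y_{j0} = v_j y_{j0}` with an integer `v_j`,
`|v_j| ≤ K1 F`. Now `F g` is (up to sign) the gcd of the `F y_j = v_j y_{j0}`, a nonzero multiple of
`y_{j0}`, so `|y_{j0}| ≤ F |g|`, hence `F |y_j| ≤ K1 F |y_{j0}| ≤ K1 F F |g|` and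
`|w_j| ≤ K1 F =: K`. -/
theorem M7_structure (c0 ε : ℝ) (hc0 : 0 < c0) (hε : 0 < ε) (hε1 : ε < 1) :
    ∃ K : ℕ, ∃ δ : ℝ, 0 < δ ∧ ∃ N0 : ℕ, ∀ (ι : Type) (I : Finset ι) (y : ι → ℤ),
      N0 ≤ I.card → (∀ j ∈ I, y j ≠ 0) → c0 / Real.sqrt I.card ≤ pz y I 0 →
      ∃ L ⊆ I, ∃ (g : ℤ) (w : ι → ℤ), g ≠ 0 ∧ (1 - ε) * I.card ≤ (L.card : ℝ) ∧
        (∀ j ∈ L, y j = g * w j ∧ w j ≠ 0 ∧ |w j| ≤ (K : ℤ)) ∧
        (∀ j ∈ L, δ * I.card ≤ ((L.filter (fun i => w i = w j)).card : ℝ)) ∧ L.gcd w = 1 := by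
  obtain ⟨K1, N0, hK⟩ := M6_good c0 (ε / 2) hc0 (by positivity) (by linarith)
  refine ⟨K1 * K1.factorial, ε / (6 * ((K1 : ℝ) + 1) ^ 2), by positivity, N0 + 1, fun ι I y hN hy hp => ?_⟩
  obtain ⟨G, hGI, hGc, j0, hj0, hG⟩ := hK ι I y (by omega) hy hp
  obtain ⟨δ, hδ⟩ : ∃ δ : ℝ, δ = ε / (6 * ((K1 : ℝ) + 1) ^ 2) := ⟨_, rfl⟩
  rw [← hδ]
  have hNpos : (0 : ℝ) < I.card := by exact_mod_cast (by omega : 0 < I.card)
  have hδ0 : 0 < δ := by rw [hδ]; positivity
  classical
  obtain ⟨L, hL⟩ : ∃ L, L = G.filter (fun j => δ * I.card ≤ ((G.filter (fun i => y i = y j)).card : ℝ)) := ⟨_, rfl⟩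
  have hLG : L ⊆ G := by rw [hL]; exact Finset.filter_subset _ _
  -- number of values
  have hval : (G.image y).card ≤ 3 * (K1 + 1) ^ 2 := by
    have hsub : G.image y ⊆ ((Finset.Icc (1 : ℤ) K1) ×ˢ (Finset.Icc (-(K1 : ℤ)) K1)).image
        (fun q => q.2 * y j0 / q.1) := by
      intro v hv
      rw [Finset.mem_image] at hv ⊢
      obtain ⟨j, hj, rfl⟩ := hv
      obtain ⟨d, b, h1, h2, h3, h4⟩ := hG j hj
      refine ⟨(d, b), ?_, ?_⟩
      · rw [Finset.mem_product, Finset.mem_Icc, Finset.mem_Icc]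
        rw [abs_le] at h3
        exact ⟨⟨h1, h2⟩, h3⟩
      · show b * y j0 / d = y j
        rw [← h4]
        exact Int.mul_ediv_cancel_left _ (by omega)
    refine (Finset.card_le_card hsub).trans (Finset.card_image_le.trans ?_)
    rw [Finset.card_product, Int.card_Icc, Int.card_Icc]
    have e1 : ((K1 : ℤ) + 1 - 1).toNat = K1 := by omega
    have e2 : ((K1 : ℤ) + 1 - -(K1 : ℤ)).toNat = 2 * K1 + 1 := by omega
    rw [e1, e2]
    nlinarith
  have hGL : ((G \ L).card : ℝ) ≤ ε / 2 * I.card := by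
    have h1 := Finset.card_eq_sum_card_image y (G \ L)
    have h2 : ((G \ L).card : ℝ) = ∑ v ∈ (G \ L).image y, (((G \ L).filter (fun a => y a = v)).card : ℝ) := by
      exact_mod_cast h1
    rw [h2]
    have h3 : ∀ v ∈ (G \ L).image y, (((G \ L).filter (fun a => y a = v)).card : ℝ) ≤ δ * I.card := by
      intro v hv
      rw [Finset.mem_image] at hv
      obtain ⟨j, hj, rfl⟩ := hv
      rw [Finset.mem_sdiff, hL, Finset.mem_filter] at hj
      have h4 : ((G.filter (fun i => y i = y j)).card : ℝ) < δ * I.card := by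
        by_contra hcon
        exact hj.2 ⟨hj.1, not_lt.1 hcon⟩
      have h5 : ((G \ L).filter (fun a => y a = y j)).card ≤ (G.filter (fun i => y i = y j)).card :=
        Finset.card_le_card (Finset.filter_subset_filter _ Finset.sdiff_subset)
      have h6 : (((G \ L).filter (fun a => y a = y j)).card : ℝ) ≤ ((G.filter (fun i => y i = y j)).card : ℝ) := by
        exact_mod_cast h5
      linarith
    refine (Finset.sum_le_sum h3).trans ?_
    rw [Finset.sum_const, nsmul_eq_mul]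
    have h7 : (((G \ L).image y).card : ℝ) ≤ 3 * ((K1 : ℝ) + 1) ^ 2 := by
      have h8 : ((G \ L).image y).card ≤ (G.image y).card :=
        Finset.card_le_card (Finset.image_subset_image Finset.sdiff_subset)
      exact_mod_cast h8.trans hval
    have h9 : 0 ≤ δ * I.card := by positivity
    refine (mul_le_mul_of_nonneg_right h7 h9).trans (le_of_eq ?_)
    rw [hδ]
    field_simp
    ring
  have hLc : (1 - ε) * I.card ≤ (L.card : ℝ) := by
    have h1 := Finset.card_sdiff_add_card_eq_card hLG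
    have h2 : ((G \ L).card : ℝ) + L.card = G.card := by exact_mod_cast h1
    nlinarith
  have hLne : L.Nonempty := by
    rw [← Finset.card_pos]
    have h1 : (0 : ℝ) < L.card := lt_of_lt_of_le (mul_pos (by linarith) hNpos) hLc
    exact_mod_cast h1
  obtain ⟨w, hw, hw1⟩ := Finset.extract_gcd y hLne
  have hyL : ∀ j ∈ L, y j ≠ 0 := fun j hj => hy j (hGI (hLG hj))
  have hg0 : L.gcd y ≠ 0 := by
    intro h0
    obtain ⟨j, hj⟩ := hLne
    exact hyL j hj (Finset.gcd_eq_zero_iff.1 h0 j hj)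
  refine ⟨L, hLG.trans hGI, L.gcd y, w, hg0, hLc, ?_, ?_, hw1⟩
  · intro j hj
    refine ⟨hw j hj, ?_, ?_⟩
    · intro h0
      have := hw j hj
      rw [h0, mul_zero] at this
      exact hyL j hj this
    · obtain ⟨F, hF⟩ : ∃ F : ℕ, F = K1.factorial := ⟨_, rfl⟩
      have hF0 : 0 < F := by rw [hF]; exact Nat.factorial_pos _
      have hdiv : ∀ i ∈ L, ∃ v : ℤ, |v| ≤ K1 * F ∧ (F : ℤ) * y i = v * y j0 := by
        intro i hi
        obtain ⟨d, b, h1, h2, h3, h4⟩ := hG i (hLG hi)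
        obtain ⟨d', hd'⟩ : ∃ d' : ℕ, (d' : ℤ) = d := ⟨d.toNat, by omega⟩
        obtain ⟨e, he⟩ : d' ∣ F := by
          rw [hF]
          exact Nat.dvd_factorial (by omega) (by omega)
        have he' : (F : ℤ) = d * e := by rw [he, ← hd']; push_cast; ring
        refine ⟨e * b, ?_, ?_⟩
        · rw [abs_mul, Nat.abs_cast, mul_comm]
          have h5 : (e : ℤ) ≤ F := by
            have : e ≤ F := by
              rw [he]
              exact Nat.le_mul_of_pos_left _ (by omega)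
            exact_mod_cast this
          exact mul_le_mul h3 h5 (by positivity) (by positivity)
        · rw [he']
          linear_combination (e : ℤ) * h4
      have hdvd : y j0 ∣ (F : ℤ) * L.gcd y := by
        have h1 : y j0 ∣ L.gcd (fun i => (F : ℤ) * y i) := by
          apply Finset.dvd_gcd
          intro i hi
          obtain ⟨v, _, hv⟩ := hdiv i hi
          exact ⟨v, by rw [hv]; ring⟩
        rw [Finset.gcd_mul_left] at h1
        have h2 : normalize (F : ℤ) = F := Int.normalize_coe_nat F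
        rwa [h2] at h1
      have hle : |y j0| ≤ (F : ℤ) * |L.gcd y| := by
        have h1 : |y j0| ∣ |(F : ℤ) * L.gcd y| := (abs_dvd_abs _ _).2 hdvd
        have h2 := Int.le_of_dvd (abs_pos.2 (mul_ne_zero (by exact_mod_cast hF0.ne') hg0)) h1
        rwa [abs_mul, Nat.abs_cast] at h2
      obtain ⟨v, hv1, hv2⟩ := hdiv j hj
      have h3 : (F : ℤ) * |y j| = |v| * |y j0| := by
        have := congrArg abs hv2
        rwa [abs_mul, abs_mul, Nat.abs_cast] at this
      have h4 : |y j| = |L.gcd y| * |w j| := by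
        rw [← abs_mul, ← hw j hj]
      have hgp : 0 < |L.gcd y| := abs_pos.2 hg0
      have hFp : (0 : ℤ) < F := by exact_mod_cast hF0
      have h5 : (F : ℤ) * (|L.gcd y| * |w j|) ≤ (K1 * F) * ((F : ℤ) * |L.gcd y|) := by
        rw [← h4, h3]
        exact mul_le_mul hv1 hle (abs_nonneg _) (by positivity)
      have h6 : ((F : ℤ) * |L.gcd y|) * |w j| ≤ ((F : ℤ) * |L.gcd y|) * (K1 * F) := by
        calc ((F : ℤ) * |L.gcd y|) * |w j| = (F : ℤ) * (|L.gcd y| * |w j|) := by ring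
          _ ≤ _ := h5
          _ = _ := by ring
      have h7 := le_of_mul_le_mul_left h6 (mul_pos hFp hgp)
      rw [hF] at h7
      push_cast
      exact_mod_cast h7
  · intro j hj
    have hjG := hj
    rw [hL, Finset.mem_filter] at hjG
    refine hjG.2.trans ?_
    have h1 : G.filter (fun i => y i = y j) ⊆ L.filter (fun i => w i = w j) := by
      intro i hi
      rw [Finset.mem_filter] at hi ⊢
      have hiL : i ∈ L := by
        rw [hL, Finset.mem_filter]
        refine ⟨hi.1, ?_⟩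
        rw [hi.2]
        exact hjG.2
      refine ⟨hiL, ?_⟩
      have h2 := hi.2
      rw [hw i hiL, hw j hj] at h2
      exact mul_left_cancel₀ hg0 h2
    exact_mod_cast Finset.card_le_card h1

end H31Z
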