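import Pool.Agent.Lib.H31Z.F2
import Pool.Agent.Lib.H31Z.F5
import Pool.Agent.Lib.H31Z.M7

/-!
Chunk D1: structure theorem and local limit theorem together.
-/

namespace H31Z

open Finset

theorem d1_exp_le {x : ℝ} (hx : 0 < x) : Real.exp (-x) ≤ 1 / x := by
  rw [Real.exp_neg, ← one_div]
  exact one_div_le_one_div_of_le hx (by linarith [Real.add_one_le_exp x])

/-- `pz y I 0 ≤ A` if `y = g w` on `L ⊆ I` and all `pz w L s ≤ A`. -/
theorem d1_le {ι : Type} (I L : Finset ι) (y w : ι → ℤ) (g : ℤ) (hg : g ≠ 0) (hLI : L ⊆ I)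
    (h : ∀ j ∈ L, y j = g * w j) (A : ℝ) (hA0 : 0 ≤ A) (hA : ∀ s : ℤ, pz w L s ≤ A) : pz y I 0 ≤ A := by
  classical
  have hgR : (g : ℝ) ≠ 0 := by exact_mod_cast hg
  have hx : ∀ j ∈ L, (y j : ℝ) / g = (w j : ℝ) := fun j hj => by
    rw [h j hj, Int.cast_mul]
    field_simp
  have h1 : ∀ s : ℝ, pn (fun j => (y j : ℝ) / g) L s ≤ A := by
    intro s
    by_cases hs : ∃ k : ℤ, s = k
    · obtain ⟨k, rfl⟩ := hs
      rw [F2_cast _ w L hx k]
      exact hA k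
    · push Not at hs
      rw [F2_zero _ w L hx s hs]
      exact hA0
  have h2 := F2_le (fun j => (y j : ℝ) / g) L (I \ L) Finset.disjoint_sdiff A 0 h1
  rw [Finset.union_sdiff_of_subset hLI] at h2
  have h3 := F2_scale (fun j => (y j : ℝ) / g) (fun j => (y j : ℝ)) I g hgR fun j _ => by
    field_simp
  have h4 := F2_cast (fun j => (y j : ℝ)) y I (fun j _ => rfl) 0
  rw [Int.cast_zero] at h4
  rw [← h4, h3]
  exact h2

theorem d1_num (N S η1 A : ℝ) (hN : 1 ≤ N) (hS : N / 2 ≤ S) (hη1' : η1 ≤ 1 / 50)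
    (h : (35 / 100) / Real.sqrt N ≤ Real.sqrt (2 / (Real.pi * S)) + η1 / 2 / Real.sqrt N) :
    S ≤ 6 * N ∧ Real.sqrt (2 / (Real.pi * S)) ≤ 2 / Real.sqrt N := by
  have hπ : 0 < Real.pi := Real.pi_pos
  have hπ3 : 3.14 < Real.pi := Real.pi_gt_d2
  have hN0 : 0 < N := by linarith
  have hS0 : 0 < S := by linarith
  have hr : 0 < Real.sqrt N := Real.sqrt_pos.2 hN0
  have hr2 : Real.sqrt N ^ 2 = N := Real.sq_sqrt hN0.le
  constructor
  · have h1 : (34 / 100) / Real.sqrt N ≤ Real.sqrt (2 / (Real.pi * S)) := by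
      have h2 : η1 / 2 / Real.sqrt N ≤ (1 / 100) / Real.sqrt N := by
        apply div_le_div_of_nonneg_right _ hr.le
        linarith
      have h3 : (35 / 100 : ℝ) / Real.sqrt N = (34 / 100) / Real.sqrt N + (1 / 100) / Real.sqrt N := by
        rw [← add_div]
        norm_num
      linarith
    have h4 := (Real.le_sqrt (by positivity) (by positivity)).1 h1
    rw [div_pow, hr2, div_le_div_iff₀ hN0 (by positivity)] at h4
    nlinarith
  · rw [show (2 : ℝ) / Real.sqrt N = Real.sqrt (4 / N) by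
      rw [Real.sqrt_div (by norm_num), show (4 : ℝ) = 2 ^ 2 by norm_num, Real.sqrt_sq (by norm_num)]]
    apply Real.sqrt_le_sqrt
    rw [div_le_div_iff₀ (by positivity) hN0]
    nlinarith

/-- PROOF. `CR` with `2 exp (-CR^2/3) ≤ η1/2`. Given `ε ≤ 1/2`, take `K, δ, N0` from `M7_structure`
with `c0 = 35/100`, then `F5_llt` with `K, δ` and error `η1/2`. Let `N = |I|`, `x = y/g` (real), so
`x = w` on `L`, and `L, I \ L` as in `F2_le`. By `F5_llt` every `pz w L s ≤ sqrt (2/(π sg)) + η1/(2√N)`;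
by `F2_cast`, `F2_zero`, `F2_le`, `F2_scale` `0.35/√N ≤ pz y I 0 = pn x I 0 ≤
sqrt (2/(π sg)) + η1/(2√N)`; as `η1 ≤ 1/50`: `sqrt (2/(π sg)) ≥ 0.34/√N`, so
`sg ≤ 2N/(π 0.1156) ≤ 6N`. For `CR √N < |s - mn|`: `exp (-2 (s-mn)^2/sg) ≤ exp (-CR^2/3)` and
`sqrt (2/(π sg)) ≤ sqrt (4/(π N)) ≤ 2/√N` (as `sg ≥ |L| ≥ N/2`, nonzero integers), so
`pz w L s ≤ 2 exp (-CR^2/3)/√N + η1/(2√N) ≤ η1/√N`. -/
theorem D1_data (η1 : ℝ) (hη1 : 0 < η1) (hη1' : η1 ≤ 1 / 50) :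
    ∃ CR : ℝ, 0 < CR ∧ ∀ ε : ℝ, 0 < ε → ε ≤ 1 / 2 → ∃ K : ℕ, ∃ N0 : ℕ,
      ∀ (ι : Type) (I : Finset ι) (y : ι → ℤ), N0 ≤ I.card → (∀ j ∈ I, y j ≠ 0) →
      (35 / 100) / Real.sqrt I.card ≤ pz y I 0 →
      ∃ L ⊆ I, ∃ (g : ℤ) (w : ι → ℤ), g ≠ 0 ∧ (1 - ε) * I.card ≤ (L.card : ℝ) ∧
        (∀ j ∈ L, y j = g * w j ∧ w j ≠ 0 ∧ |w j| ≤ (K : ℤ)) ∧
        sg w L ≤ 6 * I.card ∧
        (∀ s : ℤ, pz w L s ≤ Real.sqrt (2 / (Real.pi * sg w L)) + η1 / Real.sqrt I.card) ∧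
        (∀ s : ℤ, CR * Real.sqrt I.card < |(s : ℝ) - mn w L| → pz w L s ≤ η1 / Real.sqrt I.card) := by
  have hCR0 : 0 < Real.sqrt (12 / η1) := Real.sqrt_pos.2 (by positivity)
  have hCR2 : Real.sqrt (12 / η1) ^ 2 = 12 / η1 := Real.sq_sqrt (by positivity)
  obtain ⟨CR, hCRd⟩ : ∃ CR, CR = Real.sqrt (12 / η1) := ⟨_, rfl⟩
  rw [← hCRd] at hCR0 hCR2
  refine ⟨CR, hCR0, fun ε hε hε2 => ?_⟩
  obtain ⟨K, δ, hδ, N1, h1⟩ := M7_structure (35 / 100) ε (by norm_num) hε (by linarith)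
  obtain ⟨N2, h2⟩ := F5_llt K δ (η1 / 2) hδ (by positivity)
  refine ⟨K, max (max N1 N2) 1, fun ι I y hN hy hP => ?_⟩
  have hN1 : N1 ≤ I.card := ((le_max_left _ _).trans (le_max_left _ _)).trans hN
  have hN2 : N2 ≤ I.card := ((le_max_right _ _).trans (le_max_left _ _)).trans hN
  have hN3 : 1 ≤ I.card := (le_max_right _ _).trans hN
  obtain ⟨L, hLI, g, w, hg, hLc, hw, hd, hgcd⟩ := h1 ι I y hN1 hy hP
  have hNR : (1 : ℝ) ≤ I.card := by exact_mod_cast hN3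
  have hN0 : (0 : ℝ) < I.card := by linarith
  have hLc2 : (I.card : ℝ) / 2 ≤ L.card := by nlinarith
  have hll := h2 I.card hN2 ι L w hLc2 (Finset.card_le_card hLI) (fun j hj => (hw j hj).2) hd hgcd
  have hsg1 : (L.card : ℝ) ≤ sg w L := by
    unfold sg
    rw [Finset.card_eq_sum_ones, Nat.cast_sum]
    refine Finset.sum_le_sum fun j hj => ?_
    have h3 := (hw j hj).2.1
    have h4 : (1 : ℤ) ≤ w j ^ 2 := by
      have := sq_pos_of_ne_zero h3
      omega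
    push_cast
    exact_mod_cast h4
  have hsgN : (I.card : ℝ) / 2 ≤ sg w L := hLc2.trans hsg1
  have hsg0 : 0 < sg w L := by linarith
  have hr : 0 < Real.sqrt (I.card : ℝ) := Real.sqrt_pos.2 hN0
  have hr2 : Real.sqrt (I.card : ℝ) ^ 2 = I.card := Real.sq_sqrt hN0.le
  have hq0 : 0 ≤ Real.sqrt (2 / (Real.pi * sg w L)) := Real.sqrt_nonneg _
  have hup : ∀ s : ℤ, pz w L s ≤ Real.sqrt (2 / (Real.pi * sg w L)) + η1 / 2 / Real.sqrt I.card := by
    intro s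
    have h3 := (abs_le.1 (hll s)).2
    have h4 : Real.exp (-2 * (s - mn w L) ^ 2 / sg w L) ≤ 1 := by
      rw [Real.exp_le_one_iff]
      apply div_nonpos_of_nonpos_of_nonneg _ hsg0.le
      nlinarith [sq_nonneg ((s : ℝ) - mn w L)]
    have h5 : Real.sqrt (2 / (Real.pi * sg w L)) * Real.exp (-2 * (s - mn w L) ^ 2 / sg w L) ≤
        Real.sqrt (2 / (Real.pi * sg w L)) := mul_le_of_le_one_right hq0 h4
    linarith
  have hA := d1_le I L y w g hg hLI (fun j hj => (hw j hj).1) _ (by positivity) hup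
  obtain ⟨hsg6, hq2⟩ := d1_num I.card (sg w L) η1 0 hNR hsgN hη1' (hP.trans hA)
  refine ⟨L, hLI, g, w, hg, hLc, hw, hsg6, fun s => ?_, fun s hs => ?_⟩
  · refine (hup s).trans (add_le_add_right ?_ _)
    exact div_le_div_of_nonneg_right (by linarith) hr.le
  · have h3 := (abs_le.1 (hll s)).2
    have h4 : Real.exp (-2 * (s - mn w L) ^ 2 / sg w L) ≤ η1 / 4 := by
      have h5 : CR ^ 2 * I.card ≤ (s - mn w L) ^ 2 := by
        rw [← hr2, ← mul_pow, ← sq_abs ((s : ℝ) - mn w L)]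
        exact pow_le_pow_left₀ (by positivity) hs.le 2
      have h6 : -2 * (s - mn w L) ^ 2 / sg w L ≤ -(4 / η1) := by
        rw [div_le_iff₀ hsg0]
        rw [hCR2] at h5
        have h7 : 4 / η1 * sg w L ≤ 4 / η1 * (6 * I.card) := mul_le_mul_of_nonneg_left hsg6 (by positivity)
        have h8 : 4 / η1 * (6 * (I.card : ℝ)) = 2 * (12 / η1 * I.card) := by ring
        linarith
      refine (Real.exp_le_exp.2 h6).trans ((d1_exp_le (by positivity)).trans (le_of_eq ?_))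
      field_simp
    have h9 : Real.sqrt (2 / (Real.pi * sg w L)) * Real.exp (-2 * (s - mn w L) ^ 2 / sg w L) ≤
        2 / Real.sqrt I.card * (η1 / 4) := mul_le_mul hq2 h4 (Real.exp_pos _).le (by positivity)
    have h10 : 2 / Real.sqrt (I.card : ℝ) * (η1 / 4) + η1 / 2 / Real.sqrt I.card = η1 / Real.sqrt I.card := by
      field_simp
      ring
    linarith

end H31Z
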