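import Pool.Agent.Lib.H31Z.Defs

/-!
Chunk B1: realisation of zero sums of prescribed size (pure combinatorics).
-/

namespace H31Z

open Finset

/-- subsets with prescribed numbers of elements of each value. PROOF: for each value `k` in the
image choose a subset of `{w = k}` of size `c k` (`Finset.exists_subset_card_eq`) and take the union
(`Finset.biUnion` over `L.image w`). -/
theorem B1_counts {ι : Type*} [DecidableEq ι] (L : Finset ι) (w : ι → ℤ) (c : ℤ → ℕ)
    (hc : ∀ k, c k ≤ (L.filter (fun j => w j = k)).card) :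
    ∃ B ⊆ L, (∀ k, (B.filter (fun j => w j = k)).card = c k) ∧
      B.card = ∑ k ∈ L.image w, c k ∧ ∑ j ∈ B, w j = ∑ k ∈ L.image w, (c k : ℤ) * k := by
  have h1 : ∀ k, ∃ S ⊆ L.filter (fun j => w j = k), S.card = c k :=
    fun k => Finset.exists_subset_card_eq (hc k)
  choose S hS hScard using h1
  set B := (L.image w).biUnion S with hB
  have hBL : B ⊆ L := by
    intro j hj
    rw [hB, Finset.mem_biUnion] at hj
    obtain ⟨k, _, hjk⟩ := hj
    exact (Finset.mem_filter.1 (hS k hjk)).1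
  have hfil : ∀ k, B.filter (fun j => w j = k) = S k := by
    intro k
    ext j
    rw [Finset.mem_filter, hB, Finset.mem_biUnion]
    constructor
    · rintro ⟨⟨k', _, hjk'⟩, hwj⟩
      have := (Finset.mem_filter.1 (hS k' hjk')).2
      rw [← hwj, this]
      exact hjk'
    · intro hj
      have := Finset.mem_filter.1 (hS k hj)
      refine ⟨⟨k, ?_, hj⟩, this.2⟩
      rw [Finset.mem_image]
      exact ⟨j, this.1, this.2⟩
  have hmaps : ∀ j ∈ B, w j ∈ L.image w := fun j hj => Finset.mem_image_of_mem _ (hBL hj)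
  refine ⟨B, hBL, fun k => by rw [hfil, hScard], ?_, ?_⟩
  · rw [Finset.card_eq_sum_card_fiberwise hmaps]
    apply Finset.sum_congr rfl
    intro k _
    rw [hfil, hScard]
  · rw [← Finset.sum_fiberwise_of_maps_to hmaps]
    apply Finset.sum_congr rfl
    intro k _
    have h2 : ∑ j ∈ B with w j = k, w j = ∑ j ∈ B with w j = k, k := by
      apply Finset.sum_congr rfl
      intro j hj
      exact (Finset.mem_filter.1 hj).2
    rw [h2, Finset.sum_const, nsmul_eq_mul, hfil, hScard]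

/-- a function with prescribed values at two places -/
def B1_c (a b : ℤ) (x y : ℕ) (g : ℤ → ℕ) : ℤ → ℕ :=
  fun k => if k = a then x else if k = b then y else g k

theorem B1_c1 (a b : ℤ) (x y : ℕ) (g : ℤ → ℕ) : B1_c a b x y g a = x := by
  unfold B1_c; rw [if_pos rfl]

theorem B1_c2 (a b : ℤ) (x y : ℕ) (g : ℤ → ℕ) (h : a ≠ b) : B1_c a b x y g b = y := by
  unfold B1_c; rw [if_neg h.symm, if_pos rfl]

theorem B1_c3 (a b : ℤ) (x y : ℕ) (g : ℤ → ℕ) (k : ℤ) (h : k ≠ a) (h' : k ≠ b) :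
    B1_c a b x y g k = g k := by
  unfold B1_c; rw [if_neg h, if_neg h']

theorem B1_split (T : Finset ℤ) (a b : ℤ) (ha : a ∈ T) (hb : b ∈ T) (hab : a ≠ b) {M : Type*}
    [AddCommMonoid M] (g : ℤ → M) :
    ∑ k ∈ T, g k = g a + (g b + ∑ k ∈ (T.erase a).erase b, g k) := by
  rw [← Finset.add_sum_erase T g ha, ← Finset.add_sum_erase (T.erase a) g
    (Finset.mem_erase.2 ⟨hab.symm, hb⟩)]

/-- PROOF. Let `n_k = #{j ∈ L : w j = k}`, `n_a = n_(a)`, `n_b = n_(-b)`, `e = gcd a b`, `h = (a+b)/e`.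
CASE 1: `m ≤ δ N`. `m = h q`. Take `q (b/e)` elements of value `a` and `q (a/e)` of value `-b`: the
sum is `0`, the number `q h = m`, and `q (b/e) ≤ q h = m ≤ δ N ≤ n_a`, similarly for `b`.
CASE 2: `m > δ N`. Let `ρ = m/|L|`; `ρ ≥ δ` (as `|L| ≤ N`), and `ρ ≤ (1-η)/(1-η/2) ≤ 1 - η/2`.
For `k ∉ {a, -b}` in the image let `c_k = (a+b) ⌊ρ n_k/(a+b)⌋ ≤ n_k`, `C = ∑ c_k`, `A = ∑ c_k k` over
these `k`; both are divisible by `a+b`. Put `c_a = (b(m - C) - A)/(a+b)`,
`c_b = (a(m - C) + A)/(a+b)`: integers, because `e h = a+b` divides `b m = e (b/e) m` (as `h ∣ m`) and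
`a m`. Then `c_a + c_b = m - C` and `a c_a - b c_b = -A`. Range: `C = ρ(|L| - n_a - n_b) + O(1)`,
`A = ρ(∑_L w - a n_a + b n_b) + O(1)` where `O(1)` is bounded by a constant depending on `K, K1`
(at most `2K+1` values, each rounding changes `c_k` by at most `a+b`, and `|k| ≤ K`), so
`c_a = ρ n_a - ρ (∑_L w)/(a+b) + O(1)`, `c_b = ρ n_b + ρ (∑_L w)/(a+b) + O(1)`. Now
`ρ n_a ≥ δ^2 N`, `(1-ρ) n_a ≥ (η/2) δ N`, and `|∑_L w|/(a+b) ≤ δ (min δ η) N/16`; so for large `N`
`0 ≤ c_a ≤ n_a` and `0 ≤ c_b ≤ n_b`. Apply `B1_counts`. -/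
theorem B1_realise (K K1 : ℕ) (δ η : ℝ) (hδ : 0 < δ) (hη : 0 < η) (hη1 : η ≤ 1) :
    ∃ N0 : ℕ, ∀ (ι : Type) (L : Finset ι) (w : ι → ℤ) (N : ℕ), N0 ≤ N → L.card ≤ N →
      (1 - η / 2) * N ≤ (L.card : ℝ) → (∀ j ∈ L, |w j| ≤ (K : ℤ)) →
      |∑ i ∈ L, (w i : ℝ)| ≤ δ * min δ η / 8 * N →
      ∀ a b : ℕ, 1 ≤ a → 1 ≤ b → a ≤ K1 → b ≤ K1 →
      δ * N ≤ ((L.filter (fun j => w j = (a : ℤ))).card : ℝ) →
      δ * N ≤ ((L.filter (fun j => w j = -(b : ℤ))).card : ℝ) →
      ∀ m : ℕ, (a + b) / Nat.gcd a b ∣ m → (m : ℝ) ≤ (1 - η) * N →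
        ∃ B ⊆ L, ∑ k ∈ B, w k = 0 ∧ B.card = m := by
  classical
  set E0 : ℝ := (2 * K + 1) * (K1 + K) with hE0
  have hE0n : 0 ≤ E0 := by positivity
  set N1 : ℝ := 2 * E0 / δ ^ 2 + 4 * E0 / (δ * η) with hN1
  refine ⟨⌈N1⌉₊ + 1, ?_⟩
  intro ι L w N hN hLN hLN2 hwK hW a b ha hb haK hbK hna hnb m hm hmN
  have hrA : (1 : ℝ) ≤ a := by exact_mod_cast ha
  have hrB : (1 : ℝ) ≤ b := by exact_mod_cast hb
  have hNr : N1 ≤ N := by
    have h1 := Nat.le_ceil N1
    have h2 : ((⌈N1⌉₊ + 1 : ℕ) : ℝ) ≤ N := by exact_mod_cast hN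
    push_cast at h2
    linarith
  have hN0 : (0 : ℝ) < N := by
    have : 0 < N := by omega
    exact_mod_cast this
  have hNa : 2 * E0 ≤ δ ^ 2 * N := by
    have h1 : 2 * E0 / δ ^ 2 ≤ N := by
      have : 0 ≤ 4 * E0 / (δ * η) := by positivity
      linarith
    rw [div_le_iff₀ (by positivity)] at h1
    linarith
  have hNb : 4 * E0 ≤ δ * η * N := by
    have h1 : 4 * E0 / (δ * η) ≤ N := by
      have : 0 ≤ 2 * E0 / δ ^ 2 := by positivity
      linarith
    rw [div_le_iff₀ (by positivity)] at h1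
    linarith
  set nn : ℤ → ℕ := fun k => (L.filter (fun j => w j = k)).card with hnn
  set T := L.image w with hT
  have hδN : 0 < δ * N := by positivity
  have hposmem : ∀ k : ℤ, 0 < nn k → k ∈ T := by
    intro k hk
    obtain ⟨j, hj⟩ := Finset.card_pos.1 hk
    rw [Finset.mem_filter] at hj
    rw [hT, Finset.mem_image]
    exact ⟨j, hj.1, hj.2⟩
  have hnna : δ * N ≤ (nn a : ℝ) := hna
  have hnnb : δ * N ≤ (nn (-b) : ℝ) := hnb
  have haT : (a : ℤ) ∈ T := hposmem _ (by
    have : (0 : ℝ) < nn a := lt_of_lt_of_le hδN hnna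
    exact_mod_cast this)
  have hbT : (-(b : ℤ)) ∈ T := hposmem _ (by
    have : (0 : ℝ) < nn (-b) := lt_of_lt_of_le hδN hnnb
    exact_mod_cast this)
  have hab : (a : ℤ) ≠ -(b : ℤ) := by omega
  set rest := (T.erase (a : ℤ)).erase (-(b : ℤ)) with hrest
  obtain ⟨e, he⟩ : ∃ e, e = Nat.gcd a b := ⟨_, rfl⟩
  have he0 : 0 < e := by rw [he]; exact Nat.gcd_pos_of_pos_left _ (by omega)
  obtain ⟨a', ha'⟩ : ∃ a', a = e * a' := by rw [he]; exact Nat.gcd_dvd_left a b
  obtain ⟨b', hb'⟩ : ∃ b', b = e * b' := by rw [he]; exact Nat.gcd_dvd_right a b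
  have hh : (a + b) / Nat.gcd a b = a' + b' := by
    rw [← he, ha', hb', ← mul_add]
    exact Nat.mul_div_cancel_left _ he0
  rw [hh] at hm
  obtain ⟨q, hq⟩ := hm
  clear hh he
  by_cases hcase : (m : ℝ) ≤ δ * N
  · -- case 1
    obtain ⟨c, hcdef⟩ : ∃ c : ℤ → ℕ, c = B1_c a (-b) (q * b') (q * a') (fun _ => 0) := ⟨_, rfl⟩
    have hca : c a = q * b' := by rw [hcdef, B1_c1]
    have hcb : c (-b) = q * a' := by rw [hcdef, B1_c2 _ _ _ _ _ hab]
    have hcrest : ∀ k ∈ rest, c k = 0 := by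
      intro k hk
      rw [hrest, Finset.mem_erase, Finset.mem_erase] at hk
      rw [hcdef, B1_c3 _ _ _ _ _ _ hk.2.1 hk.1]
    have hle : ∀ k, c k ≤ (L.filter (fun j => w j = k)).card := by
      intro k
      by_cases hka : k = a
      · rw [hka, hca]
        have h1 : ((q * b' : ℕ) : ℝ) ≤ nn a := by
          have h2 : ((q * b' : ℕ) : ℝ) ≤ m := by
            have : q * b' ≤ m := by rw [hq]; nlinarith
            exact_mod_cast this
          linarith
        exact_mod_cast h1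
      · by_cases hkb : k = -b
        · rw [hkb, hcb]
          have h1 : ((q * a' : ℕ) : ℝ) ≤ nn (-b) := by
            have h2 : ((q * a' : ℕ) : ℝ) ≤ m := by
              have : q * a' ≤ m := by rw [hq]; nlinarith
              exact_mod_cast this
            linarith
          exact_mod_cast h1
        · rw [hcdef, B1_c3 _ _ _ _ _ _ hka hkb]
          exact Nat.zero_le _
    obtain ⟨B, hBL, _, hBcard, hBsum⟩ := B1_counts L w c hle
    refine ⟨B, hBL, ?_, ?_⟩
    · rw [hBsum, B1_split T a (-b) haT hbT hab, hca, hcb, Finset.sum_eq_zero]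
      · rw [ha', hb']
        push_cast
        ring
      · intro k hk
        rw [hcrest k hk]
        simp
    · rw [hBcard, B1_split T a (-b) haT hbT hab, hca, hcb, Finset.sum_eq_zero hcrest, hq]
      ring
  · -- case 2
    push Not at hcase
    have hL0 : (0 : ℝ) < L.card := by
      have : (0 : ℝ) < (1 - η / 2) * N := mul_pos (by linarith) hN0
      linarith
    set ρ : ℝ := m / L.card with hρ
    have hρL : ρ * L.card = m := by rw [hρ]; exact div_mul_cancel₀ _ hL0.ne'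
    have hρ0 : 0 ≤ ρ := div_nonneg (Nat.cast_nonneg _) hL0.le
    have hLNr : (L.card : ℝ) ≤ N := by exact_mod_cast hLN
    have hρδ : δ ≤ ρ := by
      rw [hρ, le_div_iff₀ hL0]
      have : δ * L.card ≤ δ * N := by gcongr
      linarith
    have hρη : ρ ≤ 1 - η / 2 := by
      rw [hρ, div_le_iff₀ hL0]
      have h1 : (1 - η / 2) * ((1 - η / 2) * N) ≤ (1 - η / 2) * L.card := by
        apply mul_le_mul_of_nonneg_left hLN2
        linarith
      have h2 : (1 - η) * N ≤ (1 - η / 2) * ((1 - η / 2) * N) := by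
        have : 0 ≤ η ^ 2 / 4 * N := by positivity
        nlinarith
      linarith
    have hρ1 : ρ ≤ 1 := by linarith
    have hab0 : (0 : ℝ) < (a : ℝ) + b := by linarith
    obtain ⟨f, hf⟩ : ∃ f : ℤ → ℕ, ∀ k, f k = ⌊ρ * nn k / ((a : ℝ) + b)⌋₊ := ⟨_, fun _ => rfl⟩
    have hf1 : ∀ k, ((a : ℝ) + b) * f k ≤ ρ * nn k := by
      intro k
      have h1 := Nat.floor_le (by positivity : 0 ≤ ρ * nn k / ((a : ℝ) + b))
      rw [le_div_iff₀ hab0, ← hf] at h1
      linarith
    have hf2 : ∀ k, ρ * nn k - ((a : ℝ) + b) * f k ≤ (a : ℝ) + b := by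
      intro k
      have h1 := Nat.lt_floor_add_one (ρ * nn k / ((a : ℝ) + b))
      rw [div_lt_iff₀ hab0, ← hf] at h1
      linarith
    obtain ⟨C', hC'⟩ : ∃ C' : ℤ, C' = ∑ k ∈ rest, (f k : ℤ) := ⟨_, rfl⟩
    obtain ⟨A', hA'⟩ : ∃ A' : ℤ, A' = ∑ k ∈ rest, (f k : ℤ) * k := ⟨_, rfl⟩
    obtain ⟨ca, hcadef⟩ : ∃ ca : ℤ, ca = b' * q - b * C' - A' := ⟨_, rfl⟩
    obtain ⟨cb, hcbdef⟩ : ∃ cb : ℤ, cb = a' * q - a * C' + A' := ⟨_, rfl⟩
    -- real identities
    have hcardL : (L.card : ℝ) = nn a + (nn (-b) + ∑ k ∈ rest, (nn k : ℝ)) := by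
      have h1 : L.card = ∑ k ∈ T, nn k := Finset.card_eq_sum_card_image w L
      rw [h1, B1_split T a (-b) haT hbT hab]
      push_cast
      rfl
    have hsumW : ∑ i ∈ L, (w i : ℝ) = nn a * a + (nn (-b) * (-b) + ∑ k ∈ rest, (nn k : ℝ) * k) := by
      have h1 : ∑ i ∈ L, w i = ∑ k ∈ T, (nn k : ℤ) * k := by
        have hmaps : ∀ j ∈ L, w j ∈ T := fun j hj => Finset.mem_image_of_mem _ hj
        rw [← Finset.sum_fiberwise_of_maps_to hmaps]
        apply Finset.sum_congr rfl
        intro k _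
        have h2 : ∑ j ∈ L with w j = k, w j = ∑ j ∈ L with w j = k, k := by
          apply Finset.sum_congr rfl
          intro j hj
          exact (Finset.mem_filter.1 hj).2
        rw [h2, Finset.sum_const, nsmul_eq_mul]
      have h2 : ((∑ i ∈ L, w i : ℤ) : ℝ) = ((∑ k ∈ T, (nn k : ℤ) * k : ℤ) : ℝ) := by rw [h1]
      rw [B1_split T a (-b) haT hbT hab] at h2
      push_cast at h2
      exact h2
    set W : ℝ := ∑ i ∈ L, (w i : ℝ) with hWdef
    set R0 : ℝ := ∑ k ∈ rest, (ρ * nn k - ((a : ℝ) + b) * f k) with hR0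
    set R1 : ℝ := ∑ k ∈ rest, (ρ * nn k - ((a : ℝ) + b) * f k) * k with hR1
    have hR0' : R0 = ρ * ∑ k ∈ rest, (nn k : ℝ) - ((a : ℝ) + b) * C' := by
      rw [hR0, Finset.sum_sub_distrib, ← Finset.mul_sum, ← Finset.mul_sum, hC']
      push_cast
      rfl
    have hR1' : R1 = ρ * ∑ k ∈ rest, (nn k : ℝ) * k - ((a : ℝ) + b) * A' := by
      rw [hR1, hA']
      push_cast
      rw [Finset.mul_sum, Finset.mul_sum, ← Finset.sum_sub_distrib]
      apply Finset.sum_congr rfl
      intro k _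
      ring
    have hrestK : ∀ k ∈ rest, |(k : ℝ)| ≤ K := by
      intro k hk
      rw [hrest, Finset.mem_erase, Finset.mem_erase, hT, Finset.mem_image] at hk
      obtain ⟨j, hj, hjk⟩ := hk.2.2
      have := hwK j hj
      rw [hjk] at this
      exact_mod_cast this
    have hrestcard : (rest.card : ℝ) ≤ 2 * K + 1 := by
      have h1 : rest ⊆ Finset.Icc (-(K : ℤ)) K := by
        intro k hk
        rw [hrest, Finset.mem_erase, Finset.mem_erase, hT, Finset.mem_image] at hk
        obtain ⟨j, hj, hjk⟩ := hk.2.2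
        have := hwK j hj
        rw [hjk] at this
        rw [Finset.mem_Icc, ← abs_le]
        exact this
      have h2 := Finset.card_le_card h1
      rw [Int.card_Icc] at h2
      have h3 : rest.card ≤ 2 * K + 1 := by omega
      exact_mod_cast h3
    have hrk0 : ∀ k, 0 ≤ ρ * nn k - ((a : ℝ) + b) * f k := fun k => by linarith [hf1 k]
    have hR0a : |R0| ≤ (2 * K + 1) * ((a : ℝ) + b) := by
      rw [hR0]
      refine (Finset.abs_sum_le_sum_abs _ _).trans ?_
      calc ∑ k ∈ rest, |ρ * nn k - ((a : ℝ) + b) * f k|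
          ≤ ∑ k ∈ rest, ((a : ℝ) + b) := Finset.sum_le_sum fun k _ => by
            rw [abs_of_nonneg (hrk0 k)]; exact hf2 k
        _ = rest.card * ((a : ℝ) + b) := by rw [Finset.sum_const, nsmul_eq_mul]
        _ ≤ _ := by gcongr
    have hR1a : |R1| ≤ (2 * K + 1) * (((a : ℝ) + b) * K) := by
      rw [hR1]
      refine (Finset.abs_sum_le_sum_abs _ _).trans ?_
      calc ∑ k ∈ rest, |(ρ * nn k - ((a : ℝ) + b) * f k) * k|
          ≤ ∑ k ∈ rest, ((a : ℝ) + b) * K := Finset.sum_le_sum fun k hk => by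
            rw [abs_mul, abs_of_nonneg (hrk0 k)]
            exact mul_le_mul (hf2 k) (hrestK k hk) (abs_nonneg _) hab0.le
        _ = rest.card * (((a : ℝ) + b) * K) := by rw [Finset.sum_const, nsmul_eq_mul]
        _ ≤ _ := by gcongr
    have haK1 : (a : ℝ) ≤ K1 := by exact_mod_cast haK
    have hbK1 : (b : ℝ) ≤ K1 := by exact_mod_cast hbK
    have hmeq : (m : ℝ) = (a' + b') * q := by rw [hq]; push_cast; ring
    have har : (a : ℝ) = e * a' := by rw [ha']; push_cast; ring
    have hbr : (b : ℝ) = e * b' := by rw [hb']; push_cast; ring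
    have hbm : (b : ℝ) * m = ((a : ℝ) + b) * (b' * q) := by rw [hmeq, har, hbr]; ring
    have ham : (a : ℝ) * m = ((a : ℝ) + b) * (a' * q) := by rw [hmeq, har, hbr]; ring
    have hcaid : ((a : ℝ) + b) * (ca : ℝ) =
        ρ * ((a : ℝ) + b) * nn a - ρ * W + (b * R0 + R1) := by
      have h1 : ((a : ℝ) + b) * (ca : ℝ) =
          b * m - b * (((a : ℝ) + b) * C') - ((a : ℝ) + b) * A' := by
        rw [hbm, hcadef]; push_cast; ring
      have h2 : (m : ℝ) = ρ * (nn a + (nn (-b) + ∑ k ∈ rest, (nn k : ℝ))) := by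
        rw [← hcardL, hρL]
      rw [h1, hR0', hR1', hsumW, h2]
      ring
    have hcbid : ((a : ℝ) + b) * (cb : ℝ) =
        ρ * ((a : ℝ) + b) * nn (-b) + ρ * W + (a * R0 - R1) := by
      have h1 : ((a : ℝ) + b) * (cb : ℝ) =
          a * m - a * (((a : ℝ) + b) * C') + ((a : ℝ) + b) * A' := by
        rw [ham, hcbdef]; push_cast; ring
      have h2 : (m : ℝ) = ρ * (nn a + (nn (-b) + ∑ k ∈ rest, (nn k : ℝ))) := by
        rw [← hcardL, hρL]
      rw [h1, hR0', hR1', hsumW, h2]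
      ring
    have herr : ∀ x : ℝ, 0 ≤ x → x ≤ K1 → |x * R0| + |R1| ≤ ((a : ℝ) + b) * E0 := by
      intro x hx0 hxK
      rw [abs_mul, abs_of_nonneg hx0]
      have h1 : x * |R0| ≤ K1 * ((2 * K + 1) * ((a : ℝ) + b)) := by gcongr
      have h2 : ((a : ℝ) + b) * E0 = K1 * ((2 * K + 1) * ((a : ℝ) + b)) +
        (2 * K + 1) * (((a : ℝ) + b) * K) := by rw [hE0]; ring
      rw [h2]
      linarith
    have hab2 : (2 : ℝ) ≤ (a : ℝ) + b := by linarith
    have hWa : |ρ * W| ≤ ((a : ℝ) + b) * (δ * min δ η / 16 * N) := by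
      rw [abs_mul, abs_of_nonneg hρ0]
      have h0 : 0 ≤ δ * min δ η / 8 * N := (abs_nonneg _).trans hW
      calc ρ * |W| ≤ 1 * (δ * min δ η / 8 * N) := by gcongr
        _ = 2 * (δ * min δ η / 16 * N) := by ring
        _ ≤ ((a : ℝ) + b) * (δ * min δ η / 16 * N) := by
          apply mul_le_mul_of_nonneg_right hab2
          linarith
    have hmin1 : δ * min δ η / 16 * N ≤ δ ^ 2 / 16 * N := by
      have : min δ η ≤ δ := min_le_left _ _
      have h2 : δ * min δ η ≤ δ ^ 2 := by nlinarith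
      have h3 : δ * min δ η / 16 ≤ δ ^ 2 / 16 := by linarith
      exact mul_le_mul_of_nonneg_right h3 hN0.le
    have hmin2 : δ * min δ η / 16 * N ≤ δ * η / 16 * N := by
      have : min δ η ≤ η := min_le_right _ _
      have h2 : δ * min δ η ≤ δ * η := by nlinarith
      have h3 : δ * min δ η / 16 ≤ δ * η / 16 := by linarith
      exact mul_le_mul_of_nonneg_right h3 hN0.le
    -- general range statement
    have hrange : ∀ (z : ℤ) (n : ℕ) (s t : ℝ), δ * N ≤ (n : ℝ) →
        ((a : ℝ) + b) * (z : ℝ) = ρ * ((a : ℝ) + b) * n + s + t →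
        |s| ≤ ((a : ℝ) + b) * (δ * min δ η / 16 * N) → |t| ≤ ((a : ℝ) + b) * E0 →
        0 ≤ z ∧ z ≤ n := by
      intro z n s t hn hz hs ht
      rw [abs_le] at hs ht
      have hn0 : (0 : ℝ) ≤ n := Nat.cast_nonneg n
      constructor
      · have h1 : ρ * (n : ℝ) ≥ δ * (δ * N) := mul_le_mul hρδ hn (by positivity) hρ0
        have h2 : 0 ≤ ((a : ℝ) + b) * (z : ℝ) := by
          have h3 : ((a : ℝ) + b) * (δ * (δ * N)) ≤ ρ * ((a : ℝ) + b) * n := by
            calc ((a : ℝ) + b) * (δ * (δ * N)) ≤ ((a : ℝ) + b) * (ρ * n) := by gcongr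
              _ = _ := by ring
          have h4 : 0 ≤ ((a : ℝ) + b) * (δ * (δ * N) - δ * min δ η / 16 * N - E0) := by
            apply mul_nonneg hab0.le
            have e1 : δ * (δ * (N : ℝ)) = δ ^ 2 * N := by ring
            have e2 : 0 < δ ^ 2 * (N : ℝ) := by positivity
            have e3 : δ ^ 2 / 16 * (N : ℝ) = δ ^ 2 * N / 16 := by ring
            rw [e1]
            rw [e3] at hmin1
            linarith only [hmin1, hNa, e2]
          rw [hz]
          linarith only [h3, h4, hs.1, ht.1]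
        have h5 : (0 : ℝ) ≤ z := nonneg_of_mul_nonneg_right h2 hab0
        exact_mod_cast h5
      · have h1 : (1 - ρ) * (n : ℝ) ≥ η / 2 * (δ * N) :=
          mul_le_mul (by linarith) hn (by positivity) (by linarith)
        have h2 : 0 ≤ ((a : ℝ) + b) * ((n : ℝ) - z) := by
          have h3 : ((a : ℝ) + b) * (η / 2 * (δ * N)) ≤ ((a : ℝ) + b) * ((1 - ρ) * n) := by gcongr
          have h4 : 0 ≤ ((a : ℝ) + b) * (η / 2 * (δ * N) - δ * min δ η / 16 * N - E0) := by
            apply mul_nonneg hab0.le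
            have e1 : η / 2 * (δ * (N : ℝ)) = δ * η * N / 2 := by ring
            have e2 : 0 < δ * η * (N : ℝ) := by positivity
            have e3 : δ * η / 16 * (N : ℝ) = δ * η * N / 16 := by ring
            rw [e1]
            rw [e3] at hmin2
            linarith only [hmin2, hNb, e2]
          have e5 : ((a : ℝ) + b) * ((n : ℝ) - z) =
              ((a : ℝ) + b) * ((1 - ρ) * n) - s - t := by
            have : ((a : ℝ) + b) * ((n : ℝ) - z) = ((a : ℝ) + b) * n - ((a : ℝ) + b) * z := by ring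
            rw [this, hz]; ring
          rw [e5]
          linarith only [h3, h4, hs.2, ht.2]
        have h5 : (0 : ℝ) ≤ (n : ℝ) - z := nonneg_of_mul_nonneg_right h2 hab0
        have h6 : (z : ℝ) ≤ n := by linarith
        exact_mod_cast h6
    have hcar := hrange ca (nn a) (-(ρ * W)) (b * R0 + R1) hnna (by rw [hcaid]; ring)
      (by rw [abs_neg]; exact hWa)
      ((abs_add_le _ _).trans (herr b (Nat.cast_nonneg _) hbK1))
    have hcbr := hrange cb (nn (-b)) (ρ * W) (a * R0 - R1) hnnb (by rw [hcbid])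
      hWa ((abs_sub _ _).trans (herr a (Nat.cast_nonneg _) haK1))
    obtain ⟨c, hcdef⟩ : ∃ c : ℤ → ℕ,
      c = B1_c a (-b) ca.toNat cb.toNat (fun k => (a + b) * f k) := ⟨_, rfl⟩
    have hca : c a = ca.toNat := by rw [hcdef, B1_c1]
    have hcb : c (-b) = cb.toNat := by rw [hcdef, B1_c2 _ _ _ _ _ hab]
    have hcrest : ∀ k ∈ rest, c k = (a + b) * f k := by
      intro k hk
      rw [hrest, Finset.mem_erase, Finset.mem_erase] at hk
      rw [hcdef, B1_c3 _ _ _ _ _ _ hk.2.1 hk.1]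
    have hle : ∀ k, c k ≤ (L.filter (fun j => w j = k)).card := by
      intro k
      by_cases hka : k = a
      · rw [hka, hca]
        have : ca ≤ nn a := hcar.2
        have h2 : (L.filter (fun j => w j = (a : ℤ))).card = nn a := rfl
        rw [h2]
        omega
      · by_cases hkb : k = -b
        · rw [hkb, hcb]
          have : cb ≤ nn (-b) := hcbr.2
          have h2 : (L.filter (fun j => w j = -(b : ℤ))).card = nn (-b) := rfl
          rw [h2]
          omega
        · have hck : c k = (a + b) * f k := by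
            rw [hcdef, B1_c3 _ _ _ _ _ _ hka hkb]
          rw [hck]
          have h1 := hf1 k
          have h2 : ρ * (nn k : ℝ) ≤ nn k := mul_le_of_le_one_left (Nat.cast_nonneg _) hρ1
          have h3 : (((a + b) * f k : ℕ) : ℝ) ≤ (nn k : ℝ) := by
            push_cast
            linarith
          exact_mod_cast h3
    obtain ⟨B, hBL, _, hBcard, hBsum⟩ := B1_counts L w c hle
    have hca' : ((ca.toNat : ℕ) : ℤ) = ca := Int.toNat_of_nonneg hcar.1
    have hcb' : ((cb.toNat : ℕ) : ℤ) = cb := Int.toNat_of_nonneg hcbr.1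
    refine ⟨B, hBL, ?_, ?_⟩
    · rw [hBsum, B1_split T a (-b) haT hbT hab, hca, hcb, hca', hcb']
      have h1 : ∑ k ∈ rest, (c k : ℤ) * k = ((a : ℤ) + b) * A' := by
        rw [hA', Finset.mul_sum]
        apply Finset.sum_congr rfl
        intro k hk
        rw [hcrest k hk]
        push_cast
        ring
      have haz : (a : ℤ) = e * a' := by rw [← Nat.cast_mul, ← ha']
      have hbz : (b : ℤ) = e * b' := by rw [← Nat.cast_mul, ← hb']
      rw [h1, hcadef, hcbdef]
      linear_combination (q : ℤ) * b' * haz - (q : ℤ) * a' * hbz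
    · have h1 : ((B.card : ℕ) : ℤ) = (m : ℤ) := by
        rw [hBcard, B1_split T a (-b) haT hbT hab, hca, hcb]
        push_cast
        rw [hca', hcb']
        have h1 : ∑ k ∈ rest, (c k : ℤ) = ((a : ℤ) + b) * C' := by
          rw [hC', Finset.mul_sum]
          apply Finset.sum_congr rfl
          intro k hk
          rw [hcrest k hk]
          push_cast
          ring
        rw [h1, hcadef, hcbdef, hq]
        push_cast
        ring
      exact_mod_cast h1

end H31Z
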