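import Pool.Agent.Lib.H31Z.D2
import Pool.Agent.Lib.H31Z.B1

/-!
Chunk D3: the very abundant part and the dichotomy.
-/

namespace H31Z

open Finset

theorem D3_sum_split {ι : Type*} [DecidableEq ι] (w : ι → ℤ) (L V : Finset ι) (hV : V ⊆ L) :
    |∑ i ∈ V, (w i : ℝ)| ≤ |∑ i ∈ L, (w i : ℝ)| + ∑ i ∈ L \ V, |(w i : ℝ)| := by
  have h1 : ∑ i ∈ V, (w i : ℝ) = ∑ i ∈ L, (w i : ℝ) - ∑ i ∈ L \ V, (w i : ℝ) := by
    rw [← Finset.sum_sdiff hV]
    ring
  rw [h1]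
  refine (abs_sub _ _).trans ?_
  gcongr
  exact Finset.abs_sum_le_sum_abs _ _

theorem D3_rare {ι : Type*} (w : ι → ℤ) (L R : Finset ι) (K1 : ℕ) (A : ℝ) (hA : 0 ≤ A)
    (hRL : R ⊆ L) (hR : ∀ j ∈ R, w j ≠ 0 ∧ |w j| ≤ (K1 : ℤ) ∧
      ((L.filter (fun i => w i = w j)).card : ℝ) ≤ A) : (R.card : ℝ) ≤ 2 * K1 * A := by
  classical
  set S : Finset ℤ := (Finset.Icc (-(K1 : ℤ)) (K1 : ℤ)).erase 0 with hS
  have hcard : S.card = 2 * K1 := by
    rw [hS, Finset.card_erase_of_mem (by simp), Int.card_Icc]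
    omega
  have hmaps : ∀ j ∈ R, w j ∈ S := by
    intro j hj
    obtain ⟨h1, h2, -⟩ := hR j hj
    rw [hS, Finset.mem_erase, Finset.mem_Icc]
    exact ⟨h1, abs_le.1 h2⟩
  have h1 := Finset.card_eq_sum_card_fiberwise (f := w) (s := R) (t := S) hmaps
  rw [h1]
  push_cast
  have h2 : ∀ k ∈ S, ((R.filter (fun j => w j = k)).card : ℝ) ≤ A := by
    intro k _
    by_cases he : R.filter (fun j => w j = k) = ∅
    · rw [he, Finset.card_empty, Nat.cast_zero]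
      exact hA
    · obtain ⟨j, hj⟩ := Finset.nonempty_iff_ne_empty.2 he
      rw [Finset.mem_filter] at hj
      obtain ⟨-, -, h3⟩ := hR j hj.1
      refine le_trans ?_ h3
      have h4 : R.filter (fun i => w i = k) ⊆ L.filter (fun i => w i = w j) := by
        intro i hi
        rw [Finset.mem_filter] at hi ⊢
        exact ⟨hRL hi.1, by rw [hi.2, hj.2]⟩
      exact_mod_cast Finset.card_le_card h4
  refine (Finset.sum_le_card_nsmul S _ A h2).trans ?_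
  rw [hcard, nsmul_eq_mul]
  push_cast
  exact le_refl _

/-- PROOF. Let `V = VA w L K1 δ N`. `L \ V` is contained in the union of `{|w| > K1}` and of the rare
values `k`, `|k| ≤ K1`, `k ≠ 0`, each taken less than `δ N` times (at most `2 K1` values).
`#{|w| > K1} ≤ sg/K1^2 ≤ 6N/K1^2`, `∑_{|w| > K1} |w| ≤ sg/K1 ≤ 6N/K1`; the rare ones contribute at
most `2 K1 δ N` to the number and `2 K1^2 δ N` to `∑ |w|`. As `48 ≤ η K1` (so `6/K1 ≤ η/8`) and
`δ ≤ η/(16 K1^2)` (so `2 K1^2 δ ≤ η/8`) both totals are at most `(η/4) N`. With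
`|L| ≥ (1 - η/4) N` and `|∑_L w| ≤ (η/4) N` the claims follow. -/
theorem D3_va {ι : Type*} (w : ι → ℤ) (L : Finset ι) (K1 : ℕ) (δ η : ℝ) (N : ℕ) (hK : 1 ≤ K1)
    (hδ : 0 < δ) (hη : 0 < η) (h1 : 48 ≤ η * K1) (h2 : δ * (16 * (K1 : ℝ) ^ 2) ≤ η)
    (hw : ∀ j ∈ L, w j ≠ 0) (hsg : sg w L ≤ 6 * N) (hL : (1 - η / 4) * N ≤ (L.card : ℝ))
    (hs : |∑ i ∈ L, (w i : ℝ)| ≤ η / 4 * N) :
    (1 - η) * N ≤ ((VA w L K1 δ N).card : ℝ) ∧
      |∑ i ∈ VA w L K1 δ N, (w i : ℝ)| ≤ η * N := by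
  classical
  set V := VA w L K1 δ N with hVdef
  have hVL : V ⊆ L := by
    rw [hVdef]
    unfold VA
    exact Finset.filter_subset _ _
  have hK1 : (1 : ℝ) ≤ (K1 : ℝ) := by exact_mod_cast hK
  have hN : (0 : ℝ) ≤ (N : ℝ) := Nat.cast_nonneg N
  set H : Finset ι := (L \ V).filter (fun j => (K1 : ℤ) < |w j|) with hH
  set R : Finset ι := (L \ V).filter (fun j => ¬ (K1 : ℤ) < |w j|) with hR
  have hHL : H ⊆ L := (Finset.filter_subset _ _).trans Finset.sdiff_subset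
  have hRL : R ⊆ L := (Finset.filter_subset _ _).trans Finset.sdiff_subset
  have hHw : ∀ j ∈ H, (K1 : ℝ) ≤ |(w j : ℝ)| := by
    intro j hj
    rw [hH, Finset.mem_filter] at hj
    have h3 : (K1 : ℤ) ≤ |w j| := hj.2.le
    exact_mod_cast h3
  have hsgH : ∑ j ∈ H, (w j : ℝ) ^ 2 ≤ 6 * N := by
    refine le_trans ?_ hsg
    unfold sg
    exact Finset.sum_le_sum_of_subset_of_nonneg hHL fun _ _ _ => sq_nonneg _
  have hH2 : (K1 : ℝ) * ∑ j ∈ H, |(w j : ℝ)| ≤ 6 * N := by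
    rw [Finset.mul_sum]
    refine le_trans (Finset.sum_le_sum fun j hj => ?_) hsgH
    have h3 := hHw j hj
    rw [← sq_abs]
    nlinarith [abs_nonneg (w j : ℝ)]
  have hH1 : (K1 : ℝ) * (H.card : ℝ) ≤ 6 * N := by
    refine le_trans ?_ hH2
    have h3 : (H.card : ℝ) ≤ ∑ j ∈ H, |(w j : ℝ)| := by
      rw [Finset.card_eq_sum_ones, Nat.cast_sum]
      refine Finset.sum_le_sum fun j hj => ?_
      rw [Nat.cast_one]
      exact hK1.trans (hHw j hj)
    exact mul_le_mul_of_nonneg_left h3 (by linarith)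
  have hq : ∀ X : ℝ, 0 ≤ X → (K1 : ℝ) * X ≤ 6 * N → X ≤ η / 8 * N := by
    intro X _ hX
    have h3 : 48 * N ≤ η * K1 * N := mul_le_mul_of_nonneg_right h1 hN
    have h4 : (0 : ℝ) < K1 := by linarith
    have h5 : (K1 : ℝ) * X ≤ (K1 : ℝ) * (η / 8 * N) := by nlinarith
    exact le_of_mul_le_mul_left h5 h4
  have hHc : (H.card : ℝ) ≤ η / 8 * N := hq _ (Nat.cast_nonneg _) hH1
  have hHs : ∑ j ∈ H, |(w j : ℝ)| ≤ η / 8 * N :=
    hq _ (Finset.sum_nonneg fun _ _ => abs_nonneg _) hH2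
  have hR1 : ∀ j ∈ R, w j ≠ 0 ∧ |w j| ≤ (K1 : ℤ) ∧
      ((L.filter (fun i => w i = w j)).card : ℝ) ≤ δ * N := by
    intro j hj
    rw [hR, Finset.mem_filter, Finset.mem_sdiff] at hj
    obtain ⟨⟨hjL, hjV⟩, hjK⟩ := hj
    have hjK' : |w j| ≤ (K1 : ℤ) := not_lt.1 hjK
    refine ⟨hw j hjL, hjK', ?_⟩
    by_contra hcon
    push Not at hcon
    apply hjV
    rw [hVdef]
    unfold VA
    rw [Finset.mem_filter]
    refine ⟨hjL, hjK', ?_⟩
    refine hcon.le.trans (le_of_eq ?_)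
    congr 2
  have hδN : 0 ≤ δ * N := by positivity
  have hRc := D3_rare w L R K1 (δ * N) hδN hRL hR1
  have hKK : 2 * (K1 : ℝ) ^ 2 * (δ * N) ≤ η / 8 * N := by
    have h3 := mul_le_mul_of_nonneg_right h2 hN
    nlinarith
  have hRK : (K1 : ℝ) * (R.card : ℝ) ≤ η / 8 * N := by
    refine le_trans (mul_le_mul_of_nonneg_left hRc (by linarith)) (le_trans (le_of_eq ?_) hKK)
    ring
  have hRc' : (R.card : ℝ) ≤ η / 8 * N := by
    refine le_trans ?_ hRK
    nlinarith [Nat.cast_nonneg (α := ℝ) R.card]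
  have hRs : ∑ j ∈ R, |(w j : ℝ)| ≤ η / 8 * N := by
    refine le_trans ?_ hRK
    refine (Finset.sum_le_card_nsmul R _ (K1 : ℝ) fun j hj => ?_).trans ?_
    · exact_mod_cast (hR1 j hj).2.1
    · rw [nsmul_eq_mul, mul_comm]
  have hcardLV : ((L \ V).card : ℝ) ≤ η / 4 * N := by
    have h3 : H.card + R.card = (L \ V).card := by
      rw [hH, hR]
      exact Finset.card_filter_add_card_filter_not _
    rw [← h3]
    push_cast
    linarith
  have hsumLV : ∑ j ∈ L \ V, |(w j : ℝ)| ≤ η / 4 * N := by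
    rw [← Finset.sum_filter_add_sum_filter_not (L \ V) (fun j => (K1 : ℤ) < |w j|)]
    linarith
  have hcV : ((L \ V).card : ℝ) + (V.card : ℝ) = (L.card : ℝ) := by
    exact_mod_cast Finset.card_sdiff_add_card_eq_card hVL
  have hηN : 0 ≤ η * N := by positivity
  constructor
  · nlinarith
  · have h3 := D3_sum_split w L V hVL
    nlinarith

/-- THE DICHOTOMY. PROOF. Given `η`: `C7` from `D2_data η`; `K1 = ⌈48/η⌉`, `δ = η/(16 K1^2)`;
`ε ≤ 1/2` positive with `ε ≤ η/4` and `3 sqrt (ε C7) ≤ min (η/4) (δ * min δ η/8)`; `K, N0` from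
`D2_data` for this `ε`, and `N0` also from `B1_realise K K1 δ η`. In the second alternative of
`D2_data` all fields of `Bal` hold: `card`, `sgle`, `prob` directly; `vacard`, `vasum` by `D3_va`;
`real`: for `i, j ∈ VA` put `a = w i`, `b = -w j` (`natAbs`), at least `δ N` indices have weight `a`,
resp. `-b`, and `B1_realise` applies (`L.card ≤ N`, `(1-η/2) N ≤ L.card`). -/
theorem D3_dich (η : ℝ) (hη : 0 < η) (hη' : η ≤ 1 / 100) :
    ∃ (K1 : ℕ) (δ : ℝ) (N0 : ℕ), 1 ≤ K1 ∧ 0 < δ ∧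
      ∀ (ι : Type) (I : Finset ι) (y : ι → ℤ), N0 ≤ I.card → (∀ j ∈ I, y j ≠ 0) →
      pz y I 0 ≤ (1 / 2 + η) * Real.sqrt (2 / (Real.pi * I.card)) ∨
      ∃ (L : Finset ι) (g : ℤ) (w : ι → ℤ), Bal η K1 δ I y L g w := by
  obtain ⟨C7, hC7, hD2⟩ := D2_data η hη hη'
  set K1 : ℕ := ⌈48 / η⌉₊ with hK1def
  have hK1 : 1 ≤ K1 := Nat.one_le_iff_ne_zero.2 (Nat.ceil_pos.2 (by positivity)).ne'
  have hK1r : 48 / η ≤ (K1 : ℝ) := Nat.le_ceil _
  have hK1p : (0 : ℝ) < (K1 : ℝ) := by exact_mod_cast hK1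
  have h48 : 48 ≤ η * K1 := by
    rw [div_le_iff₀ hη] at hK1r
    linarith
  set δ : ℝ := η / (16 * (K1 : ℝ) ^ 2) with hδdef
  have hδ : 0 < δ := by positivity
  have hδ2 : δ * (16 * (K1 : ℝ) ^ 2) ≤ η := by
    rw [hδdef, div_mul_cancel₀ _ (by positivity)]
  have hmin : 0 < min δ η := lt_min hδ hη
  set τ : ℝ := min (η / 4) (δ * min δ η / 8) with hτdef
  have hτ : 0 < τ := lt_min (by positivity) (by positivity)
  set ε : ℝ := min (1 / 2) (min (η / 4) (τ ^ 2 / (9 * C7))) with hεdef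
  have hε : 0 < ε := lt_min (by norm_num) (lt_min (by positivity) (by positivity))
  have hε1 : ε ≤ 1 / 2 := min_le_left _ _
  have hε2 : ε ≤ η / 4 := (min_le_right _ _).trans (min_le_left _ _)
  have hε3 : ε ≤ τ ^ 2 / (9 * C7) := (min_le_right _ _).trans (min_le_right _ _)
  have hsqrt : 3 * Real.sqrt (ε * C7) ≤ τ := by
    have h1 : ε * C7 ≤ (τ / 3) ^ 2 := by
      rw [le_div_iff₀ (by positivity)] at hε3
      nlinarith
    have h2 : Real.sqrt (ε * C7) ≤ τ / 3 := Real.sqrt_le_iff.2 ⟨by positivity, h1⟩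
    linarith
  obtain ⟨K, N1, hK⟩ := hD2 ε hε hε1
  obtain ⟨N2, hB⟩ := B1_realise K K1 δ η hδ hη (by linarith)
  refine ⟨K1, δ, max N1 N2, hK1, hδ, ?_⟩
  intro ι I y hN hy
  rcases hK ι I y ((le_max_left _ _).trans hN) hy with h | ⟨L, hLI, g, w, hg, hcard, heq, hsg, hsum, hprob⟩
  · exact Or.inl h
  · right
    have hN0 : (0 : ℝ) ≤ (I.card : ℝ) := Nat.cast_nonneg _
    have hsum' : |∑ i ∈ L, (w i : ℝ)| ≤ τ * I.card :=
      hsum.trans (mul_le_mul_of_nonneg_right hsqrt hN0)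
    have hs1 : |∑ i ∈ L, (w i : ℝ)| ≤ η / 4 * I.card :=
      hsum'.trans (mul_le_mul_of_nonneg_right (min_le_left _ _) hN0)
    have hs2 : |∑ i ∈ L, (w i : ℝ)| ≤ δ * min δ η / 8 * I.card :=
      hsum'.trans (mul_le_mul_of_nonneg_right (min_le_right _ _) hN0)
    have hc1 : (1 - η / 4) * (I.card : ℝ) ≤ (L.card : ℝ) :=
      le_trans (mul_le_mul_of_nonneg_right (by linarith) hN0) hcard
    have hva := D3_va w L K1 δ η I.card hK1 hδ hη h48 hδ2 (fun j hj => (heq j hj).2.1) hsg hc1 hs1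
    refine ⟨L, g, w, ⟨hLI, hg, fun j hj => ⟨(heq j hj).1, (heq j hj).2.1⟩, ?_, hsg, hprob, hva.1,
      hva.2, ?_⟩⟩
    · exact le_trans (mul_le_mul_of_nonneg_right (by linarith) hN0) hcard
    · intro i hi j hj hwi hwj m hm hmN
      unfold VA at hi hj
      rw [Finset.mem_filter] at hi hj
      have ha : ((w i).natAbs : ℤ) = w i := Int.natAbs_of_nonneg hwi.le
      have hb : -((w j).natAbs : ℤ) = w j := by
        rw [Int.ofNat_natAbs_of_nonpos hwj.le, neg_neg]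
      refine hB ι L w I.card ((le_max_right _ _).trans hN) (Finset.card_le_card hLI) ?_
        (fun j hj => (heq j hj).2.2) hs2 (w i).natAbs (w j).natAbs ?_ ?_ ?_ ?_ ?_ ?_ m hm hmN
      · exact le_trans (mul_le_mul_of_nonneg_right (by linarith) hN0) hc1
      · omega
      · omega
      · have := hi.2.1
        rw [abs_of_pos hwi] at this
        omega
      · have := hj.2.1
        rw [abs_of_neg hwj] at this
        omega
      · rw [ha]
        refine hi.2.2.trans (le_of_eq ?_)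
        congr 2
      · rw [hb]
        refine hj.2.2.trans (le_of_eq ?_)
        congr 2

end H31Z
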