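import Pool.Agent.Lib.H31Z.Defs

/-!
Chunk T1: one variable inequalities for the cosine (pure Mathlib).
-/

namespace H31Z

theorem T1_nonneg (f f' : ℝ → ℝ) (hf : ∀ x, HasDerivAt f (f' x) x) (h0 : 0 ≤ f 0)
    (hp : ∀ x, 0 ≤ x → 0 ≤ f' x) (x : ℝ) (hx : 0 ≤ x) : 0 ≤ f x := by
  have hm : MonotoneOn f (Set.Ici 0) := by
    apply monotoneOn_of_deriv_nonneg (convex_Ici 0)
    · exact (continuous_iff_continuousAt.2 fun y => (hf y).continuousAt).continuousOn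
    · intro y _
      exact (hf y).differentiableAt.differentiableWithinAt
    · intro y hy
      rw [(hf y).deriv]
      rw [interior_Ici] at hy
      exact hp y (le_of_lt hy)
  exact h0.trans (hm (Set.mem_Ici.2 le_rfl) (Set.mem_Ici.2 hx) hx)

theorem T1_sin3 (v : ℝ) (hv : 0 ≤ v) : 0 ≤ Real.sin v - (v - v ^ 3 / 6) := by
  apply T1_nonneg (fun v => Real.sin v - (v - v ^ 3 / 6)) (fun v => Real.cos v - (1 - v ^ 2 / 2))
    _ _ _ v hv
  · intro x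
    have h := (Real.hasDerivAt_sin x).sub ((hasDerivAt_id x).sub
      ((hasDerivAt_pow 3 x).div_const 6))
    refine h.congr_deriv ?_
    norm_num
    try ring
  · simp
  · intro x _
    have := Real.one_sub_sq_div_two_le_cos (x := x)
    linarith

theorem T1_cos4 (v : ℝ) (hv : 0 ≤ v) : 0 ≤ 1 - v ^ 2 / 2 + v ^ 4 / 24 - Real.cos v := by
  apply T1_nonneg (fun v => 1 - v ^ 2 / 2 + v ^ 4 / 24 - Real.cos v)
    (fun v => Real.sin v - (v - v ^ 3 / 6)) _ _ (fun x hx => T1_sin3 x hx) v hv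
  · intro x
    have h := ((((hasDerivAt_const x (1 : ℝ)).sub ((hasDerivAt_pow 2 x).div_const 2)).add
      ((hasDerivAt_pow 4 x).div_const 24))).sub (Real.hasDerivAt_cos x)
    refine h.congr_deriv ?_
    norm_num
    try ring
  · simp

theorem T1_sin5 (v : ℝ) (hv : 0 ≤ v) : 0 ≤ v - v ^ 3 / 6 + v ^ 5 / 120 - Real.sin v := by
  apply T1_nonneg (fun v => v - v ^ 3 / 6 + v ^ 5 / 120 - Real.sin v)
    (fun v => 1 - v ^ 2 / 2 + v ^ 4 / 24 - Real.cos v) _ _ (fun x hx => T1_cos4 x hx) v hv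
  · intro x
    have h := ((((hasDerivAt_id x).sub ((hasDerivAt_pow 3 x).div_const 6)).add
      ((hasDerivAt_pow 5 x).div_const 120))).sub (Real.hasDerivAt_sin x)
    refine h.congr_deriv ?_
    norm_num
    try ring
  · simp

theorem T1_cos6 (v : ℝ) (hv : 0 ≤ v) :
    0 ≤ Real.cos v - (1 - v ^ 2 / 2 + v ^ 4 / 24 - v ^ 6 / 720) := by
  apply T1_nonneg (fun v => Real.cos v - (1 - v ^ 2 / 2 + v ^ 4 / 24 - v ^ 6 / 720))
    (fun v => v - v ^ 3 / 6 + v ^ 5 / 120 - Real.sin v) _ _ (fun x hx => T1_sin5 x hx) v hv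
  · intro x
    have h := (Real.hasDerivAt_cos x).sub (((((hasDerivAt_const x (1 : ℝ)).sub
      ((hasDerivAt_pow 2 x).div_const 2)).add
      ((hasDerivAt_pow 4 x).div_const 24))).sub ((hasDerivAt_pow 6 x).div_const 720))
    refine h.congr_deriv ?_
    norm_num
    try ring
  · simp

theorem T1_hexp (x : ℝ) : HasDerivAt (fun v : ℝ => Real.exp (-v)) (-Real.exp (-x)) x := by
  have h := (Real.hasDerivAt_exp (-x)).comp x (hasDerivAt_neg x)
  refine h.congr_deriv ?_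
  ring

theorem T1_exp1 (v : ℝ) : 0 ≤ Real.exp (-v) - (1 - v) := by
  have := Real.add_one_le_exp (-v)
  linarith

theorem T1_exp2 (v : ℝ) (hv : 0 ≤ v) : 0 ≤ 1 - v + v ^ 2 / 2 - Real.exp (-v) := by
  apply T1_nonneg (fun v => 1 - v + v ^ 2 / 2 - Real.exp (-v))
    (fun v => Real.exp (-v) - (1 - v)) _ _ (fun x _ => T1_exp1 x) v hv
  · intro x
    have h := (((hasDerivAt_const x (1 : ℝ)).sub (hasDerivAt_id x)).add
      ((hasDerivAt_pow 2 x).div_const 2)).sub (T1_hexp x)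
    refine h.congr_deriv ?_
    norm_num
    try ring
  · simp

theorem T1_exp3 (v : ℝ) (hv : 0 ≤ v) : 0 ≤ Real.exp (-v) - (1 - v + v ^ 2 / 2 - v ^ 3 / 6) := by
  apply T1_nonneg (fun v => Real.exp (-v) - (1 - v + v ^ 2 / 2 - v ^ 3 / 6))
    (fun v => 1 - v + v ^ 2 / 2 - Real.exp (-v)) _ _ (fun x hx => T1_exp2 x hx) v hv
  · intro x
    have h := (T1_hexp x).sub ((((hasDerivAt_const x (1 : ℝ)).sub (hasDerivAt_id x)).add
      ((hasDerivAt_pow 2 x).div_const 2)).sub ((hasDerivAt_pow 3 x).div_const 6))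
    refine h.congr_deriv ?_
    norm_num
    try ring
  · simp

theorem T1_exp4 (v : ℝ) (hv : 0 ≤ v) :
    0 ≤ 1 - v + v ^ 2 / 2 - v ^ 3 / 6 + v ^ 4 / 24 - Real.exp (-v) := by
  apply T1_nonneg (fun v => 1 - v + v ^ 2 / 2 - v ^ 3 / 6 + v ^ 4 / 24 - Real.exp (-v))
    (fun v => Real.exp (-v) - (1 - v + v ^ 2 / 2 - v ^ 3 / 6)) _ _ (fun x hx => T1_exp3 x hx) v hv
  · intro x
    have h := (((((hasDerivAt_const x (1 : ℝ)).sub (hasDerivAt_id x)).add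
      ((hasDerivAt_pow 2 x).div_const 2)).sub ((hasDerivAt_pow 3 x).div_const 6)).add
      ((hasDerivAt_pow 4 x).div_const 24)).sub (T1_hexp x)
    refine h.congr_deriv ?_
    norm_num
    try ring
  · simp

/-- PROOF: `cos v ≤ 1 - v^2/2 + v^4/24` for all real `v`: by evenness `v ≥ 0`; differentiate four
times (or integrate the known `sin v ≥ v - v^3/6`, Mathlib `Real.sin_gt_sub_cube` and relatives,
or `Real.cos_bound` for `|v| ≤ 1` and iterate `cos v ≥ 1 - v^2/2`). -/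
theorem T1_four (v : ℝ) : Real.cos v ≤ 1 - v ^ 2 / 2 + v ^ 4 / 24 := by
  have h := T1_cos4 |v| (abs_nonneg v)
  rw [Real.cos_abs, sq_abs, Even.pow_abs (by decide : Even 4)] at h
  linarith

theorem T1_six (v : ℝ) : 1 - v ^ 2 / 2 + v ^ 4 / 24 - v ^ 6 / 720 ≤ Real.cos v := by
  have h := T1_cos6 |v| (abs_nonneg v)
  rw [Real.cos_abs, sq_abs, Even.pow_abs (by decide : Even 4),
    Even.pow_abs (by decide : Even 6)] at h
  linarith

/-- PROOF: `|cos u| = cos u` as `|u| ≤ π/2`. With `y = u^2/2 < 1.24`: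
`exp (-y) ≥ 1 - y + y^2/2 - y^3/6` and by `T1_four`
`cos u ≤ 1 - y + y^2/6`; the difference is `y^2/3 - y^3/6 ≥ 0` since `y ≤ 2`. -/
theorem T1_cos_le (u : ℝ) (hu : |u| ≤ Real.pi / 2) : |Real.cos u| ≤ Real.exp (-u ^ 2 / 2) := by
  rw [abs_of_nonneg (Real.cos_nonneg_of_mem_Icc ⟨by linarith [neg_abs_le u], by
    linarith [le_abs_self u]⟩)]
  have h1 := T1_four u
  have h2 := T1_exp3 (u ^ 2 / 2) (by positivity)
  have h3 : u ^ 2 ≤ 4 := by
    have h4 : |u| ≤ 2 := hu.trans (by linarith [Real.pi_le_four])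
    have h5 := pow_le_pow_left₀ (abs_nonneg u) h4 2
    rw [sq_abs] at h5
    linarith
  have h6 : -u ^ 2 / 2 = -(u ^ 2 / 2) := by ring
  rw [h6]
  have h7 : 0 ≤ (u ^ 2) ^ 2 * (4 - u ^ 2) := by
    apply mul_nonneg (by positivity)
    linarith
  nlinarith [h7]

/-- PROOF: `cos u ≥ 1 - u^2/2` (`Real.one_sub_sq_div_two_le_cos`),
`exp (-u^2/2) ≤ 1 - u^2/2 + u^4/8`, and `T1_cos_le`. -/
theorem T1_diff (u : ℝ) (hu : |u| ≤ 1) : |Real.cos u - Real.exp (-u ^ 2 / 2)| ≤ u ^ 4 := by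
  have h1 := T1_cos_le u (hu.trans (by linarith [Real.pi_gt_three]))
  have h2 := Real.one_sub_sq_div_two_le_cos (x := u)
  have h3 := T1_exp2 (u ^ 2 / 2) (by positivity)
  have h6 : -u ^ 2 / 2 = -(u ^ 2 / 2) := by ring
  rw [h6] at h1 ⊢
  have h4 := le_abs_self (Real.cos u)
  have h5 : 0 ≤ u ^ 4 := by positivity
  rw [abs_le]
  constructor
  · nlinarith
  · nlinarith

/-- PROOF: for `0 ≤ u ≤ 1/2` let `h(u) = log (cos u) + u^2/2 + u^4/12 + u^6/30`; `h(0) = 0` and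
`h'(u) = -tan u + u + u^3/3 + u^5/5 ≥ 0`, because `k(u) = u + u^3/3 + u^5/5 - tan u` has `k(0) = 0`
and `k' = u^2 + u^4 - tan^2 u ≥ 0` as `tan u ≤ u (1 + u^2/3 + 0.14 u^4 ...)`; for instance
`tan u ≤ u / (1 - u^2/3 - u^4/15 * 1.3)`, or from `sin u ≤ u - u^3/6 + u^5/120` and
`cos u ≥ 1 - u^2/2 + u^4/24 - u^6/720`: `sin^2 u ≤ (u^2 + u^4) cos^2 u` on `[0,1/2]` is a
polynomial inequality. Alternatively prove
`exp (-y) ≤ 1 - y + y^2/2 - y^3/6 + y^4/24` with `y = u^2/2 + u^4/12 + u^6/30`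
and compare with `cos u ≥ 1 - u^2/2 + u^4/24 - u^6/720`. -/
theorem T1_lower (u : ℝ) (hu : |u| ≤ 1 / 2) :
    Real.exp (-u ^ 2 / 2 - u ^ 4 / 12 - u ^ 6 / 30) ≤ Real.cos u := by
  have h1 := T1_six u
  obtain ⟨z, hz⟩ : ∃ z : ℝ, z = u ^ 2 := ⟨_, rfl⟩
  have hz0 : 0 ≤ z := by rw [hz]; positivity
  have hz1 : z ≤ 1 / 4 := by
    have h5 := pow_le_pow_left₀ (abs_nonneg u) hu 2
    rw [sq_abs] at h5
    rw [hz]
    linarith
  have h2 := T1_exp4 (z / 2 + z ^ 2 / 12 + z ^ 3 / 30) (by positivity)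
  have h3 : -u ^ 2 / 2 - u ^ 4 / 12 - u ^ 6 / 30 = -(z / 2 + z ^ 2 / 12 + z ^ 3 / 30) := by
    rw [hz]; ring
  rw [h3]
  have h4 : 1 - u ^ 2 / 2 + u ^ 4 / 24 - u ^ 6 / 720 = 1 - z / 2 + z ^ 2 / 24 - z ^ 3 / 720 := by
    rw [hz]; ring
  rw [h4] at h1
  refine le_trans ?_ h1
  refine le_trans (by linarith : _ ≤ 1 - (z / 2 + z ^ 2 / 12 + z ^ 3 / 30)
    + (z / 2 + z ^ 2 / 12 + z ^ 3 / 30) ^ 2 / 2 - (z / 2 + z ^ 2 / 12 + z ^ 3 / 30) ^ 3 / 6
    + (z / 2 + z ^ 2 / 12 + z ^ 3 / 30) ^ 4 / 24) ?_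
  have hy : 0 ≤ z ^ 3 * (1 / 4 - z) := mul_nonneg (by positivity) (by linarith)
  have k0 : ∀ n : ℕ, 0 ≤ z ^ n := fun n => by positivity
  have k1 : ∀ n : ℕ, z ^ (n + 1) ≤ z ^ n / 4 := fun n => by
    have := k0 n
    rw [pow_succ]
    nlinarith
  have k2 := k1 3
  have k3 := k1 4
  have k4 := k1 5
  have k5 := k1 6
  have k6 := k1 7
  have k7 := k1 8
  have k8 := k1 9
  have k9 := k1 10
  have k10 := k1 11
  have p3 := k0 3
  have p4 := k0 4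
  have p5 := k0 5
  have p6 := k0 6
  have p7 := k0 7
  have p8 := k0 8
  have p9 := k0 9
  have p10 := k0 10
  have p11 := k0 11
  have p12 := k0 12
  ring_nf
  ring_nf at k2 k3 k4 k5 k6 k7 k8 k9 k10
  linarith

/-- PROOF: `|cos u| ≤ (1 + cos^2 u)/2` (as `(1 - |cos u|)^2 ≥ 0`) and `cos^2 u = (1 + cos 2u)/2`. -/
theorem T1_abs (u : ℝ) : |Real.cos u| ≤ 3 / 4 + Real.cos (2 * u) / 4 := by
  have h1 : 0 ≤ (1 - |Real.cos u|) ^ 2 := sq_nonneg _
  have h2 : |Real.cos u| ^ 2 = Real.cos u ^ 2 := sq_abs _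
  have h3 := Real.cos_two_mul u
  nlinarith

/-- PROOF: `T1_cos_le` with `u = π t` and `π^2/2 ≥ 4`. -/
theorem T1_pi (t : ℝ) (ht : |t| ≤ 1 / 2) : |Real.cos (Real.pi * t)| ≤ Real.exp (-4 * t ^ 2) := by
  have hpi := Real.pi_gt_three
  have h1 : |Real.pi * t| ≤ Real.pi / 2 := by
    rw [abs_mul, abs_of_pos Real.pi_pos]
    nlinarith [Real.pi_pos]
  refine (T1_cos_le _ h1).trans (Real.exp_le_exp.2 ?_)
  have h2 : (8 : ℝ) ≤ Real.pi ^ 2 := by nlinarith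
  have h3 : 0 ≤ t ^ 2 := sq_nonneg t
  nlinarith [mul_nonneg (sub_nonneg.2 h2) h3]

end H31Z
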