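import Pool.Agent.Lib.H31Z.Defs

/-!
Chunk R1b.
-/

namespace H31Z

open Finset

/-- The exponential moment. -/
theorem R1_mgf {ι : Type*} (I : Finset ι) (η : ℝ) :
    ∑ B ∈ I.powerset, Real.exp (η * (2 * B.card - I.card)) ≤ 2 ^ I.card * Real.exp (η ^ 2 * I.card / 2) := by
  have h1 : ∑ B ∈ I.powerset, Real.exp (η * (2 * B.card - I.card)) =
      (Real.exp η + Real.exp (-η)) ^ I.card := by
    rw [← Finset.sum_pow_mul_eq_add_pow]
    refine Finset.sum_congr rfl fun B hB => ?_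
    have hc := Finset.card_le_card (Finset.mem_powerset.1 hB)
    rw [← Real.exp_nat_mul, ← Real.exp_nat_mul, ← Real.exp_add, Nat.cast_sub hc]
    congr 1
    ring
  have h2 : Real.exp η + Real.exp (-η) ≤ 2 * Real.exp (η ^ 2 / 2) := by
    have h3 := Real.cosh_le_exp_half_sq η
    rw [Real.cosh_eq] at h3
    linarith
  rw [h1]
  have h4 : (Real.exp η + Real.exp (-η)) ^ I.card ≤ (2 * Real.exp (η ^ 2 / 2)) ^ I.card :=
    pow_le_pow_left₀ (by positivity) h2 _
  refine h4.trans (le_of_eq ?_)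
  rw [mul_pow, ← Real.exp_nat_mul]
  congr 2
  ring

/-- PROOF. `∑_{B ⊆ I} exp (λ (|B| - N/2)) = (2 cosh (λ/2))^N ≤ 2^N exp (λ^2 N/8)`
(`Real.cosh_le_exp_half_sq`); Markov with `λ = 2 η`: the number of `B` with
`|B| - N/2 > η N/2` is at most `2^N exp (λ^2 N/8 - λ η N/2) = 2^N exp (-η^2 N/2)`; the same for the
lower tail by complement. -/
theorem R1_size {ι : Type*} (I : Finset ι) (η : ℝ) (hη : 0 < η) :
    ((I.powerset.filter (fun B => η * I.card / 2 < |(B.card : ℝ) - I.card / 2|)).card : ℝ) ≤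
      2 * Real.exp (-η ^ 2 * I.card / 2) * 2 ^ I.card := by
  have h1 := R1_mgf I η
  have h2 := R1_mgf I (-η)
  rw [neg_sq] at h2
  obtain ⟨S, hS⟩ : ∃ S, S = I.powerset.filter (fun B => η * I.card / 2 < |(B.card : ℝ) - I.card / 2|) := ⟨_, rfl⟩
  rw [← hS]
  have h3 : (S.card : ℝ) * Real.exp (η ^ 2 * I.card) ≤
      ∑ B ∈ S, (Real.exp (η * (2 * B.card - I.card)) + Real.exp (-η * (2 * B.card - I.card))) := by
    rw [← nsmul_eq_mul, ← Finset.sum_const]
    refine Finset.sum_le_sum fun B hB => ?_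
    rw [hS, Finset.mem_filter] at hB
    rcases abs_cases ((B.card : ℝ) - I.card / 2) with h | h
    · have h4 : η ^ 2 * I.card ≤ η * (2 * B.card - I.card) := by
        have h5 := hB.2
        rw [h.1] at h5
        nlinarith
      have h6 := Real.exp_le_exp.2 h4
      linarith [Real.exp_pos (-η * (2 * B.card - I.card))]
    · have h4 : η ^ 2 * I.card ≤ -η * (2 * B.card - I.card) := by
        have h5 := hB.2
        rw [h.1] at h5
        nlinarith
      have h6 := Real.exp_le_exp.2 h4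
      linarith [Real.exp_pos (η * (2 * B.card - I.card))]
  have h4 : ∑ B ∈ S, (Real.exp (η * (2 * B.card - I.card)) + Real.exp (-η * (2 * B.card - I.card))) ≤
      ∑ B ∈ I.powerset, (Real.exp (η * (2 * B.card - I.card)) + Real.exp (-η * (2 * B.card - I.card))) := by
    apply Finset.sum_le_sum_of_subset_of_nonneg
    · rw [hS]
      exact Finset.filter_subset _ _
    · intro B _ _
      positivity
  have h4a := Finset.sum_add_distrib (s := I.powerset) (f := fun B : Finset ι => Real.exp (η * (2 * B.card - I.card)))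
    (g := fun B : Finset ι => Real.exp (-η * (2 * B.card - I.card)))
  rw [h4a] at h4
  have h5 : (S.card : ℝ) * Real.exp (η ^ 2 * I.card) ≤ 2 * (2 ^ I.card * Real.exp (η ^ 2 * I.card / 2)) := by
    linarith
  have h6 : Real.exp (η ^ 2 * I.card / 2) = Real.exp (-η ^ 2 * I.card / 2) * Real.exp (η ^ 2 * I.card) := by
    rw [← Real.exp_add]
    congr 1
    ring
  rw [h6] at h5
  have h7 := Real.exp_pos (η ^ 2 * I.card)
  refine le_of_mul_le_mul_right ?_ h7
  linarith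

/-- PROOF. For large `N = |I|`, `2 exp (-η^2 N/2) < (1/4)/√N ≤ pz y I 0`, so by `R1_size` some
zero-sum `B ⊆ I` has `| |B| - N/2 | ≤ η N/2`. If `|B| + c < r`: `N/2 - ηN/2 + c < r`, i.e. (with
`n = N + c`, `s = n - r`) `s < N/2 + ηN/2`, so `2 s ≤ (1+η) N`. If `r < |B|`: `2 r ≤ (1+η) N`. In both
cases `min (2r) (2s) ≤ (1+η) N` and `(1-η)(1+η) ≤ 1`. -/
theorem R1_conc (η : ℝ) (hη : 0 < η) (hη1 : η < 1) :
    ∃ N0 : ℕ, ∀ (ι : Type) (I : Finset ι) (y : ι → ℤ) (c r : ℕ), N0 ≤ I.card → Star y I c r →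
      r ≤ I.card + c → (1 / 4) / Real.sqrt I.card ≤ pz y I 0 →
      (1 - η) * min (2 * (r : ℝ)) (2 * ((I.card : ℝ) + c - r)) ≤ I.card := by
  refine ⟨⌈64 / η ^ 4⌉₊ + 1, fun ι I y c r hN hS hr hp => ?_⟩
  obtain ⟨N, hNd⟩ : ∃ N : ℝ, N = (I.card : ℝ) := ⟨_, rfl⟩
  have hN1 : 1 ≤ N ∧ 64 / η ^ 4 < N := by
    have h1 : ((⌈64 / η ^ 4⌉₊ + 1 : ℕ) : ℝ) ≤ N := by rw [hNd]; exact_mod_cast hN
    push_cast at h1
    have h2 := Nat.le_ceil (64 / η ^ 4)
    have h3 : (0 : ℝ) ≤ (⌈64 / η ^ 4⌉₊ : ℝ) := by positivity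
    constructor <;> linarith
  obtain ⟨hN1, hN64⟩ := hN1
  have hN0 : 0 < N := by linarith
  have hsq : 0 < Real.sqrt N := Real.sqrt_pos.2 hN0
  have hsqN : Real.sqrt N ≤ N := by
    rw [Real.sqrt_le_left hN0.le]
    nlinarith
  have hkey : 2 * Real.exp (-η ^ 2 * N / 2) < (1 / 4) / Real.sqrt N := by
    have h1 := Real.quadratic_le_exp_of_nonneg (x := η ^ 2 * N / 2) (by positivity)
    have h2 : η ^ 4 * N ^ 2 / 8 < Real.exp (η ^ 2 * N / 2) := by
      have h3 : (η ^ 2 * N / 2) ^ 2 / 2 = η ^ 4 * N ^ 2 / 8 := by ring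
      have h4 : 0 ≤ η ^ 2 * N / 2 := by positivity
      linarith
    have h3 : Real.exp (-η ^ 2 * N / 2) = (Real.exp (η ^ 2 * N / 2))⁻¹ := by
      rw [← Real.exp_neg]
      congr 1
      ring
    rw [h3, lt_div_iff₀ hsq, mul_assoc, inv_mul_eq_div, ← mul_div_assoc, div_lt_iff₀ (Real.exp_pos _)]
    have h4 : 64 < N * η ^ 4 := by
      rwa [div_lt_iff₀ (by positivity)] at hN64
    nlinarith [mul_lt_mul_of_pos_right h4 hN0]
  have hex : ∃ B ⊆ I, ∑ i ∈ B, y i = 0 ∧ |(B.card : ℝ) - N / 2| ≤ η * N / 2 := by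
    by_contra hcon
    push Not at hcon
    have h1 := R1_size I η hη
    have h2 : cz y I 0 ≤ (I.powerset.filter (fun B => η * I.card / 2 < |(B.card : ℝ) - I.card / 2|)).card := by
      unfold cz
      apply Finset.card_le_card
      intro B hB
      rw [Finset.mem_filter, Finset.mem_powerset] at hB ⊢
      refine ⟨hB.1, ?_⟩
      have h3 := hcon B hB.1 hB.2
      rwa [hNd] at h3
    have h3 : pz y I 0 ≤ 2 * Real.exp (-η ^ 2 * N / 2) := by
      unfold pz
      rw [div_le_iff₀ (by positivity), hNd]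
      exact (Nat.cast_le.2 h2).trans h1
    rw [hNd] at hkey h3
    linarith
  obtain ⟨B, hB, hB0, hBc⟩ := hex
  rw [abs_le] at hBc
  rw [← hNd]
  have h1 : min (2 * (r : ℝ)) (2 * (N + c - r)) ≤ (1 + η) * N := by
    rcases hS B hB hB0 with h | h
    · have h2 : (B.card : ℝ) + c < r := by exact_mod_cast h
      refine (min_le_right _ _).trans ?_
      linarith [hBc.1]
    · have h2 : (r : ℝ) < B.card := by exact_mod_cast h
      refine (min_le_left _ _).trans ?_
      linarith [hBc.2]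
  calc (1 - η) * min (2 * (r : ℝ)) (2 * (N + c - r)) ≤ (1 - η) * ((1 + η) * N) :=
        mul_le_mul_of_nonneg_left h1 (by linarith)
    _ ≤ N := by nlinarith [mul_pos (pow_pos hη 2) hN0]

end H31Z
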