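import Pool.Agent.Lib.H31Z.A8
import Pool.Agent.Lib.H31Z.F2

/-!
Chunk A9: the family of champions and its count.
-/

namespace H31Z

open Finset

/-- the vector `(0^c, 1^a, (-2)^b, -1, ..., -1)` -/
def fv (n c a b : ℕ) (i : Fin n) : ℤ :=
  if (i : ℕ) < c then 0 else if (i : ℕ) < c + a then 1 else if (i : ℕ) < c + a + b then -2 else -1

theorem A9_ins {ι : Type*} [DecidableEq ι] (w : ι → ℤ) (L : Finset ι) {i : ι} (hi : i ∉ L) (s : ℤ) :
    cz w (insert i L) s = cz w L s + cz w L (s - w i) := by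
  unfold cz
  rw [Finset.card_filter, Finset.card_filter, Finset.card_filter, Finset.sum_powerset_insert hi]
  congr 1
  refine Finset.sum_congr rfl fun B hB => ?_
  have hB' : i ∉ B := fun h => hi (Finset.mem_powerset.1 hB h)
  rw [Finset.sum_insert hB']
  congr 1
  apply propext
  constructor
  · intro h
    linarith
  · intro h
    linarith

theorem A9_union {ι : Type*} [DecidableEq ι] (w : ι → ℤ) (L M : Finset ι) (hd : Disjoint L M) (s : ℤ) :
    cz w (L ∪ M) s = ∑ B ∈ M.powerset, cz w L (s - ∑ i ∈ B, w i) := by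
  induction M using Finset.induction_on generalizing s with
  | empty => simp
  | insert i M hi ih =>
    have h1 : Disjoint L M := Finset.disjoint_of_subset_right (Finset.subset_insert i M) hd
    have h2 : i ∉ L ∪ M := by
      rw [Finset.mem_union, not_or]
      exact ⟨fun h => Finset.disjoint_left.1 hd h (Finset.mem_insert_self i M), hi⟩
    rw [Finset.union_insert, A9_ins w _ h2, ih h1, ih h1, Finset.sum_powerset_insert hi]
    congr 1
    refine Finset.sum_congr rfl fun B hB => ?_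
    have hB' : i ∉ B := fun h => hi (Finset.mem_powerset.1 hB h)
    rw [Finset.sum_insert hB']
    congr 1
    ring

theorem A9_const {ι : Type*} [DecidableEq ι] (w : ι → ℤ) (L M : Finset ι) (hd : Disjoint L M) (v : ℤ)
    (hv : ∀ i ∈ M, w i = v) (s : ℤ) :
    cz w (L ∪ M) s = ∑ j ∈ Finset.range (M.card + 1), M.card.choose j * cz w L (s - j * v) := by
  rw [A9_union w L M hd]
  have h1 : ∀ B ∈ M.powerset, cz w L (s - ∑ i ∈ B, w i) = (fun j : ℕ => cz w L (s - j * v)) B.card := by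
    intro B hB
    have h2 : ∑ i ∈ B, w i = B.card * v := by
      rw [Finset.sum_congr rfl fun i hi => hv i (Finset.mem_powerset.1 hB hi), Finset.sum_const, nsmul_eq_mul]
    show cz w L (s - ∑ i ∈ B, w i) = cz w L (s - B.card * v)
    rw [h2]
  rw [Finset.sum_congr rfl h1]
  exact Finset.sum_powerset_apply_card (fun j : ℕ => cz w L (s - j * v))

theorem A9_emp {ι : Type*} (w : ι → ℤ) (s : ℤ) : cz w ∅ s = if s = 0 then 1 else 0 := by
  unfold cz
  rw [Finset.powerset_empty, Finset.card_filter, Finset.sum_singleton, Finset.sum_empty]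
  congr 1
  exact propext eq_comm

theorem A9_ones {ι : Type*} [DecidableEq ι] (w : ι → ℤ) (M : Finset ι) (hv : ∀ i ∈ M, w i = 1) (s : ℕ) :
    cz w M s = M.card.choose s := by
  have h := A9_const w ∅ M (Finset.disjoint_empty_left M) 1 hv s
  rw [Finset.empty_union] at h
  rw [h]
  have h1 : ∀ j ∈ Finset.range (M.card + 1), M.card.choose j * cz w ∅ ((s : ℤ) - j * 1) =
      if j = s then M.card.choose s else 0 := by
    intro j _
    rw [A9_emp]
    by_cases hj : j = s
    · subst hj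
      simp
    · rw [if_neg hj, if_neg (by omega), mul_zero]
  rw [Finset.sum_congr rfl h1, Finset.sum_ite_eq' (Finset.range (M.card + 1)) s]
  split_ifs with h2
  · rfl
  · rw [Nat.choose_eq_zero_of_lt]
    rw [Finset.mem_range] at h2
    omega

theorem A9_lat {ι : Type*} [DecidableEq ι] (w : ι → ℤ) (L M : Finset ι) (hd : Disjoint L M)
    (hL : ∀ i ∈ L, w i = 1) (hM : ∀ i ∈ M, w i = -2) (s : ℕ) :
    cz w (L ∪ M) s = lat L.card M.card s := by
  rw [A9_const w L M hd (-2) hM]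
  unfold lat
  refine Finset.sum_congr rfl fun j _ => ?_
  have e : (s : ℤ) - j * (-2) = ((2 * j + s : ℕ) : ℤ) := by
    push_cast
    ring
  rw [e, A9_ones w L hL, mul_comm]

theorem A9_blk {n p q : ℕ} (hq : q ≤ n) :
    (Finset.univ.filter (fun i : Fin n => p ≤ (i : ℕ) ∧ (i : ℕ) < q)).card = q - p := by
  rw [← Finset.card_map Fin.valEmbedding, ← Nat.card_Ico p q]
  congr 1
  ext x
  simp only [Finset.mem_map, Finset.mem_filter, Finset.mem_univ, true_and, Finset.mem_Ico, Fin.valEmbedding_apply]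
  constructor
  · rintro ⟨i, hi, rfl⟩
    exact hi
  · intro h
    exact ⟨⟨x, by omega⟩, h, rfl⟩

/-- PROOF. Split a subset into its four parts (zeros free: factor `2^c`; `m ≤ 1` coordinates `-1`):
the number of subsets with `j` entries `-2`, `m'` entries `-1` and sum `0` is
`C(b,j) C(a, 2j + m')`, `m' ≤ m`. -/
theorem A9_count (n c a b m : ℕ) (h : c + a + b + m = n) (hm : m ≤ 1) :
    cz (fv n c a b) Finset.univ 0 = 2 ^ c * (lat a b 0 + if m = 1 then lat a b 1 else 0) := by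
  classical
  set w := fv n c a b with hw
  set Z : Finset (Fin n) := Finset.univ.filter (fun i : Fin n => 0 ≤ (i : ℕ) ∧ (i : ℕ) < c) with hZ
  set A : Finset (Fin n) := Finset.univ.filter (fun i : Fin n => c ≤ (i : ℕ) ∧ (i : ℕ) < c + a) with hA
  set B : Finset (Fin n) := Finset.univ.filter (fun i : Fin n => c + a ≤ (i : ℕ) ∧ (i : ℕ) < c + a + b) with hB
  set M : Finset (Fin n) := Finset.univ.filter (fun i : Fin n => c + a + b ≤ (i : ℕ) ∧ (i : ℕ) < n) with hM
  have cZ : Z.card = c := (A9_blk (by omega)).trans (by omega)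
  have cA : A.card = a := (A9_blk (by omega)).trans (by omega)
  have cB : B.card = b := (A9_blk (by omega)).trans (by omega)
  have cM : M.card = m := (A9_blk (by omega)).trans (by omega)
  have mZ : ∀ i, i ∈ Z ↔ (0 ≤ (i : ℕ) ∧ (i : ℕ) < c) := fun i => by rw [hZ, Finset.mem_filter]; simp
  have mA : ∀ i, i ∈ A ↔ (c ≤ (i : ℕ) ∧ (i : ℕ) < c + a) := fun i => by rw [hA, Finset.mem_filter]; simp
  have mB : ∀ i, i ∈ B ↔ (c + a ≤ (i : ℕ) ∧ (i : ℕ) < c + a + b) := fun i => by rw [hB, Finset.mem_filter]; simp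
  have mM : ∀ i, i ∈ M ↔ (c + a + b ≤ (i : ℕ) ∧ (i : ℕ) < n) := fun i => by rw [hM, Finset.mem_filter]; simp
  have vZ : ∀ i ∈ Z, w i = 0 := fun i hi => by
    rw [mZ] at hi
    rw [hw]
    unfold fv
    rw [if_pos hi.2]
  have vA : ∀ i ∈ A, w i = 1 := fun i hi => by
    rw [mA] at hi
    rw [hw]
    unfold fv
    rw [if_neg (by omega), if_pos hi.2]
  have vB : ∀ i ∈ B, w i = -2 := fun i hi => by
    rw [mB] at hi
    rw [hw]
    unfold fv
    rw [if_neg (by omega), if_neg (by omega), if_pos hi.2]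
  have vM : ∀ i ∈ M, w i = -1 := fun i hi => by
    rw [mM] at hi
    rw [hw]
    unfold fv
    rw [if_neg (by omega), if_neg (by omega), if_neg (by omega)]
  have dAB : Disjoint A B := Finset.disjoint_left.2 fun i h1 h2 => by
    rw [mA] at h1
    rw [mB] at h2
    omega
  have dABM : Disjoint (A ∪ B) M := Finset.disjoint_left.2 fun i h1 h2 => by
    rw [Finset.mem_union, mA, mB] at h1
    rw [mM] at h2
    omega
  have dZ : Disjoint (A ∪ B ∪ M) Z := Finset.disjoint_left.2 fun i h1 h2 => by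
    rw [Finset.mem_union, Finset.mem_union, mA, mB, mM] at h1
    rw [mZ] at h2
    omega
  have hU : (Finset.univ : Finset (Fin n)) = A ∪ B ∪ M ∪ Z := by
    ext i
    rw [Finset.mem_union, Finset.mem_union, Finset.mem_union, mA, mB, mM, mZ]
    simp only [Finset.mem_univ, true_iff]
    have := i.2
    omega
  rw [hU, A9_const w _ Z dZ 0 vZ, cZ]
  have e1 : ∀ j ∈ Finset.range (c + 1), c.choose j * cz w (A ∪ B ∪ M) (0 - j * 0) =
      c.choose j * cz w (A ∪ B ∪ M) 0 := fun j _ => by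
    rw [mul_zero, sub_zero]
  rw [Finset.sum_congr rfl e1, ← Finset.sum_mul, Nat.sum_range_choose]
  congr 1
  rw [A9_const w _ M dABM (-1) vM, cM]
  have e2 : ∀ j : ℕ, (0 : ℤ) - j * (-1) = (j : ℤ) := fun j => by ring
  have e3 : ∀ j ∈ Finset.range (m + 1), m.choose j * cz w (A ∪ B) (0 - j * (-1)) = m.choose j * lat a b j := fun j _ => by
    rw [e2, A9_lat w A B dAB vA vB, cA, cB]
  rw [Finset.sum_congr rfl e3]
  interval_cases m
  · simp
  · simp [Finset.sum_range_succ]

/-- PROOF. A zero-sum set has `i0` zeros, `m'` entries `-1`, `b'` entries `-2` and `2b' + m'` entries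
`1`: its size is `i0 + 3b' + 2m'`, so modulo `3` it is `i0 + 2m'`, with `i0 ≤ c`, `m' ≤ m`. -/
theorem A9_adm (n c a b m r : ℕ) (h : c + a + b + m = n)
    (hr : (r % 3 = 2 ∧ m = 0 ∧ c ≤ 1) ∨ (r % 3 = 1 ∧ c = 0 ∧ m ≤ 1)) :
    ∀ S : Finset (Fin n), S.card = r → ∑ i ∈ S, fv n c a b i ≠ 0 := by
  intro S hS h0
  have h1 : (3 : ℤ) ∣ ∑ i ∈ S, (1 - fv n c a b i - (if 0 ≤ (i : ℕ) ∧ (i : ℕ) < c then 1 else 0) -
      2 * (if c + a + b ≤ (i : ℕ) ∧ (i : ℕ) < n then 1 else 0)) := by
    apply Finset.dvd_sum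
    intro i _
    have hi := i.2
    unfold fv
    by_cases h1 : (i : ℕ) < c
    · rw [if_pos h1, if_pos ⟨by omega, h1⟩, if_neg (by omega)]
      norm_num
    · rw [if_neg h1]
      by_cases h2 : (i : ℕ) < c + a
      · rw [if_pos h2, if_neg (by omega), if_neg (by omega)]
        norm_num
      · rw [if_neg h2]
        by_cases h3 : (i : ℕ) < c + a + b
        · rw [if_pos h3, if_neg (by omega), if_neg (by omega)]
          norm_num
        · rw [if_neg h3, if_neg (by omega), if_pos (by omega)]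
          norm_num
  rw [Finset.sum_sub_distrib, Finset.sum_sub_distrib, Finset.sum_sub_distrib, h0, ← Finset.mul_sum, Finset.sum_boole,
    Finset.sum_boole, Finset.sum_const, hS] at h1
  have h2 : (S.filter (fun i : Fin n => 0 ≤ (i : ℕ) ∧ (i : ℕ) < c)).card ≤ c := by
    refine (Finset.card_le_card (Finset.filter_subset_filter _ (Finset.subset_univ S))).trans ?_
    rw [A9_blk (by omega)]
    omega
  have h3 : (S.filter (fun i : Fin n => c + a + b ≤ (i : ℕ) ∧ (i : ℕ) < n)).card ≤ m := by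
    refine (Finset.card_le_card (Finset.filter_subset_filter _ (Finset.subset_univ S))).trans ?_
    rw [A9_blk (by omega)]
    omega
  simp only [nsmul_eq_mul, mul_one, sub_zero] at h1
  rcases hr with ⟨hr1, hr2, hr3⟩ | ⟨hr1, hr2, hr3⟩
  · omega
  · omega

theorem A9_ca (n c a b m : ℕ) (h : c + a + b + m = n) :
    ca (fv n c a b) 1 = a ∧ ca (fv n c a b) (-2) = b ∧ ca (fv n c a b) (-1) = m := by
  have e1 : (Finset.univ.filter (fun i : Fin n => fv n c a b i = 1)) =
      Finset.univ.filter (fun i : Fin n => c ≤ (i : ℕ) ∧ (i : ℕ) < c + a) := by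
    ext i
    rw [Finset.mem_filter, Finset.mem_filter]
    unfold fv
    split_ifs <;> simp <;> omega
  have e2 : (Finset.univ.filter (fun i : Fin n => fv n c a b i = -2)) =
      Finset.univ.filter (fun i : Fin n => c + a ≤ (i : ℕ) ∧ (i : ℕ) < c + a + b) := by
    ext i
    rw [Finset.mem_filter, Finset.mem_filter]
    unfold fv
    split_ifs <;> simp <;> omega
  have e3 : (Finset.univ.filter (fun i : Fin n => fv n c a b i = -1)) =
      Finset.univ.filter (fun i : Fin n => c + a + b ≤ (i : ℕ) ∧ (i : ℕ) < n) := by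
    ext i
    have := i.2
    rw [Finset.mem_filter, Finset.mem_filter]
    unfold fv
    split_ifs <;> simp <;> omega
  refine ⟨?_, ?_, ?_⟩
  · unfold ca
    rw [e1, A9_blk (by omega)]
    omega
  · unfold ca
    rw [e2, A9_blk (by omega)]
    omega
  · unfold ca
    rw [e3, A9_blk (by omega)]
    omega

theorem A9_sum (n c a b m : ℕ) (h : c + a + b + m = n) :
    ∑ i, fv n c a b i = (a : ℤ) - 2 * b - m := by
  obtain ⟨h1, h2, h3⟩ := A9_ca n c a b m h
  unfold ca at h1 h2 h3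
  have e : ∀ i : Fin n, fv n c a b i = (if fv n c a b i = 1 then 1 else 0) - 2 * (if fv n c a b i = -2 then 1 else 0) -
      (if fv n c a b i = -1 then 1 else 0) := by
    intro i
    unfold fv
    split_ifs <;> simp_all
  rw [Finset.sum_congr rfl fun i _ => e i, Finset.sum_sub_distrib, Finset.sum_sub_distrib, ← Finset.mul_sum,
    Finset.sum_boole, Finset.sum_boole, Finset.sum_boole, h1, h2, h3]

theorem A9_key (n c a b m r : ℕ) (h : c + a + b + m = n) (hm : m ≤ 1)
    (hr : (r % 3 = 2 ∧ m = 0 ∧ c ≤ 1) ∨ (r % 3 = 1 ∧ c = 0 ∧ m ≤ 1)) (V : ℕ)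
    (hV : 2 ^ c * (lat a b 0 + if m = 1 then lat a b 1 else 0) = V) (P : ℕ × ℕ)
    (hP : GJ (a + m) b ((a : ℤ) - 2 * b - m) = GJ P.1 P.2 0) :
    (∃ x : Fin n → ℝ, Adm n r x ∧ ZZ n x = V) ∧ (V : ℝ) = 2 ^ n * GJ P.1 P.2 0 := by
  have h1 : (ZZ n (fun i => (fv n c a b i : ℝ)) : ℝ) = 2 ^ n * pz (fv n c a b) Finset.univ 0 := by
    rw [F2_ZZ]
    congr 1
    have := F2_cast (fun i => (fv n c a b i : ℝ)) (fv n c a b) Finset.univ (fun j _ => rfl) 0
    rw [← this, Int.cast_zero]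
  have h2 : (2 : ℝ) ^ n * pz (fv n c a b) Finset.univ 0 = (V : ℝ) := by
    unfold pz
    rw [Finset.card_univ, Fintype.card_fin, A9_count n c a b m h hm, hV]
    field_simp
  obtain ⟨c1, c2, c3⟩ := A9_ca n c a b m h
  have h3 : pz (fv n c a b) Finset.univ 0 = GJ P.1 P.2 0 := by
    rw [A8_gj, c1, c2, c3, A9_sum n c a b m h, hP]
    intro i
    unfold fv
    split_ifs <;> simp
  refine ⟨⟨fun i => (fv n c a b i : ℝ), ?_, ?_⟩, ?_⟩
  · intro S hS h0
    refine A9_adm n c a b m r h hr S hS ?_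
    have : ((∑ i ∈ S, fv n c a b i : ℤ) : ℝ) = 0 := by
      push_cast
      exact h0
    exact_mod_cast this
  · have : (ZZ n (fun i => (fv n c a b i : ℝ)) : ℝ) = (V : ℝ) := by rw [h1, h2]
    exact_mod_cast this
  · rw [← h2, h3]

theorem A9_pascal (a b : ℕ) : lat a b 0 + lat a b 1 = lat (a + 1) b 1 := by
  unfold lat
  rw [← Finset.sum_add_distrib]
  refine Finset.sum_congr rfl fun j _ => ?_
  rw [add_zero, Nat.choose_succ_succ' a (2 * j)]
  ring

/-- PROOF. The vectors are, with `q = n/3`: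
`r % 3 = 2`: `n % 3 = 0`: `(c,a,b,m) = (0, 2q, q, 0)`; `n % 3 = 1`: `(1, 2q, q, 0)`; `n % 3 = 2`:
`(1, 2q+1, q, 0)`;
`r % 3 = 1`: `n % 3 = 0`: `(0, 2q, q-1, 1)`; `n % 3 = 1`: `(0, 2q+1, q, 0)`; `n % 3 = 2`: `(0, 2q+1, q, 1)`.
`A9_count` and Pascal's rule (`lat a b 0 + lat a b 1 = lat (a+1) b 1`) give `Aval n r`; `A9_adm`;
`ZZ n x = cz z univ 0` for `x = z` as a real vector (`F2_ZZ`, `F2_cast`). For the second claim `A8_gj`,
`A8_one`: the sum of the entries is `0, 0, 1, 1, 1, 0` in the six cases, and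
`(ca 1 + ca (-1), ca (-2))` is `(2q,q), (2q,q), (2q+1,q), (2q+1,q-1), (2q+1,q), (2q+2,q)`. -/
theorem A9_val (n r : ℕ) (hn : 3 ≤ n) (hr : ¬ 3 ∣ r) :
    (∃ x : Fin n → ℝ, Adm n r x ∧ ZZ n x = Aval n r) ∧
      (Aval n r : ℝ) = 2 ^ n * GJ (sA n r).1 (sA n r).2 0 := by
  have hr3 : r % 3 = 2 ∨ r % 3 = 1 := by omega
  have hn3 : n % 3 = 0 ∨ n % 3 = 1 ∨ n % 3 = 2 := by omega
  rcases hr3 with hr3 | hr3
  · rcases hn3 with hn3 | hn3 | hn3
    · refine A9_key n 0 (2 * (n / 3)) (n / 3) 0 r (by omega) (by omega) (by omega) _ ?_ _ ?_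
      · simp [Aval, hr3, hn3]
      · simp only [sA, hr3, hn3, if_true]
        congr 1
        push_cast
        ring
    · refine A9_key n 1 (2 * (n / 3)) (n / 3) 0 r (by omega) (by omega) (by omega) _ ?_ _ ?_
      · simp [Aval, hr3, hn3]
      · simp only [sA, hr3, hn3, if_true]
        norm_num
    · refine A9_key n 1 (2 * (n / 3) + 1) (n / 3) 0 r (by omega) (by omega) (by omega) _ ?_ _ ?_
      · simp [Aval, hr3, hn3]
      · simp only [sA, hr3, hn3, if_true]
        norm_num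
        exact (A8_one _ _).1
  · rcases hn3 with hn3 | hn3 | hn3
    · refine A9_key n 0 (2 * (n / 3)) (n / 3 - 1) 1 r (by omega) (by omega) (by omega) _ ?_ _ ?_
      · simp [Aval, hr3, hn3, A9_pascal]
      · have e : ((2 * (n / 3) : ℕ) : ℤ) - 2 * ((n / 3 - 1 : ℕ) : ℤ) - ((1 : ℕ) : ℤ) = 1 := by omega
        rw [e, (A8_one _ _).1]
        simp [sA, hr3, hn3]
    · refine A9_key n 0 (2 * (n / 3) + 1) (n / 3) 0 r (by omega) (by omega) (by omega) _ ?_ _ ?_
      · simp [Aval, hr3, hn3]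
      · have e : ((2 * (n / 3) + 1 : ℕ) : ℤ) - 2 * ((n / 3 : ℕ) : ℤ) - ((0 : ℕ) : ℤ) = 1 := by omega
        rw [e, (A8_one _ _).1]
        simp [sA, hr3, hn3]
    · refine A9_key n 0 (2 * (n / 3) + 1) (n / 3) 1 r (by omega) (by omega) (by omega) _ ?_ _ ?_
      · simp [Aval, hr3, hn3, A9_pascal]
      · have e : ((2 * (n / 3) + 1 : ℕ) : ℤ) - 2 * ((n / 3 : ℕ) : ℤ) - ((1 : ℕ) : ℤ) = 0 := by omega
        rw [e]
        simp [sA, hr3, hn3]

end H31Z
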