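import Pool.Agent.Lib.H31Z.Defs

/-!
Chunk CB: central binomial coefficients (pure Mathlib).
-/

namespace H31Z

/-- `u_k = C(2k,k) / 4^k` -/
noncomputable def CB_u (k : ℕ) : ℝ := (Nat.centralBinom k : ℝ) / 4 ^ k

theorem CB_u_pos (k : ℕ) : 0 < CB_u k := by
  unfold CB_u
  have : 0 < Nat.centralBinom k := Nat.centralBinom_pos k
  positivity

theorem CB_W (k : ℕ) : Real.Wallis.W k * (CB_u k ^ 2 * (2 * k + 1)) = 1 := by
  rw [Real.Wallis.W_eq_factorial_ratio]
  have h1 : ((2 * k).factorial : ℝ) = (Nat.centralBinom k : ℝ) * (k.factorial : ℝ) * (k.factorial : ℝ) := by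
    have h := Nat.choose_mul_factorial_mul_factorial (show k ≤ 2 * k by omega)
    rw [show 2 * k - k = k by omega] at h
    rw [← h, Nat.centralBinom_eq_two_mul_choose]
    push_cast
    ring
  have h2 : (Nat.centralBinom k : ℝ) ≠ 0 := by exact_mod_cast (Nat.centralBinom_pos k).ne'
  have h3 : (k.factorial : ℝ) ≠ 0 := by exact_mod_cast (Nat.factorial_pos k).ne'
  have h4 : (2 * (k : ℝ) + 1) ≠ 0 := by positivity
  have h5 : (2 : ℝ) ^ (4 * k) = (4 ^ k) ^ 2 := by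
    rw [← pow_mul, show (4 : ℝ) = 2 ^ 2 by norm_num, ← pow_mul]
    congr 1
    ring
  have h6 : (4 : ℝ) ^ k ≠ 0 := by positivity
  unfold CB_u
  rw [h1, h5]
  field_simp

theorem CB_ge (k : ℕ) : 1 ≤ Real.pi * (k + 1 / 2) * CB_u k ^ 2 := by
  have h1 := CB_W k
  have h2 := Real.Wallis.W_le k
  have h3 := CB_u_pos k
  have h4 : 0 < CB_u k ^ 2 * (2 * k + 1) := by positivity
  calc 1 = Real.Wallis.W k * (CB_u k ^ 2 * (2 * k + 1)) := h1.symm
    _ ≤ Real.pi / 2 * (CB_u k ^ 2 * (2 * k + 1)) := mul_le_mul_of_nonneg_right h2 h4.le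
    _ = _ := by ring

theorem CB_le (k : ℕ) : Real.pi * k * CB_u k ^ 2 ≤ 1 := by
  have h1 := CB_W k
  have h2 := Real.Wallis.le_W k
  have h3 := CB_u_pos k
  have h4 : 0 < CB_u k ^ 2 * (2 * k + 1) := by positivity
  have h5 : (k : ℝ) ≤ (2 * k + 1) ^ 2 / (2 * (2 * k + 2)) := by
    rw [le_div_iff₀ (by positivity)]
    nlinarith [(Nat.cast_nonneg k : (0 : ℝ) ≤ k)]
  calc Real.pi * k * CB_u k ^ 2 ≤ Real.pi * ((2 * k + 1) ^ 2 / (2 * (2 * k + 2))) * CB_u k ^ 2 := by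
        have := Real.pi_pos
        gcongr
    _ = ((2 : ℝ) * k + 1) / (2 * k + 2) * (Real.pi / 2) * (CB_u k ^ 2 * (2 * k + 1)) := by
        field_simp
    _ ≤ Real.Wallis.W k * (CB_u k ^ 2 * (2 * k + 1)) := mul_le_mul_of_nonneg_right h2 h4.le
    _ = 1 := h1

/-- `|v - 1| ≤ 1 - v ^ 2` -/
theorem CB_abs {v : ℝ} (h0 : 0 ≤ v) (h1 : v ^ 2 ≤ 1) : |v - 1| ≤ 1 - v ^ 2 := by
  have h2 : v ≤ 1 := by nlinarith
  rw [abs_of_nonpos (by linarith)]
  nlinarith

theorem CB_two (k : ℕ) (hk : 1 ≤ k) :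
    ((2 * k - 1).choose k : ℝ) = 4 ^ k * CB_u k / 2 := by
  have h1 : (2 * k).choose k = 2 * (2 * k - 1).choose k := by
    obtain ⟨m, rfl⟩ : ∃ m, k = m + 1 := ⟨k - 1, by omega⟩
    have e1 : 2 * (m + 1) = (2 * m + 1) + 1 := by ring
    rw [show 2 * (m + 1) - 1 = 2 * m + 1 by omega, e1, Nat.choose_succ_succ]
    have e2 : (2 * m + 1).choose m = (2 * m + 1).choose (m + 1) := by
      rw [← Nat.choose_symm_of_eq_add (show 2 * m + 1 = m + (m + 1) by ring)]
    rw [e2]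
    ring
  unfold CB_u
  rw [Nat.centralBinom_eq_two_mul_choose, h1]
  push_cast
  field_simp

/-- PROOF: Wallis/Stirling: `C(2k,k)/4^k * sqrt (π k) → 1` (`Stirling.tendsto_stirlingSeq_sqrt_pi` or
`Real.Wallis.tendsto_W_nhds_pi_div_two`); `C(2k+1,k) = C(2k+2,k+1)/2`. So
`C(m, m/2)/2^m * sqrt (π m/2) → 1`. -/
theorem CB_asymp (η : ℝ) (hη : 0 < η) : ∃ m0 : ℕ, ∀ m : ℕ, m0 ≤ m →
    |(m.choose (m / 2) : ℝ) / 2 ^ m * Real.sqrt (Real.pi * m / 2) - 1| ≤ η := by
  have hpi := Real.pi_pos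
  have key : ∀ k : ℕ, ∀ x : ℝ, 0 ≤ x → Real.pi * x * CB_u k ^ 2 ≤ 1 →
      |CB_u k * Real.sqrt (Real.pi * x) - 1| ≤ 1 - Real.pi * x * CB_u k ^ 2 := by
    intro k x hx h
    have h1 : (CB_u k * Real.sqrt (Real.pi * x)) ^ 2 = Real.pi * x * CB_u k ^ 2 := by
      rw [mul_pow, Real.sq_sqrt (by positivity)]
      ring
    have h2 := CB_abs (v := CB_u k * Real.sqrt (Real.pi * x))
      (mul_nonneg (CB_u_pos k).le (Real.sqrt_nonneg _)) (by rw [h1]; exact h)
    rwa [h1] at h2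
  obtain ⟨K, hK⟩ := exists_nat_gt (1 / η)
  refine ⟨2 * K + 2, fun m hm => ?_⟩
  rcases Nat.even_or_odd' m with ⟨k, hk | hk⟩
  · -- even
    have hkK : K ≤ k := by omega
    have hk0 : 0 < k := by omega
    have hkr : (0 : ℝ) < k := by exact_mod_cast hk0
    have hη' : 1 / η ≤ k := by
      have : (K : ℝ) ≤ k := by exact_mod_cast hkK
      linarith
    have h1 : 1 ≤ k * η := by
      rw [div_le_iff₀ hη] at hη'
      exact hη'
    have e1 : (m.choose (m / 2) : ℝ) / 2 ^ m = CB_u k := by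
      unfold CB_u
      rw [hk, show 2 * k / 2 = k by omega, Nat.centralBinom_eq_two_mul_choose, pow_mul]
      norm_num
    have e2 : Real.pi * m / 2 = Real.pi * k := by
      rw [hk]
      push_cast
      ring
    rw [e1, e2]
    refine (key k k hkr.le (CB_le k)).trans ?_
    have h2 := CB_ge k
    have h3 := CB_le k
    have h4 : Real.pi * CB_u k ^ 2 ≤ η := by
      have h5 : Real.pi * CB_u k ^ 2 * k ≤ η * k := by
        calc Real.pi * CB_u k ^ 2 * k = Real.pi * k * CB_u k ^ 2 := by ring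
          _ ≤ 1 := h3
          _ ≤ η * k := by linarith
      exact le_of_mul_le_mul_right h5 hkr
    have h6 : 0 ≤ Real.pi * CB_u k ^ 2 := by positivity
    nlinarith
  · have hkK : K ≤ k := by omega
    have hk0 : 0 < k := by omega
    have hkr : (0 : ℝ) < k := by exact_mod_cast hk0
    have hη' : 1 / η ≤ k := by
      have : (K : ℝ) ≤ k := by exact_mod_cast hkK
      linarith
    have h1 : 1 ≤ k * η := by
      rw [div_le_iff₀ hη] at hη'
      exact hη'
    have e1 : (m.choose (m / 2) : ℝ) / 2 ^ m = CB_u (k + 1) := by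
      have h := CB_two (k + 1) (by omega)
      rw [show 2 * (k + 1) - 1 = 2 * k + 1 by omega] at h
      have e2 : (2 * k + 1).choose k = (2 * k + 1).choose (k + 1) := by
        rw [← Nat.choose_symm_of_eq_add (show 2 * k + 1 = k + (k + 1) by ring)]
      rw [hk, show (2 * k + 1) / 2 = k by omega, e2, h, pow_succ, pow_succ, pow_mul]
      norm_num
      field_simp
      ring
    have e2 : Real.pi * m / 2 = Real.pi * (k + 1 / 2) := by
      rw [hk]
      push_cast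
      ring
    rw [e1, e2]
    have h3 := CB_le (k + 1)
    have h2 := CB_ge (k + 1)
    push_cast at h2 h3
    have hu : 0 < CB_u (k + 1) := CB_u_pos _
    have h7 : 0 < Real.pi * CB_u (k + 1) ^ 2 := by positivity
    have h8 : Real.pi * (k + 1 / 2) * CB_u (k + 1) ^ 2 ≤ 1 := by nlinarith
    refine (key (k + 1) (k + 1 / 2) (by positivity) h8).trans ?_
    have h4 : Real.pi * CB_u (k + 1) ^ 2 ≤ η := by
      have h5 : Real.pi * CB_u (k + 1) ^ 2 * k ≤ η * k := by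
        calc Real.pi * CB_u (k + 1) ^ 2 * k ≤ Real.pi * (k + 1) * CB_u (k + 1) ^ 2 := by nlinarith
          _ ≤ 1 := h3
          _ ≤ η * k := by linarith
      exact le_of_mul_le_mul_right h5 hkr
    nlinarith

/-- PROOF: `Real.sqrt (π k) C(2k,k) < 4^k` for `k ≥ 1`: the sequence `C(2k,k) sqrt k/4^k` is increasing
with limit `1/sqrt π` (ratio squared `(2k+1)^2/(4k(k+1)) > 1`). Then `C(2k-1,k) = C(2k,k)/2`. -/
theorem CB_upper (k : ℕ) (hk : 1 ≤ k) :
    ((2 * k - 1).choose k : ℝ) ≤ 4 ^ k / (2 * Real.sqrt (Real.pi * k)) := by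
  have hpi := Real.pi_pos
  have hkr : (0 : ℝ) < k := by exact_mod_cast hk
  have hu := CB_u_pos k
  have hs : 0 < Real.sqrt (Real.pi * k) := Real.sqrt_pos.2 (by positivity)
  rw [CB_two k hk, le_div_iff₀ (by positivity)]
  have h1 : CB_u k * Real.sqrt (Real.pi * k) ≤ 1 := by
    have h2 : (CB_u k * Real.sqrt (Real.pi * k)) ^ 2 ≤ 1 := by
      rw [mul_pow, Real.sq_sqrt (by positivity)]
      have := CB_le k
      linarith
    nlinarith [mul_pos hu hs]
  calc 4 ^ k * CB_u k / 2 * (2 * Real.sqrt (Real.pi * k)) = 4 ^ k * (CB_u k * Real.sqrt (Real.pi * k)) := by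
        ring
    _ ≤ 4 ^ k * 1 := mul_le_mul_of_nonneg_left h1 (by positivity)
    _ = 4 ^ k := mul_one _

/-- PROOF: `C(2k,k) ≥ 4^k/sqrt (π (k + 1/2))`: the sequence `C(2k,k) sqrt (k+1/2)/4^k` is decreasing
with limit `1/sqrt π`. -/
theorem CB_lower (k : ℕ) (hk : 1 ≤ k) :
    4 ^ k / (2 * Real.sqrt (Real.pi * (k + 1 / 2))) ≤ ((2 * k - 1).choose k : ℝ) := by
  have hpi := Real.pi_pos
  have hkr : (0 : ℝ) < k := by exact_mod_cast hk
  have hu := CB_u_pos k
  have hs : 0 < Real.sqrt (Real.pi * (k + 1 / 2)) := Real.sqrt_pos.2 (by positivity)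
  rw [CB_two k hk, div_le_iff₀ (by positivity)]
  have h1 : 1 ≤ CB_u k * Real.sqrt (Real.pi * (k + 1 / 2)) := by
    have h2 : 1 ≤ (CB_u k * Real.sqrt (Real.pi * (k + 1 / 2))) ^ 2 := by
      rw [mul_pow, Real.sq_sqrt (by positivity)]
      have := CB_ge k
      linarith
    nlinarith [mul_pos hu hs]
  calc (4 : ℝ) ^ k = 4 ^ k * 1 := (mul_one _).symm
    _ ≤ 4 ^ k * (CB_u k * Real.sqrt (Real.pi * (k + 1 / 2))) :=
        mul_le_mul_of_nonneg_left h1 (by positivity)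
    _ = 4 ^ k * CB_u k / 2 * (2 * Real.sqrt (Real.pi * (k + 1 / 2))) := by
        ring

end H31Z
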