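import Pool.Agent.Lib.H31Z.U3a

/-!
Chunk U3b.
-/

namespace H31Z

open Finset

theorem U3b_sqrt {c x y : ℝ} (hc : 0 ≤ c) (h : x ≤ c ^ 2 * y) : Real.sqrt x ≤ c * Real.sqrt y := by
  have h1 := Real.sqrt_le_sqrt h
  rwa [Real.sqrt_mul (sq_nonneg c), Real.sqrt_sq hc] at h1

theorem U3b_first {P N M e η : ℝ} (hN : 0 < N) (hM : 0 < M) (he : 0 < e) (he1 : e ≤ 1 / 100)
    (heη : e ≤ η / 100) (h1 : P ≤ (1 / 2 + e) * Real.sqrt (2 / (Real.pi * N)))
    (h : P < (1 / 4) / Real.sqrt N ∧ M ≤ 2 * N ∨ (1 - e) * M ≤ N) :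
    P ≤ (1 + η) * (1 / 2 * Real.sqrt (2 / (Real.pi * M))) := by
  have hpi := Real.pi_pos
  have hη : 0 < η := by linarith
  rcases h with ⟨h2, h3⟩ | h2
  · have h4 : Real.sqrt (1 / N) ≤ 2 * Real.sqrt (2 / (Real.pi * M)) := by
      apply U3b_sqrt (by norm_num)
      have e1 : (2 : ℝ) ^ 2 * (2 / (Real.pi * M)) = 8 / (Real.pi * M) := by ring
      rw [e1, div_le_div_iff₀ hN (by positivity)]
      have := Real.pi_lt_four
      nlinarith
    have h5 : (1 / 4) / Real.sqrt N = 1 / 4 * Real.sqrt (1 / N) := by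
      rw [Real.sqrt_div zero_le_one, Real.sqrt_one]
      ring
    have h6 : 0 ≤ Real.sqrt (2 / (Real.pi * M)) := Real.sqrt_nonneg _
    rw [h5] at h2
    nlinarith
  · refine h1.trans ?_
    have hc : 0 ≤ (1 + η) / (1 + 2 * e) := by positivity
    have h3 : Real.sqrt (2 / (Real.pi * N)) ≤ (1 + η) / (1 + 2 * e) * Real.sqrt (2 / (Real.pi * M)) := by
      apply U3b_sqrt hc
      have h4 : 1 ≤ ((1 + η) / (1 + 2 * e)) ^ 2 * (1 - e) := by
        rw [div_pow, div_mul_eq_mul_div, one_le_div (by positivity)]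
        nlinarith [mul_pos hη he, sq_nonneg η]
      have h5 : M ≤ ((1 + η) / (1 + 2 * e)) ^ 2 * N := by
        calc M = 1 * M := (one_mul M).symm
          _ ≤ ((1 + η) / (1 + 2 * e)) ^ 2 * (1 - e) * M := mul_le_mul_of_nonneg_right h4 hM.le
          _ = ((1 + η) / (1 + 2 * e)) ^ 2 * ((1 - e) * M) := by ring
          _ ≤ _ := mul_le_mul_of_nonneg_left h2 (sq_nonneg _)
      rw [← mul_div_assoc, div_le_div_iff₀ (by positivity) (by positivity)]
      calc 2 * (Real.pi * M) ≤ 2 * (Real.pi * (((1 + η) / (1 + 2 * e)) ^ 2 * N)) := by gcongr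
        _ = _ := by ring
    calc (1 / 2 + e) * Real.sqrt (2 / (Real.pi * N)) ≤
          (1 / 2 + e) * ((1 + η) / (1 + 2 * e) * Real.sqrt (2 / (Real.pi * M))) :=
          mul_le_mul_of_nonneg_left h3 (by linarith)
      _ = _ := by
          field_simp

theorem U3b_second {P N n κ s e η : ℝ} (hn : 0 < n) (hκ : 1 ≤ κ) (hκ4 : κ ≤ 4) (he : 0 < e)
    (he1 : e ≤ 1 / 100) (heη : e ≤ η / 100) (hN : (1 - e) * n ≤ N) (hs : κ * (1 - 20 * e) * N ≤ s)
    (h1 : P ≤ Real.sqrt (2 / (Real.pi * s)) + e / Real.sqrt N) :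
    P ≤ (1 + η) * Real.sqrt (2 / (Real.pi * κ * n)) := by
  have hpi := Real.pi_pos
  have hκ0 : 0 < κ := by linarith
  have hN0 : 0 < N := lt_of_lt_of_le (mul_pos (by linarith) hn) hN
  have hs0 : 0 < s := lt_of_lt_of_le (mul_pos (mul_pos hκ0 (by linarith)) hN0) hs
  have h2 : Real.sqrt (2 / (Real.pi * s)) ≤ (1 + 42 * e) * Real.sqrt (2 / (Real.pi * κ * n)) := by
    apply U3b_sqrt (by linarith)
    have h3 : κ * n ≤ (1 + 42 * e) ^ 2 * s := by
      have h4 : κ * (1 - 20 * e) * ((1 - e) * n) ≤ s :=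
        le_trans (mul_le_mul_of_nonneg_left hN (mul_nonneg hκ0.le (by linarith))) hs
      have h5 : 1 ≤ (1 + 42 * e) ^ 2 * ((1 - 20 * e) * (1 - e)) := by
        have h6 : 1 - 21 * e ≤ (1 - 20 * e) * (1 - e) := by nlinarith
        have h7 : 1 ≤ (1 + 42 * e) ^ 2 * (1 - 21 * e) := by nlinarith [sq_nonneg e]
        exact h7.trans (mul_le_mul_of_nonneg_left h6 (sq_nonneg _))
      calc κ * n = 1 * (κ * n) := (one_mul _).symm
        _ ≤ (1 + 42 * e) ^ 2 * ((1 - 20 * e) * (1 - e)) * (κ * n) :=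
            mul_le_mul_of_nonneg_right h5 (by positivity)
        _ = (1 + 42 * e) ^ 2 * (κ * (1 - 20 * e) * ((1 - e) * n)) := by ring
        _ ≤ _ := mul_le_mul_of_nonneg_left h4 (sq_nonneg _)
    rw [← mul_div_assoc, div_le_div_iff₀ (by positivity) (by positivity)]
    calc 2 * (Real.pi * κ * n) = 2 * Real.pi * (κ * n) := by ring
      _ ≤ 2 * Real.pi * ((1 + 42 * e) ^ 2 * s) := by gcongr
      _ = _ := by ring
  have h3 : Real.sqrt (1 / N) ≤ 6 * Real.sqrt (2 / (Real.pi * κ * n)) := by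
    apply U3b_sqrt (by norm_num)
    rw [← mul_div_assoc, div_le_div_iff₀ hN0 (by positivity)]
    have h4 := Real.pi_lt_four
    have h5 : Real.pi * κ ≤ 4 * 4 := mul_le_mul h4.le hκ4 hκ0.le (by norm_num)
    have h6 : Real.pi * κ * n ≤ 4 * 4 * n := mul_le_mul_of_nonneg_right h5 hn.le
    have h7 : (1 - e) * n = n - e * n := by ring
    have h8 : e * n ≤ 1 / 100 * n := mul_le_mul_of_nonneg_right he1 hn.le
    linarith
  have h4 : e / Real.sqrt N = e * Real.sqrt (1 / N) := by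
    rw [Real.sqrt_div zero_le_one, Real.sqrt_one]
    ring
  rw [h4] at h1
  have h5 : e * Real.sqrt (1 / N) ≤ e * (6 * Real.sqrt (2 / (Real.pi * κ * n))) :=
    mul_le_mul_of_nonneg_left h3 he.le
  have h6 : (1 + 42 * e) * Real.sqrt (2 / (Real.pi * κ * n)) +
      e * (6 * Real.sqrt (2 / (Real.pi * κ * n))) = (1 + 48 * e) * Real.sqrt (2 / (Real.pi * κ * n)) := by
    ring
  have h7 : (1 + 48 * e) * Real.sqrt (2 / (Real.pi * κ * n)) ≤
      (1 + η) * Real.sqrt (2 / (Real.pi * κ * n)) :=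
    mul_le_mul_of_nonneg_right (by linarith) (Real.sqrt_nonneg _)
  linarith

/-- PROOF. Apply `U3_prep`, `U3_dich` with a small `η'` (`≤ η/100`). Let `N = |I|`, `P = pz y I 0`,
`M = Mval n r = max (n-r) (min (2r) (2(n-r)))`, so `n - r ≤ M ≤ 2 (n - r)` and `M ≤ n`; `N ≥ n - r + 1`.
FIRST alternative: if `P < (1/4)/√N`, then `√N ≥ sqrt (M/2)`, so
`P ≤ (sqrt 2/4)/√M = 0.354/√M < (1/2) sqrt (2/π)/√M`. Otherwise `N ≥ (1-η') M` (both members of the
maximum) and `P ≤ (1/2+η') sqrt (2/(π(1-η')M)) ≤ (1+η) (1/2) sqrt (2/(πM))`.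
SECOND alternative: by `U1_core` `sg w L ≥ κ (1-20η') N` (`κ ≥ 1`), `N > n - 2 K1`, so by field `prob`
`P ≤ sqrt (2/(πκ(1-20η')N)) + η'/√N ≤ (1+η) sqrt (2/(πκn))`. -/
theorem U3_upper (η : ℝ) (hη : 0 < η) :
    ∃ n1 : ℕ, ∀ (n r κ : ℕ), n1 ≤ n → 1 ≤ r → 9 * r ≤ 8 * n → 1 ≤ κ → κ ≤ 4 →
      (∀ h : ℕ, 2 ≤ h → h ≤ κ → h ∣ r) → ∀ x : Fin n → ℝ, Adm n r x →
      (ZZ n x : ℝ) ≤ (1 + η) * 2 ^ n * max (Real.sqrt (2 / (Real.pi * κ * n)))
        (1 / 2 * Real.sqrt (2 / (Real.pi * Mval n r))) := by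
  obtain ⟨e, hed⟩ : ∃ e, e = min (η / 100) (1 / 100) := ⟨_, rfl⟩
  have he : 0 < e := by rw [hed]; positivity
  have heη : e ≤ η / 100 := by rw [hed]; exact min_le_left _ _
  have he1 : e ≤ 1 / 100 := by rw [hed]; exact min_le_right _ _
  obtain ⟨K1, δ, n2, hK1, hδ, hdich⟩ := U3_dich e he he1
  refine ⟨max n2 (⌈2 * (K1 : ℝ) / e⌉₊ + 1), fun n r κ hn hr hr9 hκ1 hκ4 hκ x hx => ?_⟩
  have hn2 : n2 ≤ n := le_trans (le_max_left _ _) hn
  have hn3 : ⌈2 * (K1 : ℝ) / e⌉₊ + 1 ≤ n := le_trans (le_max_right _ _) hn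
  have hn1 : 1 ≤ n := by omega
  have hn0 : (0 : ℝ) < n := by exact_mod_cast hn1
  have hnK : 2 * (K1 : ℝ) ≤ e * n := by
    have h1 : 2 * (K1 : ℝ) / e ≤ n := by
      refine (Nat.le_ceil _).trans ?_
      have : ⌈2 * (K1 : ℝ) / e⌉₊ ≤ n := by omega
      exact_mod_cast this
    rw [div_le_iff₀ he] at h1
    linarith
  have hrn : r ≤ n := by omega
  obtain ⟨I, y, hI, hy, hy0, hS, hZ, hnI⟩ := U3_prep n r hr hrn x hx
  rw [hZ]
  have hη1 : 0 < 1 + η := by linarith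
  suffices h : pz y I 0 ≤ (1 + η) * max (Real.sqrt (2 / (Real.pi * κ * n)))
      (1 / 2 * Real.sqrt (2 / (Real.pi * Mval n r))) by
    have h2 : (0 : ℝ) ≤ 2 ^ n := by positivity
    calc (2 : ℝ) ^ n * pz y I 0 ≤ 2 ^ n * ((1 + η) * max (Real.sqrt (2 / (Real.pi * κ * n)))
          (1 / 2 * Real.sqrt (2 / (Real.pi * Mval n r)))) := mul_le_mul_of_nonneg_left h h2
      _ = _ := by ring
  have hIpos : 0 < I.card := by omega
  have hIr : (0 : ℝ) < I.card := by exact_mod_cast hIpos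
  rcases hdich n r κ hn2 hr hr9 hκ4 hκ I y hy0 hS hnI with ⟨h1, h2⟩ | ⟨h1, L, g, w, hB, hp⟩
  · refine le_trans ?_ (mul_le_mul_of_nonneg_left (le_max_right _ _) hη1.le)
    have hM1 : n - r ≤ Mval n r := le_max_left _ _
    have hM2 : Mval n r ≤ 2 * (n - r) := by
      unfold Mval
      omega
    have hM0 : 0 < Mval n r := by omega
    have hM0' : (0 : ℝ) < Mval n r := by exact_mod_cast hM0
    refine U3b_first hIr hM0' he he1 heη h1 ?_
    rcases h2 with h2 | h2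
    · left
      refine ⟨h2, ?_⟩
      have : Mval n r ≤ 2 * I.card := by omega
      exact_mod_cast this
    · right
      have h3 : ((n - r : ℕ) : ℝ) = (n : ℝ) - r := by
        rw [Nat.cast_sub hrn]
      have h4 : (Mval n r : ℝ) = max ((n : ℝ) - r) (min (2 * (r : ℝ)) (2 * ((n : ℝ) - r))) := by
        unfold Mval
        push_cast [Nat.cast_sub hrn]
        rfl
      rw [h4]
      rcases max_cases ((n : ℝ) - r) (min (2 * (r : ℝ)) (2 * ((n : ℝ) - r))) with ⟨h5, _⟩ | ⟨h5, _⟩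
      · rw [h5]
        have h6 : (n : ℝ) < I.card + r := by exact_mod_cast hnI
        have h7 : (0 : ℝ) ≤ (n : ℝ) - r := by
          have : (r : ℝ) ≤ n := by exact_mod_cast hrn
          linarith
        nlinarith
      · rw [h5]
        exact h2
  · refine le_trans ?_ (mul_le_mul_of_nonneg_left (le_max_left _ _) hη1.le)
    have hs := U1_core e he (by linarith) K1 δ I y L g w hB hIpos κ hκ1 hp
    have hκ1' : (1 : ℝ) ≤ κ := by exact_mod_cast hκ1
    have hκ4' : (κ : ℝ) ≤ 4 := by exact_mod_cast hκ4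
    refine U3b_second hn0 hκ1' hκ4' he he1 heη ?_ hs hB.prob
    have h6 : (n : ℝ) < I.card + 2 * K1 := by exact_mod_cast h1
    linarith

end H31Z
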