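import Pool.Agent.Lib.H31Z.Defs
import Pool.Agent.Helper14.ZeroSum.MainBound

/-!
Chunk U5: the exact bounds of helper14 for `Adm`, `ZZ` (PORT of
`Pool/Agent/Results/MP_f5b580_co/AllOddWeights.lean`: copy the proofs, `Adm`, `ZZ` are the same
definitions as `Admissible`, `Z` there).
-/

namespace H31Z

open Finset


open Pool.Agent.Helper14.ZeroSum in
theorem u5_Z_eq_cnt (n : ℕ) (x : Fin n → ℝ) : ZZ n x = cnt x Finset.univ {0} := by
  classical
  unfold ZZ cnt
  rw [Nat.card_eq_fintype_card, Fintype.card_subtype]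
  simp

open Pool.Agent.Helper14.ZeroSum in
theorem u5_upper_exact (n k N : ℕ) (hkn : 2 * k ≤ n)
    (h : 4 ^ k * N ≤ 2 ^ n * (1 + (2 * k - 1).choose k)) :
    N ≤ 2 ^ (n - 2 * k) * (1 + (2 * k - 1).choose k) := by
  have h1 : 2 ^ n = 4 ^ k * 2 ^ (n - 2 * k) := by
    rw [show (4 : ℕ) = 2 ^ 2 by norm_num, ← pow_mul, ← pow_add]
    congr 1
    omega
  rw [h1, mul_assoc] at h
  exact Nat.le_of_mul_le_mul_left h (by positivity)

open Pool.Agent.Helper14.ZeroSum in
theorem u5_cnt_ones {n : ℕ} (x : Fin n → ℝ) (P : Finset (Fin n)) (hx : ∀ i ∈ P, x i = 1) (v : ℕ) :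
    cnt x P {(v : ℝ)} = P.card.choose v := by
  unfold cnt
  rw [← Finset.card_powersetCard]
  congr 1
  ext T
  rw [Finset.mem_filter, Finset.mem_powerset, Finset.mem_singleton, Finset.mem_powersetCard]
  constructor
  · rintro ⟨hT, hs⟩
    refine ⟨hT, ?_⟩
    rw [Finset.sum_congr rfl (fun i hi => hx i (hT hi)), Finset.sum_const, nsmul_eq_mul,
      mul_one] at hs
    exact_mod_cast hs
  · rintro ⟨hT, hs⟩
    refine ⟨hT, ?_⟩
    rw [Finset.sum_congr rfl (fun i hi => hx i (hT hi)), Finset.sum_const, nsmul_eq_mul,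
      mul_one, hs]

open Pool.Agent.Helper14.ZeroSum in
theorem u5_lower_second (n k r : ℕ) (hrk : r + k = n + 1) (hk : 1 ≤ k) (hkn : 2 * k ≤ n) :
    ∃ x : Fin n → ℝ, Adm n r x ∧
      ZZ n x = 2 ^ (n - 2 * k) * (1 + (2 * k - 1).choose k) := by
  classical
  obtain ⟨R, _, hR⟩ := Finset.exists_subset_card_eq
    (show 2 * k ≤ (Finset.univ : Finset (Fin n)).card by simp; omega)
  obtain ⟨q, hq⟩ : R.Nonempty := Finset.card_pos.mp (by omega)
  set P := R.erase q with hP
  have hqP : q ∉ P := Finset.notMem_erase _ _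
  have hPR : insert q P = R := Finset.insert_erase hq
  have hPc : P.card = 2 * k - 1 := by rw [hP, Finset.card_erase_of_mem hq, hR]
  set x : Fin n → ℝ := fun i => if i ∈ P then 1 else if i = q then -((k - 1 : ℕ) : ℝ) else 0
    with hx
  have hx1 : ∀ i ∈ P, x i = 1 := fun i hi => by simp only [hx]; rw [if_pos hi]
  have hxq : x q = -((k - 1 : ℕ) : ℝ) := by simp only [hx]; rw [if_neg hqP]; simp
  have hx0 : ∀ i, i ∉ R → x i = 0 := by
    intro i hi
    simp only [hx]
    rw [if_neg (fun h => hi (Finset.mem_of_mem_erase h)), if_neg]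
    rintro rfl
    exact hi hq
  refine ⟨x, ?_, ?_⟩
  · intro S hS h0
    have hSR : ∑ i ∈ S ∩ R, x i = 0 := by
      have h1 := Finset.sum_inter_add_sum_sdiff S R x
      have h2 : ∑ i ∈ S \ R, x i = 0 :=
        Finset.sum_eq_zero (fun i hi => hx0 i (Finset.mem_sdiff.mp hi).2)
      linarith
    have hcR : (S ∩ R).card + (S \ R).card = S.card := by
      rw [add_comm]; exact Finset.card_sdiff_add_card_inter S R
    have hcO : (S \ R).card ≤ n - 2 * k := by
      have h1 : S \ R ⊆ Finset.univ \ R := Finset.sdiff_subset_sdiff (Finset.subset_univ _)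
        (Finset.Subset.refl _)
      have h2 := Finset.card_le_card h1
      rw [Finset.card_sdiff_of_subset (Finset.subset_univ _), Finset.card_univ,
        Fintype.card_fin, hR] at h2
      exact h2
    have hSP : ∑ i ∈ S ∩ P, x i = ((S ∩ P).card : ℝ) := by
      rw [Finset.sum_congr rfl (fun i hi => hx1 i (Finset.mem_inter.mp hi).2), Finset.sum_const,
        nsmul_eq_mul, mul_one]
    by_cases hqS : q ∈ S
    · have h1 : S ∩ R = insert q (S ∩ P) := by
        rw [← hPR, Finset.inter_insert_of_mem hqS]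
      have h2 : q ∉ S ∩ P := fun h => hqP (Finset.mem_inter.mp h).2
      rw [h1, Finset.sum_insert h2, hxq, hSP] at hSR
      rw [h1, Finset.card_insert_of_notMem h2] at hcR
      have h3 : ((S ∩ P).card : ℝ) = ((k - 1 : ℕ) : ℝ) := by linarith
      have h4 : (S ∩ P).card = k - 1 := by exact_mod_cast h3
      omega
    · have h1 : S ∩ R = S ∩ P := by
        rw [← hPR, Finset.inter_insert_of_notMem hqS]
      rw [h1, hSP] at hSR
      rw [h1] at hcR
      have h4 : (S ∩ P).card = 0 := by exact_mod_cast hSR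
      omega
  · rw [u5_Z_eq_cnt]
    set O : Finset (Fin n) := Finset.univ \ R with hO
    have hun : R ∪ O = Finset.univ := Finset.union_sdiff_of_subset (Finset.subset_univ _)
    have hOc : O.card = n - 2 * k := by
      rw [hO, Finset.card_sdiff_of_subset (Finset.subset_univ _), Finset.card_univ,
        Fintype.card_fin, hR]
    rw [← hun, cnt_zeros x R O Finset.disjoint_sdiff
      (fun i hi => hx0 i (Finset.mem_sdiff.mp hi).2), hOc, ← hPR, cnt_insert x P q hqP,
      Finset.image_singleton, hxq]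
    have e1 : (0 : ℝ) - -((k - 1 : ℕ) : ℝ) = ((k - 1 : ℕ) : ℝ) := by ring
    have e2 : cnt x P {0} = cnt x P {((0 : ℕ) : ℝ)} := by rw [Nat.cast_zero]
    have e3 : (2 * k - 1).choose (k - 1) = (2 * k - 1).choose k := by
      rw [← Nat.choose_symm (show k ≤ 2 * k - 1 by omega)]
      congr 1
      omega
    rw [e1, e2, u5_cnt_ones x P hx1, u5_cnt_ones x P hx1, hPc, Nat.choose_zero_right, e3]

open Pool.Agent.Helper14.ZeroSum in
theorem u5_lam_sq_anti : Antitone (fun h : ℕ => ((h : ℝ) + 1 / 3) * lam h ^ 2) := by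
  apply antitone_nat_of_succ_le
  intro h
  have h0 := lam_pos h
  have h1 := lam_succ' h
  change ((h + 1 : ℕ) + 1 / 3 : ℝ) * lam (h + 1) ^ 2 ≤ ((h : ℝ) + 1 / 3) * lam h ^ 2
  rw [h1]
  push_cast
  have h2 : ((h : ℝ) + 1 + 1 / 3) * (lam h * ((2 * h + 1) / (2 * h + 2))) ^ 2 =
      lam h ^ 2 * (((h : ℝ) + 4 / 3) * (2 * h + 1) ^ 2 / (4 * (h + 1) ^ 2)) := by
    field_simp
    ring
  rw [h2]
  have h3 : ((h : ℝ) + 4 / 3) * (2 * h + 1) ^ 2 / (4 * (h + 1) ^ 2) ≤ h + 1 / 3 := by
    rw [div_le_iff₀ (by positivity)]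
    nlinarith [(Nat.cast_nonneg h : (0 : ℝ) ≤ h)]
  have h4 : 0 ≤ lam h ^ 2 := by positivity
  nlinarith

open Pool.Agent.Helper14.ZeroSum in
theorem u5_lam_le_half (k : ℕ) : lam (4 * k + 1) ≤ 1 / 2 * lam k := by
  have h1 := u5_lam_sq_anti (show k ≤ 4 * k + 1 by omega)
  simp only at h1
  push_cast at h1
  have h2 := lam_pos k
  have h3 := lam_pos (4 * k + 1)
  have hk : (0 : ℝ) ≤ k := Nat.cast_nonneg k
  have h4 : lam (4 * k + 1) ^ 2 ≤ (1 / 2 * lam k) ^ 2 := by
    have h5 : (4 * ((k : ℝ) + 1 / 3)) * lam (4 * k + 1) ^ 2 ≤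
        (4 * ((k : ℝ) + 1 / 3)) * (1 / 2 * lam k) ^ 2 := by
      calc (4 * ((k : ℝ) + 1 / 3)) * lam (4 * k + 1) ^ 2 =
            (4 * k + 1 + 1 / 3) * lam (4 * k + 1) ^ 2 := by ring
        _ ≤ ((k : ℝ) + 1 / 3) * lam k ^ 2 := h1
        _ = _ := by ring
    exact le_of_mul_le_mul_left h5 (by positivity)
  exact le_of_sq_le_sq h4 (by positivity)

open Pool.Agent.Helper14.ZeroSum in
theorem u5_middle_le_second (n k : ℕ) (hk : 1 ≤ k) (h : 8 * k + 1 ≤ n) :
    n.choose (n / 2) ≤ 2 ^ (n - 2 * k) * (1 + (2 * k - 1).choose k) := by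
  have h1 : lam ((n + 1) / 2) ≤ 1 / 2 * lam k :=
    (lam_antitone (show 4 * k + 1 ≤ (n + 1) / 2 by omega)).trans (u5_lam_le_half k)
  have h2 : (2 : ℝ) ^ n = 4 ^ k * 2 ^ (n - 2 * k) := by
    rw [show (4 : ℝ) = 2 ^ 2 by norm_num, ← pow_mul, ← pow_add]
    congr 1
    omega
  have h3 : (n.choose (n / 2) : ℝ) ≤
      ((2 ^ (n - 2 * k) * (1 + (2 * k - 1).choose k) : ℕ) : ℝ) := by
    rw [middle_eq_lam]
    calc (2 : ℝ) ^ n * lam ((n + 1) / 2) ≤ 2 ^ n * (1 / 2 * lam k) :=
          mul_le_mul_of_nonneg_left h1 (by positivity)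
      _ = 2 ^ (n - 2 * k) * (1 / 2 * (lam k * 4 ^ k)) := by rw [h2]; ring
      _ = 2 ^ (n - 2 * k) * ((2 * k - 1).choose k : ℝ) := by rw [lam_four_pow hk]; ring
      _ ≤ _ := by
          push_cast
          apply mul_le_mul_of_nonneg_left _ (by positivity)
          linarith
  exact_mod_cast h3

open Pool.Agent.Helper14.ZeroSum in
/-- PROOF: `upper_dichotomy` in `AllOddWeights.lean`, with the case distinction kept in the
statement: either some zero-sum set of nonzero coordinates has more than `r` elements, or the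
second bound holds. -/
theorem U5_dich (n k r : ℕ) (hrk : r + k = n + 1) (hk : 1 ≤ k) (x : Fin n → ℝ) (hx : Adm n r x) :
    (∃ B : Finset (Fin n), (∀ i ∈ B, x i ≠ 0) ∧ ∑ i ∈ B, x i = 0 ∧ r < B.card) ∨
      4 ^ k * ZZ n x ≤ 2 ^ n * (1 + (2 * k - 1).choose k) := by
  classical
  rw [u5_Z_eq_cnt]
  set I : Finset (Fin n) := Finset.univ.filter (fun i => x i ≠ 0) with hI
  set O : Finset (Fin n) := Finset.univ.filter (fun i => ¬ (x i ≠ 0)) with hO
  have hdis : Disjoint I O := Finset.disjoint_filter_filter_not _ _ _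
  have hun : I ∪ O = Finset.univ := Finset.filter_union_filter_not_eq _ _
  have hcard : I.card + O.card = n := by
    rw [← Finset.card_union_of_disjoint hdis, hun, Finset.card_univ, Fintype.card_fin]
  have hO0 : ∀ i ∈ O, x i = 0 := fun i hi => not_not.mp (Finset.mem_filter.mp hi).2
  have hI0 : ∀ i ∈ I, x i ≠ 0 := fun i hi => (Finset.mem_filter.mp hi).2
  have hadm : ∀ B ⊆ I, ∑ i ∈ B, x i = 0 → B.card + O.card < r ∨ r < B.card := by
    intro B hB hsB
    by_contra hcon
    push Not at hcon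
    obtain ⟨T, hTO, hTc⟩ := Finset.exists_subset_card_eq
      (show r - B.card ≤ O.card by omega)
    have hBT : Disjoint B T :=
      Finset.disjoint_of_subset_left hB (Finset.disjoint_of_subset_right hTO hdis)
    apply hx (B ∪ T)
    · rw [Finset.card_union_of_disjoint hBT, hTc]; omega
    · rw [Finset.sum_union hBT, hsB, zero_add]
      exact Finset.sum_eq_zero fun i hi => hO0 i (hTO hi)
  rw [← hun, cnt_zeros x I O hdis hO0]
  by_cases hB : ∃ B ⊆ I, ∑ i ∈ B, x i = 0 ∧ r < B.card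
  · left
    obtain ⟨B, hBI, hsB, hcB⟩ := hB
    exact ⟨B, fun i hi => hI0 i (hBI hi), hsB, hcB⟩
  · right
    push Not at hB
    have := main_bound k hk x I hI0 (fun B hBI hsB => by
      rcases hadm B hBI hsB with h | h
      · omega
      · have := hB B hBI hsB; omega)
    calc 4 ^ k * (2 ^ O.card * cnt x I {0}) = 2 ^ O.card * (4 ^ k * cnt x I {0}) := by ring
      _ ≤ 2 ^ O.card * (2 ^ I.card * (1 + (2 * k - 1).choose k)) := Nat.mul_le_mul_left _ this
      _ = 2 ^ (I.card + O.card) * (1 + (2 * k - 1).choose k) := by rw [pow_add]; ring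
      _ = 2 ^ n * (1 + (2 * k - 1).choose k) := by rw [hcard]

open Pool.Agent.Helper14.ZeroSum in
theorem u5_upper_dichotomy (n k r : ℕ) (hrk : r + k = n + 1) (hk : 1 ≤ k)
    (x : Fin n → ℝ) (hx : Adm n r x) :
    ZZ n x ≤ n.choose (n / 2) ∨ 4 ^ k * ZZ n x ≤ 2 ^ n * (1 + (2 * k - 1).choose k) := by
  classical
  rw [u5_Z_eq_cnt]
  set I : Finset (Fin n) := Finset.univ.filter (fun i => x i ≠ 0) with hI
  set O : Finset (Fin n) := Finset.univ.filter (fun i => ¬ (x i ≠ 0)) with hO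
  have hdis : Disjoint I O := Finset.disjoint_filter_filter_not _ _ _
  have hun : I ∪ O = Finset.univ := Finset.filter_union_filter_not_eq _ _
  have hcard : I.card + O.card = n := by
    rw [← Finset.card_union_of_disjoint hdis, hun, Finset.card_univ, Fintype.card_fin]
  have hO0 : ∀ i ∈ O, x i = 0 := fun i hi => not_not.mp (Finset.mem_filter.mp hi).2
  have hI0 : ∀ i ∈ I, x i ≠ 0 := fun i hi => (Finset.mem_filter.mp hi).2
  have hadm : ∀ B ⊆ I, ∑ i ∈ B, x i = 0 → B.card + O.card < r ∨ r < B.card := by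
    intro B hB hsB
    by_contra hcon
    push Not at hcon
    obtain ⟨T, hTO, hTc⟩ := Finset.exists_subset_card_eq
      (show r - B.card ≤ O.card by omega)
    have hBT : Disjoint B T :=
      Finset.disjoint_of_subset_left hB (Finset.disjoint_of_subset_right hTO hdis)
    apply hx (B ∪ T)
    · rw [Finset.card_union_of_disjoint hBT, hTc]; omega
    · rw [Finset.sum_union hBT, hsB, zero_add]
      exact Finset.sum_eq_zero fun i hi => hO0 i (hTO hi)
  rw [← hun, cnt_zeros x I O hdis hO0]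
  by_cases hB : ∃ B ⊆ I, ∑ i ∈ B, x i = 0 ∧ r < B.card
  · left
    obtain ⟨B, hBI, hsB, hcB⟩ := hB
    have := case_large x I O.card r hI0 hadm B hBI hsB hcB
    rwa [hcard] at this
  · right
    push Not at hB
    have := main_bound k hk x I hI0 (fun B hBI hsB => by
      rcases hadm B hBI hsB with h | h
      · omega
      · have := hB B hBI hsB; omega)
    calc 4 ^ k * (2 ^ O.card * cnt x I {0}) = 2 ^ O.card * (4 ^ k * cnt x I {0}) := by ring
      _ ≤ 2 ^ O.card * (2 ^ I.card * (1 + (2 * k - 1).choose k)) := Nat.mul_le_mul_left _ this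
      _ = 2 ^ (I.card + O.card) * (1 + (2 * k - 1).choose k) := by rw [pow_add]; ring
      _ = 2 ^ n * (1 + (2 * k - 1).choose k) := by rw [hcard]

/-- PROOF: `upper_exact`. -/
theorem U5_exact (n k N : ℕ) (hkn : 2 * k ≤ n)
    (h : 4 ^ k * N ≤ 2 ^ n * (1 + (2 * k - 1).choose k)) :
    N ≤ 2 ^ (n - 2 * k) * (1 + (2 * k - 1).choose k) := by
  exact u5_upper_exact n k N hkn h

/-- PROOF: `upper_dichotomy`, `upper_exact`, `middle_le_second` with `k = n - r + 1`. -/
theorem U5_near (n r : ℕ) (hr : 1 ≤ r) (hrn : r ≤ n) (h : 8 * (n - r + 1) + 1 ≤ n)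
    (x : Fin n → ℝ) (hx : Adm n r x) : ZZ n x ≤ Vval n r := by
  have hk : 2 * (n - r + 1) ≤ n := by omega
  unfold Vval
  rw [if_pos hk]
  rcases u5_upper_dichotomy n (n - r + 1) r (by omega) (by omega) x hx with h1 | h1
  · exact h1.trans (u5_middle_le_second n (n - r + 1) (by omega) h)
  · exact u5_upper_exact n (n - r + 1) _ hk h1

/-- PROOF: `lower_second`. -/
theorem U5_lower (n r : ℕ) (hr : 1 ≤ r) (hrn : r ≤ n) (h : 2 * (n - r + 1) ≤ n) :
    ∃ x : Fin n → ℝ, Adm n r x ∧ ZZ n x = Vval n r := by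
  unfold Vval
  rw [if_pos h]
  exact u5_lower_second n (n - r + 1) r (by omega) (by omega) h

end H31Z
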