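import Pool.Agent.Lib.H31Z.TA1

set_option autoImplicit false

/-!
Chunk TA2.
-/

namespace H31Z

open Finset

theorem TA2_sqrt_le {X c S : ℝ} (hc : 0 ≤ c) (hS : 0 < S) (h : X ≤ c ^ 2 / S) :
    Real.sqrt X ≤ c / Real.sqrt S := by
  have h1 : c / Real.sqrt S = Real.sqrt (c ^ 2 / S) := by
    rw [Real.sqrt_div (sq_nonneg c), Real.sqrt_sq hc]
  rw [h1]
  exact Real.sqrt_le_sqrt h

theorem TA2_le_sqrt {X c S : ℝ} (hc : 0 ≤ c) (hS : 0 < S) (h : c ^ 2 / S ≤ X) :
    c / Real.sqrt S ≤ Real.sqrt X := by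
  have h1 : c / Real.sqrt S = Real.sqrt (c ^ 2 / S) := by
    rw [Real.sqrt_div (sq_nonneg c), Real.sqrt_sq hc]
  rw [h1]
  exact Real.sqrt_le_sqrt h

/-- `Vval / 2^n` -/
theorem TA2_V (n r : ℕ) (hrn : r ≤ n) (hk : 2 * (n - r + 1) ≤ n) :
    (2 : ℝ) ^ n * (1 / (2 * Real.sqrt (Real.pi * ((n - r + 1 : ℕ) + 1 / 2)))) ≤ (Vval n r : ℝ) := by
  have hpi := Real.pi_pos
  set k := n - r + 1 with hkdef
  have hk1 : 1 ≤ k := by omega
  have h1 : Vval n r = 2 ^ (n - 2 * k) * (1 + (2 * k - 1).choose k) := by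
    unfold Vval
    rw [if_pos hk]
  rw [h1]
  have h2 := CB_lower k hk1
  have h3 : (2 : ℝ) ^ n = 2 ^ (n - 2 * k) * 4 ^ k := by
    rw [show (4 : ℝ) = 2 ^ 2 by norm_num, ← pow_mul, ← pow_add]
    congr 1
    omega
  push_cast
  rw [h3, mul_assoc]
  refine mul_le_mul_of_nonneg_left ?_ (by positivity)
  calc (4 : ℝ) ^ k * (1 / (2 * Real.sqrt (Real.pi * ((k : ℝ) + 1 / 2)))) =
        4 ^ k / (2 * Real.sqrt (Real.pi * ((k : ℝ) + 1 / 2))) := by ring
    _ ≤ ((2 * k - 1).choose k : ℝ) := h2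
    _ ≤ 1 + ((2 * k - 1).choose k : ℝ) := by linarith

theorem TA2_first (η e n N : ℝ) (hη : 0 < η) (hη9 : η ≤ 2 / 9) (he0 : 0 < e) (he2 : e ≤ η / 4)
    (hn : 0 < n) (hN : (2 / 3 + η) * n ≤ N) :
    (1 / 2 + e) * Real.sqrt (2 / (Real.pi * N)) ≤
      1 / 2 * Real.sqrt (2 / (Real.pi * ((2 / 3 - η) * n))) := by
  have hpi := Real.pi_pos
  have hA : 0 ≤ 1 + 2 * e := by linarith
  have hpos : 0 < (2 / 3 - η) * n := by
    have : 0 < 2 / 3 - η := by linarith
    positivity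
  have hN0 : 0 < N := by
    have : 0 < (2 / 3 + η) * n := by positivity
    linarith
  have h3 : (1 / 2 + e) * Real.sqrt (2 / (Real.pi * N)) =
      1 / 2 * Real.sqrt ((1 + 2 * e) ^ 2 * (2 / (Real.pi * N))) := by
    rw [Real.sqrt_mul (sq_nonneg _), Real.sqrt_sq hA]
    ring
  rw [h3]
  refine mul_le_mul_of_nonneg_left (Real.sqrt_le_sqrt ?_) (by norm_num)
  rw [← mul_div_assoc, div_le_div_iff₀ (by positivity) (by positivity)]
  have h4 : (1 + 2 * e) ^ 2 * ((2 / 3 - η) * n) ≤ N := by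
    have h5 : (1 + 2 * e) ^ 2 ≤ (1 + η / 2) ^ 2 := by
      apply pow_le_pow_left₀ hA
      linarith
    have h6 : (1 + η / 2) ^ 2 * (2 / 3 - η) ≤ 2 / 3 + η := by
      have e1 : (1 + η / 2) ^ 2 * (2 / 3 - η) =
          2 / 3 + η - (4 / 3 * η + 5 / 6 * η ^ 2 + η ^ 3 / 4) := by ring
      have e2 : 0 ≤ 4 / 3 * η + 5 / 6 * η ^ 2 + η ^ 3 / 4 := by positivity
      linarith
    calc (1 + 2 * e) ^ 2 * ((2 / 3 - η) * n) ≤ (1 + η / 2) ^ 2 * ((2 / 3 - η) * n) :=
          mul_le_mul_of_nonneg_right h5 hpos.le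
      _ = ((1 + η / 2) ^ 2 * (2 / 3 - η)) * n := by ring
      _ ≤ (2 / 3 + η) * n := mul_le_mul_of_nonneg_right h6 hn.le
      _ ≤ N := hN
  calc (1 + 2 * e) ^ 2 * 2 * (Real.pi * ((2 / 3 - η) * n)) =
        2 * Real.pi * ((1 + 2 * e) ^ 2 * ((2 / 3 - η) * n)) := by ring
    _ ≤ 2 * Real.pi * N := mul_le_mul_of_nonneg_left h4 (by positivity)
    _ = 2 * (Real.pi * N) := by ring

theorem TA2_b1 {n S : ℝ} (hn : 0 < n) (hS : 2.93 * n ≤ S) :
    Real.sqrt (2 / (Real.pi * S)) ≤ 0.83 * (1 / Real.sqrt (Real.pi * n)) := by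
  have hpi := Real.pi_pos
  have hπn : 0 < Real.pi * n := by positivity
  have hS0 : 0 < S := by linarith
  have h := TA2_sqrt_le (X := 2 / (Real.pi * S)) (c := 0.83) (by norm_num) hπn (by
    rw [div_le_div_iff₀ (by positivity) hπn]
    have h1 : 2 * n ≤ 0.83 ^ 2 * S := by linarith
    calc 2 * (Real.pi * n) = Real.pi * (2 * n) := by ring
      _ ≤ Real.pi * (0.83 ^ 2 * S) := mul_le_mul_of_nonneg_left h1 hpi.le
      _ = 0.83 ^ 2 * (Real.pi * S) := by ring)
  calc _ ≤ _ := h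
    _ = _ := by ring

theorem TA2_b2 {n N e : ℝ} (hn : 0 < n) (he0 : 0 < e) (he1 : e ≤ 1 / 1000)
    (hN : 0.999 * n ≤ N) : e / Real.sqrt N ≤ 0.002 * (1 / Real.sqrt (Real.pi * n)) := by
  have hpi := Real.pi_pos
  have hpi4 : Real.pi < 3.15 := Real.pi_lt_d2
  have hπn : 0 < Real.pi * n := by positivity
  have hN0 : 0 < N := by linarith
  have h4 : Real.sqrt (Real.pi * n) ≤ 2 * Real.sqrt N := by
    have h5 : 2 * Real.sqrt N = Real.sqrt (4 * N) := by
      rw [Real.sqrt_mul (by norm_num), show (4 : ℝ) = 2 ^ 2 by norm_num,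
        Real.sqrt_sq (by norm_num)]
    rw [h5]
    apply Real.sqrt_le_sqrt
    have h7 : Real.pi * n ≤ 3.15 * n := mul_le_mul_of_nonneg_right hpi4.le hn.le
    linarith
  have h6 : 0 < Real.sqrt N := Real.sqrt_pos.2 hN0
  rw [mul_one_div, div_le_div_iff₀ h6 (Real.sqrt_pos.2 hπn)]
  calc e * Real.sqrt (Real.pi * n) ≤ (1 / 1000) * (2 * Real.sqrt N) :=
        mul_le_mul he1 h4 (Real.sqrt_nonneg _) (by norm_num)
    _ = 0.002 * Real.sqrt N := by ring

theorem TA2_b3 {n η : ℝ} (hn : 0 < n) (hη : 0 < η) (hη9 : η ≤ 2 / 9) :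
    1.72 * (1 / Real.sqrt (Real.pi * n)) ≤ Real.sqrt (2 / (Real.pi * ((2 / 3 - η) * n))) := by
  have hpi := Real.pi_pos
  have hπn : 0 < Real.pi * n := by positivity
  have h23 : 0 < 2 / 3 - η := by linarith
  have h := TA2_le_sqrt (X := 2 / (Real.pi * ((2 / 3 - η) * n))) (c := 1.72) (by norm_num) hπn (by
    rw [div_le_div_iff₀ hπn (by positivity)]
    have h1 : 1.72 ^ 2 * (2 / 3 - η) ≤ 2 := by linarith
    calc 1.72 ^ 2 * (Real.pi * ((2 / 3 - η) * n)) = (1.72 ^ 2 * (2 / 3 - η)) * (Real.pi * n) := by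
          ring
      _ ≤ 2 * (Real.pi * n) := mul_le_mul_of_nonneg_right h1 hπn.le)
  calc _ = _ := by ring
    _ ≤ _ := h

theorem TA2_sg {n N S e : ℝ} (hn : 0 < n) (he1 : e ≤ 1 / 1000)
    (hN : 0.999 * n ≤ N) (hS : 3 * (1 - 20 * e) * N ≤ S) : 2.93 * n ≤ S := by
  have hN0 : 0 < N := by linarith
  have h1 : 2.94 * N ≤ 3 * (1 - 20 * e) * N := mul_le_mul_of_nonneg_right (by linarith) hN0.le
  linarith

theorem TA_cross6 (η : ℝ) (hη : 0 < η) : ∃ n0 : ℕ, ∀ (n r : ℕ), n0 ≤ n → 6 ∣ r →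
    (2 / 3 + η) * n ≤ r → 9 * r ≤ 8 * n →
    ∀ x : Fin n → ℝ, Adm n r x →
      (∃ B : Finset (Fin n), (∀ i ∈ B, x i ≠ 0) ∧ ∑ i ∈ B, x i = 0 ∧ r < B.card) →
      ZZ n x ≤ Vval n r := by
  have hpi := Real.pi_pos
  obtain ⟨e, he⟩ : ∃ e, e = min (η / 4) (1 / 1000) := ⟨_, rfl⟩
  have he0 : 0 < e := by rw [he]; exact lt_min (by positivity) (by norm_num)
  have he1 : e ≤ 1 / 1000 := by rw [he]; exact min_le_right _ _
  have he2 : e ≤ η / 4 := by rw [he]; exact min_le_left _ _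
  obtain ⟨K1, δ, n1, hK1, hδ, hD⟩ := U3_dich e he0 (by linarith)
  refine ⟨n1 + ⌈4 / η⌉₊ + ⌈2 * (K1 : ℝ) / e⌉₊ + 10, fun n r hn h6 hr1 hr2 x hx hB => ?_⟩
  have hn10 : (10 : ℝ) ≤ n := by
    have : 10 ≤ n := by omega
    exact_mod_cast this
  have hn0 : (0 : ℝ) < n := by linarith
  have hηn : 4 ≤ η * n := by
    have h1 : 4 / η ≤ (⌈4 / η⌉₊ : ℝ) := Nat.le_ceil _
    have h2 : (⌈4 / η⌉₊ : ℝ) ≤ n := by
      have : ⌈4 / η⌉₊ ≤ n := by omega
      exact_mod_cast this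
    have h3 : 4 / η ≤ n := h1.trans h2
    rw [div_le_iff₀ hη] at h3
    linarith
  have hKn : 2 * (K1 : ℝ) ≤ e * n := by
    have h1 : 2 * (K1 : ℝ) / e ≤ (⌈2 * (K1 : ℝ) / e⌉₊ : ℝ) := Nat.le_ceil _
    have h2 : (⌈2 * (K1 : ℝ) / e⌉₊ : ℝ) ≤ n := by
      have : ⌈2 * (K1 : ℝ) / e⌉₊ ≤ n := by omega
      exact_mod_cast this
    have h3 : 2 * (K1 : ℝ) / e ≤ n := h1.trans h2
    rw [div_le_iff₀ he0] at h3
    linarith
  have hr2' : 9 * (r : ℝ) ≤ 8 * n := by exact_mod_cast hr2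
  have hη9 : η ≤ 2 / 9 := by
    by_contra hcon
    push Not at hcon
    have h1 : (2 / 9 : ℝ) * n < η * n := mul_lt_mul_of_pos_right hcon hn0
    linarith
  have hrpos : (0 : ℝ) < r := by
    have : 0 < (2 / 3 + η) * (n : ℝ) := by positivity
    linarith
  have hr0 : 1 ≤ r := by exact_mod_cast hrpos
  have hrn : r ≤ n := by omega
  obtain ⟨I, y, hIx, hIy, hy0, hStar, hZZ, hnI⟩ := U3_prep n r hr0 hrn x hx
  obtain ⟨B, hB0, hBs, hBc⟩ := hB
  have hrI : r < I.card := lt_of_lt_of_le hBc (Finset.card_le_card fun i hi => (hIx i).2 (hB0 i hi))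
  have hrI' : (r : ℝ) < I.card := by exact_mod_cast hrI
  have hN0 : (0 : ℝ) < I.card := by linarith
  -- the value of the construction
  have hkr : ((n - r + 1 : ℕ) : ℝ) = n - r + 1 := by
    push_cast [Nat.cast_sub hrn]
    ring
  have h2k : 2 * ((n - r + 1 : ℕ) : ℝ) + 1 ≤ (2 / 3 - η) * n := by
    rw [hkr]
    linarith
  have hηn0 : 0 < η * (n : ℝ) := by positivity
  have h2k' : 2 * (n - r + 1) ≤ n := by
    have h1 : 2 * ((n - r + 1 : ℕ) : ℝ) ≤ n := by linarith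
    exact_mod_cast h1
  have hV := TA2_V n r hrn h2k'
  have hpos : 0 < (2 / 3 - η) * (n : ℝ) := by
    have : (0 : ℝ) ≤ ((n - r + 1 : ℕ) : ℝ) := Nat.cast_nonneg _
    linarith
  have hV2 : 1 / 2 * Real.sqrt (2 / (Real.pi * ((2 / 3 - η) * n))) ≤
      1 / (2 * Real.sqrt (Real.pi * ((n - r + 1 : ℕ) + 1 / 2))) := by
    have hS : 0 < Real.pi * (((n - r + 1 : ℕ) : ℝ) + 1 / 2) := by positivity
    have h1 : Real.sqrt (2 / (Real.pi * ((2 / 3 - η) * n))) ≤
        1 / Real.sqrt (Real.pi * (((n - r + 1 : ℕ) : ℝ) + 1 / 2)) := by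
      refine TA2_sqrt_le zero_le_one hS ?_
      rw [one_pow, div_le_div_iff₀ (by positivity) hS]
      calc 2 * (Real.pi * (((n - r + 1 : ℕ) : ℝ) + 1 / 2)) =
            Real.pi * (2 * ((n - r + 1 : ℕ) : ℝ) + 1) := by ring
        _ ≤ Real.pi * ((2 / 3 - η) * n) := mul_le_mul_of_nonneg_left h2k hpi.le
        _ = 1 * (Real.pi * ((2 / 3 - η) * n)) := by ring
    calc 1 / 2 * Real.sqrt (2 / (Real.pi * ((2 / 3 - η) * n))) ≤
        1 / 2 * (1 / Real.sqrt (Real.pi * (((n - r + 1 : ℕ) : ℝ) + 1 / 2))) := by linarith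
      _ = _ := by
        rw [one_div_mul_one_div]
  -- the main inequality
  have hmain : pz y I 0 ≤ 1 / 2 * Real.sqrt (2 / (Real.pi * ((2 / 3 - η) * n))) := by
    have hdiv : ∀ h : ℕ, 2 ≤ h → h ≤ 3 → h ∣ r := by
      intro h h1 h2
      have h3 : h = 2 ∨ h = 3 := by omega
      rcases h3 with rfl | rfl
      · exact dvd_trans (by norm_num) h6
      · exact dvd_trans (by norm_num) h6
    rcases hD n r 3 (by omega) hr0 hr2 (by norm_num) hdiv I y hy0 hStar hnI with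
      ⟨h1, _⟩ | ⟨h1, L, g, w, hBal, hp⟩
    · exact h1.trans (TA2_first η e n I.card hη hη9 he0 he2 hn0 (by linarith))
    · have hIc : 0 < I.card := by omega
      have hsg := U1_core e he0 (by linarith) K1 δ I y L g w hBal hIc 3 (by norm_num) hp
      push_cast at hsg
      have hen : e * (n : ℝ) ≤ 1 / 1000 * n := mul_le_mul_of_nonneg_right he1 hn0.le
      have hNn : (0.999 : ℝ) * n ≤ I.card := by
        have h2 : (n : ℝ) < I.card + 2 * K1 := by exact_mod_cast h1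
        linarith
      have hsg2 : (2.93 : ℝ) * n ≤ sg w L := TA2_sg hn0 he1 hNn hsg
      have b1 := TA2_b1 hn0 hsg2
      have b2 := TA2_b2 hn0 he0 he1 hNn
      have b3 := TA2_b3 hn0 hη hη9
      have b7 := hBal.prob
      have hsn : 0 < 1 / Real.sqrt (Real.pi * n) := by
        have := Real.sqrt_pos.2 (show 0 < Real.pi * (n : ℝ) by positivity)
        positivity
      linarith
  have hfin : (ZZ n x : ℝ) ≤ Vval n r := by
    rw [hZZ]
    exact (mul_le_mul_of_nonneg_left (hmain.trans hV2) (by positivity)).trans hV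
  exact_mod_cast hfin

theorem TA2_small {n k : ℕ} (hn : 400 ≤ n) (hk : 1 ≤ k) (h2k : n < 2 * k) {Z : ℕ}
    (hZ : 4 ^ k * Z ≤ 2 ^ n * (1 + (2 * k - 1).choose k)) :
    (Z : ℝ) ≤ 2 ^ n * (1 / Real.sqrt (Real.pi * n) * (1 - (4 / 10) / n)) := by
  have hpi := Real.pi_pos
  have hpi4 : Real.pi < 3.15 := Real.pi_lt_d2
  have hn' : (400 : ℝ) ≤ n := by exact_mod_cast hn
  have hn0 : (0 : ℝ) < n := by linarith
  have hk0 : (0 : ℝ) < k := by exact_mod_cast hk
  have hkn : (n : ℝ) < 2 * k := by exact_mod_cast h2k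
  have hπn : 0 < Real.pi * n := by positivity
  have hs := Real.sqrt_pos.2 hπn
  have h1 : (4 : ℝ) ^ k * Z ≤ 2 ^ n * (1 + ((2 * k - 1).choose k : ℝ)) := by exact_mod_cast hZ
  have h2 := CB_upper k hk
  have h4k : (0 : ℝ) < 4 ^ k := by positivity
  have h3 : (Z : ℝ) ≤ 2 ^ n * (1 / 4 ^ k + 1 / (2 * Real.sqrt (Real.pi * k))) := by
    have h5 : (4 : ℝ) ^ k * Z ≤ 4 ^ k * (2 ^ n * (1 / 4 ^ k + 1 / (2 * Real.sqrt (Real.pi * k)))) := by
      calc (4 : ℝ) ^ k * Z ≤ 2 ^ n * (1 + ((2 * k - 1).choose k : ℝ)) := h1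
        _ ≤ 2 ^ n * (1 + 4 ^ k / (2 * Real.sqrt (Real.pi * k))) := by gcongr
        _ = _ := by
            field_simp
    exact le_of_mul_le_mul_left h5 h4k
  refine h3.trans (mul_le_mul_of_nonneg_left ?_ (by positivity))
  have h6 : 1 / (2 * Real.sqrt (Real.pi * k)) ≤ 0.71 * (1 / Real.sqrt (Real.pi * n)) := by
    have hk' := Real.sqrt_pos.2 (show 0 < Real.pi * (k : ℝ) by positivity)
    have h7 : Real.sqrt (Real.pi * n) ≤ 1.42 * Real.sqrt (Real.pi * k) := by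
      have h8 : (1.42 : ℝ) * Real.sqrt (Real.pi * k) = Real.sqrt (1.42 ^ 2 * (Real.pi * k)) := by
        rw [Real.sqrt_mul (show (0 : ℝ) ≤ 1.42 ^ 2 by positivity) (Real.pi * k),
          Real.sqrt_sq (by norm_num)]
      rw [h8]
      apply Real.sqrt_le_sqrt
      have h8a : Real.pi * n ≤ Real.pi * (2 * k) := mul_le_mul_of_nonneg_left hkn.le hpi.le
      have h8b : 0 ≤ Real.pi * (k : ℝ) := by positivity
      linarith
    rw [mul_one_div, div_le_div_iff₀ (by positivity) hs]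
    linarith
  have h9 : (1 : ℝ) / 4 ^ k ≤ 0.1 * (1 / Real.sqrt (Real.pi * n)) := by
    have h10 : (n : ℝ) ≤ 4 ^ k := by
      have h11 : n < 2 ^ n := Nat.lt_two_pow_self
      have h12 : 2 ^ n ≤ 4 ^ k := by
        rw [show (4 : ℕ) = 2 ^ 2 by norm_num, ← pow_mul]
        exact Nat.pow_le_pow_right (by norm_num) (by omega)
      have h13 : n ≤ 4 ^ k := by omega
      exact_mod_cast h13
    have h14 : Real.sqrt (Real.pi * n) ≤ 0.1 * n := by
      rw [Real.sqrt_le_left (by positivity)]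
      have h14a : Real.pi * n ≤ 3.15 * n := mul_le_mul_of_nonneg_right hpi4.le hn0.le
      have h14b : 400 * (n : ℝ) ≤ n * n := mul_le_mul_of_nonneg_right hn' hn0.le
      have h14c : (0.1 * (n : ℝ)) ^ 2 = 0.01 * (n * n) := by ring
      rw [h14c]
      linarith
    rw [mul_one_div, div_le_div_iff₀ h4k hs]
    linarith
  have h15 : (4 / 10 : ℝ) / n ≤ 0.001 := by
    rw [div_le_iff₀ hn0]
    linarith
  have h16 : 0 < 1 / Real.sqrt (Real.pi * n) := by positivity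
  have h17 : 1 / Real.sqrt (Real.pi * n) * 0.81 ≤
      1 / Real.sqrt (Real.pi * n) * (1 - (4 / 10) / n) :=
    mul_le_mul_of_nonneg_left (by linarith) h16.le
  linarith

theorem TA_exact (η : ℝ) (hη : 0 < η) : ∃ n0 : ℕ, ∀ (n r : ℕ), n0 ≤ n → 1 ≤ r → r ≤ n → Even r →
    (¬ 3 ∣ r ∨ (2 / 3 + η) * n ≤ r) →
    (∀ x : Fin n → ℝ, Adm n r x → ZZ n x ≤ max (Vval n r) (Aval n r)) ∧
      ∃ x : Fin n → ℝ, Adm n r x ∧ ZZ n x = max (Vval n r) (Aval n r) := by
  obtain ⟨n1, h1⟩ := TA_cross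
  obtain ⟨n2, h2⟩ := TA_cross6 η hη
  obtain ⟨n3, h3⟩ := A7_val
  refine ⟨n1 + n2 + n3 + 400, fun n r hn hr hrn hev hor => ?_⟩
  have h23 : 3 ∣ r → (2 : ℝ) / 3 * n ≤ r := by
    intro h
    rcases hor with h4 | h4
    · exact absurd h h4
    · have : (0 : ℝ) ≤ η * n := by positivity
      linarith
  have h23' : 3 ∣ r → 2 * n ≤ 3 * r := by
    intro h
    have h4 := h23 h
    have h5 : (2 : ℝ) * n ≤ 3 * r := by linarith
    exact_mod_cast h5
  constructor
  · intro x hx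
    by_cases h98 : 9 * r ≤ 8 * n
    · rcases U5_dich n (n - r + 1) r (by omega) (by omega) x hx with hB | hsec
      · by_cases hd : 3 ∣ r
        · have h6 : 6 ∣ r := by
            have : 2 ∣ r := hev.two_dvd
            omega
          have h7 : (2 / 3 + η) * n ≤ r := by
            rcases hor with h4 | h4
            · exact absurd hd h4
            · exact h4
          exact (h2 n r (by omega) h6 h7 h98 x hx hB).trans (le_max_left _ _)
        · exact (h1 n r (by omega) hr hev hd h98 x hx hB).trans (le_max_right _ _)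
      · by_cases h2k : 2 * (n - r + 1) ≤ n
        · refine le_trans ?_ (le_max_left _ _)
          unfold Vval
          rw [if_pos h2k]
          exact U5_exact n (n - r + 1) _ h2k hsec
        · have hd : ¬ 3 ∣ r := by
            intro hd
            have := h23' hd
            omega
          refine le_trans ?_ (le_max_right _ _)
          have h8 := TA2_small (n := n) (k := n - r + 1) (by omega) (by omega) (by omega) hsec
          have h9 := (A9_val n r (by omega) hd).2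
          have h10 := (h3 n r (by omega) hd).1
          have h11 : (ZZ n x : ℝ) ≤ Aval n r := by
            rw [h9]
            exact h8.trans (mul_le_mul_of_nonneg_left h10 (by positivity))
          exact_mod_cast h11
    · refine le_trans ?_ (le_max_left _ _)
      exact U5_near n r hr hrn (by omega) x hx
  · by_cases hd : 3 ∣ r
    · have h4 := h23' hd
      have h5 : Aval n r = 0 := by
        unfold Aval
        have h6 : r % 3 = 0 := Nat.mod_eq_zero_of_dvd hd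
        rw [if_neg (by omega), if_neg (by omega)]
      rw [h5, max_eq_left (Nat.zero_le _)]
      exact U5_lower n r hr hrn (by omega)
    · rcases le_or_gt (Vval n r) (Aval n r) with h4 | h4
      · rw [max_eq_right h4]
        exact (A9_val n r (by omega) hd).1
      · rw [max_eq_left h4.le]
        have h2k : 2 * (n - r + 1) ≤ n := by
          by_contra hcon
          unfold Vval at h4
          rw [if_neg hcon] at h4
          omega
        exact U5_lower n r hr hrn h2k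

end H31Z
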