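import Pool.Agent.Lib.H31Z.A4

/-!
Chunk A5: the second order inequality in final form.
-/

namespace H31Z

open Finset

/-- PROOF. Counting: `n = ca z 0 + ca z 1 + ca z (-2) + |Ex z|`, `DD z = a - 2b + ∑_{Ex} z`. -/
theorem A5_sL {n : ℕ} (z : Fin n → ℤ) :
    sL z = 2 * n - (2 * (ca z 0 : ℝ) + DD z + ∑ e ∈ Ex z, (2 - (z e : ℝ))) := by
  have hn : (n : ℝ) = ∑ _i : Fin n, (1 : ℝ) := by simp
  have hca : ∀ v : ℤ, (ca z v : ℝ) = ∑ i, if z i = v then (1 : ℝ) else 0 := by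
    intro v
    unfold ca
    rw [Finset.card_filter]
    push_cast
    rfl
  unfold sL DD Ex
  rw [hca, hca, hca, hn, Finset.sum_filter, Finset.mul_sum, Finset.mul_sum, Finset.mul_sum,
    ← Finset.sum_add_distrib, ← Finset.sum_add_distrib, ← Finset.sum_add_distrib,
    ← Finset.sum_sub_distrib]
  refine Finset.sum_congr rfl fun i _ => ?_
  by_cases h0 : z i = 0
  · simp [h0]
  · by_cases h1 : z i = 1
    · simp [h1]
      norm_num
    · by_cases h2 : z i = -2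
      · simp [h2]
        norm_num
      · simp [h0, h1, h2]

/-- the elementary inequality for `(1-u)^(-1/2)` -/
theorem A5_sqrt {u : ℝ} (hu : |u| ≤ 1 / 2) : Real.sqrt (1 / (1 - u)) ≤ 1 + u / 2 + u ^ 2 := by
  obtain ⟨h1, h2⟩ := abs_le.1 hu
  have h3 : 0 < 1 - u := by linarith
  have h4 : 0 ≤ 1 + u / 2 + u ^ 2 := by nlinarith [sq_nonneg u]
  rw [Real.sqrt_le_left h4, div_le_iff₀ h3]
  have h5 : (1 + u / 2 + u ^ 2) ^ 2 * (1 - u) = 1 + u ^ 2 * (5 / 4 - 5 / 4 * u - u ^ 3) := by ring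
  rw [h5]
  have h6 : u ^ 3 ≤ 1 / 8 := by
    have h7 : u ^ 2 ≤ 1 / 4 := by nlinarith
    nlinarith [sq_nonneg u]
  have h8 : 0 ≤ 5 / 4 - 5 / 4 * u - u ^ 3 := by linarith
  nlinarith [mul_nonneg (sq_nonneg u) h8]

/-- the final computation -/
theorem A5_calc {η u ω m δ : ℝ} (hη : 0 < η) (hη1 : η ≤ 1) (hω : 0 ≤ ω) (hω1 : ω ≤ 1 / 4)
    (hu : |u| ≤ η / 8) (h : u ^ 2 + δ ≤ m + η / 2 * ω) :
    Real.sqrt (1 / (1 - u)) * (1 - (1 - η / 4) * (ω / (1 - u))) + δ ≤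
      1 + u / 2 + m - (1 - η) * ω := by
  obtain ⟨h1, h2⟩ := abs_le.1 hu
  have h3 : 0 < 1 - u := by linarith
  have h4 := A5_sqrt (u := u) (by linarith)
  have h5 : (1 + u) * ω ≤ ω / (1 - u) := by
    rw [le_div_iff₀ h3]
    nlinarith [mul_nonneg (sq_nonneg u) hω]
  have h6 : 0 ≤ 1 - (1 - η / 4) * ((1 + u) * ω) := by
    have e1 : (1 + u) * ω ≤ 2 * (1 / 4) := by nlinarith
    have e2 : 0 ≤ (1 + u) * ω := mul_nonneg (by linarith) hω
    nlinarith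
  have h7 : 1 - (1 - η / 4) * (ω / (1 - u)) ≤ 1 - (1 - η / 4) * ((1 + u) * ω) := by
    have : (1 - η / 4) * ((1 + u) * ω) ≤ (1 - η / 4) * (ω / (1 - u)) :=
      mul_le_mul_of_nonneg_left h5 (by linarith)
    linarith
  have h8 : Real.sqrt (1 / (1 - u)) * (1 - (1 - η / 4) * (ω / (1 - u))) ≤
      (1 + u / 2 + u ^ 2) * (1 - (1 - η / 4) * ((1 + u) * ω)) := by
    calc _ ≤ Real.sqrt (1 / (1 - u)) * (1 - (1 - η / 4) * ((1 + u) * ω)) :=
          mul_le_mul_of_nonneg_left h7 (Real.sqrt_nonneg _)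
      _ ≤ _ := mul_le_mul_of_nonneg_right h4 h6
  have h9 : (1 + u / 2 + u ^ 2) * (1 - (1 - η / 4) * ((1 + u) * ω)) =
      1 + u / 2 + u ^ 2 - (1 + u / 2 + u ^ 2) * (1 + u) * (1 - η / 4) * ω := by ring
  have h10 : 1 - η / 4 ≤ (1 + u / 2 + u ^ 2) * (1 + u) := by
    have e1 : (1 + u / 2 + u ^ 2) * (1 + u) = 1 + 3 / 2 * u + u ^ 2 * (3 / 2 + u) := by ring
    rw [e1]
    have e2 : 0 ≤ u ^ 2 * (3 / 2 + u) := mul_nonneg (sq_nonneg _) (by linarith)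
    linarith
  have h11 : (1 - η / 2) * ω ≤ (1 + u / 2 + u ^ 2) * (1 + u) * (1 - η / 4) * ω := by
    refine mul_le_mul_of_nonneg_right ?_ hω
    have : (1 - η / 4) * (1 - η / 4) ≤ (1 + u / 2 + u ^ 2) * (1 + u) * (1 - η / 4) :=
      mul_le_mul_of_nonneg_right h10 (by linarith)
    nlinarith
  rw [h9] at h8
  linarith

/-- smallness of the exponential -/
theorem A5_exp {η a n : ℝ} (hη : 0 < η) (hn : 1 ≤ n) (hn2 : 20736 / η ≤ n) (ha : n / 2 ≤ a) :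
    Real.sqrt (Real.pi * n) * Real.exp (-a / 3) ≤ η / (8 * n) := by
  have hn0 : 0 < n := by linarith
  have h1 : Real.exp (-a / 3) ≤ 1296 / n ^ 3 := by
    have h2 : Real.exp (-a / 3) ≤ Real.exp (-(n / 6)) := by
      rw [Real.exp_le_exp]
      linarith
    have h3 := Real.pow_div_factorial_le_exp (n / 6) (by positivity) 3
    have h4 : (n / 6) ^ 3 / ((3 : ℕ).factorial : ℝ) = n ^ 3 / 1296 := by
      norm_num [Nat.factorial]
      ring
    rw [h4] at h3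
    refine h2.trans ?_
    rw [Real.exp_neg, inv_le_comm₀ (Real.exp_pos _) (by positivity), inv_div]
    exact h3
  have h5 : Real.sqrt (Real.pi * n) ≤ 2 * n := by
    rw [Real.sqrt_le_left (by positivity)]
    have := Real.pi_lt_four
    nlinarith
  calc Real.sqrt (Real.pi * n) * Real.exp (-a / 3) ≤ 2 * n * (1296 / n ^ 3) := by gcongr
    _ = 2592 / n ^ 2 := by field_simp; norm_num
    _ ≤ η / (8 * n) := by
        rw [div_le_div_iff₀ (by positivity) (by positivity)]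
        rw [div_le_iff₀ hη] at hn2
        nlinarith

/-- PROOF. Let `η1 = η/4`, `η'` small (`30 η' ≤ η/4`, and as required by `A4_core η1`), `ηS` so small that
`A3_small` and `A3_sE` hold with bound `η'`, `ηS ≤ η'`. Put `σ = sL z = 2n - V` (`A5_sL`),
`V = 2 ca z 0 + DD + ∑_Ex (2 - z)`, `W = sE + DD²`. Every exceptional `z_e` is a nonzero integer, so
`|Ex| ≤ sE ≤ η' n`, `|2 - z_e| ≤ 3 |z_e|`, `|V| ≤ 2 + |DD| + 3 sE ≤ 4 η' n` (large `n`) and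
`V² ≤ 3 (4 + DD² + 9 |Ex| sE) ≤ 12 + (3 + 27 η' n) W`. By `A4_core` and
`(1 - u)^(-1/2) ≤ 1 + u/2 + u²` (`|u| ≤ 1/2`, `u = V/(2n)`), `1/(2σ) ≥ (1 - 2η')/(4n)`:
`pz ≤ (1/sqrt(πn)) (1 + V/(4n) + V²/(4n²)) (1 - (1-η1)(1-2η') W/(4n)) + exp (-a/3)
≤ (1/sqrt(πn)) (1 + (1/(4n)) [V + V²/n - (1 - η1 - 3η') W]) + exp (-a/3)`
(`V W/(16 n²) ≤ η' W/(4n)`), `V²/n ≤ 12/n + (3/n + 27η') W`, and
`exp (-a/3) ≤ (1/sqrt(πn)) (1/(4n)) (1/n)` for large `n` (`a ≥ n/2`). Total: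
`1 - (1/(4n)) [(1 - η1 - 30η' - 3/n) W - V - 13/n]`. -/
theorem A5_so (η : ℝ) (hη : 0 < η) (hη1 : η ≤ 1) :
    ∃ ηS : ℝ, 0 < ηS ∧ ∃ n0 : ℕ, ∀ n : ℕ, n0 ≤ n → ∀ z : Fin n → ℤ, Near ηS z → ca z 0 ≤ 1 →
      (1 - 1 / (2 * (n : ℝ))) / Real.sqrt (Real.pi * n) ≤ pz z Finset.univ 0 →
      pz z Finset.univ 0 ≤ 1 / Real.sqrt (Real.pi * n) * (1 - 1 / (4 * (n : ℝ)) *
        ((1 - η) * (sE z + DD z ^ 2) -
          (2 * (ca z 0 : ℝ) + DD z + ∑ e ∈ Ex z, (2 - (z e : ℝ))) - η)) := by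
  obtain ⟨η4, hη4, n4, hA4⟩ := A4_core (η / 4) (by positivity) (by linarith)
  obtain ⟨ε, hε⟩ : ∃ ε, ε = min η4 (η / 108) := ⟨_, rfl⟩
  have hε0 : 0 < ε := by rw [hε]; positivity
  have hε4 : ε ≤ η4 := by rw [hε]; exact min_le_left _ _
  have hεη : ε ≤ η / 108 := by rw [hε]; exact min_le_right _ _
  obtain ⟨η5, hη5, n5, hA5⟩ := A3_small ε hε0 (by linarith)
  obtain ⟨η6, hη6, n6, hA6⟩ := A3_sE ε hε0 (by linarith)
  refine ⟨min (min η5 η6) (1 / 30), by positivity, max (max n4 n5) (max n6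
    (⌈20736 / η⌉₊ + ⌈3 / ε⌉₊ + 1)), fun n hn z hz hc0 hp => ?_⟩
  have hnear : ∀ η' : ℝ, min (min η5 η6) (1 / 30) ≤ η' → Near η' z := by
    intro η' h
    have hn0 : (0 : ℝ) ≤ n := Nat.cast_nonneg n
    refine ⟨?_, hz.2.trans (mul_le_mul_of_nonneg_right h hn0)⟩
    refine le_trans ?_ hz.1
    refine mul_le_mul_of_nonneg_right ?_ hn0
    linarith
  have hn4 : n4 ≤ n := le_trans (le_trans (le_max_left _ _) (le_max_left _ _)) hn
  have hn5 : n5 ≤ n := le_trans (le_trans (le_max_right _ _) (le_max_left _ _)) hn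
  have hn6 : n6 ≤ n := le_trans (le_trans (le_max_left _ _) (le_max_right _ _)) hn
  have hn7 : ⌈20736 / η⌉₊ + ⌈3 / ε⌉₊ + 1 ≤ n := le_trans (le_trans (le_max_right _ _) (le_max_right _ _)) hn
  have hn1 : (1 : ℝ) ≤ n := by
    have : 1 ≤ n := by omega
    exact_mod_cast this
  have hnη : 20736 / η ≤ n := by
    refine (Nat.le_ceil _).trans ?_
    have : ⌈20736 / η⌉₊ ≤ n := by omega
    exact_mod_cast this
  have hnε : 3 / ε ≤ n := by
    refine (Nat.le_ceil _).trans ?_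
    have : ⌈3 / ε⌉₊ ≤ n := by omega
    exact_mod_cast this
  have hn0 : (0 : ℝ) < n := by linarith
  obtain ⟨hzε, hDε⟩ := hA5 n hn5 z (hnear η5 ((min_le_left _ _).trans (min_le_left _ _))) hp
  have hEε := hA6 n hn6 z (hnear η6 ((min_le_left _ _).trans (min_le_right _ _))) hp
  have hN30 := hnear (1 / 30) (min_le_right _ _)
  obtain ⟨hN1, hN2⟩ := hN30
  obtain ⟨hN3, hN4⟩ := abs_le.1 hN2
  have hσn : (19 / 10) * (n : ℝ) ≤ sL z := by
    unfold sL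
    linarith
  have han : (n : ℝ) / 2 ≤ (ca z 1 : ℝ) := by linarith
  have hle : ε * n ≤ η4 * n := mul_le_mul_of_nonneg_right hε4 hn0.le
  have h1 := hA4 n hn4 z hσn (fun e he => (hzε e he).trans hle) (hDε.trans hle) (hEε.trans hle)
  refine h1.trans ?_
  -- notation
  have hsE : 0 ≤ sE z := Finset.sum_nonneg fun _ _ => sq_nonneg _
  obtain ⟨V, hV⟩ : ∃ V, V = 2 * (ca z 0 : ℝ) + DD z + ∑ e ∈ Ex z, (2 - (z e : ℝ)) := ⟨_, rfl⟩
  obtain ⟨W, hW⟩ : ∃ W, W = sE z + DD z ^ 2 := ⟨_, rfl⟩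
  have hW0 : 0 ≤ W := by rw [hW]; positivity
  have hσ : sL z = 2 * n - V := by rw [A5_sL z, hV]
  rw [← hV, ← hW]
  obtain ⟨u, hu⟩ : ∃ u, u = V / (2 * n) := ⟨_, rfl⟩
  have hVu : V = 2 * n * u := by rw [hu]; field_simp
  have hσu : sL z = 2 * n * (1 - u) := by rw [hσ, hVu]; ring
  obtain ⟨ω, hω⟩ : ∃ ω, ω = W / (4 * n) := ⟨_, rfl⟩
  have hWω : W = 4 * n * ω := by rw [hω]; field_simp
  have hω0 : 0 ≤ ω := by rw [hω]; positivity
  -- bounds of the exceptional sum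
  have hS : |∑ e ∈ Ex z, (2 - (z e : ℝ))| ≤ 3 * sE z := by
    refine (Finset.abs_sum_le_sum_abs _ _).trans ?_
    unfold sE
    rw [Finset.mul_sum]
    refine Finset.sum_le_sum fun e he => ?_
    have h0 : z e ≠ 0 := (Finset.mem_filter.1 he).2.1
    have h2 : (1 : ℤ) ≤ |z e| := Int.one_le_abs h0
    have h3 : (1 : ℝ) ≤ |(z e : ℝ)| := by exact_mod_cast h2
    have h4 : |2 - (z e : ℝ)| ≤ 2 + |(z e : ℝ)| := by
      refine (abs_sub _ _).trans ?_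
      rw [abs_of_pos (by norm_num : (0 : ℝ) < 2)]
    have h5 : (z e : ℝ) ^ 2 = |(z e : ℝ)| ^ 2 := (sq_abs _).symm
    rw [h5]
    nlinarith
  have hD1 : |DD z| ≤ 1 + DD z ^ 2 := by
    rw [← sq_abs (DD z)]
    nlinarith [sq_nonneg (|DD z| - 1), abs_nonneg (DD z)]
  have hc : (ca z 0 : ℝ) ≤ 1 := by exact_mod_cast hc0
  have hc' : (0 : ℝ) ≤ (ca z 0 : ℝ) := Nat.cast_nonneg _
  have hVabs : |V| ≤ 2 + |DD z| + 3 * sE z := by
    rw [hV]
    refine (abs_add_le _ _).trans (add_le_add ((abs_add_le _ _).trans (add_le_add ?_ le_rfl)) hS)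
    rw [abs_of_nonneg (by positivity)]
    linarith
  have hV1 : |V| ≤ 3 + 4 * (ε * n) := by linarith
  have hu1 : |u| ≤ 3 * ε := by
    rw [hu, abs_div, abs_of_pos (by positivity : (0 : ℝ) < 2 * n), div_le_iff₀ (by positivity)]
    rw [div_le_iff₀ hε0] at hnε
    have e1 : 3 * ε * (2 * n) = 6 * (ε * n) := by ring
    have e2 : (n : ℝ) * ε = ε * n := mul_comm _ _
    have e3 : 0 < ε * n := mul_pos hε0 hn0
    rw [e1]
    linarith
  have hV2 : V ^ 2 ≤ 12 + (3 + 27 * (ε * n)) * W := by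
    rw [← sq_abs V]
    have h2 : |V| ^ 2 ≤ (2 + |DD z| + 3 * sE z) ^ 2 := pow_le_pow_left₀ (abs_nonneg _) hVabs 2
    have h3 : (2 + |DD z| + 3 * sE z) ^ 2 ≤ 3 * (4 + DD z ^ 2 + 9 * sE z ^ 2) := by
      rw [← sq_abs (DD z)]
      nlinarith [sq_nonneg (2 - |DD z|), sq_nonneg (2 - 3 * sE z), sq_nonneg (|DD z| - 3 * sE z)]
    have h4 : sE z ^ 2 ≤ ε * n * sE z := by
      rw [sq]
      exact mul_le_mul_of_nonneg_right hEε hsE
    have h5 : sE z ≤ W := by rw [hW]; nlinarith [sq_nonneg (DD z)]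
    have h6 : DD z ^ 2 ≤ W := by rw [hW]; linarith
    have h7 : ε * n * sE z ≤ ε * n * W := mul_le_mul_of_nonneg_left h5 (by positivity)
    have h8 : (3 + 27 * (ε * n)) * W = 3 * W + 27 * (ε * n * W) := by ring
    rw [h8]
    linarith
  obtain ⟨δ, hδ⟩ : ∃ δ, δ = Real.sqrt (Real.pi * n) * Real.exp (-(ca z 1 : ℝ) / 3) := ⟨_, rfl⟩
  have hδ1 : δ ≤ η / (8 * n) := by
    rw [hδ]
    exact A5_exp hη hn1 hnη han
  have hω1 : ω ≤ 1 / 4 := by
    rw [hω, div_le_iff₀ (by positivity), hW]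
    have e1 : ε * n ≤ 1 / 108 * n := mul_le_mul_of_nonneg_right (by linarith) hn0.le
    linarith
  have hn24 : 24 ≤ η * n := by
    rw [div_le_iff₀ hη] at hnη
    linarith
  have hkey : u ^ 2 + δ ≤ η / (4 * n) + η / 2 * ω := by
    have h2 : u ^ 2 ≤ 3 / n ^ 2 + (3 / n + 27 * ε) * ω := by
      have e1 : u ^ 2 = V ^ 2 / (4 * n ^ 2) := by rw [hu]; ring
      have e2 : 3 / (n : ℝ) ^ 2 + (3 / n + 27 * ε) * ω = (12 + (3 + 27 * (ε * n)) * W) / (4 * n ^ 2) := by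
        rw [hω]
        field_simp
        ring
      rw [e1, e2]
      exact div_le_div_of_nonneg_right hV2 (by positivity)
    have h3 : 3 / (n : ℝ) ^ 2 ≤ η / (8 * n) := by
      rw [div_le_div_iff₀ (by positivity) (by positivity)]
      nlinarith
    have h4 : 3 / (n : ℝ) + 27 * ε ≤ η / 2 := by
      have : 3 / (n : ℝ) ≤ η / 8 := by
        rw [div_le_div_iff₀ hn0 (by norm_num)]
        linarith
      linarith
    have h5 : (3 / (n : ℝ) + 27 * ε) * ω ≤ η / 2 * ω := mul_le_mul_of_nonneg_right h4 hω0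
    have h6 : η / (8 * (n : ℝ)) + η / (8 * n) = η / (4 * n) := by field_simp; norm_num
    linarith
  have hfin := A5_calc (m := η / (4 * n)) hη hη1 hω0 hω1 (hu1.trans (by linarith)) hkey
  -- translate
  have hr : 0 < Real.sqrt (Real.pi * n) := Real.sqrt_pos.2 (mul_pos Real.pi_pos hn0)
  obtain ⟨hu3, hu4⟩ := abs_le.1 hu1
  have hu5 : 0 < 1 - u := by linarith
  have e1 : Real.sqrt (2 / (Real.pi * sL z)) = 1 / Real.sqrt (Real.pi * n) * Real.sqrt (1 / (1 - u)) := by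
    rw [hσu, ← Real.sqrt_one, ← Real.sqrt_div zero_le_one, ← Real.sqrt_mul (by positivity)]
    congr 1
    have := Real.pi_pos
    rw [Real.sqrt_one]
    field_simp
  have e2 : (1 - η / 4) * W / (2 * sL z) = (1 - η / 4) * (ω / (1 - u)) := by
    rw [hσu, hWω]
    field_simp
    ring
  have e3 : Real.exp (-(ca z 1 : ℝ) / 3) = 1 / Real.sqrt (Real.pi * n) * δ := by
    rw [hδ]
    field_simp
  rw [e1, e2, e3, mul_assoc, ← mul_add]
  refine mul_le_mul_of_nonneg_left (hfin.trans (le_of_eq ?_)) (by positivity)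
  rw [hVu, hWω]
  field_simp
  ring

end H31Z
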