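import Pool.Agent.Lib.H31Z.U1

/-!
Chunk A1: the structure of near extremal balanced vectors for `κ = 2`.
-/

namespace H31Z

open Finset

theorem a1_split {ι : Type*} (V : Finset ι) (v : ι → ℤ) (f : ι → ℝ) :
    ∑ k ∈ V, f k = (∑ k ∈ V.filter (fun k => v k = 1), f k) + (∑ k ∈ V.filter (fun k => v k = -2), f k) +
      ∑ k ∈ V.filter (fun k => v k ≠ 1 ∧ v k ≠ -2), f k := by
  rw [Finset.sum_filter, Finset.sum_filter, Finset.sum_filter, ← Finset.sum_add_distrib, ← Finset.sum_add_distrib]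
  refine Finset.sum_congr rfl fun k _ => ?_
  by_cases h1 : v k = 1
  · rw [if_pos h1, if_neg (by rw [h1]; norm_num), if_neg (fun h => h.1 h1)]
    ring
  · by_cases h2 : v k = -2
    · rw [if_neg h1, if_pos h2, if_neg (fun h => h.2 h2)]
      ring
    · rw [if_neg h1, if_neg h2, if_pos ⟨h1, h2⟩]
      ring

theorem a1_cost {v : ℤ} (h : 1 ≤ v ∨ v ≤ -2) (h1 : v ≠ 1) (h2 : v ≠ -2) :
    (4 : ℝ) ≤ (v : ℝ) ^ 2 + v - 2 ∧ |(v : ℝ)| ≤ 9 / 4 * ((v : ℝ) ^ 2 + v - 2) := by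
  have h3 : 2 ≤ v ∨ v ≤ -3 := by omega
  rcases h3 with h3 | h3
  · have h4 : (2 : ℝ) ≤ v := by exact_mod_cast h3
    refine ⟨by nlinarith, ?_⟩
    rw [abs_of_nonneg (by linarith)]
    nlinarith
  · have h4 : (v : ℝ) ≤ -3 := by exact_mod_cast h3
    refine ⟨by nlinarith, ?_⟩
    rw [abs_of_nonpos (by linarith)]
    nlinarith

/-- the bound for the variance -/
theorem a1_sg (η n N S P : ℝ) (hη : 0 < η) (hη1 : η ≤ 1 / 1000) (hn0 : 1 ≤ n) (hN : (1 - η) * n ≤ N)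
    (h1 : (1 - η) / Real.sqrt (Real.pi * n) ≤ P)
    (h2 : P ≤ Real.sqrt (2 / (Real.pi * S)) + η / Real.sqrt N) : S ≤ 2 * n * (1 + 7 * η) := by
  by_contra hS
  push Not at hS
  have hπ : 0 < Real.pi := Real.pi_pos
  have hπ4 : Real.pi < 3.15 := Real.pi_lt_d2
  have hn : 0 < n := by linarith
  have hNn : 0.999 * n ≤ N := by nlinarith
  have hN0 : 0 < N := by nlinarith
  have hS0 : 0 < S := by nlinarith
  have hs : 0 < Real.sqrt (Real.pi * n) := Real.sqrt_pos.2 (by positivity)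
  have hs2 : Real.sqrt (Real.pi * n) ^ 2 = Real.pi * n := Real.sq_sqrt (by positivity)
  have e1 : Real.sqrt (2 / (Real.pi * S)) < (1 - 3 * η) / Real.sqrt (Real.pi * n) := by
    rw [Real.sqrt_lt' (div_pos (by linarith) hs), div_pow, hs2, div_lt_div_iff₀ (by positivity) (by positivity)]
    have e2 : 1 ≤ (1 + 7 * η) * (1 - 3 * η) ^ 2 := by nlinarith [mul_pos hη hη, mul_pos hη (mul_pos hη hη)]
    have e3 : 2 * n < (1 - 3 * η) ^ 2 * S := by
      have e4 : 0 < (1 - 3 * η) ^ 2 := by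
        have : 0 < 1 - 3 * η := by linarith
        positivity
      calc 2 * n = 2 * n * 1 := by ring
        _ ≤ 2 * n * ((1 + 7 * η) * (1 - 3 * η) ^ 2) := mul_le_mul_of_nonneg_left e2 (by linarith)
        _ = (1 - 3 * η) ^ 2 * (2 * n * (1 + 7 * η)) := by ring
        _ < (1 - 3 * η) ^ 2 * S := mul_lt_mul_of_pos_left hS e4
    calc 2 * (Real.pi * n) = Real.pi * (2 * n) := by ring
      _ < Real.pi * ((1 - 3 * η) ^ 2 * S) := mul_lt_mul_of_pos_left e3 hπ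
      _ = (1 - 3 * η) ^ 2 * (Real.pi * S) := by ring
  have e5 : η / Real.sqrt N ≤ 2 * η / Real.sqrt (Real.pi * n) := by
    have e6 : Real.sqrt (Real.pi * n) ≤ 2 * Real.sqrt N := by
      have e7 : 2 * Real.sqrt N = Real.sqrt (4 * N) := by
        rw [Real.sqrt_mul (by norm_num), show (4 : ℝ) = 2 ^ 2 by norm_num, Real.sqrt_sq (by norm_num)]
      rw [e7]
      apply Real.sqrt_le_sqrt
      nlinarith
    rw [div_le_div_iff₀ (Real.sqrt_pos.2 hN0) hs]
    nlinarith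
  have e8 : (1 - η) / Real.sqrt (Real.pi * n) = (1 - 3 * η) / Real.sqrt (Real.pi * n) + 2 * η / Real.sqrt (Real.pi * n) := by
    rw [← add_div]
    congr 1
    ring
  linarith

/-- PROOF. Let `N = |I|`, `(1-η) n ≤ N ≤ n`. By field `prob`, `sqrt (2/(π sg)) ≥ (1-η)/√(πn) - η/√N ≥
(1-3η)/√(πn)`, so `sg ≤ 2n/(1-3η)^2 ≤ 2n (1+7η)`. Let `a0` be the least positive value of `w` on `VA` and
`-b0` the largest negative one (`U1_signs`); `a0, b0 ≤ 15` and `sg ≥ a0 b0 (1-η)N - 15ηN` as in the proof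
of `U1_core` (repeat it, or apply `U1_core` with `κ = 3`: if all products were at least `3`, then
`sg ≥ 3 (1-20η)N > 2n(1+7η)`). So some pair has product at most `2`; since every product is at least
`2` (`hp`), `a0 b0 = 2`: `(a0,b0) = (1,2)` (put `ς = 1`) or `(2,1)` (put `ς = -1`). With `v = ς w`: on `VA`
`v ≥ 1` or `v ≤ -2`, and `cost(v) = (v-1)(v+2) = v^2 + v - 2 ≥ 0` is `0` for `v ∈ {1,-2}` and at least `4`, and at least `(4/9) v^2`, for the other
ones. `∑_VA cost ≤ sg + |∑_VA w| - 2|VA| ≤ 2n(1+7η) + ηn - 2(1-η)^2 n ≤ 19ηn`. So at most `5ηn` elements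
of `VA` have `v ∉ {1,-2}`, and `∑ |v| ≤ ∑ v^2 ≤ 43ηn` over them. Hence
`#{VA : v=1} + #{VA : v=-2} ≥ (1-η)N - 5ηn ≥ (1-7η)n` and
`|#{VA : v = 1} - 2 #{VA : v = -2}| ≤ |∑_VA v| + 43ηn ≤ 44ηn`. Passing from `VA` to `I` changes the
numbers by at most `n - |VA| ≤ 2ηn`. -/
theorem A1_struct {ι : Type*} (η : ℝ) (hη : 0 < η) (hη1 : η ≤ 1 / 1000) (K1 : ℕ) (δ : ℝ) (n : ℕ)
    (I : Finset ι) (y : ι → ℤ) (L : Finset ι) (g : ℤ) (w : ι → ℤ) (hB : Bal η K1 δ I y L g w)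
    (hn : I.card ≤ n) (hn1 : n < I.card + 2 * K1) (hn2 : 2 * (K1 : ℝ) ≤ η * n) (hn0 : 1 ≤ n)
    (hP : (1 - η) / Real.sqrt (Real.pi * n) ≤ pz y I 0)
    (hp : ∀ i ∈ VA w L K1 δ I.card, ∀ j ∈ VA w L K1 δ I.card, 0 < w i → w j < 0 →
      (2 : ℤ) ≤ w i * (-w j)) :
    ∃ ς : ℤ, (ς = 1 ∨ ς = -1) ∧
      (1 - 50 * η) * n ≤ ((I.filter (fun j => (y j : ℤ) = ς * g)).card : ℝ) +
        ((I.filter (fun j => (y j : ℤ) = -2 * (ς * g))).card : ℝ) ∧
      |((I.filter (fun j => (y j : ℤ) = ς * g)).card : ℝ) -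
        2 * ((I.filter (fun j => (y j : ℤ) = -2 * (ς * g))).card : ℝ)| ≤ 50 * η * n := by
  classical
  obtain ⟨V, hV⟩ : ∃ V, V = VA w L K1 δ I.card := ⟨_, rfl⟩
  have hVL : V ⊆ L := by
    rw [hV]
    exact Finset.filter_subset _ _
  have hVI : V ⊆ I := hVL.trans hB.sub
  have hNn : (I.card : ℝ) ≤ n := by exact_mod_cast hn
  have hn : (1 : ℝ) ≤ n := by exact_mod_cast hn0
  have hNn1 : (1 - η) * n ≤ (I.card : ℝ) := by
    have h1 : (n : ℝ) < I.card + 2 * K1 := by exact_mod_cast hn1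
    linarith
  have hN0 : (0 : ℝ) < I.card := by nlinarith
  have hI0 : 0 < I.card := by exact_mod_cast hN0
  have hsg : sg w L ≤ 2 * n * (1 + 7 * η) := a1_sg η n I.card (sg w L) _ hη hη1 hn hNn1 hP hB.prob
  -- a pair with product two
  have hpair : ∃ ς : ℤ, (ς = 1 ∨ ς = -1) ∧ ∀ k ∈ V, 1 ≤ ς * w k ∨ ς * w k ≤ -2 := by
    have hne : ∃ i ∈ V, ∃ j ∈ V, 0 < w i ∧ w j < 0 ∧ w i * (-w j) < 3 := by
      by_contra hcon
      push Not at hcon
      have h3 := U1_core η hη (by linarith) K1 δ I y L g w hB hI0 3 (by norm_num) (by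
        intro i hi j hj h1 h2
        rw [← hV] at hi hj
        exact_mod_cast hcon i hi j hj h1 h2)
      push_cast at h3
      nlinarith
    obtain ⟨i, hi, j, hj, h1, h2, h3⟩ := hne
    rw [← hV] at hp
    have h4 := hp i hi j hj h1 h2
    have h5 : w i * (-w j) = 2 := by omega
    have h6 : w i = 1 ∨ w i = 2 := by
      have h7 : w i ∣ 2 := ⟨_, h5.symm⟩
      have h8 := Int.le_of_dvd (by norm_num) h7
      omega
    rcases h6 with h6 | h6
    · refine ⟨1, Or.inl rfl, fun k hk => ?_⟩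
      rw [one_mul]
      have h0 := (hB.eqn k (hVL hk)).2
      by_cases hpos : 0 < w k
      · left; omega
      · right
        have h9 := hp i hi k hk h1 (by omega)
        rw [h6, one_mul] at h9
        omega
    · refine ⟨-1, Or.inr rfl, fun k hk => ?_⟩
      have h0 := (hB.eqn k (hVL hk)).2
      rw [h6] at h5
      have h10 : w j = -1 := by omega
      by_cases hpos : 0 < w k
      · right
        have h9 := hp k hk j hj hpos h2
        rw [h10] at h9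
        omega
      · left; omega
  obtain ⟨ς, hς, hv⟩ := hpair
  refine ⟨ς, hς, ?_⟩
  have hςς : ς * ς = 1 := by rcases hς with h | h <;> rw [h] <;> norm_num
  have hςR : (ς : ℝ) ^ 2 = 1 := by
    rw [sq]
    exact_mod_cast hςς
  obtain ⟨v, hvd⟩ : ∃ v : ι → ℤ, ∀ k, v k = ς * w k := ⟨_, fun _ => rfl⟩
  have hv' : ∀ k ∈ V, 1 ≤ v k ∨ v k ≤ -2 := fun k hk => by
    rw [hvd]
    exact hv k hk
  have hvR : ∀ k, (v k : ℝ) = ς * w k := fun k => by rw [hvd]; push_cast; rfl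
  have hVc := hB.vacard
  have hVs := hB.vasum
  rw [← hV] at hVc hVs
  have hVN : (V.card : ℝ) ≤ I.card := by exact_mod_cast Finset.card_le_card hVI
  have hVn : (1 - 2 * η) * n ≤ V.card := by nlinarith
  have hsv : |∑ k ∈ V, (v k : ℝ)| ≤ η * n := by
    have h1 : ∑ k ∈ V, (v k : ℝ) = ς * ∑ k ∈ V, (w k : ℝ) := by
      rw [Finset.mul_sum]
      exact Finset.sum_congr rfl fun k _ => hvR k
    have h2 : |(ς : ℝ)| = 1 := by
      rcases hς with h | h <;> rw [h] <;> norm_num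
    rw [h1, abs_mul, h2, one_mul]
    exact hVs.trans (mul_le_mul_of_nonneg_left hNn hη.le)
  have hsq : ∑ k ∈ V, (v k : ℝ) ^ 2 ≤ sg w L := by
    unfold sg
    have h1 : ∑ k ∈ V, (v k : ℝ) ^ 2 = ∑ k ∈ V, (w k : ℝ) ^ 2 := by
      refine Finset.sum_congr rfl fun k _ => ?_
      rw [hvR, mul_pow, hςR, one_mul]
    rw [h1]
    exact Finset.sum_le_sum_of_subset_of_nonneg hVL fun k _ _ => sq_nonneg _
  obtain ⟨P, hPd⟩ : ∃ P, P = V.filter (fun k => v k = 1) := ⟨_, rfl⟩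
  obtain ⟨M, hMd⟩ : ∃ M, M = V.filter (fun k => v k = -2) := ⟨_, rfl⟩
  obtain ⟨E, hEd⟩ : ∃ E, E = V.filter (fun k => v k ≠ 1 ∧ v k ≠ -2) := ⟨_, rfl⟩
  have hP1 : ∀ k ∈ P, (v k : ℝ) = 1 := fun k hk => by
    rw [hPd] at hk
    rw [(Finset.mem_filter.1 hk).2, Int.cast_one]
  have hM1 : ∀ k ∈ M, (v k : ℝ) = -2 := fun k hk => by
    rw [hMd] at hk
    rw [(Finset.mem_filter.1 hk).2]
    norm_num
  have hE1 : ∀ k ∈ E, (4 : ℝ) ≤ (v k : ℝ) ^ 2 + v k - 2 ∧ |(v k : ℝ)| ≤ 9 / 4 * ((v k : ℝ) ^ 2 + v k - 2) := fun k hk => by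
    rw [hEd] at hk
    obtain ⟨a, b, c⟩ := Finset.mem_filter.1 hk
    exact a1_cost (hv' k a) b c
  have sp := fun f : ι → ℝ => a1_split V v f
  rw [← hPd, ← hMd, ← hEd] at sp
  have s1 := sp fun _ => 1
  have s2 := sp fun k => (v k : ℝ)
  have s3 := sp fun k => (v k : ℝ) ^ 2 + v k - 2
  simp only [Finset.sum_const, nsmul_eq_mul, mul_one] at s1
  have s2P : ∑ k ∈ P, (v k : ℝ) = P.card := by
    rw [Finset.sum_congr rfl hP1, Finset.sum_const, nsmul_eq_mul, mul_one]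
  have s2M : ∑ k ∈ M, (v k : ℝ) = M.card * (-2) := by
    rw [Finset.sum_congr rfl hM1, Finset.sum_const, nsmul_eq_mul]
  have s3P : ∑ k ∈ P, ((v k : ℝ) ^ 2 + v k - 2) = 0 :=
    Finset.sum_eq_zero fun k hk => by rw [hP1 k hk]; norm_num
  have s3M : ∑ k ∈ M, ((v k : ℝ) ^ 2 + v k - 2) = 0 :=
    Finset.sum_eq_zero fun k hk => by rw [hM1 k hk]; norm_num
  rw [s2P, s2M] at s2
  rw [s3P, s3M, zero_add, zero_add] at s3
  obtain ⟨C, hC⟩ : ∃ C, C = ∑ k ∈ E, ((v k : ℝ) ^ 2 + v k - 2) := ⟨_, rfl⟩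
  have hCV : C = ∑ k ∈ V, (v k : ℝ) ^ 2 + ∑ k ∈ V, (v k : ℝ) - 2 * V.card := by
    rw [hC, ← s3, Finset.sum_sub_distrib, Finset.sum_add_distrib, Finset.sum_const, nsmul_eq_mul]
    ring
  have hCle : C ≤ 19 * η * n := by
    have h1 := (abs_le.1 hsv).2
    nlinarith
  have hE4 : 4 * (E.card : ℝ) ≤ C := by
    rw [hC]
    calc 4 * (E.card : ℝ) = ∑ k ∈ E, (4 : ℝ) := by rw [Finset.sum_const, nsmul_eq_mul]; ring
      _ ≤ _ := Finset.sum_le_sum fun k hk => (hE1 k hk).1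
  have hEv : |∑ k ∈ E, (v k : ℝ)| ≤ 9 / 4 * C := by
    rw [hC, Finset.mul_sum]
    exact (Finset.abs_sum_le_sum_abs _ _).trans (Finset.sum_le_sum fun k hk => (hE1 k hk).2)
  -- passage to `I`
  have hD : ((I \ V).card : ℝ) ≤ 2 * η * n := by
    rw [Finset.cast_card_sdiff hVI]
    linarith
  have hw1 : ∀ k ∈ V, ∀ a : ℤ, v k = a ↔ y k = a * (ς * g) := by
    intro k hk a
    rw [(hB.eqn k (hVL hk)).1, hvd]
    constructor
    · intro h
      calc g * w k = (ς * ς) * (g * w k) := by rw [hςς, one_mul]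
        _ = (ς * w k) * (ς * g) := by ring
        _ = a * (ς * g) := by rw [h]
    · intro h
      have h2 : g * (ς * w k) = g * a := by
        calc g * (ς * w k) = ς * (g * w k) := by ring
          _ = ς * (a * (ς * g)) := by rw [h]
          _ = (ς * ς) * (g * a) := by ring
          _ = g * a := by rw [hςς, one_mul]
      exact mul_left_cancel₀ hB.g0 h2
  have cnt : ∀ a : ℤ, ((V.filter (fun k => v k = a)).card : ℝ) ≤ ((I.filter (fun j => (y j : ℤ) = a * (ς * g))).card : ℝ) ∧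
      ((I.filter (fun j => (y j : ℤ) = a * (ς * g))).card : ℝ) ≤ ((V.filter (fun k => v k = a)).card : ℝ) + 2 * η * n := by
    intro a
    constructor
    · have : (V.filter (fun k => v k = a)) ⊆ I.filter (fun j => (y j : ℤ) = a * (ς * g)) := by
        intro k hk
        obtain ⟨h1, h2⟩ := Finset.mem_filter.1 hk
        exact Finset.mem_filter.2 ⟨hVI h1, (hw1 k h1 a).1 h2⟩
      exact_mod_cast Finset.card_le_card this
    · have h1 : I.filter (fun j => (y j : ℤ) = a * (ς * g)) ⊆ (V.filter (fun k => v k = a)) ∪ (I \ V) := by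
        intro k hk
        obtain ⟨h1, h2⟩ := Finset.mem_filter.1 hk
        by_cases hkV : k ∈ V
        · exact Finset.mem_union_left _ (Finset.mem_filter.2 ⟨hkV, (hw1 k hkV a).2 h2⟩)
        · exact Finset.mem_union_right _ (Finset.mem_sdiff.2 ⟨h1, hkV⟩)
      have h2 := (Finset.card_le_card h1).trans (Finset.card_union_le _ _)
      have h3 : ((I.filter (fun j => (y j : ℤ) = a * (ς * g))).card : ℝ) ≤
          ((V.filter (fun k => v k = a)).card : ℝ) + ((I \ V).card : ℝ) := by exact_mod_cast h2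
      linarith
  have c1 := cnt 1
  have c2 := cnt (-2)
  rw [← hPd] at c1
  rw [← hMd] at c2
  simp only [one_mul] at c1
  obtain ⟨c1a, c1b⟩ := c1
  obtain ⟨c2a, c2b⟩ := c2
  have hηn : 0 ≤ η * n := by positivity
  obtain ⟨v1, v2⟩ := abs_le.1 hsv
  obtain ⟨w1, w2⟩ := abs_le.1 hEv
  refine ⟨by linarith, ?_⟩
  rw [abs_le]
  constructor <;> linarith

end H31Z
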