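import Pool.Agent.Lib.H31Z.ADefs

/-!
Chunk A6: the residue argument.
-/

namespace H31Z

open Finset

theorem A6_build {n : ℕ} (z : Fin n → ℤ) (F : Finset (Fin n)) (m b : ℕ)
    (hF : ∀ i ∈ F, z i ≠ 1 ∧ z i ≠ -2) (hs : ∑ i ∈ F, z i = -(m : ℤ)) (ha : 2 * b + m ≤ ca z 1)
    (hb : b ≤ ca z (-2)) :
    ∃ S : Finset (Fin n), S.card = F.card + m + 3 * b ∧ ∑ i ∈ S, z i = 0 := by
  obtain ⟨A, hA, hAc⟩ := Finset.exists_subset_card_eq ha
  obtain ⟨B, hB, hBc⟩ := Finset.exists_subset_card_eq hb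
  have hA1 : ∀ i ∈ A, z i = 1 := fun i hi => (Finset.mem_filter.1 (hA hi)).2
  have hB1 : ∀ i ∈ B, z i = -2 := fun i hi => (Finset.mem_filter.1 (hB hi)).2
  have h1 : Disjoint A B := Finset.disjoint_left.2 fun i hi hi' => by
    have e1 := hA1 i hi
    have e2 := hB1 i hi'
    omega
  have h2 : Disjoint F (A ∪ B) := Finset.disjoint_left.2 fun i hi hi' => by
    rcases Finset.mem_union.1 hi' with h | h
    · exact (hF i hi).1 (hA1 i h)
    · exact (hF i hi).2 (hB1 i h)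
  refine ⟨F ∪ (A ∪ B), ?_, ?_⟩
  · rw [Finset.card_union_of_disjoint h2, Finset.card_union_of_disjoint h1, hAc, hBc]
    ring
  · rw [Finset.sum_union h2, Finset.sum_union h1, hs, Finset.sum_congr rfl hA1, Finset.sum_congr rfl hB1,
      Finset.sum_const, Finset.sum_const, hAc, hBc]
    simp
    ring

theorem A6_key {n r : ℕ} (hn : 100 ≤ n) (hr : 9 * r ≤ 8 * n) {z : Fin n → ℤ} (hz : Near (1 / 100) z)
    (hS : ∀ S : Finset (Fin n), S.card = r → ∑ i ∈ S, z i ≠ 0) (F : Finset (Fin n)) (m : ℕ)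
    (hF : ∀ i ∈ F, z i ≠ 1 ∧ z i ≠ -2) (hs : ∑ i ∈ F, z i = -(m : ℤ)) (hm : m ≤ 2)
    (h1 : F.card + m ≤ r) (h3 : 3 ∣ r - (F.card + m)) : False := by
  obtain ⟨b, hb⟩ := h3
  obtain ⟨hz1, hz2⟩ := hz
  rw [abs_le] at hz2
  have e : r = F.card + m + 3 * b := by omega
  have hnR : (100 : ℝ) ≤ (n : ℝ) := by exact_mod_cast hn
  have hrR : 9 * (r : ℝ) ≤ 8 * (n : ℝ) := by exact_mod_cast hr
  have hbr : 3 * (b : ℝ) ≤ (r : ℝ) := by
    have : 3 * b ≤ r := by omega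
    exact_mod_cast this
  have hmR : (m : ℝ) ≤ 2 := by exact_mod_cast hm
  have hb1 : b ≤ ca z (-2) := by
    have : (b : ℝ) ≤ (ca z (-2) : ℝ) := by linarith
    exact_mod_cast this
  have ha1 : 2 * b + m ≤ ca z 1 := by
    have : 2 * (b : ℝ) + m ≤ (ca z 1 : ℝ) := by linarith
    exact_mod_cast this
  obtain ⟨S, hS1, hS2⟩ := A6_build z F m b hF hs ha1 hb1
  exact hS S (by rw [hS1, e]) hS2

theorem A6_two {n : ℕ} {z : Fin n → ℤ} {v : ℤ} (h : 2 ≤ ca z v) :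
    ∃ F : Finset (Fin n), F.card = 2 ∧ ∀ i ∈ F, z i = v := by
  obtain ⟨A, hA, hAc⟩ := Finset.exists_subset_card_eq h
  exact ⟨A, hAc, fun i hi => (Finset.mem_filter.1 (hA hi)).2⟩

theorem A6_one {n : ℕ} {z : Fin n → ℤ} {v : ℤ} (h : 1 ≤ ca z v) :
    ∃ F : Finset (Fin n), F.card = 1 ∧ ∀ i ∈ F, z i = v := by
  obtain ⟨A, hA, hAc⟩ := Finset.exists_subset_card_eq h
  exact ⟨A, hAc, fun i hi => (Finset.mem_filter.1 (hA hi)).2⟩

/-- PROOF. `a = ca z 1`, `b = ca z (-2)`; `3b = (a+b) - (a-2b) ≥ 0.98 n`, `3a = 2(a+b) + (a-2b) ≥ 1.97 n`.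
Given a set `F` of at most two coordinates, each equal to `0` or `-1`, with `m` entries `-1`, and suppose
`r ≥ |F| + m` and `3 ∣ r - |F| - m`; put `b' = (r - |F| - m)/3`, `a' = 2b' + m`. Then the union of `F`, of `a'` coordinates
equal to `1` and of `b'` coordinates equal to `-2` has sum `-m + a' - 2b' = 0` and size
`|F| + 3b' + m = r`; it exists since `b' ≤ r/3 ≤ (8/27) n < 0.32 n ≤ b` and
`a' ≤ 2r/3 + 2 ≤ 0.6 n + 2 < 0.65 n ≤ a`.
CASE `r % 3 = 1` (so `r ≥ 4` as `r` is even): `F = {0}` if there is a zero coordinate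
(`r - 1` divisible by `3`); `F = {-1,-1}` if there are two coordinates `-1` (`r - 4` divisible by `3`).
CASE `r % 3 = 2`: `F = {0,0}` if there are two zero coordinates (`r - 2`); `F = {-1}` if there is a
coordinate `-1` (`r - 2`). -/
theorem A6_res : ∃ n0 : ℕ, ∀ (n r : ℕ), n0 ≤ n → Even r → ¬ 3 ∣ r → 9 * r ≤ 8 * n →
    ∀ z : Fin n → ℤ, Near (1 / 100) z →
      (∀ S : Finset (Fin n), S.card = r → ∑ i ∈ S, z i ≠ 0) →
      (r % 3 = 1 → ca z 0 = 0 ∧ ca z (-1) ≤ 1) ∧ (r % 3 = 2 → ca z 0 ≤ 1 ∧ ca z (-1) = 0) := by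
  refine ⟨100, ?_⟩
  intro n r hn he h3 hr z hz hS
  refine ⟨fun hr1 => ⟨?_, ?_⟩, fun hr2 => ⟨?_, ?_⟩⟩
  · by_contra hc
    obtain ⟨F, hF, hFv⟩ := A6_one (z := z) (v := 0) (by omega)
    refine A6_key hn hr hz hS F 0 (fun i hi => by rw [hFv i hi]; decide) ?_ (by omega) (by omega) (by omega)
    rw [Finset.sum_congr rfl hFv]
    simp
  · by_contra hc
    obtain ⟨F, hF, hFv⟩ := A6_two (z := z) (v := -1) (by omega)
    obtain ⟨q, hq⟩ := he
    refine A6_key hn hr hz hS F 2 (fun i hi => by rw [hFv i hi]; decide) ?_ (by omega) (by omega) (by omega)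
    rw [Finset.sum_congr rfl hFv, Finset.sum_const, hF]
    decide
  · by_contra hc
    obtain ⟨F, hF, hFv⟩ := A6_two (z := z) (v := 0) (by omega)
    refine A6_key hn hr hz hS F 0 (fun i hi => by rw [hFv i hi]; decide) ?_ (by omega) (by omega) (by omega)
    rw [Finset.sum_congr rfl hFv]
    simp
  · by_contra hc
    obtain ⟨F, hF, hFv⟩ := A6_one (z := z) (v := -1) (by omega)
    refine A6_key hn hr hz hS F 1 (fun i hi => by rw [hFv i hi]; decide) ?_ (by omega) (by omega) (by omega)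
    rw [Finset.sum_congr rfl hFv, Finset.sum_const, hF]
    decide

end H31Z
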