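import Pool.Agent.Lib.H31Z.ADefs
import Pool.Agent.Lib.H31Z.T1
import Pool.Agent.Lib.H31Z.G1
import Pool.Agent.Lib.H31Z.F1
import Pool.Agent.Lib.H31Z.H1
import Pool.Agent.Lib.H31Z.F2

/-!
Chunk A2: the Fourier majorant for `(1^a, (-2)^b)`, integrality of the exceptional entries.
-/

namespace H31Z

open Finset MeasureTheory

theorem a2_exp : (71 / 100 : ℝ) ≤ Real.exp (-(1 / 3 : ℝ)) := by
  have h := T1_exp3 (1 / 3) (by norm_num)
  norm_num at h ⊢
  linarith

theorem a2_exp_le {x : ℝ} (hx : 0 < x) : Real.exp (-x) ≤ 1 / x := by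
  rw [Real.exp_neg, ← one_div]
  exact one_div_le_one_div_of_le hx (by linarith [Real.add_one_le_exp x])

/-- PROOF. For `|t| ≤ π/2`: `T1_cos_le` for `t/2` and `t`. For `π/2 ≤ |t| ≤ π`: `|cos (t/2)| ≤ cos (π/4) =
1/sqrt 2 ≤ exp (-1/3)`, `|cos t| ≤ 1`. -/
theorem A2_major (a b : ℕ) (t : ℝ) (ht : |t| ≤ Real.pi) :
    |Real.cos (t / 2)| ^ a * |Real.cos t| ^ b ≤
      Real.exp (-((a + 4 * b : ℝ) / 8) * t ^ 2) + Real.exp (-(a : ℝ) / 3) := by
  have hπ : 0 < Real.pi := Real.pi_pos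
  by_cases h : |t| ≤ Real.pi / 2
  · have h1 := T1_cos_le (t / 2) (by rw [abs_div, abs_two]; linarith)
    have h2 := T1_cos_le t h
    have h3 : |Real.cos (t / 2)| ^ a * |Real.cos t| ^ b ≤
        Real.exp (-(t / 2) ^ 2 / 2) ^ a * Real.exp (-t ^ 2 / 2) ^ b :=
      mul_le_mul (pow_le_pow_left₀ (abs_nonneg _) h1 a) (pow_le_pow_left₀ (abs_nonneg _) h2 b)
        (by positivity) (by positivity)
    have h4 : Real.exp (-(t / 2) ^ 2 / 2) ^ a * Real.exp (-t ^ 2 / 2) ^ b =
        Real.exp (-((a + 4 * b : ℝ) / 8) * t ^ 2) := by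
      rw [← Real.exp_nat_mul, ← Real.exp_nat_mul, ← Real.exp_add]
      congr 1
      ring
    rw [h4] at h3
    have := Real.exp_pos (-(a : ℝ) / 3)
    linarith
  · push Not at h
    have h1 : |Real.cos (t / 2)| ≤ Real.exp (-(1 / 3 : ℝ)) := by
      have h2 : |Real.cos (t / 2)| = Real.cos (|t| / 2) := by
        rw [← Real.cos_abs (t / 2), abs_div, abs_two]
        exact abs_of_nonneg (Real.cos_nonneg_of_mem_Icc ⟨by linarith [abs_nonneg t], by linarith⟩)
      have h3 : Real.cos (|t| / 2) ≤ Real.cos (Real.pi / 4) :=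
        Real.cos_le_cos_of_nonneg_of_le_pi (by linarith) (by linarith) (by linarith)
      rw [Real.cos_pi_div_four] at h3
      have h4 : Real.sqrt 2 < 1.42 := by
        rw [Real.sqrt_lt' (by norm_num)]
        norm_num
      have h5 := a2_exp
      rw [h2]
      linarith
    have h2 : |Real.cos (t / 2)| ^ a * |Real.cos t| ^ b ≤ Real.exp (-(1 / 3 : ℝ)) ^ a * 1 :=
      mul_le_mul (pow_le_pow_left₀ (abs_nonneg _) h1 a) (pow_le_one₀ (abs_nonneg _) (Real.abs_cos_le_one _))
        (by positivity) (by positivity)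
    have h3 : Real.exp (-(1 / 3 : ℝ)) ^ a * 1 = Real.exp (-(a : ℝ) / 3) := by
      rw [mul_one, ← Real.exp_nat_mul]
      congr 1
      ring
    rw [h3] at h2
    have := Real.exp_pos (-((a + 4 * b : ℝ) / 8) * t ^ 2)
    linarith

/-- PROOF. `F1_bound` (the product is `|cos (t/2)|^a |cos t|^b`), `A2_major` and the Gaussian integral
`(1/2π) ∫ exp (-(σ/8) t^2) dt = sqrt (2/(πσ))`, `σ = a + 4b`. -/
theorem A2_max {ι : Type*} (w : ι → ℤ) (L : Finset ι) (a b : ℕ) (hab : 1 ≤ a + b)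
    (h1 : (L.filter (fun j => w j = 1)).card = a) (h2 : (L.filter (fun j => w j = -2)).card = b)
    (h3 : ∀ j ∈ L, w j = 1 ∨ w j = -2) (s : ℤ) :
    pz w L s ≤ Real.sqrt (2 / (Real.pi * (a + 4 * b))) + Real.exp (-(a : ℝ) / 3) := by
  classical
  have hπ : 0 < Real.pi := Real.pi_pos
  have hprod : ∀ t : ℝ, ∏ j ∈ L, |Real.cos (t * w j / 2)| = |Real.cos (t / 2)| ^ a * |Real.cos t| ^ b := by
    intro t
    rw [← Finset.prod_filter_mul_prod_filter_not L (fun j => w j = 1)]
    have e1 : L.filter (fun j => ¬ w j = 1) = L.filter (fun j => w j = -2) := by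
      refine Finset.filter_congr fun j hj => ?_
      rcases h3 j hj with h | h
      · rw [h]
        norm_num
      · rw [h]
        norm_num
    rw [e1]
    congr 1
    · rw [← h1, Finset.prod_congr rfl fun j hj => ?_, Finset.prod_const]
      rw [(Finset.mem_filter.1 hj).2, Int.cast_one, mul_one]
    · rw [← h2, Finset.prod_congr rfl fun j hj => ?_, Finset.prod_const]
      rw [(Finset.mem_filter.1 hj).2]
      have e2 : t * ((-2 : ℤ) : ℝ) / 2 = -t := by
        push_cast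
        ring
      rw [e2, Real.cos_neg]
  refine (F1_bound w L s).trans ?_
  simp only [hprod]
  obtain ⟨σ, hσ⟩ : ∃ σ : ℝ, σ = a + 4 * b := ⟨_, rfl⟩
  have hab' : (1 : ℝ) ≤ a + b := by exact_mod_cast hab
  have hb0 : (0 : ℝ) ≤ b := Nat.cast_nonneg b
  have hσ0 : 0 < σ := by linarith
  have hgi : Integrable fun t : ℝ => Real.exp (-(σ / 8) * t ^ 2) := integrable_exp_neg_mul_sq (by positivity)
  have hle : ∫ t in (-Real.pi)..Real.pi, |Real.cos (t / 2)| ^ a * |Real.cos t| ^ b ≤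
      ∫ t in (-Real.pi)..Real.pi, (Real.exp (-(σ / 8) * t ^ 2) + Real.exp (-(a : ℝ) / 3)) := by
    refine intervalIntegral.integral_mono_on (by linarith) ?_ ?_ ?_
    · apply Continuous.intervalIntegrable
      fun_prop
    · apply Continuous.intervalIntegrable
      fun_prop
    · intro t ht
      rw [hσ]
      exact A2_major a b t (abs_le.2 ht)
  have heq : ∫ t in (-Real.pi)..Real.pi, (Real.exp (-(σ / 8) * t ^ 2) + Real.exp (-(a : ℝ) / 3)) =
      (∫ t in (-Real.pi)..Real.pi, Real.exp (-(σ / 8) * t ^ 2)) + 2 * Real.pi * Real.exp (-(a : ℝ) / 3) := by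
    rw [intervalIntegral.integral_add hgi.intervalIntegrable (by apply Continuous.intervalIntegrable; fun_prop),
      intervalIntegral.integral_const, smul_eq_mul]
    ring
  have hG : ∫ t in (-Real.pi)..Real.pi, Real.exp (-(σ / 8) * t ^ 2) ≤ Real.sqrt (Real.pi / (σ / 8)) := by
    rw [intervalIntegral.integral_of_le (by linarith), ← integral_gaussian (σ / 8)]
    exact setIntegral_le_integral hgi (Filter.Eventually.of_forall fun t => (Real.exp_pos _).le)
  have hval : 1 / (2 * Real.pi) * Real.sqrt (Real.pi / (σ / 8)) = Real.sqrt (2 / (Real.pi * σ)) := by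
    rw [← Real.sqrt_sq (by positivity : 0 ≤ 1 / (2 * Real.pi)), ← Real.sqrt_mul (by positivity)]
    congr 1
    field_simp
    ring
  rw [← hσ, ← hval]
  have h4 : 1 / (2 * Real.pi) * (2 * Real.pi * Real.exp (-(a : ℝ) / 3)) = Real.exp (-(a : ℝ) / 3) := by
    field_simp
  calc 1 / (2 * Real.pi) * ∫ t in (-Real.pi)..Real.pi, |Real.cos (t / 2)| ^ a * |Real.cos t| ^ b
      ≤ 1 / (2 * Real.pi) * (Real.sqrt (Real.pi / (σ / 8)) + 2 * Real.pi * Real.exp (-(a : ℝ) / 3)) := by
        apply mul_le_mul_of_nonneg_left _ (by positivity)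
        linarith
    _ = _ := by rw [mul_add, h4]

/-- PROOF. `L = {i : x i ∈ {1,-2}}`, `E` its complement, `A = sqrt (2/(π(a+4b))) + exp (-a/3)` bounds
`pn x L s` for all real `s` (`A2_max`, `F2_cast`, `F2_zero`);
`a + 4b = 2(a+b) - (a-2b) ≥ 1.97 n`, so `A ≤ 1.01/sqrt(πn)` for large `n` (`a ≥ n/2`). If some `x e`
is not an integer, `e ∈ E` and `H1_nonint` gives `pn x univ 0 ≤ A/2 ≤ 0.51/sqrt(πn)`. -/
theorem A2_int : ∃ n0 : ℕ, ∀ n : ℕ, n0 ≤ n → ∀ x : Fin n → ℝ,
    (99 / 100) * (n : ℝ) ≤ ((Finset.univ.filter (fun i => x i = 1)).card : ℝ) +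
      ((Finset.univ.filter (fun i => x i = -2)).card : ℝ) →
    |((Finset.univ.filter (fun i => x i = 1)).card : ℝ) -
      2 * ((Finset.univ.filter (fun i => x i = -2)).card : ℝ)| ≤ (n : ℝ) / 100 →
    (9 / 10) / Real.sqrt (Real.pi * n) ≤ pn x Finset.univ 0 →
    ∃ z : Fin n → ℤ, ∀ i, x i = (z i : ℝ) := by
  classical
  refine ⟨400, fun n hn x hc1 hc2 hP => ?_⟩
  have hπ : 0 < Real.pi := Real.pi_pos
  have hπ3 : 3.14 < Real.pi := Real.pi_gt_d2
  have hπ4 : Real.pi < 3.15 := Real.pi_lt_d2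
  have hnR : (400 : ℝ) ≤ n := by exact_mod_cast hn
  have hn0 : (0 : ℝ) < n := by linarith
  obtain ⟨a, ha⟩ : ∃ a, a = (Finset.univ.filter (fun i => x i = 1)).card := ⟨_, rfl⟩
  obtain ⟨b, hb⟩ : ∃ b, b = (Finset.univ.filter (fun i => x i = -2)).card := ⟨_, rfl⟩
  rw [← ha, ← hb] at hc1 hc2
  obtain ⟨c3, c4⟩ := abs_le.1 hc2
  have hna : (n : ℝ) / 2 ≤ a := by linarith
  have hσ : (197 / 100) * (n : ℝ) ≤ a + 4 * b := by linarith
  have hab : 1 ≤ a + b := by
    have : (1 : ℝ) ≤ a + b := by linarith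
    exact_mod_cast this
  obtain ⟨L, hL⟩ : ∃ L : Finset (Fin n), L = Finset.univ.filter (fun i => x i = 1 ∨ x i = -2) := ⟨_, rfl⟩
  obtain ⟨w, hw⟩ : ∃ w : Fin n → ℤ, ∀ i, w i = if x i = 1 then 1 else -2 := ⟨_, fun _ => rfl⟩
  have hxw : ∀ j ∈ L, x j = (w j : ℝ) := by
    intro j hj
    rw [hL] at hj
    rw [hw]
    rcases (Finset.mem_filter.1 hj).2 with h | h
    · rw [if_pos h, h]
      norm_num
    · rw [if_neg (by rw [h]; norm_num), h]
      norm_num
  have hw3 : ∀ j ∈ L, w j = 1 ∨ w j = -2 := by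
    intro j _
    rw [hw]
    by_cases h : x j = 1
    · exact Or.inl (if_pos h)
    · exact Or.inr (if_neg h)
  have hf1 : (L.filter (fun j => w j = 1)).card = a := by
    rw [ha]
    congr 1
    ext j
    rw [hL]
    simp only [Finset.mem_filter, Finset.mem_univ, true_and, hw]
    constructor
    · rintro ⟨_, h⟩
      by_contra h1
      rw [if_neg h1] at h
      norm_num at h
    · intro h
      exact ⟨Or.inl h, if_pos h⟩
  have hf2 : (L.filter (fun j => w j = -2)).card = b := by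
    rw [hb]
    congr 1
    ext j
    rw [hL]
    simp only [Finset.mem_filter, Finset.mem_univ, true_and, hw]
    constructor
    · rintro ⟨h2, h⟩
      rcases h2 with h2 | h2
      · rw [if_pos h2] at h
        norm_num at h
      · exact h2
    · intro h
      exact ⟨Or.inr h, if_neg (by rw [h]; norm_num)⟩
  obtain ⟨A, hA⟩ : ∃ A, A = Real.sqrt (2 / (Real.pi * (a + 4 * b))) + Real.exp (-(a : ℝ) / 3) := ⟨_, rfl⟩
  have hA0 : 0 ≤ A := by rw [hA]; positivity
  have hmax : ∀ s : ℝ, pn x L s ≤ A := by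
    intro s
    by_cases hs : ∃ k : ℤ, s = k
    · obtain ⟨k, rfl⟩ := hs
      rw [F2_cast x w L hxw k, hA]
      exact A2_max w L a b hab hf1 hf2 hw3 k
    · push Not at hs
      rw [F2_zero x w L hxw s hs]
      exact hA0
  have hsq : 0 < Real.sqrt (Real.pi * n) := Real.sqrt_pos.2 (by positivity)
  have hsq2 : Real.sqrt (Real.pi * n) ^ 2 = Real.pi * n := Real.sq_sqrt (by positivity)
  have hA1 : A < 18 / 10 / Real.sqrt (Real.pi * n) := by
    have e1 : Real.sqrt (2 / (Real.pi * (a + 4 * b))) ≤ 11 / 10 / Real.sqrt (Real.pi * n) := by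
      have hσp : (0 : ℝ) < a + 4 * b := by linarith
      rw [Real.sqrt_le_left (by positivity), div_pow, hsq2, div_le_div_iff₀ (by positivity) (by positivity)]
      nlinarith
    have e2 : Real.exp (-(a : ℝ) / 3) ≤ 6 / 10 / Real.sqrt (Real.pi * n) := by
      have e3 : Real.exp (-(a : ℝ) / 3) ≤ Real.exp (-((n : ℝ) / 6)) := by
        rw [Real.exp_le_exp]
        linarith
      refine e3.trans ((a2_exp_le (by positivity)).trans ?_)
      rw [div_le_div_iff₀ (by positivity) hsq]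
      have e4 : Real.sqrt (Real.pi * n) ≤ (n : ℝ) / 10 := by
        rw [Real.sqrt_le_left (by positivity)]
        nlinarith
      linarith
    rw [hA]
    have e5 : (11 / 10 : ℝ) / Real.sqrt (Real.pi * n) + 6 / 10 / Real.sqrt (Real.pi * n) <
        18 / 10 / Real.sqrt (Real.pi * n) := by
      rw [← add_div]
      apply div_lt_div_of_pos_right _ hsq
      norm_num
    linarith
  have hall : ∀ e, ∃ k : ℤ, x e = k := by
    by_contra hcon
    push Not at hcon
    obtain ⟨e, he⟩ := hcon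
    have heE : e ∈ Finset.univ \ L := by
      rw [Finset.mem_sdiff]
      refine ⟨Finset.mem_univ _, fun h => ?_⟩
      exact he _ (hxw e h)
    have h1 := H1_nonint x w L (Finset.univ \ L) Finset.disjoint_sdiff hxw A hmax e heE he
    rw [Finset.union_sdiff_of_subset (Finset.subset_univ L)] at h1
    have h2 : A / 2 < 9 / 10 / Real.sqrt (Real.pi * n) := by
      have h3 : (18 : ℝ) / 10 / Real.sqrt (Real.pi * n) = 2 * (9 / 10 / Real.sqrt (Real.pi * n)) := by
        ring
      linarith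
    linarith
  exact ⟨fun e => (hall e).choose, fun e => (hall e).choose_spec⟩

end H31Z
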