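import Pool.Agent.Lib.H31Z.ADefs
import Pool.Agent.Lib.H31Z.T1
import Pool.Agent.Lib.H31Z.G1
import Pool.Agent.Lib.H31Z.A2

/-!
Chunk A7: lower bound for the champion.
-/

namespace H31Z

open MeasureTheory

/-- the integrand is almost nonnegative -/
theorem A7_nonneg (α β : ℕ) {t : ℝ} (ht : |t| ≤ Real.pi) :
    0 ≤ Real.cos (t / 2) ^ α * Real.cos t ^ β + Real.exp (-(α : ℝ) / 3) := by
  have h0 : 0 ≤ Real.cos (t / 2) := by
    apply Real.cos_nonneg_of_neg_pi_div_two_le_of_le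
    · have := (abs_le.1 ht).1
      linarith
    · have := (abs_le.1 ht).2
      linarith
  by_cases h : |t| ≤ Real.pi / 2
  · have h1 : 0 ≤ Real.cos t := by
      apply Real.cos_nonneg_of_neg_pi_div_two_le_of_le
      · have := (abs_le.1 h).1
        linarith
      · exact (abs_le.1 h).2
    have := mul_nonneg (pow_nonneg h0 α) (pow_nonneg h1 β)
    have := (Real.exp_pos (-(α : ℝ) / 3)).le
    linarith
  · have h2 : |Real.cos t ^ β| ≤ 1 := by
      rw [abs_pow]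
      exact pow_le_one₀ (abs_nonneg _) (Real.abs_cos_le_one t)
    have h3 : Real.cos (t / 2) ≤ Real.exp (-(1 : ℝ) / 3) := by
      have h4 : Real.cos (t / 2) ≤ Real.cos (Real.pi / 4) := by
        rw [← Real.cos_abs (t / 2)]
        apply Real.cos_le_cos_of_nonneg_of_le_pi
        · have := Real.pi_pos
          linarith
        · rw [abs_div, abs_two]
          have := Real.pi_pos
          linarith
        · rw [abs_div, abs_two]
          have := not_le.1 h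
          linarith
      refine h4.trans ?_
      rw [Real.cos_pi_div_four]
      have h5 : Real.sqrt 2 / 2 ≤ 71 / 100 := by
        have : Real.sqrt 2 ≤ 1.42 := by
          rw [Real.sqrt_le_left (by norm_num)]
          norm_num
        linarith
      have h6 : (71 / 100 : ℝ) ≤ Real.exp (-(1 : ℝ) / 3) := by
        have h7 : Real.exp (1 / 3 : ℝ) ≤ 1.396 := by
          have := Real.exp_bound' (x := 1 / 3) (by norm_num) (by norm_num) (n := 4) (by norm_num)
          refine this.trans ?_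
          norm_num [Finset.sum_range_succ, Nat.factorial]
        have h8 : Real.exp (-(1 : ℝ) / 3) = (Real.exp (1 / 3 : ℝ))⁻¹ := by
          rw [← Real.exp_neg]
          congr 1
          ring
        rw [h8]
        rw [le_inv_comm₀ (by norm_num) (Real.exp_pos _)]
        refine h7.trans ?_
        norm_num
      linarith
    have h9 : Real.cos (t / 2) ^ α ≤ Real.exp (-(α : ℝ) / 3) := by
      have h10 : Real.exp (-(α : ℝ) / 3) = Real.exp (-(1 : ℝ) / 3) ^ α := by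
        rw [← Real.exp_nat_mul]
        congr 1
        ring
      rw [h10]
      exact pow_le_pow_left₀ h0 h3 α
    have h11 : |Real.cos (t / 2) ^ α * Real.cos t ^ β| ≤ Real.exp (-(α : ℝ) / 3) := by
      rw [abs_mul, abs_of_nonneg (pow_nonneg h0 α)]
      calc Real.cos (t / 2) ^ α * |Real.cos t ^ β| ≤ Real.exp (-(α : ℝ) / 3) * 1 :=
            mul_le_mul h9 h2 (abs_nonneg _) (Real.exp_pos _).le
        _ = _ := mul_one _
    have := (abs_le.1 h11).1
    linarith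

theorem A7_near (α β : ℕ) {t : ℝ} (ht : |t| ≤ 1 / 2) :
    Real.exp (-((α + 4 * β : ℝ) / 8) * t ^ 2) * (1 - (α + 16 * β : ℝ) / 192 * t ^ 4 - (α + 64 * β : ℝ) / 1920 * t ^ 6) ≤
      Real.cos (t / 2) ^ α * Real.cos t ^ β := by
  have h1 := T1_lower t ht
  have h2 := T1_lower (t / 2) (by
    rw [abs_div, abs_two]
    have := abs_nonneg t
    linarith)
  have h3 : Real.exp (-(t / 2) ^ 2 / 2 - (t / 2) ^ 4 / 12 - (t / 2) ^ 6 / 30) ^ α *
      Real.exp (-t ^ 2 / 2 - t ^ 4 / 12 - t ^ 6 / 30) ^ β ≤ Real.cos (t / 2) ^ α * Real.cos t ^ β :=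
    mul_le_mul (pow_le_pow_left₀ (Real.exp_pos _).le h2 α) (pow_le_pow_left₀ (Real.exp_pos _).le h1 β)
      (pow_nonneg (Real.exp_pos _).le _) (pow_nonneg ((Real.exp_pos _).le.trans h2) _)
  refine le_trans ?_ h3
  rw [← Real.exp_nat_mul, ← Real.exp_nat_mul, ← Real.exp_add]
  have e : (α : ℝ) * (-(t / 2) ^ 2 / 2 - (t / 2) ^ 4 / 12 - (t / 2) ^ 6 / 30) +
      (β : ℝ) * (-t ^ 2 / 2 - t ^ 4 / 12 - t ^ 6 / 30) =
      -((α + 4 * β : ℝ) / 8) * t ^ 2 + (-((α + 16 * β : ℝ) / 192 * t ^ 4 + (α + 64 * β : ℝ) / 1920 * t ^ 6)) := by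
    ring
  rw [e, Real.exp_add]
  refine mul_le_mul_of_nonneg_left ?_ (Real.exp_pos _).le
  have := Real.add_one_le_exp (-((α + 16 * β : ℝ) / 192 * t ^ 4 + (α + 64 * β : ℝ) / 1920 * t ^ 6))
  linarith

/-- the integral over the line -/
theorem A7_line (b B C : ℝ) (hb : 0 < b) :
    Integrable (fun t : ℝ => Real.exp (-b * t ^ 2) * (1 - B * t ^ 4 - C * t ^ 6)) ∧
    ∫ t : ℝ, Real.exp (-b * t ^ 2) * (1 - B * t ^ 4 - C * t ^ 6) =
      Real.sqrt (Real.pi / b) * (1 - B * (3 / (4 * b ^ 2)) - C * (15 / (8 * b ^ 3))) := by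
  have i0 : Integrable (fun t : ℝ => Real.exp (-b * t ^ 2)) := integrable_exp_neg_mul_sq hb
  obtain ⟨i4, e4⟩ := G1_four b hb
  obtain ⟨i6, e6⟩ := G1_six b hb
  have h : (fun t : ℝ => Real.exp (-b * t ^ 2) * (1 - B * t ^ 4 - C * t ^ 6)) =
      fun t => Real.exp (-b * t ^ 2) - B * (t ^ 4 * Real.exp (-b * t ^ 2)) - C * (t ^ 6 * Real.exp (-b * t ^ 2)) := by
    funext t
    ring
  have j1 : Integrable (fun t : ℝ => Real.exp (-b * t ^ 2) - B * (t ^ 4 * Real.exp (-b * t ^ 2))) :=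
    i0.sub (i4.const_mul B)
  rw [h]
  refine ⟨j1.sub (i6.const_mul C), ?_⟩
  rw [integral_sub j1 (i6.const_mul C), integral_sub i0 (i4.const_mul B), integral_const_mul, integral_const_mul,
    integral_gaussian, e4, e6]
  ring

theorem A7_cut (b B C : ℝ) (hb : 0 < b) (hB : 0 ≤ B) (hC : 0 ≤ C) :
    Real.sqrt (Real.pi / b) * (1 - B * (3 / (4 * b ^ 2)) - C * (15 / (8 * b ^ 3))) -
      Real.exp (-b / 8) * Real.sqrt (2 * Real.pi / b) ≤
      ∫ t in (-(1 / 2) : ℝ)..(1 / 2), Real.exp (-b * t ^ 2) * (1 - B * t ^ 4 - C * t ^ 6) := by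
  obtain ⟨i1, e1⟩ := A7_line b B C hb
  have i0 : Integrable (fun t : ℝ => Real.exp (-b * t ^ 2)) := integrable_exp_neg_mul_sq hb
  have h1 := integral_add_compl (measurableSet_Ioc : MeasurableSet (Set.Ioc (-(1 / 2) : ℝ) (1 / 2))) i1
  have h2 : ∫ t in (Set.Ioc (-(1 / 2) : ℝ) (1 / 2))ᶜ, Real.exp (-b * t ^ 2) * (1 - B * t ^ 4 - C * t ^ 6) ≤
      ∫ t in (Set.Ioc (-(1 / 2) : ℝ) (1 / 2))ᶜ, Real.exp (-b * t ^ 2) := by
    refine integral_mono i1.integrableOn i0.integrableOn fun t => ?_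
    show Real.exp (-b * t ^ 2) * (1 - B * t ^ 4 - C * t ^ 6) ≤ Real.exp (-b * t ^ 2)
    have h3 : 0 ≤ B * t ^ 4 := mul_nonneg hB (by positivity)
    have h4 : 0 ≤ C * t ^ 6 := mul_nonneg hC (by positivity)
    calc Real.exp (-b * t ^ 2) * (1 - B * t ^ 4 - C * t ^ 6) ≤ Real.exp (-b * t ^ 2) * 1 :=
          mul_le_mul_of_nonneg_left (by linarith) (Real.exp_pos _).le
      _ = _ := mul_one _
  have h5 : ∫ t in (Set.Ioc (-(1 / 2) : ℝ) (1 / 2))ᶜ, Real.exp (-b * t ^ 2) ≤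
      ∫ t in {t : ℝ | 1 / 2 ≤ |t|}, Real.exp (-b * t ^ 2) := by
    refine setIntegral_mono_set i0.integrableOn (Filter.Eventually.of_forall fun t => (Real.exp_pos _).le) ?_
    refine LE.le.eventuallyLE ?_
    intro t ht
    rw [Set.mem_compl_iff, Set.mem_Ioc, not_and_or, not_lt, not_le] at ht
    show (1 / 2 : ℝ) ≤ |t|
    rcases ht with ht | ht
    · exact le_abs.2 (Or.inr (by linarith))
    · exact le_abs.2 (Or.inl ht.le)
  have h6 := G1_tail b (1 / 2) hb (by norm_num)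
  have e6 : -b * (1 / 2 : ℝ) ^ 2 / 2 = -b / 8 := by ring
  rw [e6] at h6
  rw [intervalIntegral.integral_of_le (by norm_num), ← e1]
  linarith

/-- PROOF. `σ = α + 4β`, `σ4 = α + 16β`, `σ6 = α + 64β`. As `α` is even, `cos (t/2)^α ≥ 0`; the integrand is
nonnegative for `|t| ≤ π/2` and at least `-exp (-α/3)` for `π/2 ≤ |t| ≤ π` (`A2_major` reasoning). For `|t| ≤ 1/2` by
`T1_lower` (with `u = t/2` and `u = t`) the integrand is at least `exp (-A - B - C)`,
`A = σ t²/8`, `B = σ4 t⁴/192`, `C = σ6 t⁶/1920`, and this is at least `exp (-A) (1 - B - C)`. So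
`2π GJ ≥ ∫_ℝ exp (-A) (1 - B - C) dt - ∫_{|t| ≥ 1/2} exp (-A) dt - 2π exp (-α/3)`.
With `b = σ/8`: `∫ t⁴ exp (-bt²) = sqrt (π/b) 48/σ²`, `∫ t⁶ exp (-bt²) = sqrt (π/b) 960/σ³`:
`2π GJ ≥ sqrt (8π/σ) (1 - σ4/(4σ²) - σ6/(2σ³)) - (tiny)`, tiny `≤ 2 exp (-σ/64) sqrt (16π/σ) + 2π exp (-α/3)`
(`G1_tail`). Since `|α - 2β| ≤ 4`: `σ4 ≤ 3σ + 8`: `α + 16β = 3(α+4β) + (4β - 2α) ≤ 3σ + 8`, `σ6 ≤ 16 σ`.
So the bracket is at least `1 - (3/4)/σ - 10/σ²`, and for large `β` everything is at least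
`1 - (76/100)/σ`. Finally `sqrt (8π/σ)/(2π) = sqrt (2/(πσ))`. -/
theorem A7_champ : ∃ β0 : ℕ, ∀ (α β : ℕ), β0 ≤ β → Even α → α ≤ 2 * β + 4 → 2 * β ≤ α + 4 →
    Real.sqrt (2 / (Real.pi * (α + 4 * β))) * (1 - (76 / 100) / (α + 4 * β)) ≤ GJ α β 0 := by
  refine ⟨20000, ?_⟩
  intro α β hβ _ h1 h2
  have hpi := Real.pi_pos
  have hβR : (20000 : ℝ) ≤ (β : ℝ) := by exact_mod_cast hβ
  have h1R : (α : ℝ) ≤ 2 * β + 4 := by exact_mod_cast h1
  have h2R : 2 * (β : ℝ) ≤ α + 4 := by exact_mod_cast h2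
  have hα0 : (0 : ℝ) ≤ (α : ℝ) := Nat.cast_nonneg _
  set σ : ℝ := (α : ℝ) + 4 * β with hσ
  have hσ1 : (100000 : ℝ) ≤ σ := by linarith
  have hσ0 : (0 : ℝ) < σ := by linarith
  have hcont : Continuous fun t : ℝ => Real.cos (t / 2) ^ α * Real.cos t ^ β := by fun_prop
  -- the integral from below
  have hlow : Real.sqrt (Real.pi / (σ / 8)) * (1 - (α + 16 * β : ℝ) / 192 * (3 / (4 * (σ / 8) ^ 2)) -
      (α + 64 * β : ℝ) / 1920 * (15 / (8 * (σ / 8) ^ 3))) -
      Real.exp (-(σ / 8) / 8) * Real.sqrt (2 * Real.pi / (σ / 8)) - 2 * Real.pi * Real.exp (-(α : ℝ) / 3) ≤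
      ∫ t in (-Real.pi)..Real.pi, Real.cos (t / 2) ^ α * Real.cos t ^ β := by
    have k1 := A7_cut (σ / 8) ((α + 16 * β : ℝ) / 192) ((α + 64 * β : ℝ) / 1920) (by linarith) (by positivity)
      (by positivity)
    have k2 : ∫ t in (-(1 / 2) : ℝ)..(1 / 2), Real.exp (-(σ / 8) * t ^ 2) *
        (1 - (α + 16 * β : ℝ) / 192 * t ^ 4 - (α + 64 * β : ℝ) / 1920 * t ^ 6) ≤
        ∫ t in (-(1 / 2) : ℝ)..(1 / 2), (Real.cos (t / 2) ^ α * Real.cos t ^ β + Real.exp (-(α : ℝ) / 3)) := by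
      refine intervalIntegral.integral_mono_on (by norm_num) ?_ ?_ fun t ht => ?_
      · exact (by fun_prop : Continuous fun t : ℝ => Real.exp (-(σ / 8) * t ^ 2) *
          (1 - (α + 16 * β : ℝ) / 192 * t ^ 4 - (α + 64 * β : ℝ) / 1920 * t ^ 6)).intervalIntegrable _ _
      · exact (hcont.add continuous_const).intervalIntegrable _ _
      · have := A7_near α β (t := t) (abs_le.2 ⟨by linarith [ht.1], ht.2⟩)
        have := (Real.exp_pos (-(α : ℝ) / 3)).le
        linarith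
    have hpi3 := Real.pi_gt_three
    have k3 : ∫ t in (-(1 / 2) : ℝ)..(1 / 2), (Real.cos (t / 2) ^ α * Real.cos t ^ β + Real.exp (-(α : ℝ) / 3)) ≤
        ∫ t in (-Real.pi)..Real.pi, (Real.cos (t / 2) ^ α * Real.cos t ^ β + Real.exp (-(α : ℝ) / 3)) := by
      refine intervalIntegral.integral_mono_interval (by linarith) (by norm_num) (by linarith) ?_
        ((hcont.add continuous_const).intervalIntegrable _ _)
      refine (ae_restrict_iff' measurableSet_Ioc).2 (Filter.Eventually.of_forall fun t ht => ?_)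
      exact A7_nonneg α β (abs_le.2 ⟨ht.1.le, ht.2⟩)
    have k4 : ∫ t in (-Real.pi)..Real.pi, (Real.cos (t / 2) ^ α * Real.cos t ^ β + Real.exp (-(α : ℝ) / 3)) =
        (∫ t in (-Real.pi)..Real.pi, Real.cos (t / 2) ^ α * Real.cos t ^ β) + 2 * Real.pi * Real.exp (-(α : ℝ) / 3) := by
      rw [intervalIntegral.integral_add (hcont.intervalIntegrable _ _) (continuous_const.intervalIntegrable _ _),
        intervalIntegral.integral_const, smul_eq_mul]
      ring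
    linarith
  -- the constants
  have hs : Real.sqrt (Real.pi / (σ / 8)) = 2 * Real.pi * Real.sqrt (2 / (Real.pi * σ)) := by
    have e : Real.pi / (σ / 8) = (2 * Real.pi) ^ 2 * (2 / (Real.pi * σ)) := by
      field_simp
      ring
    rw [e, Real.sqrt_mul (by positivity), Real.sqrt_sq (by positivity)]
  have hs2 : Real.sqrt (2 * Real.pi / (σ / 8)) = Real.sqrt 2 * (2 * Real.pi * Real.sqrt (2 / (Real.pi * σ))) := by
    rw [← hs, ← Real.sqrt_mul (by norm_num)]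
    congr 1
    ring
  set X : ℝ := Real.sqrt (2 / (Real.pi * σ)) with hX
  have hX0 : 0 < X := Real.sqrt_pos.2 (by positivity)
  have hXσ : 1 ≤ 2 * σ * X := by
    have h3 : (1 : ℝ) / (2 * σ) ≤ X := by
      apply Real.le_sqrt_of_sq_le
      rw [div_pow, one_pow, div_le_div_iff₀ (by positivity) (by positivity)]
      have := Real.pi_lt_four
      nlinarith
    rw [div_le_iff₀ (by positivity)] at h3
    linarith
  have hbr : 1 - (75 / 100) / σ - 10 / σ ^ 2 ≤ 1 - (α + 16 * β : ℝ) / 192 * (3 / (4 * (σ / 8) ^ 2)) -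
      (α + 64 * β : ℝ) / 1920 * (15 / (8 * (σ / 8) ^ 3)) := by
    have e1 : (α + 16 * β : ℝ) / 192 * (3 / (4 * (σ / 8) ^ 2)) = (α + 16 * β : ℝ) / (4 * σ ^ 2) := by
      field_simp
      ring
    have e2 : (α + 64 * β : ℝ) / 1920 * (15 / (8 * (σ / 8) ^ 3)) = (α + 64 * β : ℝ) / (2 * σ ^ 3) := by
      field_simp
      ring
    have f1 : (α + 16 * β : ℝ) / (4 * σ ^ 2) ≤ (75 / 100) / σ + 2 / σ ^ 2 := by
      have : (75 / 100) / σ + 2 / σ ^ 2 = (3 * σ + 8) / (4 * σ ^ 2) := by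
        field_simp
        ring
      rw [this]
      apply div_le_div_of_nonneg_right _ (by positivity)
      rw [hσ]
      linarith
    have f2 : (α + 64 * β : ℝ) / (2 * σ ^ 3) ≤ 8 / σ ^ 2 := by
      have : 8 / σ ^ 2 = (16 * σ) / (2 * σ ^ 3) := by
        field_simp
        ring
      rw [this]
      apply div_le_div_of_nonneg_right _ (by positivity)
      rw [hσ]
      linarith
    rw [e1, e2]
    have : 10 / σ ^ 2 = 2 / σ ^ 2 + 8 / σ ^ 2 := by ring
    linarith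
  have hexp1 : Real.exp (-(σ / 8) / 8) * Real.sqrt 2 ≤ 2359296 / σ ^ 3 := by
    have h3 := Real.pow_div_factorial_le_exp (σ / 64) (by positivity) 3
    have h4 : Real.exp (-(σ / 8) / 8) = (Real.exp (σ / 64))⁻¹ := by
      rw [← Real.exp_neg]
      congr 1
      ring
    have h5 : (Real.exp (σ / 64))⁻¹ ≤ (σ ^ 3 / 1572864)⁻¹ := by
      apply inv_anti₀ (by positivity)
      refine le_trans (le_of_eq ?_) h3
      norm_num [Nat.factorial]
      ring
    have h6 : Real.sqrt 2 ≤ 3 / 2 := by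
      rw [Real.sqrt_le_left (by norm_num)]
      norm_num
    rw [h4]
    calc (Real.exp (σ / 64))⁻¹ * Real.sqrt 2 ≤ (σ ^ 3 / 1572864)⁻¹ * (3 / 2) :=
          mul_le_mul h5 h6 (Real.sqrt_nonneg _) (by positivity)
      _ = 2359296 / σ ^ 3 := by
        field_simp
        norm_num
  have hexp2 : Real.exp (-(α : ℝ) / 3) ≤ 2519424 / σ ^ 4 := by
    have h3 := Real.pow_div_factorial_le_exp (σ / 18) (by positivity) 4
    have h4 : Real.exp (-(α : ℝ) / 3) ≤ (Real.exp (σ / 18))⁻¹ := by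
      rw [← Real.exp_neg]
      apply Real.exp_le_exp.2
      linarith
    have h5 : (Real.exp (σ / 18))⁻¹ ≤ (σ ^ 4 / 2519424)⁻¹ := by
      apply inv_anti₀ (by positivity)
      refine le_trans (le_of_eq ?_) h3
      norm_num [Nat.factorial]
      ring
    refine (h4.trans h5).trans (le_of_eq ?_)
    rw [inv_div]
  have hfin : 2359296 / σ ^ 3 + 2 * σ * (2519424 / σ ^ 4) + 10 / σ ^ 2 ≤ (1 / 100) / σ := by
    have e : 2359296 / σ ^ 3 + 2 * σ * (2519424 / σ ^ 4) + 10 / σ ^ 2 = (7398144 + 10 * σ) / σ ^ 3 := by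
      field_simp
      ring
    have e2 : (1 / 100) / σ = (σ ^ 2 / 100) / σ ^ 3 := by
      field_simp
    rw [e, e2]
    apply div_le_div_of_nonneg_right _ (by positivity)
    nlinarith
  have hGJ : GJ α β 0 = 1 / (2 * Real.pi) * ∫ t in (-Real.pi)..Real.pi, Real.cos (t / 2) ^ α * Real.cos t ^ β := by
    unfold GJ
    congr 1
    refine intervalIntegral.integral_congr fun t _ => ?_
    show Real.cos (t / 2) ^ α * Real.cos t ^ β * Real.cos (t * ((0 : ℤ) : ℝ) / 2) = _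
    rw [Int.cast_zero, mul_zero, zero_div, Real.cos_zero, mul_one]
  rw [hGJ, one_div, ← div_eq_inv_mul, le_div_iff₀ (by positivity)]
  refine le_trans ?_ hlow
  rw [hs, hs2]
  have g1 : 2 * Real.pi * X * (1 - (75 / 100) / σ - 10 / σ ^ 2) ≤ 2 * Real.pi * X *
      (1 - (α + 16 * β : ℝ) / 192 * (3 / (4 * (σ / 8) ^ 2)) - (α + 64 * β : ℝ) / 1920 * (15 / (8 * (σ / 8) ^ 3))) :=
    mul_le_mul_of_nonneg_left hbr (by positivity)
  have g2 : Real.exp (-(σ / 8) / 8) * (Real.sqrt 2 * (2 * Real.pi * X)) ≤ 2 * Real.pi * X * (2359296 / σ ^ 3) := by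
    calc Real.exp (-(σ / 8) / 8) * (Real.sqrt 2 * (2 * Real.pi * X)) =
        2 * Real.pi * X * (Real.exp (-(σ / 8) / 8) * Real.sqrt 2) := by ring
      _ ≤ _ := mul_le_mul_of_nonneg_left hexp1 (by positivity)
  have g3 : 2 * Real.pi * Real.exp (-(α : ℝ) / 3) ≤ 2 * Real.pi * X * (2 * σ * (2519424 / σ ^ 4)) := by
    calc 2 * Real.pi * Real.exp (-(α : ℝ) / 3) ≤ 2 * Real.pi * (2519424 / σ ^ 4) :=
          mul_le_mul_of_nonneg_left hexp2 (by positivity)
      _ = 2 * Real.pi * (2519424 / σ ^ 4) * 1 := (mul_one _).symm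
      _ ≤ 2 * Real.pi * (2519424 / σ ^ 4) * (2 * σ * X) := mul_le_mul_of_nonneg_left hXσ (by positivity)
      _ = _ := by ring
  have g4 : 2 * Real.pi * X * (2359296 / σ ^ 3 + 2 * σ * (2519424 / σ ^ 4) + 10 / σ ^ 2) ≤
      2 * Real.pi * X * ((1 / 100) / σ) := mul_le_mul_of_nonneg_left hfin (by positivity)
  have g5 : X * (1 - (76 / 100) / σ) * (2 * Real.pi) = 2 * Real.pi * X * (1 - (75 / 100) / σ - 10 / σ ^ 2) -
      2 * Real.pi * X * ((1 / 100) / σ) + 2 * Real.pi * X * (10 / σ ^ 2) := by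
    ring
  rw [g5]
  have g6 : 2 * Real.pi * X * (2359296 / σ ^ 3 + 2 * σ * (2519424 / σ ^ 4) + 10 / σ ^ 2) =
      2 * Real.pi * X * (2359296 / σ ^ 3) + 2 * Real.pi * X * (2 * σ * (2519424 / σ ^ 4)) +
        2 * Real.pi * X * (10 / σ ^ 2) := by ring
  rw [g6] at g4
  linarith

/-- PROOF. `(α, β) = sA n r`. In the cases `r % 3 = 2, n % 3 = 0` and `r % 3 = 1, n % 3 = 1` one has
`α + 4β = 2n`, in the other four cases `α + 4β = 2n - 2`; always `α` even, `0 ≤ α - 2β ≤ 4`. `A7_champ`: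
if `α + 4β = 2n` the bound is `(1/sqrt(πn)) (1 - 0.38/n)`; if `α + 4β = 2n - 2` it is
`(1/sqrt(π(n-1))) (1 - 0.38/(n-1)) ≥ (1/sqrt(πn)) (1 + 1/(2n)) (1 - 0.38/(n-1)) ≥
(1/sqrt(πn)) (1 + 1/(10n))` for large `n`. -/
theorem A7_val : ∃ n0 : ℕ, ∀ (n r : ℕ), n0 ≤ n → ¬ 3 ∣ r →
    (1 / Real.sqrt (Real.pi * n) * (1 - (4 / 10) / n) ≤ GJ (sA n r).1 (sA n r).2 0) ∧
    ((r % 3 = 2 ∧ n % 3 ≠ 0) ∨ (r % 3 = 1 ∧ n % 3 ≠ 1) →
      1 / Real.sqrt (Real.pi * n) * (1 + (1 / 10) / n) ≤ GJ (sA n r).1 (sA n r).2 0) := by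
  obtain ⟨β0, hβ0⟩ := A7_champ
  refine ⟨3 * β0 + 100, ?_⟩
  intro n r hn hr
  have hpi := Real.pi_pos
  have hnR : (100 : ℝ) ≤ (n : ℝ) := by
    have : 100 ≤ n := by omega
    exact_mod_cast this
  have hn0 : (0 : ℝ) < (n : ℝ) := by linarith
  -- the two sizes
  have big : ∀ a b : ℕ, a + 4 * b = 2 * n → β0 ≤ b → Even a → a ≤ 2 * b + 4 → 2 * b ≤ a + 4 →
      1 / Real.sqrt (Real.pi * n) * (1 - (4 / 10) / n) ≤ GJ a b 0 := by
    intro a b hab hb ha h1 h2
    have h3 := hβ0 a b hb ha h1 h2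
    have e : (a : ℝ) + 4 * b = 2 * n := by exact_mod_cast hab
    rw [e] at h3
    refine le_trans ?_ h3
    have e2 : Real.sqrt (2 / (Real.pi * (2 * (n : ℝ)))) = 1 / Real.sqrt (Real.pi * n) := by
      have e3 : 2 / (Real.pi * (2 * (n : ℝ))) = 1 / (Real.pi * n) := by
        field_simp
      rw [e3, Real.sqrt_div (by norm_num), Real.sqrt_one]
    rw [e2]
    refine mul_le_mul_of_nonneg_left ?_ (by positivity)
    have e4 : (76 / 100) / (2 * (n : ℝ)) = (38 / 100) / n := by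
      field_simp
      norm_num
    rw [e4]
    have : (38 / 100) / (n : ℝ) ≤ (4 / 10) / n := div_le_div_of_nonneg_right (by norm_num) hn0.le
    linarith
  have small : ∀ a b : ℕ, a + 4 * b + 2 = 2 * n → β0 ≤ b → Even a → a ≤ 2 * b + 4 → 2 * b ≤ a + 4 →
      1 / Real.sqrt (Real.pi * n) * (1 + (1 / 10) / n) ≤ GJ a b 0 := by
    intro a b hab hb ha h1 h2
    have h3 := hβ0 a b hb ha h1 h2
    have e : (a : ℝ) + 4 * b = 2 * ((n : ℝ) - 1) := by
      have : (a : ℝ) + 4 * b + 2 = 2 * n := by exact_mod_cast hab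
      linarith
    rw [e] at h3
    refine le_trans ?_ h3
    have hn1 : (0 : ℝ) < (n : ℝ) - 1 := by linarith
    have e2 : Real.sqrt (2 / (Real.pi * (2 * ((n : ℝ) - 1)))) = 1 / Real.sqrt (Real.pi * ((n : ℝ) - 1)) := by
      have e3 : 2 / (Real.pi * (2 * ((n : ℝ) - 1))) = 1 / (Real.pi * ((n : ℝ) - 1)) := by
        field_simp
      rw [e3, Real.sqrt_div (by norm_num), Real.sqrt_one]
    rw [e2]
    have e5 : 1 / Real.sqrt (Real.pi * n) * (1 + 1 / (2 * (n : ℝ))) ≤ 1 / Real.sqrt (Real.pi * ((n : ℝ) - 1)) := by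
      have k1 : 1 / Real.sqrt (Real.pi * n) = Real.sqrt (1 / (Real.pi * n)) := by
        rw [Real.sqrt_div (by norm_num), Real.sqrt_one]
      have k2 : 1 / Real.sqrt (Real.pi * ((n : ℝ) - 1)) = Real.sqrt (1 / (Real.pi * ((n : ℝ) - 1))) := by
        rw [Real.sqrt_div (by norm_num), Real.sqrt_one]
      rw [k1, k2]
      apply Real.le_sqrt_of_sq_le
      rw [mul_pow, Real.sq_sqrt (by positivity)]
      rw [div_mul_eq_mul_div, one_mul, div_le_div_iff₀ (by positivity) (by positivity)]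
      have k3 : (1 + 1 / (2 * (n : ℝ))) ^ 2 * ((n : ℝ) - 1) ≤ n := by
        have k4 : (1 + 1 / (2 * (n : ℝ))) ^ 2 * ((n : ℝ) - 1) = n - (3 / 4) / n - 1 / (4 * n ^ 2) := by
          field_simp
          ring
        rw [k4]
        have k5 : 0 ≤ (3 / 4) / (n : ℝ) := by positivity
        have k6 : 0 ≤ 1 / (4 * (n : ℝ) ^ 2) := by positivity
        linarith
      nlinarith
    have e6 : 1 + (1 / 10) / (n : ℝ) ≤ (1 + 1 / (2 * (n : ℝ))) * (1 - (76 / 100) / (2 * ((n : ℝ) - 1))) := by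
      have k4 : (1 + 1 / (2 * (n : ℝ))) * (1 - (76 / 100) / (2 * ((n : ℝ) - 1))) - (1 + (1 / 10) / (n : ℝ)) =
          ((2 / 100) * n - (59 / 100)) / (n * ((n : ℝ) - 1)) := by
        field_simp
        ring
      have k5 : 0 ≤ ((2 / 100) * (n : ℝ) - (59 / 100)) / (n * ((n : ℝ) - 1)) := by
        apply div_nonneg
        · linarith
        · positivity
      linarith
    have e7 : 0 ≤ 1 - (76 / 100) / (2 * ((n : ℝ) - 1)) := by
      rw [sub_nonneg, div_le_one (by linarith)]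
      linarith
    calc 1 / Real.sqrt (Real.pi * n) * (1 + (1 / 10) / n) ≤ 1 / Real.sqrt (Real.pi * n) *
          ((1 + 1 / (2 * (n : ℝ))) * (1 - (76 / 100) / (2 * ((n : ℝ) - 1)))) :=
          mul_le_mul_of_nonneg_left e6 (by positivity)
      _ = (1 / Real.sqrt (Real.pi * n) * (1 + 1 / (2 * (n : ℝ)))) * (1 - (76 / 100) / (2 * ((n : ℝ) - 1))) := by ring
      _ ≤ _ := mul_le_mul_of_nonneg_right e5 e7
  have weak : ∀ G : ℝ, 1 / Real.sqrt (Real.pi * n) * (1 + (1 / 10) / n) ≤ G →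
      1 / Real.sqrt (Real.pi * n) * (1 - (4 / 10) / n) ≤ G := by
    intro G hG
    refine le_trans (mul_le_mul_of_nonneg_left ?_ (by positivity)) hG
    have k5 : 0 ≤ (4 / 10) / (n : ℝ) := by positivity
    have k6 : 0 ≤ (1 / 10) / (n : ℝ) := by positivity
    linarith
  have hr3 : r % 3 = 2 ∨ r % 3 = 1 := by omega
  have hn3 : n % 3 = 0 ∨ n % 3 = 1 ∨ n % 3 = 2 := by omega
  rcases hr3 with hr3 | hr3
  · rcases hn3 with hn3 | hn3 | hn3
    · have e : sA n r = (2 * (n / 3), n / 3) := by simp [sA, hr3, hn3]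
      rw [e]
      exact ⟨big _ _ (by omega) (by omega) ⟨n / 3, by ring⟩ (by omega) (by omega), fun h => absurd h (by omega)⟩
    · have e : sA n r = (2 * (n / 3), n / 3) := by simp [sA, hr3, hn3]
      rw [e]
      have := small (2 * (n / 3)) (n / 3) (by omega) (by omega) ⟨n / 3, by ring⟩ (by omega) (by omega)
      exact ⟨weak _ this, fun _ => this⟩
    · have e : sA n r = (2 * (n / 3) + 2, n / 3) := by simp [sA, hr3, hn3]
      rw [e]
      have := small (2 * (n / 3) + 2) (n / 3) (by omega) (by omega) ⟨n / 3 + 1, by ring⟩ (by omega) (by omega)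
      exact ⟨weak _ this, fun _ => this⟩
  · rcases hn3 with hn3 | hn3 | hn3
    · have e : sA n r = (2 * (n / 3) + 2, n / 3 - 1) := by simp [sA, hr3, hn3]
      rw [e]
      have := small (2 * (n / 3) + 2) (n / 3 - 1) (by omega) (by omega) ⟨n / 3 + 1, by ring⟩ (by omega) (by omega)
      exact ⟨weak _ this, fun _ => this⟩
    · have e : sA n r = (2 * (n / 3) + 2, n / 3) := by simp [sA, hr3, hn3]
      rw [e]
      exact ⟨big _ _ (by omega) (by omega) ⟨n / 3 + 1, by ring⟩ (by omega) (by omega), fun h => absurd h (by omega)⟩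
    · have e : sA n r = (2 * (n / 3) + 2, n / 3) := by simp [sA, hr3, hn3]
      rw [e]
      have := small (2 * (n / 3) + 2) (n / 3) (by omega) (by omega) ⟨n / 3 + 1, by ring⟩ (by omega) (by omega)
      exact ⟨weak _ this, fun _ => this⟩

end H31Z
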