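import Pool.Agent.Lib.H31Z.ADefs
import Pool.Agent.Lib.H31Z.F1

/-!
Chunk A8: exact identities.
-/

namespace H31Z

open Finset

theorem A8_prod {n : ℕ} (z : Fin n → ℤ) (v : ℤ) (c : ℝ) :
    ∏ j : Fin n, (if z j = v then c else 1) = c ^ ca z v := by
  rw [Finset.prod_ite, Finset.prod_const_one, mul_one, Finset.prod_const]
  rfl

/-- PROOF. `F1_inv` with `s = 0`: the product is `cos (t/2)^(number of entries ±1) cos t^(number of
entries -2)`, the cosine `cos (t DD z/2)`. -/
theorem A8_gj {n : ℕ} (z : Fin n → ℤ) (h : ∀ i, z i = 0 ∨ z i = 1 ∨ z i = -2 ∨ z i = -1) :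
    pz z Finset.univ 0 = GJ (ca z 1 + ca z (-1)) (ca z (-2)) (∑ i, z i) := by
  rw [F1_inv]
  unfold GJ
  congr 1
  refine intervalIntegral.integral_congr fun t _ => ?_
  have h1 : ∀ j : Fin n, Real.cos (t * (z j : ℝ) / 2) =
      (if z j = 1 then Real.cos (t / 2) else 1) * (if z j = -1 then Real.cos (t / 2) else 1) *
        (if z j = -2 then Real.cos t else 1) := by
    intro j
    rcases h j with h | h | h | h
    · simp [h]
    · simp [h]
    · rw [h]
      norm_num
      rw [← Real.cos_neg t]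
      congr 1
      ring
    · rw [h]
      norm_num
      rw [← Real.cos_neg (t / 2)]
      congr 1
      ring
  have h2 : ∏ j : Fin n, Real.cos (t * (z j : ℝ) / 2) =
      Real.cos (t / 2) ^ (ca z 1 + ca z (-1)) * Real.cos t ^ ca z (-2) := by
    rw [Finset.prod_congr rfl fun j _ => h1 j, Finset.prod_mul_distrib, Finset.prod_mul_distrib, A8_prod, A8_prod,
      A8_prod, pow_add]
  have h3 : Real.cos (t * (((0 : ℤ) : ℝ) - mn z Finset.univ)) = Real.cos (t * ((∑ i, z i : ℤ) : ℝ) / 2) := by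
    rw [← Real.cos_neg (t * ((∑ i, z i : ℤ) : ℝ) / 2)]
    congr 1
    unfold mn
    push_cast
    ring
  show (∏ j : Fin n, Real.cos (t * (z j : ℝ) / 2)) * Real.cos (t * (((0 : ℤ) : ℝ) - mn z Finset.univ)) = _
  rw [h2, h3]

/-- PROOF: unfold `GJ`, `cos (t * 1/2) = cos (t/2)`, `cos` is even. -/
theorem A8_one (α β : ℕ) : GJ α β 1 = GJ (α + 1) β 0 ∧ GJ α β (-1) = GJ (α + 1) β 0 := by
  constructor
  · unfold GJ
    congr 1
    refine intervalIntegral.integral_congr fun t _ => ?_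
    show Real.cos (t / 2) ^ α * Real.cos t ^ β * Real.cos (t * ((1 : ℤ) : ℝ) / 2) =
      Real.cos (t / 2) ^ (α + 1) * Real.cos t ^ β * Real.cos (t * ((0 : ℤ) : ℝ) / 2)
    rw [Int.cast_one, Int.cast_zero, mul_one, mul_zero, zero_div, Real.cos_zero]
    ring
  · unfold GJ
    congr 1
    refine intervalIntegral.integral_congr fun t _ => ?_
    show Real.cos (t / 2) ^ α * Real.cos t ^ β * Real.cos (t * ((-1 : ℤ) : ℝ) / 2) =
      Real.cos (t / 2) ^ (α + 1) * Real.cos t ^ β * Real.cos (t * ((0 : ℤ) : ℝ) / 2)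
    have e : t * ((-1 : ℤ) : ℝ) / 2 = -(t / 2) := by
      push_cast
      ring
    rw [e, Real.cos_neg, Int.cast_zero, mul_zero, zero_div, Real.cos_zero]
    ring

/-- PROOF: `cos (t * 2/2) = cos t`. -/
theorem A8_two (α β : ℕ) : GJ α β 2 = GJ α (β + 1) 0 := by
  unfold GJ
  congr 1
  refine intervalIntegral.integral_congr fun t _ => ?_
  show Real.cos (t / 2) ^ α * Real.cos t ^ β * Real.cos (t * ((2 : ℤ) : ℝ) / 2) =
    Real.cos (t / 2) ^ α * Real.cos t ^ (β + 1) * Real.cos (t * ((0 : ℤ) : ℝ) / 2)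
  have e : t * ((2 : ℤ) : ℝ) / 2 = t := by
    push_cast
    ring
  rw [e, Int.cast_zero, mul_zero, zero_div, Real.cos_zero]
  ring

end H31Z
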