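import Pool.Agent.Lib.H31Z.A5
import Pool.Agent.Lib.H31Z.A6
import Pool.Agent.Lib.H31Z.A7
import Pool.Agent.Lib.H31Z.A8

/-!
Chunk A10: the final comparison.
-/

namespace H31Z

open Finset

theorem A10_int {v : ℤ} (h0 : v ≠ 0) (h1 : v ≠ 1) (h2 : v ≠ -2) (h3 : v ≠ -1) :
    (4 - 9 / 400 : ℝ) ≤ (1 - 1 / 400) * (v : ℝ) ^ 2 + v - 2 := by
  have h : 2 ≤ v ∨ v ≤ -3 := by omega
  rcases h with h | h
  · have hv : (2 : ℝ) ≤ (v : ℝ) := by exact_mod_cast h
    nlinarith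
  · have hv : (v : ℝ) ≤ -3 := by exact_mod_cast h
    nlinarith

theorem A10_D {v : ℤ} : (-(1 / 400) : ℝ) ≤ (1 - 1 / 400) * (v : ℝ) ^ 2 - v := by
  have h : v ≤ 0 ∨ v = 1 ∨ 2 ≤ v := by omega
  rcases h with h | h | h
  · have hv : (v : ℝ) ≤ 0 := by exact_mod_cast h
    nlinarith
  · subst h
    norm_num
  · have hv : (2 : ℝ) ≤ (v : ℝ) := by exact_mod_cast h
    nlinarith

theorem A10_D6 {v : ℤ} (h0 : v ≠ 0) (h1 : v ≠ 1) (h2 : v ≠ 2) (h3 : v ≠ -1) :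
    (6 - 9 / 400 : ℝ) ≤ (1 - 1 / 400) * (v : ℝ) ^ 2 - v := by
  have h : 3 ≤ v ∨ v ≤ -2 := by omega
  rcases h with h | h
  · have hv : (3 : ℝ) ≤ (v : ℝ) := by exact_mod_cast h
    nlinarith
  · have hv : (v : ℝ) ≤ -2 := by exact_mod_cast h
    nlinarith

theorem A10_ex {n : ℕ} (z : Fin n → ℤ) :
    (4 - 9 / 400) * ((Finset.univ.filter (fun i => z i ≠ 0 ∧ z i ≠ 1 ∧ z i ≠ -2 ∧ z i ≠ -1)).card : ℝ) -
      (2 + 1 / 400) * (ca z (-1) : ℝ) ≤ ∑ e ∈ Ex z, ((1 - 1 / 400) * (z e : ℝ) ^ 2 + z e - 2) := by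
  unfold Ex ca
  rw [Finset.sum_filter, ← Finset.sum_boole, ← Finset.sum_boole, Finset.mul_sum, Finset.mul_sum,
    ← Finset.sum_sub_distrib]
  refine Finset.sum_le_sum fun i _ => ?_
  by_cases h0 : z i = 0
  · simp [h0]
  by_cases h1 : z i = 1
  · simp [h1]
  by_cases h2 : z i = -2
  · simp [h2]
  by_cases h3 : z i = -1
  · simp [h3]
  rw [if_pos ⟨h0, h1, h2, h3⟩, if_neg h3, if_pos ⟨h0, h1, h2⟩]
  have := A10_int h0 h1 h2 h3
  linarith

theorem A10_near {n : ℕ} {η η' : ℝ} (h : η ≤ η') {z : Fin n → ℤ} (hz : Near η z) : Near η' z := by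
  obtain ⟨h1, h2⟩ := hz
  have hn : (0 : ℝ) ≤ (n : ℝ) := Nat.cast_nonneg n
  have h3 : η * n ≤ η' * n := mul_le_mul_of_nonneg_right h hn
  exact ⟨by nlinarith, h2.trans h3⟩

theorem A10_sA {n r α β : ℕ} (h : (r % 3 = 2 ∧ n % 3 ≠ 2 ∧ α = 2 * (n / 3) ∧ β = n / 3) ∨
    (r % 3 = 2 ∧ n % 3 = 2 ∧ α = 2 * (n / 3) + 2 ∧ β = n / 3) ∨
    (r % 3 = 1 ∧ n % 3 = 0 ∧ α = 2 * (n / 3) + 2 ∧ β = n / 3 - 1) ∨
    (r % 3 = 1 ∧ n % 3 ≠ 0 ∧ α = 2 * (n / 3) + 2 ∧ β = n / 3)) : sA n r = (α, β) := by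
  unfold sA
  split_ifs <;> (apply Prod.ext <;> dsimp only <;> omega)

theorem A10_count {n : ℕ} (z : Fin n → ℤ) (h : ∀ i, z i = 0 ∨ z i = 1 ∨ z i = -2 ∨ z i = -1) :
    n = ca z 0 + ca z 1 + ca z (-2) + ca z (-1) ∧ ∑ i, z i = (ca z 1 : ℤ) - 2 * ca z (-2) - ca z (-1) := by
  constructor
  · have h1 : (n : ℤ) = ∑ i : Fin n, (((if z i = 0 then 1 else 0) + (if z i = 1 then 1 else 0)) +
        (if z i = -2 then 1 else 0) + (if z i = -1 then 1 else 0)) := by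
      have : ∀ i : Fin n, (((if z i = 0 then (1 : ℤ) else 0) + (if z i = 1 then 1 else 0)) +
        (if z i = -2 then 1 else 0) + (if z i = -1 then 1 else 0)) = 1 := by
        intro i
        rcases h i with h | h | h | h <;> simp [h]
      rw [Finset.sum_congr rfl fun i _ => this i]
      simp
    rw [Finset.sum_add_distrib, Finset.sum_add_distrib, Finset.sum_add_distrib, Finset.sum_boole, Finset.sum_boole,
      Finset.sum_boole, Finset.sum_boole] at h1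
    unfold ca
    exact_mod_cast h1
  · have h1 : ∀ i : Fin n, z i = (if z i = 1 then 1 else 0) - 2 * (if z i = -2 then 1 else 0) -
        (if z i = -1 then 1 else 0) := by
      intro i
      rcases h i with h | h | h | h <;> simp [h]
    rw [Finset.sum_congr rfl fun i _ => h1 i, Finset.sum_sub_distrib, Finset.sum_sub_distrib, ← Finset.mul_sum,
      Finset.sum_boole, Finset.sum_boole, Finset.sum_boole]
    rfl

/-- PROOF. Let `η = 1/400`, `ηS` from `A5_so` (and `≤ 1/100`), `n0` large. `A6_res` gives: with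
`c0 = ca z 0`, `m = ca z (-1)`: `c0 + m ≤ 1`, `m = 0` if `r % 3 = 2`, `c0 = 0` if `r % 3 = 1`. Suppose
`P = pz z univ 0 > G = GJ (sA n r).1 (sA n r).2 0`. By `A7_val` `P ≥ (1 - 0.4/n)/sqrt(πn)`, so `A5_so`
applies: `P ≤ (1/sqrt(πn)) (1 - Q/(4n))`,
`Q = ∑_{e ∈ Ex} ((1-η) z_e² + z_e - 2) + ((1-η) DD² - DD) - 2 c0 - η`.
For an integer `v ∉ {0, 1, -2, -1}`: `(1-η) v² + v - 2 ≥ 4 - 9η`; for `v = -1` it is `-2 - η`; for an
integer `D`: `(1-η) D² - D ≥ -η` and `≥ 6 - 9η` if `D ∉ {-1, 0, 1, 2}`.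
(1) If some `z_e ∉ {0,1,-2,-1}`: `Q ≥ (4-9η) - (2+η) - η - η ≥ 1.9`, so `P ≤ (1 - 0.475/n)/sqrt(πn) <
(1-0.4/n)/sqrt(πn) ≤ G`, a contradiction.
(2) Otherwise all entries are in `{0,1,-2,-1}`, `D = ∑ z = a - 2b - m`, `n = c0 + a + b + m`,
`3 b = n - c0 - 2m - D`. If `D ∉ {-1,0,1,2}`: `Q ≥ 6 - 9η - (2+η) - η ≥ 3.9`, contradiction as before.
(3) `D ∈ {-1,0,1,2}`: by `A8_gj`, `A8_one`, `A8_two` `P = GJ α β 0` with `(α,β) = (a+m, b)` (`D = 0`),
`(a+m+1, b)` (`D = ±1`), `(a+m, b+1)` (`D = 2`). Let `q = n/3`.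
`r % 3 = 2` (`m = 0`): `n = 3q`: all possibilities (`c0 = 0, D = 0`; `c0 = 1, D = -1` or `2`) give
`(2q, q) = sA`. `n = 3q+1`: `c0 = 1, D = 0` gives `sA = (2q,q)`; `c0 = 0, D = 1` has `Q ≥ -3η`.
`n = 3q+2`: `c0 = 1, D = 1` gives `sA = (2q+2, q)`; `c0 = 0, D = 2` or `-1` has `Q ≥ 2 - 6η`.
`r % 3 = 1` (`c0 = 0`): `n = 3q`: `m = 1, D = 1` gives `sA = (2q+2, q-1)`; `m = 0, D = 0`: `Q ≥ -3η`.
`n = 3q+1`: `m = 1, D = 2` or `-1`, and `m = 0, D = 1` all give `sA = (2q+2, q)`. `n = 3q+2`: `m = 1, D = 0`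
gives `sA = (2q+2,q)`; `m = 0, D = 2` or `-1`: `Q ≥ 2 - 6η`.
If `(α,β) = sA n r` then `P = G`, a contradiction. In the other cases `n % 3 ≠ 0` (`r % 3 = 2`),
resp. `n % 3 ≠ 1` (`r % 3 = 1`), `Q ≥ -6η`, so `P ≤ (1 + 6η/(4n))/sqrt(πn) < (1 + 0.1/n)/sqrt(πn) ≤ G` by
`A7_val`. Contradiction. -/
theorem A10_final : ∃ ηS : ℝ, 0 < ηS ∧ ∃ n0 : ℕ, ∀ (n r : ℕ), n0 ≤ n → Even r → ¬ 3 ∣ r →
    9 * r ≤ 8 * n → ∀ z : Fin n → ℤ, Near ηS z →
      (∀ S : Finset (Fin n), S.card = r → ∑ i ∈ S, z i ≠ 0) →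
      pz z Finset.univ 0 ≤ GJ (sA n r).1 (sA n r).2 0 := by
  obtain ⟨ηS, hηS, n1, h5⟩ := A5_so (1 / 400) (by norm_num) (by norm_num)
  obtain ⟨n2, h6⟩ := A6_res
  obtain ⟨n3, h7⟩ := A7_val
  refine ⟨min ηS (1 / 100), lt_min hηS (by norm_num), n1 + n2 + n3 + 100, ?_⟩
  intro n r hn he h3 hr z hz hS
  by_contra hcon
  have hPG := not_le.1 hcon
  obtain ⟨r1, r2⟩ := h6 n r (by omega) he h3 hr z (A10_near (min_le_right _ _) hz) hS
  obtain ⟨g1, g2⟩ := h7 n r (by omega) h3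
  have hr3 : r % 3 = 2 ∨ r % 3 = 1 := by omega
  have hc0 : ca z 0 ≤ 1 := by
    rcases hr3 with h | h
    · exact (r2 h).1
    · rw [(r1 h).1]
      omega
  have hcm : ca z 0 + ca z (-1) ≤ 1 := by
    rcases hr3 with h | h
    · have := r2 h
      omega
    · have := r1 h
      omega
  have hnR : (100 : ℝ) ≤ (n : ℝ) := by
    have : 100 ≤ n := by omega
    exact_mod_cast this
  have hn0 : (0 : ℝ) < (n : ℝ) := by linarith
  have hpi := Real.pi_pos
  have hx0 : 0 < 1 / Real.sqrt (Real.pi * n) := by positivity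
  have hlow : (1 - 1 / (2 * (n : ℝ))) / Real.sqrt (Real.pi * n) ≤ pz z Finset.univ 0 := by
    refine le_trans ?_ (g1.trans hPG.le)
    rw [div_eq_mul_one_div, mul_comm]
    refine mul_le_mul_of_nonneg_left ?_ hx0.le
    have e : 1 / (2 * (n : ℝ)) = (1 / 2) / n := by field_simp
    rw [e]
    have : (4 / 10) / (n : ℝ) ≤ (1 / 2) / n := div_le_div_of_nonneg_right (by norm_num) hn0.le
    linarith
  have hup := h5 n (by omega) z (A10_near (min_le_left _ _) hz) hc0 hlow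
  set Q : ℝ := (1 - 1 / 400) * (sE z + DD z ^ 2) -
          (2 * (ca z 0 : ℝ) + DD z + ∑ e ∈ Ex z, (2 - (z e : ℝ))) - 1 / 400 with hQ
  have hQ1 : Q < 16 / 10 := by
    have h8 : 1 / Real.sqrt (Real.pi * n) * (1 - (4 / 10) / n) <
        1 / Real.sqrt (Real.pi * n) * (1 - 1 / (4 * (n : ℝ)) * Q) := lt_of_le_of_lt g1 (hPG.trans_le hup)
    have h9 := lt_of_mul_lt_mul_left h8 hx0.le
    have h10 : 1 / (4 * (n : ℝ)) * Q < (4 / 10) / n := by linarith
    rw [one_div_mul_eq_div, div_lt_div_iff₀ (by positivity) hn0] at h10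
    nlinarith
  have hQ2 : (r % 3 = 2 ∧ n % 3 ≠ 0) ∨ (r % 3 = 1 ∧ n % 3 ≠ 1) → Q < -(4 / 10) := by
    intro hc
    have h8 : 1 / Real.sqrt (Real.pi * n) * (1 + (1 / 10) / n) <
        1 / Real.sqrt (Real.pi * n) * (1 - 1 / (4 * (n : ℝ)) * Q) := lt_of_le_of_lt (g2 hc) (hPG.trans_le hup)
    have h9 := lt_of_mul_lt_mul_left h8 hx0.le
    have h10 : (1 / 10) / (n : ℝ) < 1 / (4 * (n : ℝ)) * (-Q) := by linarith
    rw [one_div_mul_eq_div, div_lt_div_iff₀ hn0 (by positivity)] at h10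
    nlinarith
  have hDD : DD z = ((∑ i, z i : ℤ) : ℝ) := by
    unfold DD
    push_cast
    rfl
  have hQe : Q = ∑ e ∈ Ex z, ((1 - 1 / 400) * (z e : ℝ) ^ 2 + z e - 2) +
      ((1 - 1 / 400) * ((∑ i, z i : ℤ) : ℝ) ^ 2 - ((∑ i, z i : ℤ) : ℝ)) - 2 * (ca z 0 : ℝ) - 1 / 400 := by
    rw [hQ, hDD]
    unfold sE
    have e1 : ∑ e ∈ Ex z, ((1 - 1 / 400) * (z e : ℝ) ^ 2 + z e - 2) =
        (1 - 1 / 400) * ∑ e ∈ Ex z, (z e : ℝ) ^ 2 - ∑ e ∈ Ex z, (2 - (z e : ℝ)) := by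
      rw [Finset.mul_sum, ← Finset.sum_sub_distrib]
      refine Finset.sum_congr rfl fun e _ => ?_
      ring
    rw [e1]
    ring
  have hex := A10_ex z
  set N1 : ℕ := (Finset.univ.filter (fun i => z i ≠ 0 ∧ z i ≠ 1 ∧ z i ≠ -2 ∧ z i ≠ -1)).card with hN1
  have hcmR : (ca z 0 : ℝ) + (ca z (-1) : ℝ) ≤ 1 := by exact_mod_cast hcm
  have hc0' : (0 : ℝ) ≤ (ca z 0 : ℝ) := Nat.cast_nonneg _
  have hm0' : (0 : ℝ) ≤ (ca z (-1) : ℝ) := Nat.cast_nonneg _
  have hD1 := A10_D (v := ∑ i, z i)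
  -- no large exceptional entries
  have hN0 : N1 = 0 := by
    by_contra hne
    have : (1 : ℝ) ≤ (N1 : ℝ) := by exact_mod_cast Nat.one_le_iff_ne_zero.2 hne
    linarith
  have hall : ∀ i, z i = 0 ∨ z i = 1 ∨ z i = -2 ∨ z i = -1 := by
    intro i
    by_contra hc
    push Not at hc
    have : i ∈ Finset.univ.filter (fun i => z i ≠ 0 ∧ z i ≠ 1 ∧ z i ≠ -2 ∧ z i ≠ -1) :=
      Finset.mem_filter.2 ⟨Finset.mem_univ i, hc⟩
    rw [Finset.card_eq_zero.1 hN0] at this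
    exact absurd this (Finset.notMem_empty i)
  rw [hN0, Nat.cast_zero, mul_zero, zero_sub] at hex
  obtain ⟨hcnt, hsum⟩ := A10_count z hall
  have hgj := A8_gj z hall
  set D : ℤ := ∑ i, z i with hDdef
  set a : ℕ := ca z 1
  set b : ℕ := ca z (-2)
  set m : ℕ := ca z (-1)
  set c0 : ℕ := ca z 0
  have hDin : D = -1 ∨ D = 0 ∨ D = 1 ∨ D = 2 := by
    by_contra hc
    push Not at hc
    have := A10_D6 hc.2.1 hc.2.2.1 hc.2.2.2 hc.1
    linarith
  have heq : ∀ P : ℕ × ℕ, GJ (a + m) b D = GJ P.1 P.2 0 → sA n r ≠ P := by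
    intro P hP hc
    rw [hgj, hP, hc] at hPG
    exact lt_irrefl _ hPG
  rcases hDin with hD | hD | hD | hD
  · -- D = -1
    rw [hD] at heq hsum hQe
    have k1 := heq (a + m + 1, b) (A8_one _ _).2
    rcases hr3 with h | h
    · obtain ⟨q1, q2⟩ := r2 h
      by_cases hc1 : c0 = 1
      · exact k1 (A10_sA (by omega))
      · have h11 := hQ2 (Or.inl ⟨h, by omega⟩)
        have : (c0 : ℝ) = 0 := by
          have : c0 = 0 := by omega
          rw [this, Nat.cast_zero]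
        rw [hQe] at h11
        push_cast at h11
        linarith
    · obtain ⟨q1, q2⟩ := r1 h
      by_cases hm1 : m = 1
      · exact k1 (A10_sA (by omega))
      · have : (m : ℝ) = 0 := by
          have : m = 0 := by omega
          rw [this, Nat.cast_zero]
        have : (c0 : ℝ) = 0 := by
          rw [q1, Nat.cast_zero]
        rw [hQe] at hQ1
        push_cast at hQ1
        linarith
  · -- D = 0
    rw [hD] at heq hsum hQe
    have k1 := heq (a + m, b) rfl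
    rcases hr3 with h | h
    · obtain ⟨q1, q2⟩ := r2 h
      by_cases hc1 : c0 = 1
      · exact k1 (A10_sA (by omega))
      · exact k1 (A10_sA (by omega))
    · obtain ⟨q1, q2⟩ := r1 h
      by_cases hm1 : m = 1
      · exact k1 (A10_sA (by omega))
      · have h11 := hQ2 (Or.inr ⟨h, by omega⟩)
        have : (m : ℝ) = 0 := by
          have : m = 0 := by omega
          rw [this, Nat.cast_zero]
        have : (c0 : ℝ) = 0 := by
          rw [q1, Nat.cast_zero]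
        rw [hQe] at h11
        push_cast at h11
        linarith
  · -- D = 1
    rw [hD] at heq hsum hQe
    have k1 := heq (a + m + 1, b) (A8_one _ _).1
    rcases hr3 with h | h
    · obtain ⟨q1, q2⟩ := r2 h
      by_cases hc1 : c0 = 1
      · exact k1 (A10_sA (by omega))
      · have h11 := hQ2 (Or.inl ⟨h, by omega⟩)
        have : (c0 : ℝ) = 0 := by
          have : c0 = 0 := by omega
          rw [this, Nat.cast_zero]
        have : (m : ℝ) = 0 := by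
          rw [q2, Nat.cast_zero]
        rw [hQe] at h11
        push_cast at h11
        linarith
    · obtain ⟨q1, q2⟩ := r1 h
      by_cases hm1 : m = 1
      · exact k1 (A10_sA (by omega))
      · exact k1 (A10_sA (by omega))
  · -- D = 2
    rw [hD] at heq hsum hQe
    have k1 := heq (a + m, b + 1) (A8_two _ _)
    rcases hr3 with h | h
    · obtain ⟨q1, q2⟩ := r2 h
      by_cases hc1 : c0 = 1
      · exact k1 (A10_sA (by omega))
      · have : (c0 : ℝ) = 0 := by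
          have : c0 = 0 := by omega
          rw [this, Nat.cast_zero]
        have : (m : ℝ) = 0 := by
          rw [q2, Nat.cast_zero]
        rw [hQe] at hQ1
        push_cast at hQ1
        linarith
    · obtain ⟨q1, q2⟩ := r1 h
      by_cases hm1 : m = 1
      · exact k1 (A10_sA (by omega))
      · have : (m : ℝ) = 0 := by
          have : m = 0 := by omega
          rw [this, Nat.cast_zero]
        have : (c0 : ℝ) = 0 := by
          rw [q1, Nat.cast_zero]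
        rw [hQe] at hQ1
        push_cast at hQ1
        linarith

end H31Z
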