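import Pool.Agent.Lib.H31Z.A3a

/-!
Chunk A3b.
-/

namespace H31Z

open Finset MeasureTheory

theorem A3b_pre {n : ℕ} (z : Fin n → ℤ) (s : ℝ) (hs : 0 < s) (hs1 : s ≤ 1 / 100) (hn : 1 ≤ n)
    (h : Near s z) : (n : ℝ) / 2 ≤ (ca z 1 : ℝ) ∧ (n : ℝ) ≤ sL z ∧ sL z ≤ 3 * n ∧
      Real.sqrt (2 / (Real.pi * sL z)) ≤ (1 + 2 * s) / Real.sqrt (Real.pi * n) := by
  obtain ⟨h1, h2⟩ := h
  have hn1 : (1 : ℝ) ≤ n := by exact_mod_cast hn
  have h3 : (ca z 1 : ℝ) + (ca z (-2) : ℝ) ≤ n := by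
    have h4 : ca z 1 + ca z (-2) ≤ n := by
      unfold ca
      rw [← Finset.card_union_of_disjoint]
      · refine (Finset.card_le_univ _).trans ?_
        rw [Fintype.card_fin]
      · rw [Finset.disjoint_filter]
        intro i _ h5 h6
        omega
    exact_mod_cast h4
  obtain ⟨h4, h5⟩ := abs_le.1 h2
  have hsn : s * n ≤ n / 100 := by nlinarith
  have hL : (2 - 3 * s) * n ≤ sL z := by
    unfold sL
    nlinarith
  have hpi := Real.pi_pos
  have hn0 : (0 : ℝ) < n := by linarith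
  have hL0 : (n : ℝ) ≤ sL z := by nlinarith
  have hL00 : 0 < sL z := by linarith
  refine ⟨by nlinarith, hL0, by unfold sL; nlinarith, ?_⟩
  apply Real.sqrt_le_iff.2
  constructor
  · positivity
  · rw [div_pow, Real.sq_sqrt (by positivity), div_le_div_iff₀ (by positivity) (by positivity)]
    have h6 : 2 ≤ (1 + 2 * s) ^ 2 * (2 - 3 * s) := by
      have e : (1 + 2 * s) ^ 2 * (2 - 3 * s) = 2 + s * (5 - 4 * s - 12 * s ^ 2) := by ring
      rw [e]
      have : 0 ≤ s * (5 - 4 * s - 12 * s ^ 2) := by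
        apply mul_nonneg hs.le
        nlinarith
      linarith
    calc 2 * (Real.pi * n) ≤ ((1 + 2 * s) ^ 2 * (2 - 3 * s)) * (Real.pi * n) :=
          mul_le_mul_of_nonneg_right h6 (by positivity)
      _ = (1 + 2 * s) ^ 2 * (Real.pi * ((2 - 3 * s) * n)) := by ring
      _ ≤ (1 + 2 * s) ^ 2 * (Real.pi * sL z) := by
          apply mul_le_mul_of_nonneg_left _ (by positivity)
          exact mul_le_mul_of_nonneg_left hL hpi.le

theorem A3b_exp (n : ℕ) (a : ℝ) (hn : 1 ≤ n) (ha : (n : ℝ) / 2 ≤ a) :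
    Real.exp (-a / 3) ≤ 288 / n / Real.sqrt (Real.pi * n) := by
  have hn1 : (1 : ℝ) ≤ n := by exact_mod_cast hn
  have hn0 : (0 : ℝ) < n := by linarith
  have hpi := Real.pi_pos
  have hpi4 := Real.pi_le_four
  have h1 : Real.exp (-a / 3) ≤ Real.exp (-(n / 6)) := Real.exp_le_exp.2 (by linarith)
  have h2 : Real.exp (-((n : ℝ) / 6)) ≤ 72 / n ^ 2 := by
    have h3 := Real.quadratic_le_exp_of_nonneg (x := (n : ℝ) / 6) (by positivity)
    have h4 : (n : ℝ) ^ 2 / 72 ≤ Real.exp ((n : ℝ) / 6) := by nlinarith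
    rw [Real.exp_neg, inv_eq_one_div, div_le_div_iff₀ (Real.exp_pos _) (by positivity)]
    linarith
  have h5 : Real.sqrt (Real.pi * n) ≤ 4 * n := by
    apply Real.sqrt_le_iff.2
    constructor
    · positivity
    · nlinarith
  have h6 : 0 < Real.sqrt (Real.pi * n) := Real.sqrt_pos.2 (by positivity)
  refine (h1.trans h2).trans ?_
  rw [div_div, div_le_div_iff₀ (by positivity) (by positivity)]
  calc 72 * ((n : ℝ) * Real.sqrt (Real.pi * n)) ≤ 72 * (n * (4 * n)) := by
        apply mul_le_mul_of_nonneg_left _ (by norm_num)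
        exact mul_le_mul_of_nonneg_left h5 hn0.le
    _ = 288 * n ^ 2 := by ring

theorem A3b_half (x : ℝ) (h0 : 0 ≤ x) (h1 : x ≤ 1) : Real.exp (-x) ≤ 1 - x / 2 := by
  have h2 := T1_exp2 x h0
  nlinarith

/-- the final comparison -/
theorem A3b_fin (n : ℕ) (η δ A : ℝ) (hδ : 0 < δ) (hn : 1 ≤ n) (hnd : 289 / δ < n)
    (h1 : A ≤ (1 - δ) / Real.sqrt (Real.pi * n) + 288 / n / Real.sqrt (Real.pi * n))
    (h2 : (1 - 1 / (2 * (n : ℝ))) / Real.sqrt (Real.pi * n) ≤ A) : False := by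
  have hn1 : (1 : ℝ) ≤ n := by exact_mod_cast hn
  have hn0 : (0 : ℝ) < n := by linarith
  have hpi := Real.pi_pos
  have h6 : 0 < Real.sqrt (Real.pi * n) := Real.sqrt_pos.2 (by positivity)
  have h3 := h2.trans h1
  rw [← add_div, div_le_div_iff_of_pos_right h6] at h3
  rw [div_lt_iff₀ hδ] at hnd
  have h4 : δ ≤ 288 / n + 1 / (2 * n) := by linarith
  have h5 : 288 / n + 1 / (2 * n) = (288.5) / (n : ℝ) := by
    field_simp
    norm_num
  rw [h5, le_div_iff₀ hn0] at h4
  linarith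

/-- PROOF. `sL z = 2(a+b) - (a-2b) ∈ [(2-3ηS) n, 3n]`. If `c² > η n`: `exp (-2c²/σ) ≤ exp (-2η/3) ≤ 1 - η/3`
(`exp (-x) ≤ 1 - x/2` for `0 ≤ x ≤ 1`), so by `A3_one` `pz ≤ sqrt (2/(π(2-3ηS)n)) (1 - η/12) + exp (-a/3) ≤ (1+ηS)(1-η/12)/sqrt(πn) + ...`,
which is less than `(1 - 1/(2n))/sqrt(πn)` if `ηS ≤ η/20` and `n` is large (`a ≥ n/2`). -/
theorem A3_small (η : ℝ) (hη : 0 < η) (hη1 : η ≤ 1) :
    ∃ ηS : ℝ, 0 < ηS ∧ ∃ n0 : ℕ, ∀ n : ℕ, n0 ≤ n → ∀ z : Fin n → ℤ, Near ηS z →
      (1 - 1 / (2 * (n : ℝ))) / Real.sqrt (Real.pi * n) ≤ pz z Finset.univ 0 →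
      (∀ e ∈ Ex z, (z e : ℝ) ^ 2 ≤ η * n) ∧ DD z ^ 2 ≤ η * n := by
  refine ⟨η / 100, by positivity, ⌈6000 / η⌉₊ + 1, ?_⟩
  intro n hn z hz hpz
  have hn1 : 1 ≤ n := by omega
  have hnR : (1 : ℝ) ≤ n := by exact_mod_cast hn1
  have hn0 : (0 : ℝ) < n := by linarith
  obtain ⟨ha, hσ1, hσ3, hsq⟩ := A3b_pre z (η / 100) (by positivity) (by linarith) hn1 hz
  have hσ0 : 0 < sL z := by linarith
  have hpi := Real.pi_pos
  have h6 : 0 < Real.sqrt (Real.pi * n) := Real.sqrt_pos.2 (by positivity)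
  have key : ∀ c : ℝ, (c = DD z ∨ ∃ e ∈ Ex z, c = z e) → c ^ 2 ≤ η * n := by
    intro c hc
    by_contra hcon
    push Not at hcon
    have h1 := A3_one z c hc hσ0
    have h2 : Real.exp (-2 * c ^ 2 / sL z) ≤ 1 - η / 3 := by
      have h3 : -2 * c ^ 2 / sL z ≤ -(2 * η / 3) := by
        rw [div_le_iff₀ hσ0]
        nlinarith
      refine (Real.exp_le_exp.2 h3).trans ?_
      have h4 := A3b_half (2 * η / 3) (by positivity) (by linarith)
      linarith
    have h3 : Real.sqrt (2 / (Real.pi * sL z)) *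
        (3 / 4 + Real.exp (-2 * c ^ 2 / sL z) / 4) ≤
        (1 - η / 20) / Real.sqrt (Real.pi * n) := by
      calc Real.sqrt (2 / (Real.pi * sL z)) * (3 / 4 + Real.exp (-2 * c ^ 2 / sL z) / 4)
          ≤ ((1 + 2 * (η / 100)) / Real.sqrt (Real.pi * n)) * (1 - η / 12) := by
            apply mul_le_mul hsq _ (by positivity) (by positivity)
            linarith
        _ = ((1 + 2 * (η / 100)) * (1 - η / 12)) / Real.sqrt (Real.pi * n) := by ring
        _ ≤ (1 - η / 20) / Real.sqrt (Real.pi * n) := by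
            apply div_le_div_of_nonneg_right _ h6.le
            nlinarith
    have h4 := A3b_exp n (ca z 1) hn1 ha
    refine A3b_fin n η (η / 20) _ (by positivity) hn1 ?_ ((h1.trans (add_le_add h3 h4))) hpz
    have h5 := Nat.le_ceil (6000 / η)
    have h7 : ((⌈6000 / η⌉₊ + 1 : ℕ) : ℝ) ≤ n := by exact_mod_cast hn
    push_cast at h7
    have h8 : 289 / (η / 20) = 5780 / η := by
      field_simp
      norm_num
    rw [h8]
    have h9 : 5780 / η ≤ 6000 / η := div_le_div_of_nonneg_right (by norm_num) hη.le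
    linarith
  exact ⟨fun e he => key _ (Or.inr ⟨e, he, rfl⟩), key _ (Or.inl rfl)⟩

/-- PROOF. Let `η2 = min (η) (1/16)`-small, `ηS ≤ η/1000` and so small that `A3_small` holds with bound `η2`.
Then `|z e| ≤ √n/4` on `Ex z`. For `|t| ≤ 2/√n`: `|t z_e/2| ≤ π/2`, so the product over `Ex z` is at most
`exp (-sE t²/8)` (`T1_cos_le`). Put `σ = sL z`. By `A3_fourier` and `A2_major`
`pz ≤ (1/2π) [∫_ℝ exp (-σt²/8) - ∫_{|t| ≤ 2/√n} exp (-σt²/8)(1 - exp (-sE t²/8))] + exp (-a/3)`.
If `sE > η n`: on `1/√n ≤ |t| ≤ 2/√n` the integrand is at least `exp (-3/2) (1 - exp (-η/8)) ≥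
exp (-3/2) η/16`, the length is `2/√n`. So `pz ≤ (1+ηS)/sqrt(πn) - η/(300√n) + exp (-a/3)`, which is
less than `(1 - 1/(2n))/sqrt(πn)` for large `n`. -/
theorem A3_sE (η : ℝ) (hη : 0 < η) (hη1 : η ≤ 1) :
    ∃ ηS : ℝ, 0 < ηS ∧ ∃ n0 : ℕ, ∀ n : ℕ, n0 ≤ n → ∀ z : Fin n → ℤ, Near ηS z →
      (1 - 1 / (2 * (n : ℝ))) / Real.sqrt (Real.pi * n) ≤ pz z Finset.univ 0 →
      sE z ≤ η * n := by
  obtain ⟨s1, hs1, n1, hn1⟩ := A3_small 1 one_pos le_rfl
  refine ⟨min s1 (η / 1200), lt_min hs1 (by positivity), max n1 (⌈200000 / η⌉₊ + 1), ?_⟩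
  intro n hn z hz hpz
  have hnn1 : n1 ≤ n := le_trans (le_max_left _ _) hn
  have hnη : ⌈200000 / η⌉₊ + 1 ≤ n := le_trans (le_max_right _ _) hn
  have hn1' : 1 ≤ n := by omega
  have hnR : (1 : ℝ) ≤ n := by exact_mod_cast hn1'
  have hn0 : (0 : ℝ) < n := by linarith
  obtain ⟨s, hs⟩ : ∃ s, s = min s1 (η / 1200) := ⟨_, rfl⟩
  have hss1 : s ≤ s1 := by rw [hs]; exact min_le_left _ _
  have hsη : s ≤ η / 1200 := by rw [hs]; exact min_le_right _ _
  have hs0 : 0 < s := by rw [hs]; exact lt_min hs1 (by positivity)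
  rw [← hs] at hz
  obtain ⟨ha, hσ1, hσ3, hsq⟩ := A3b_pre z s hs0 (by linarith) hn1' hz
  have hz1 : Near s1 z := by
    obtain ⟨h1, h2⟩ := hz
    refine ⟨?_, h2.trans ?_⟩
    · refine le_trans ?_ h1
      apply mul_le_mul_of_nonneg_right _ hn0.le
      linarith
    · exact mul_le_mul_of_nonneg_right hss1 hn0.le
  obtain ⟨hzE, -⟩ := hn1 n hnn1 z hz1 hpz
  have hσ0 : 0 < sL z := by linarith
  have hpi := Real.pi_pos
  have hpi3 := Real.pi_gt_three
  have h6 : 0 < Real.sqrt (Real.pi * n) := Real.sqrt_pos.2 (by positivity)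
  have hsn : 0 < Real.sqrt n := Real.sqrt_pos.2 hn0
  have hsn1 : 1 ≤ Real.sqrt n := by
    rw [Real.one_le_sqrt]
    exact hnR
  by_contra hcon
  push Not at hcon
  obtain ⟨a, ha'⟩ : ∃ a, a = ca z 1 := ⟨_, rfl⟩
  obtain ⟨b, hb'⟩ : ∃ b, b = ca z (-2) := ⟨_, rfl⟩
  have hσ : sL z = (a : ℝ) + 4 * b := by
    unfold sL
    rw [ha', hb']
  obtain ⟨T, hT⟩ : ∃ T, T = 1 / Real.sqrt n := ⟨_, rfl⟩
  have hT0 : 0 < T := by rw [hT]; positivity
  have hT1 : T ≤ 1 := by
    rw [hT, div_le_one hsn]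
    exact hsn1
  have hTn : T ^ 2 * n = 1 := by
    rw [hT, div_pow, Real.sq_sqrt hn0.le]
    field_simp
  obtain ⟨ε, hε⟩ : ∃ ε, ε = Real.exp (-(a : ℝ) / 3) := ⟨_, rfl⟩
  obtain ⟨κ, hκ⟩ : ∃ κ, κ = Real.exp (-(3 / 2)) * (1 - Real.exp (-(η / 8))) := ⟨_, rfl⟩
  have hε0 : 0 < ε := by rw [hε]; exact Real.exp_pos _
  set Fn : ℝ → ℝ := fun t => (|Real.cos (t / 2)| ^ ca z 1 * |Real.cos t| ^ ca z (-2)) *
        (∏ e ∈ Ex z, |Real.cos (t * z e / 2)|) * |Real.cos (t * DD z / 2)| with hFn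
  set Hn : ℝ → ℝ := fun t => Real.exp (-(sL z / 8) * t ^ 2) + ε with hHn
  have hFc : Continuous Fn := by
    rw [hFn]
    fun_prop
  have hHc : Continuous Hn := by
    rw [hHn]
    fun_prop
  have hP1 : ∀ t : ℝ, (∏ e ∈ Ex z, |Real.cos (t * z e / 2)|) ≤ 1 := fun t =>
    Finset.prod_le_one (fun _ _ => abs_nonneg _) fun _ _ => Real.abs_cos_le_one _
  have hP0 : ∀ t : ℝ, 0 ≤ (∏ e ∈ Ex z, |Real.cos (t * z e / 2)|) := fun t =>
    Finset.prod_nonneg fun _ _ => abs_nonneg _
  have hmaj : ∀ t : ℝ, |t| ≤ Real.pi →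
      |Real.cos (t / 2)| ^ ca z 1 * |Real.cos t| ^ ca z (-2) ≤ Hn t := by
    intro t ht
    have h1 := A2_major (ca z 1) (ca z (-2)) t ht
    rw [hHn, hε, ha']
    refine h1.trans (le_of_eq ?_)
    unfold sL
    rfl
  have hF1 : ∀ t : ℝ, |t| ≤ Real.pi → Fn t ≤ (|Real.cos (t / 2)| ^ ca z 1 *
      |Real.cos t| ^ ca z (-2)) * (∏ e ∈ Ex z, |Real.cos (t * z e / 2)|) := by
    intro t _
    rw [hFn]
    exact mul_le_of_le_one_right (mul_nonneg (by positivity) (hP0 t)) (Real.abs_cos_le_one _)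
  have hFH : ∀ t : ℝ, |t| ≤ Real.pi → Fn t ≤ Hn t := by
    intro t ht
    refine (hF1 t ht).trans (le_trans ?_ (hmaj t ht))
    exact mul_le_of_le_one_right (by positivity) (hP1 t)
  have hFH2 : ∀ t : ℝ, T ≤ t → t ≤ 2 * T → Fn t ≤ Hn t - κ := by
    intro t ht1 ht2
    have ht0 : 0 < t := by linarith
    have htpi : |t| ≤ Real.pi := by
      rw [abs_of_pos ht0]
      linarith
    have ht3 : 1 ≤ t ^ 2 * n := by
      rw [← hTn]
      apply mul_le_mul_of_nonneg_right _ hn0.le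
      exact pow_le_pow_left₀ hT0.le ht1 2
    have ht4 : t ^ 2 * n ≤ 4 := by
      have h1 : t ^ 2 ≤ (2 * T) ^ 2 := pow_le_pow_left₀ ht0.le ht2 2
      nlinarith
    have hprod : (∏ e ∈ Ex z, |Real.cos (t * z e / 2)|) ≤ Real.exp (-(η / 8)) := by
      calc (∏ e ∈ Ex z, |Real.cos (t * z e / 2)|)
          ≤ ∏ e ∈ Ex z, Real.exp (-(t * z e / 2) ^ 2 / 2) := by
            refine Finset.prod_le_prod (fun _ _ => abs_nonneg _) fun e he => ?_
            apply T1_cos_le
            have h1 := hzE e he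
            have h2 : (t * z e / 2) ^ 2 ≤ 1 := by nlinarith
            have h3 : |t * (z e : ℝ) / 2| ≤ 1 := by
              rw [← sq_le_one_iff_abs_le_one]
              exact h2
            linarith
        _ = Real.exp (-(sE z * t ^ 2 / 8)) := by
            rw [← Real.exp_sum]
            congr 1
            unfold sE
            rw [Finset.sum_mul, Finset.sum_div, ← Finset.sum_neg_distrib]
            refine Finset.sum_congr rfl fun e _ => ?_
            ring
        _ ≤ Real.exp (-(η / 8)) := by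
            apply Real.exp_le_exp.2
            have h1 : η ≤ sE z * t ^ 2 := by nlinarith
            linarith
    have hG : Real.exp (-(3 / 2)) ≤ Real.exp (-(sL z / 8) * t ^ 2) := by
      apply Real.exp_le_exp.2
      nlinarith
    have hE1 : Real.exp (-(η / 8)) ≤ 1 := by
      rw [Real.exp_le_one_iff]
      linarith
    have hE0 : 0 < Real.exp (-(η / 8)) := Real.exp_pos _
    calc Fn t ≤ (|Real.cos (t / 2)| ^ ca z 1 * |Real.cos t| ^ ca z (-2)) *
          (∏ e ∈ Ex z, |Real.cos (t * z e / 2)|) := hF1 t htpi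
      _ ≤ Hn t * Real.exp (-(η / 8)) := by
          apply mul_le_mul (hmaj t htpi) hprod (hP0 t)
          rw [hHn]
          positivity
      _ = Real.exp (-(sL z / 8) * t ^ 2) * Real.exp (-(η / 8)) + ε * Real.exp (-(η / 8)) := by
          rw [hHn]
          ring
      _ ≤ Hn t - κ := by
          rw [hHn, hκ]
          have h1 : ε * Real.exp (-(η / 8)) ≤ ε := mul_le_of_le_one_right hε0.le hE1
          have h2 : Real.exp (-(3 / 2)) * (1 - Real.exp (-(η / 8))) ≤
              Real.exp (-(sL z / 8) * t ^ 2) * (1 - Real.exp (-(η / 8))) :=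
            mul_le_mul_of_nonneg_right hG (by linarith)
          simp only
          nlinarith
  have hint : ∀ f : ℝ → ℝ, Continuous f → ∀ x y : ℝ, IntervalIntegrable f volume x y :=
    fun f hf x y => hf.intervalIntegrable x y
  have hsplit : ∀ f : ℝ → ℝ, Continuous f → ∫ t in (-Real.pi)..Real.pi, f t =
      (∫ t in (-Real.pi)..T, f t) + (∫ t in T..(2 * T), f t) + ∫ t in (2 * T)..Real.pi, f t := by
    intro f hf
    rw [intervalIntegral.integral_add_adjacent_intervals (hint f hf _ _) (hint f hf _ _),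
      intervalIntegral.integral_add_adjacent_intervals (hint f hf _ _) (hint f hf _ _)]
  have hI : ∫ t in (-Real.pi)..Real.pi, Fn t ≤ (∫ t in (-Real.pi)..Real.pi, Hn t) - κ * T := by
    rw [hsplit Fn hFc, hsplit Hn hHc]
    have h1 : ∫ t in (-Real.pi)..T, Fn t ≤ ∫ t in (-Real.pi)..T, Hn t := by
      apply intervalIntegral.integral_mono_on (by linarith) (hint _ hFc _ _) (hint _ hHc _ _)
      intro t ht
      apply hFH
      rw [abs_le]
      exact ⟨ht.1, by linarith [ht.2]⟩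
    have h2 : ∫ t in (2 * T)..Real.pi, Fn t ≤ ∫ t in (2 * T)..Real.pi, Hn t := by
      apply intervalIntegral.integral_mono_on (by linarith) (hint _ hFc _ _) (hint _ hHc _ _)
      intro t ht
      apply hFH
      rw [abs_le]
      exact ⟨by linarith [ht.1], ht.2⟩
    have h3 : ∫ t in T..(2 * T), Fn t ≤ (∫ t in T..(2 * T), Hn t) - κ * T := by
      have h4 : ∫ t in T..(2 * T), Fn t ≤ ∫ t in T..(2 * T), (Hn t - κ) := by
        apply intervalIntegral.integral_mono_on (by linarith) (hint _ hFc _ _)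
          (hint _ (hHc.sub continuous_const) _ _)
        intro t ht
        exact hFH2 t ht.1 ht.2
      rw [intervalIntegral.integral_sub (hint _ hHc _ _) (hint _ continuous_const _ _),
        intervalIntegral.integral_const, smul_eq_mul] at h4
      have h5 : (2 * T - T) * κ = κ * T := by ring
      rw [h5] at h4
      exact h4
    linarith
  have hHI : ∫ t in (-Real.pi)..Real.pi, Hn t ≤
      Real.sqrt (Real.pi / (sL z / 8)) + 2 * Real.pi * ε := by
    have hG := integrable_exp_neg_mul_sq (b := sL z / 8) (by positivity)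
    rw [hHn, intervalIntegral.integral_add (hint _ (by fun_prop) _ _) (hint _ continuous_const _ _),
      intervalIntegral.integral_const, smul_eq_mul]
    have h1 : ∫ t in (-Real.pi)..Real.pi, Real.exp (-(sL z / 8) * t ^ 2) ≤
        ∫ t : ℝ, Real.exp (-(sL z / 8) * t ^ 2) := by
      rw [intervalIntegral.integral_of_le (by linarith)]
      exact setIntegral_le_integral hG (Filter.Eventually.of_forall fun t => (Real.exp_pos _).le)
    rw [integral_gaussian] at h1
    have h2 : (Real.pi - -Real.pi) * ε = 2 * Real.pi * ε := by ring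
    rw [h2]
    linarith
  have h1 := A3_fourier z
  have h2 : pz z Finset.univ 0 ≤ 1 / (2 * Real.pi) *
      (Real.sqrt (Real.pi / (sL z / 8)) + 2 * Real.pi * ε - κ * T) := by
    refine h1.trans ?_
    apply mul_le_mul_of_nonneg_left _ (by positivity)
    linarith
  have h3 : 1 / (2 * Real.pi) * Real.sqrt (Real.pi / (sL z / 8)) =
      Real.sqrt (2 / (Real.pi * sL z)) := by
    rw [eq_comm, Real.sqrt_eq_iff_mul_self_eq (by positivity) (by positivity)]
    have h4 : Real.sqrt (Real.pi / (sL z / 8)) * Real.sqrt (Real.pi / (sL z / 8)) =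
        Real.pi / (sL z / 8) := Real.mul_self_sqrt (by positivity)
    refine Eq.symm ?_
    calc 1 / (2 * Real.pi) * Real.sqrt (Real.pi / (sL z / 8)) *
          (1 / (2 * Real.pi) * Real.sqrt (Real.pi / (sL z / 8)))
        = 1 / (2 * Real.pi) ^ 2 * (Real.sqrt (Real.pi / (sL z / 8)) *
            Real.sqrt (Real.pi / (sL z / 8))) := by ring
      _ = 2 / (Real.pi * sL z) := by
          rw [h4]
          field_simp
          norm_num
  have h4 : pz z Finset.univ 0 ≤ Real.sqrt (2 / (Real.pi * sL z)) + ε -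
      κ * T / (2 * Real.pi) := by
    refine h2.trans (le_of_eq ?_)
    rw [← h3]
    field_simp
  have hκ1 : η / 80 ≤ κ := by
    have h5 := A3b_half (η / 8) (by positivity) (by linarith)
    have h7 : (1 : ℝ) / 5 ≤ Real.exp (-(3 / 2)) := by
      rw [Real.exp_neg, inv_eq_one_div]
      apply one_div_le_one_div_of_le (Real.exp_pos _)
      have h8 : Real.exp (3 / 2) = Real.exp 1 * Real.exp (1 / 2) := by
        rw [← Real.exp_add]
        norm_num
      have h9 : Real.exp 1 < 2.7182818286 := Real.exp_one_lt_d9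
      have h10 : Real.exp (1 / 2) ^ 2 = Real.exp 1 := by
        rw [← Real.exp_nat_mul]
        norm_num
      have h11 : Real.exp (1 / 2) < 1.65 := by
        by_contra hc
        push Not at hc
        nlinarith
      rw [h8]
      have h12 := Real.exp_pos (1 / 2)
      nlinarith
    rw [hκ]
    nlinarith
  have h5 : η / 300 / Real.sqrt (Real.pi * n) ≤ κ * T / (2 * Real.pi) := by
    have hsp : Real.sqrt (Real.pi * n) = Real.sqrt Real.pi * Real.sqrt n :=
      Real.sqrt_mul hpi.le _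
    have hsp1 : 1.7 ≤ Real.sqrt Real.pi := by
      apply Real.le_sqrt_of_sq_le
      norm_num
      linarith
    have hpi2 : Real.pi < 3.15 := Real.pi_lt_d2
    rw [hsp, hT, div_div, div_le_div_iff₀ (by positivity) (by positivity)]
    have e1 : κ * (1 / Real.sqrt n) * (300 * (Real.sqrt Real.pi * Real.sqrt n)) =
        κ * 300 * Real.sqrt Real.pi := by
      field_simp
    rw [e1]
    have hκ0 : 0 ≤ κ := by
      have : 0 < η / 80 := by positivity
      linarith
    have h7 : η / 80 * 300 * 1.7 ≤ κ * 300 * Real.sqrt Real.pi := by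
      apply mul_le_mul _ hsp1 (by norm_num) (by positivity)
      linarith
    nlinarith
  have h7 := A3b_exp n (ca z 1) hn1' ha
  rw [← ha', ← hε] at h7
  refine A3b_fin n η (η / 600) _ (by positivity) hn1' ?_ (h4.trans ?_) hpz
  · have h8 := Nat.le_ceil (200000 / η)
    have h9 : ((⌈200000 / η⌉₊ + 1 : ℕ) : ℝ) ≤ n := by exact_mod_cast hnη
    push_cast at h9
    have h10 : 289 / (η / 600) = 173400 / η := by
      field_simp
      norm_num
    rw [h10]
    have h11 : 173400 / η ≤ 200000 / η := div_le_div_of_nonneg_right (by norm_num) hη.le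
    linarith
  · have h8 : (1 + 2 * s) / Real.sqrt (Real.pi * n) ≤
        (1 - η / 600) / Real.sqrt (Real.pi * n) + η / 300 / Real.sqrt (Real.pi * n) := by
      rw [← add_div]
      apply div_le_div_of_nonneg_right _ h6.le
      linarith
    linarith

end H31Z
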