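import Pool.Agent.Lib.H31Z.A2

set_option autoImplicit false

/-!
Chunk A3a.
-/

namespace H31Z

open Finset MeasureTheory

theorem A3a_prod {n : ℕ} (z : Fin n → ℤ) (t : ℝ) :
    ∏ j : Fin n, |Real.cos (t * z j / 2)| =
      (|Real.cos (t / 2)| ^ ca z 1 * |Real.cos t| ^ ca z (-2)) *
        (∏ e ∈ Ex z, |Real.cos (t * z e / 2)|) := by
  have h1 : ∀ j : Fin n, |Real.cos (t * z j / 2)| =
      ((if z j = 1 then |Real.cos (t / 2)| else 1) * (if z j = -2 then |Real.cos t| else 1)) *
        (if (z j ≠ 0 ∧ z j ≠ 1 ∧ z j ≠ -2) then |Real.cos (t * z j / 2)| else 1) := by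
    intro j
    by_cases h1 : z j = 1
    · rw [if_pos h1, if_neg (by rw [h1]; norm_num), if_neg (fun h => h.2.1 h1), h1]
      simp
    by_cases h2 : z j = -2
    · rw [if_neg h1, if_pos h2, if_neg (fun h => h.2.2 h2), h2, one_mul, mul_one]
      have : t * ((-2 : ℤ) : ℝ) / 2 = -t := by push_cast; ring
      rw [this, Real.cos_neg]
    by_cases h0 : z j = 0
    · rw [if_neg h1, if_neg h2, if_neg (fun h => h.1 h0), h0]
      simp
    · rw [if_neg h1, if_neg h2, if_pos ⟨h0, h1, h2⟩, one_mul, one_mul]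
  rw [Finset.prod_congr rfl fun j _ => h1 j, Finset.prod_mul_distrib, Finset.prod_mul_distrib,
    ← Finset.prod_filter, ← Finset.prod_filter, ← Finset.prod_filter, Finset.prod_const,
    Finset.prod_const]
  rfl

theorem A3_fourier {n : ℕ} (z : Fin n → ℤ) :
    pz z Finset.univ 0 ≤ 1 / (2 * Real.pi) * ∫ t in (-Real.pi)..Real.pi,
      (|Real.cos (t / 2)| ^ ca z 1 * |Real.cos t| ^ ca z (-2)) *
        (∏ e ∈ Ex z, |Real.cos (t * z e / 2)|) * |Real.cos (t * DD z / 2)| := by
  rw [F1_inv]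
  have hpi := Real.pi_pos
  refine mul_le_mul_of_nonneg_left ?_ (by positivity)
  refine intervalIntegral.integral_mono_on (by linarith)
    ((F1_cont z Finset.univ 0).intervalIntegrable _ _) ?_ ?_
  · apply Continuous.intervalIntegrable
    refine Continuous.mul (Continuous.mul (by fun_prop) ?_) (by fun_prop)
    exact continuous_finsetProd _ fun j _ => by fun_prop
  · intro t _
    rw [← A3a_prod]
    have h2 : t * (((0 : ℤ) : ℝ) - mn z Finset.univ) = -(t * DD z / 2) := by
      unfold mn DD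
      push_cast
      ring
    rw [h2, Real.cos_neg]
    calc _ ≤ |(∏ j : Fin n, Real.cos (t * z j / 2)) * Real.cos (t * DD z / 2)| := le_abs_self _
      _ = _ := by rw [abs_mul, Finset.abs_prod]

theorem A3_one {n : ℕ} (z : Fin n → ℤ) (c : ℝ) (h : c = DD z ∨ ∃ e ∈ Ex z, c = z e)
    (hσ : 0 < sL z) :
    pz z Finset.univ 0 ≤ Real.sqrt (2 / (Real.pi * sL z)) *
      (3 / 4 + Real.exp (-2 * c ^ 2 / sL z) / 4) + Real.exp (-(ca z 1 : ℝ) / 3) := by
  have hpi := Real.pi_pos
  set σ := sL z with hσdef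
  have hσ8 : 0 < σ / 8 := by positivity
  set g : ℝ → ℝ := fun t => Real.exp (-(σ / 8) * t ^ 2) * (3 / 4 + Real.cos (c * t) / 4) with hg
  have hg0 : ∀ t, 0 ≤ g t := by
    intro t
    have h1 := Real.neg_one_le_cos (c * t)
    have h2 := Real.exp_pos (-(σ / 8) * t ^ 2)
    change 0 ≤ Real.exp (-(σ / 8) * t ^ 2) * (3 / 4 + Real.cos (c * t) / 4)
    refine mul_nonneg h2.le (by linarith)
  obtain ⟨i0, e0⟩ := G1_cos (σ / 8) 0 hσ8
  obtain ⟨i1, e1⟩ := G1_cos (σ / 8) c hσ8
  have hgeq : g = fun t => (3 / 4) * (Real.exp (-(σ / 8) * t ^ 2) * Real.cos (0 * t)) +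
      (1 / 4) * (Real.exp (-(σ / 8) * t ^ 2) * Real.cos (c * t)) := by
    funext t
    rw [hg, zero_mul, Real.cos_zero]
    ring
  have hgi : Integrable g := by
    rw [hgeq]
    exact (i0.const_mul _).add (i1.const_mul _)
  have hgint : ∫ t, g t = Real.sqrt (Real.pi / (σ / 8)) *
      (3 / 4 + Real.exp (-2 * c ^ 2 / σ) / 4) := by
    rw [hgeq, integral_add (i0.const_mul _) (i1.const_mul _), integral_const_mul,
      integral_const_mul, e0, e1]
    have h3 : -(0 : ℝ) ^ 2 / (4 * (σ / 8)) = 0 := by simp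
    have h4 : -c ^ 2 / (4 * (σ / 8)) = -2 * c ^ 2 / σ := by
      field_simp
      ring
    rw [h3, h4, Real.exp_zero]
    ring
  have hbound : ∀ t ∈ Set.Icc (-Real.pi) Real.pi,
      (|Real.cos (t / 2)| ^ ca z 1 * |Real.cos t| ^ ca z (-2)) *
        (∏ e ∈ Ex z, |Real.cos (t * z e / 2)|) * |Real.cos (t * DD z / 2)| ≤
      g t + Real.exp (-(ca z 1 : ℝ) / 3) := by
    intro t ht
    set A := |Real.cos (t / 2)| ^ ca z 1 * |Real.cos t| ^ ca z (-2) with hA
    have hA0 : 0 ≤ A := by positivity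
    have hAm : A ≤ Real.exp (-(σ / 8) * t ^ 2) + Real.exp (-(ca z 1 : ℝ) / 3) := by
      have := A2_major (ca z 1) (ca z (-2)) t (abs_le.2 ht)
      exact this
    have hdrop : (∏ e ∈ Ex z, |Real.cos (t * z e / 2)|) * |Real.cos (t * DD z / 2)| ≤
        |Real.cos (t * c / 2)| := by
      have hp0 : 0 ≤ ∏ e ∈ Ex z, |Real.cos (t * z e / 2)| :=
        Finset.prod_nonneg fun _ _ => abs_nonneg _
      rcases h with h | ⟨e, he, h⟩
      · rw [h]
        have hp1 : ∏ e ∈ Ex z, |Real.cos (t * z e / 2)| ≤ 1 :=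
          Finset.prod_le_one (fun _ _ => abs_nonneg _) fun _ _ => Real.abs_cos_le_one _
        calc _ ≤ 1 * |Real.cos (t * DD z / 2)| :=
              mul_le_mul_of_nonneg_right hp1 (abs_nonneg _)
          _ = _ := one_mul _
      · rw [h]
        have hp1 : ∏ e ∈ Ex z, |Real.cos (t * z e / 2)| ≤ |Real.cos (t * z e / 2)| := by
          rw [← Finset.mul_prod_erase _ _ he]
          calc _ ≤ |Real.cos (t * z e / 2)| * 1 := by
                refine mul_le_mul_of_nonneg_left ?_ (abs_nonneg _)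
                exact Finset.prod_le_one (fun _ _ => abs_nonneg _)
                  fun _ _ => Real.abs_cos_le_one _
            _ = _ := mul_one _
        calc _ ≤ (∏ e ∈ Ex z, |Real.cos (t * z e / 2)|) * 1 :=
              mul_le_mul_of_nonneg_left (Real.abs_cos_le_one _) hp0
          _ ≤ _ := by rw [mul_one]; exact hp1
    have hcos : |Real.cos (t * c / 2)| ≤ 3 / 4 + Real.cos (c * t) / 4 := by
      have := T1_abs (t * c / 2)
      have e2 : 2 * (t * c / 2) = c * t := by ring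
      rwa [e2] at this
    have hE : 0 ≤ Real.exp (-(ca z 1 : ℝ) / 3) := (Real.exp_pos _).le
    have hE2 : 0 ≤ Real.exp (-(σ / 8) * t ^ 2) := (Real.exp_pos _).le
    calc A * (∏ e ∈ Ex z, |Real.cos (t * z e / 2)|) * |Real.cos (t * DD z / 2)| =
          A * ((∏ e ∈ Ex z, |Real.cos (t * z e / 2)|) * |Real.cos (t * DD z / 2)|) := by ring
      _ ≤ A * |Real.cos (t * c / 2)| := mul_le_mul_of_nonneg_left hdrop hA0
      _ ≤ (Real.exp (-(σ / 8) * t ^ 2) + Real.exp (-(ca z 1 : ℝ) / 3)) *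
            |Real.cos (t * c / 2)| := mul_le_mul_of_nonneg_right hAm (abs_nonneg _)
      _ = Real.exp (-(σ / 8) * t ^ 2) * |Real.cos (t * c / 2)| +
            Real.exp (-(ca z 1 : ℝ) / 3) * |Real.cos (t * c / 2)| := by ring
      _ ≤ Real.exp (-(σ / 8) * t ^ 2) * (3 / 4 + Real.cos (c * t) / 4) +
            Real.exp (-(ca z 1 : ℝ) / 3) * 1 :=
          add_le_add (mul_le_mul_of_nonneg_left hcos hE2)
            (mul_le_mul_of_nonneg_left (Real.abs_cos_le_one _) hE)
      _ = g t + Real.exp (-(ca z 1 : ℝ) / 3) := by rw [mul_one]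
  have hgii : IntervalIntegrable g volume (-Real.pi) Real.pi :=
    hgi.intervalIntegrable
  have hint : (∫ t in (-Real.pi)..Real.pi,
      (|Real.cos (t / 2)| ^ ca z 1 * |Real.cos t| ^ ca z (-2)) *
        (∏ e ∈ Ex z, |Real.cos (t * z e / 2)|) * |Real.cos (t * DD z / 2)|) ≤
      (∫ t, g t) + 2 * Real.pi * Real.exp (-(ca z 1 : ℝ) / 3) := by
    have h5 : (∫ t in (-Real.pi)..Real.pi,
      (|Real.cos (t / 2)| ^ ca z 1 * |Real.cos t| ^ ca z (-2)) *
        (∏ e ∈ Ex z, |Real.cos (t * z e / 2)|) * |Real.cos (t * DD z / 2)|) ≤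
        ∫ t in (-Real.pi)..Real.pi, (g t + Real.exp (-(ca z 1 : ℝ) / 3)) := by
      refine intervalIntegral.integral_mono_on (by linarith) ?_ (hgii.add
        intervalIntegrable_const) hbound
      apply Continuous.intervalIntegrable
      refine Continuous.mul (Continuous.mul (by fun_prop) ?_) (by fun_prop)
      exact continuous_finsetProd _ fun j _ => by fun_prop
    have h6 : ∫ t in (-Real.pi)..Real.pi, (g t + Real.exp (-(ca z 1 : ℝ) / 3)) =
        (∫ t in (-Real.pi)..Real.pi, g t) + 2 * Real.pi * Real.exp (-(ca z 1 : ℝ) / 3) := by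
      rw [intervalIntegral.integral_add hgii intervalIntegrable_const,
        intervalIntegral.integral_const, smul_eq_mul]
      ring
    have h7 : ∫ t in (-Real.pi)..Real.pi, g t ≤ ∫ t, g t := by
      rw [intervalIntegral.integral_of_le (by linarith)]
      exact setIntegral_le_integral hgi (Filter.Eventually.of_forall hg0)
    linarith
  have h8 := A3_fourier z
  have h9 : pz z Finset.univ 0 ≤ 1 / (2 * Real.pi) *
      ((∫ t, g t) + 2 * Real.pi * Real.exp (-(ca z 1 : ℝ) / 3)) :=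
    h8.trans (mul_le_mul_of_nonneg_left hint (by positivity))
  have h10 : 1 / (2 * Real.pi) * Real.sqrt (Real.pi / (σ / 8)) =
      Real.sqrt (2 / (Real.pi * σ)) := by
    have h11 : 1 / (2 * Real.pi) = Real.sqrt (1 / (2 * Real.pi) ^ 2) := by
      rw [Real.sqrt_div (by norm_num), Real.sqrt_one, Real.sqrt_sq (by positivity)]
    rw [h11, ← Real.sqrt_mul (by positivity)]
    congr 1
    field_simp
    norm_num
  calc pz z Finset.univ 0 ≤ 1 / (2 * Real.pi) *
      ((∫ t, g t) + 2 * Real.pi * Real.exp (-(ca z 1 : ℝ) / 3)) := h9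
    _ = (1 / (2 * Real.pi) * Real.sqrt (Real.pi / (σ / 8))) *
          (3 / 4 + Real.exp (-2 * c ^ 2 / σ) / 4) + Real.exp (-(ca z 1 : ℝ) / 3) := by
        rw [hgint]
        field_simp
    _ = _ := by rw [h10]

end H31Z
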