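import Pool.Agent.Lib.H31Z.A3

/-!
Chunk A4: the second order inequality, analytic part.
-/

namespace H31Z

open Finset MeasureTheory

theorem A4_exp_le {x : ℝ} (hx : 0 < x) : Real.exp (-x) ≤ 1 / x := by
  rw [Real.exp_neg, ← one_div]
  exact one_div_le_one_div_of_le hx (by linarith [Real.add_one_le_exp x])

theorem A4_exp_two {X : ℝ} (hX : 0 ≤ X) : Real.exp (-X) ≤ 1 - X + X ^ 2 / 2 := by
  have h1 := Real.quadratic_le_exp_of_nonneg hX
  have h2 : 0 < Real.exp X := Real.exp_pos _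
  have h3 : 0 ≤ 1 - X + X ^ 2 / 2 := by nlinarith [sq_nonneg (X - 1)]
  rw [Real.exp_neg, inv_le_iff_one_le_mul₀ h2]
  calc (1 : ℝ) ≤ (1 - X + X ^ 2 / 2) * (1 + X + X ^ 2 / 2) := by nlinarith [sq_nonneg (X ^ 2)]
    _ ≤ _ := mul_le_mul_of_nonneg_left h1 h3

/-- PROOF. For `X ≥ 0`, `v` real with `X + v²/2 ≤ η/8`: `exp (-X) ≤ 1 - X + X²/2`,
`cos v ≤ 1 - (1 - v²/12) v²/2` (`T1_four`), `Y = (1-η/8) v²/2`:
`exp (-X) cos v ≤ (1 - X + X²/2)(1 - Y) ≤ 1 - (X+Y) + (X+Y)² ≤ 1 - (1-η/8)(X+Y)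
≤ 1 - (1-η/4)(X + v²/2)`. (If `cos v < 0` impossible as `|v|` is small.) -/
theorem A4_point (η X v : ℝ) (hη : 0 < η) (hη1 : η ≤ 1) (hX : 0 ≤ X) (h : X + v ^ 2 / 2 ≤ η / 8) :
    Real.exp (-X) * Real.cos v ≤ 1 - (1 - η / 4) * (X + v ^ 2 / 2) := by
  have h1 := T1_four v
  have h2 := A4_exp_two hX
  obtain ⟨q, hq⟩ : ∃ q, q = v ^ 2 / 2 := ⟨_, rfl⟩
  have hq0 : 0 ≤ q := by rw [hq]; positivity
  have h3 : Real.cos v ≤ 1 - q + q ^ 2 / 6 := by
    refine h1.trans (le_of_eq ?_)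
    rw [hq]
    ring
  rw [← hq] at h ⊢
  have hq1 : q ≤ 1 / 8 := by linarith
  have hX1 : X ≤ 1 / 8 := by linarith
  have hC : 0 ≤ 1 - q + q ^ 2 / 6 := by nlinarith [sq_nonneg q]
  calc Real.exp (-X) * Real.cos v ≤ Real.exp (-X) * (1 - q + q ^ 2 / 6) :=
        mul_le_mul_of_nonneg_left h3 (Real.exp_pos _).le
    _ ≤ (1 - X + X ^ 2 / 2) * (1 - q + q ^ 2 / 6) := mul_le_mul_of_nonneg_right h2 hC
    _ ≤ 1 - (X + q) + (X + q) ^ 2 := by
        have e1 : 0 ≤ X * q := mul_nonneg hX hq0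
        have e2 : X ^ 2 * q ^ 2 ≤ X * q := by
          have : X * q ≤ 1 := by nlinarith
          nlinarith
        nlinarith [mul_nonneg hX (sq_nonneg q), mul_nonneg hq0 (sq_nonneg X), sq_nonneg X, sq_nonneg q]
    _ ≤ _ := by
        have e3 : 0 ≤ X + q := by linarith
        nlinarith

/-- the pointwise bounds of the factor -/
theorem A4_fac {n : ℕ} (z : Fin n → ℤ) (η t : ℝ) (hη : 0 < η) (hη1 : η ≤ 1)
    (h1 : ∀ e ∈ Ex z, t ^ 2 * (z e : ℝ) ^ 2 / 4 ≤ 1) (h2 : t ^ 2 * (sE z + DD z ^ 2) / 8 ≤ η / 8) :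
    (∏ e ∈ Ex z, |Real.cos (t * z e / 2)|) * |Real.cos (t * DD z / 2)| ≤
      1 - (1 - η / 4) * (t ^ 2 * (sE z + DD z ^ 2) / 8) := by
  have hpi := Real.pi_gt_three
  have hsE : 0 ≤ sE z := Finset.sum_nonneg fun _ _ => sq_nonneg _
  have e0 : t ^ 2 * sE z / 8 + (t * DD z / 2) ^ 2 / 2 = t ^ 2 * (sE z + DD z ^ 2) / 8 := by ring
  have hX : 0 ≤ t ^ 2 * sE z / 8 := by positivity
  have e1 : ∏ e ∈ Ex z, |Real.cos (t * z e / 2)| ≤ Real.exp (-(t ^ 2 * sE z / 8)) := by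
    have h3 : ∀ e ∈ Ex z, |Real.cos (t * z e / 2)| ≤ Real.exp (-(t * z e / 2) ^ 2 / 2) := by
      intro e he
      apply T1_cos_le
      have h4 : |t * z e / 2| ≤ 1 := by
        rw [← abs_one]
        apply sq_le_sq.1
        have h5 := h1 e he
        calc (t * (z e : ℝ) / 2) ^ 2 = t ^ 2 * (z e : ℝ) ^ 2 / 4 := by ring
          _ ≤ 1 ^ 2 := by rw [one_pow]; exact h5
      linarith
    refine (Finset.prod_le_prod (fun _ _ => abs_nonneg _) h3).trans (le_of_eq ?_)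
    rw [← Real.exp_sum]
    congr 1
    unfold sE
    rw [Finset.mul_sum, Finset.sum_div, ← Finset.sum_neg_distrib]
    refine Finset.sum_congr rfl fun e _ => ?_
    ring
  have hv : |t * DD z / 2| ≤ 1 := by
    rw [← abs_one]
    apply sq_le_sq.1
    nlinarith
  have hc : 0 ≤ Real.cos (t * DD z / 2) := by
    have := abs_le.1 hv
    exact Real.cos_nonneg_of_neg_pi_div_two_le_of_le (by linarith [this.1]) (by linarith [this.2])
  rw [abs_of_nonneg hc]
  refine (mul_le_mul_of_nonneg_right e1 hc).trans ?_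
  have h6 := A4_point η (t ^ 2 * sE z / 8) (t * DD z / 2) hη hη1 hX (by rw [e0]; exact h2)
  rw [e0] at h6
  exact h6

/-- PROOF. Let `σ = sL z`, `b = σ/8`, `W = sE z + DD z²`, `T ≥ 1` a constant (see below), and `η'` with
`T² η' ≤ η/8`, `T sqrt η' ≤ 1`. For `|t| ≤ T/√n`: `|t z_e/2| ≤ π/2`, the product over `Ex z` is at most
`exp (-X)`, `X = t² sE/8`, and with `v = t DD/2`: `X + v²/2 = t² W/8 ≤ T² (2η')/8 ≤ η/8`. By `A4_point` the
integrand of `A3_fourier` is at most `exp (-σt²/8) (1 - (1-η/4) t² W/8)` there, and at most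
`exp (-σt²/8)` elsewhere (plus `exp (-a/3)` in both cases, `A2_major`). Hence
`pz ≤ (1/2π) [∫_ℝ exp (-bt²) - (1-η/4)(W/8) (∫_ℝ t² exp (-bt²) - ∫_{|t| ≥ T/√n} t² exp (-bt²))] + exp (-a/3)`.
`∫_ℝ t² exp (-bt²) = sqrt (π/b)/(2b)` and by `G1_tail2` the tail is at most
`(2/b) exp (-bT²/(4n)) sqrt (4π/b) ≤ (η/4) sqrt (π/b)/(2b)` if `8 exp (-T²/20) ≤ η/4`, because
`b/n ≥ (19/10)/8`. So the subtracted term is at least `(1-η/2)(W/8)(4/σ) sqrt (8π/σ)
= (1-η/2) sqrt (8π/σ) W/(2σ)`, and `(1/2π) sqrt (8π/σ) = sqrt (2/(πσ))`. -/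
theorem A4_core (η : ℝ) (hη : 0 < η) (hη1 : η ≤ 1) :
    ∃ η' : ℝ, 0 < η' ∧ ∃ n0 : ℕ, ∀ n : ℕ, n0 ≤ n → ∀ z : Fin n → ℤ,
      (19 / 10) * (n : ℝ) ≤ sL z → (∀ e ∈ Ex z, (z e : ℝ) ^ 2 ≤ η' * n) → DD z ^ 2 ≤ η' * n →
      sE z ≤ η' * n →
      pz z Finset.univ 0 ≤ Real.sqrt (2 / (Real.pi * sL z)) *
        (1 - (1 - η) * (sE z + DD z ^ 2) / (2 * sL z)) + Real.exp (-(ca z 1 : ℝ) / 3) := by
  have hpi := Real.pi_pos
  have hpi3 := Real.pi_gt_three
  obtain ⟨T, hT⟩ : ∃ T, T = Real.sqrt (640 / η) := ⟨_, rfl⟩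
  have hT0 : 0 < T := by rw [hT]; positivity
  have hT2 : T ^ 2 = 640 / η := by rw [hT]; exact Real.sq_sqrt (by positivity)
  have hTe : 8 * Real.exp (-(T ^ 2 / 20)) ≤ η / 4 := by
    have h1 := A4_exp_le (x := T ^ 2 / 20) (by positivity)
    have h2 : 1 / (T ^ 2 / 20) = η / 32 := by
      rw [hT2]
      field_simp
      norm_num
    rw [h2] at h1
    linarith
  refine ⟨η ^ 2 / 5120, by positivity, 1, fun n hn z hσn hz hD hE => ?_⟩
  have hn' : (1 : ℝ) ≤ n := by exact_mod_cast hn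
  have hn0 : (0 : ℝ) < n := by linarith
  have hTη : T ^ 2 * (η ^ 2 / 5120) = η / 8 := by
    rw [hT2]
    field_simp
    norm_num
  obtain ⟨σ, hσ⟩ : ∃ σ, σ = sL z := ⟨_, rfl⟩
  obtain ⟨W, hW⟩ : ∃ W, W = sE z + DD z ^ 2 := ⟨_, rfl⟩
  have hsE : 0 ≤ sE z := Finset.sum_nonneg fun _ _ => sq_nonneg _
  have hW0 : 0 ≤ W := by rw [hW]; positivity
  rw [← hσ] at hσn ⊢
  rw [← hW]
  have hσ0 : 0 < σ := by linarith
  obtain ⟨b, hb⟩ : ∃ b, b = σ / 8 := ⟨_, rfl⟩
  have hb0 : 0 < b := by rw [hb]; positivity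
  obtain ⟨τ, hτ⟩ : ∃ τ, τ = T / Real.sqrt n := ⟨_, rfl⟩
  have hr : 0 < Real.sqrt n := Real.sqrt_pos.2 hn0
  have hτ0 : 0 < τ := by rw [hτ]; positivity
  have hτ2 : τ ^ 2 = T ^ 2 / n := by rw [hτ, div_pow, Real.sq_sqrt hn0.le]
  obtain ⟨ε, hε⟩ : ∃ ε, ε = Real.exp (-(ca z 1 : ℝ) / 3) := ⟨_, rfl⟩
  have hε0 : 0 < ε := by rw [hε]; exact Real.exp_pos _
  rw [← hε]
  -- the integrand
  set Q : ℝ → ℝ := fun t => (∏ e ∈ Ex z, |Real.cos (t * z e / 2)|) * |Real.cos (t * DD z / 2)| with hQ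
  set M : ℝ → ℝ := fun t => |Real.cos (t / 2)| ^ ca z 1 * |Real.cos t| ^ ca z (-2) with hM
  have hQ0 : ∀ t, 0 ≤ Q t := fun t =>
    mul_nonneg (Finset.prod_nonneg fun _ _ => abs_nonneg _) (abs_nonneg _)
  have hQ1 : ∀ t, Q t ≤ 1 := fun t => by
    refine mul_le_one₀ ?_ (abs_nonneg _) (Real.abs_cos_le_one _)
    exact Finset.prod_le_one (fun _ _ => abs_nonneg _) fun e _ => Real.abs_cos_le_one _
  have hQτ : ∀ t, |t| < τ → Q t ≤ 1 - (1 - η / 4) * (t ^ 2 * W / 8) := by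
    intro t ht
    have ht2 : t ^ 2 ≤ T ^ 2 / n := by
      rw [← hτ2, ← sq_abs t]
      exact pow_le_pow_left₀ (abs_nonneg _) ht.le 2
    have hk : ∀ y : ℝ, 0 ≤ y → y ≤ η ^ 2 / 5120 * n → t ^ 2 * y ≤ η / 8 := by
      intro y hy hy2
      calc t ^ 2 * y ≤ T ^ 2 / n * (η ^ 2 / 5120 * n) := mul_le_mul ht2 hy2 hy (by positivity)
        _ = T ^ 2 * (η ^ 2 / 5120) := by field_simp
        _ = η / 8 := hTη
    rw [hW]
    refine A4_fac z η t hη hη1 ?_ ?_
    · intro e he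
      have := hk _ (sq_nonneg _) (hz e he)
      linarith
    · have h1 := hk _ (sq_nonneg _) hD
      have h2 := hk _ hsE hE
      have h3 : t ^ 2 * (sE z + DD z ^ 2) = t ^ 2 * sE z + t ^ 2 * DD z ^ 2 := by ring
      rw [h3]
      linarith
  have hM0 : ∀ t, 0 ≤ M t := fun t => by positivity
  have hM1 : ∀ t, |t| ≤ Real.pi → M t ≤ Real.exp (-b * t ^ 2) + ε := by
    intro t ht
    have h1 := A2_major (ca z 1) (ca z (-2)) t ht
    have e1 : -(((ca z 1 : ℝ) + 4 * (ca z (-2) : ℝ)) / 8) * t ^ 2 = -b * t ^ 2 := by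
      rw [hb, hσ]
      rfl
    rw [e1, ← hε] at h1
    exact h1
  have hMc : Continuous M := by
    rw [hM]
    fun_prop
  have hQc : Continuous Q := by
    rw [hQ]
    fun_prop
  set I : Set ℝ := Set.Icc (-Real.pi) Real.pi with hI
  set S : Set ℝ := {t : ℝ | τ ≤ |t|} with hS
  have hSm : MeasurableSet S := (isClosed_le continuous_const continuous_abs).measurableSet
  set F : ℝ → ℝ := I.indicator fun t => M t * Q t with hF
  set B1 : ℝ → ℝ := fun t => Real.exp (-b * t ^ 2) with hB1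
  set B2 : ℝ → ℝ := Sᶜ.indicator fun t => t ^ 2 * Real.exp (-b * t ^ 2) with hB2
  set B3 : ℝ → ℝ := I.indicator fun _ => ε with hB3
  have hFi : Integrable F := by
    rw [hF, integrable_indicator_iff measurableSet_Icc]
    exact (hMc.mul hQc).continuousOn.integrableOn_Icc
  have hB1i : Integrable B1 := integrable_exp_neg_mul_sq hb0
  obtain ⟨hgi, hgv⟩ := G1_two b hb0
  have hB2i : Integrable B2 := by
    rw [hB2, integrable_indicator_iff hSm.compl]
    exact hgi.integrableOn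
  have hB3i : Integrable B3 := by
    rw [hB3, integrable_indicator_iff measurableSet_Icc]
    exact continuous_const.continuousOn.integrableOn_Icc
  obtain ⟨κ, hκ⟩ : ∃ κ, κ = (1 - η / 4) * (W / 8) := ⟨_, rfl⟩
  have hκ0 : 0 ≤ κ := by
    rw [hκ]
    have : 0 ≤ 1 - η / 4 := by linarith
    positivity
  have hdom : ∀ t, F t ≤ B1 t - κ * B2 t + B3 t := by
    intro t
    have hE0 : 0 < Real.exp (-b * t ^ 2) := Real.exp_pos _
    by_cases h1 : |t| < τ
    · have e2 : B2 t = t ^ 2 * Real.exp (-b * t ^ 2) :=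
        Set.indicator_of_mem (show t ∈ Sᶜ from fun h => absurd h (not_le.2 h1)) _
      have h3 := hQτ t h1
      have e4 : B1 t - κ * B2 t = Real.exp (-b * t ^ 2) * (1 - (1 - η / 4) * (t ^ 2 * W / 8)) := by
        rw [e2, hB1, hκ]
        ring
      by_cases h2 : |t| ≤ Real.pi
      · have hIt : t ∈ I := abs_le.1 h2
        have e1 : F t = M t * Q t := Set.indicator_of_mem hIt _
        have e3 : B3 t = ε := Set.indicator_of_mem hIt _
        rw [e1, e3, e4]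
        calc M t * Q t ≤ (Real.exp (-b * t ^ 2) + ε) * Q t :=
              mul_le_mul_of_nonneg_right (hM1 t h2) (hQ0 t)
          _ = Real.exp (-b * t ^ 2) * Q t + ε * Q t := by ring
          _ ≤ Real.exp (-b * t ^ 2) * (1 - (1 - η / 4) * (t ^ 2 * W / 8)) + ε * 1 :=
              add_le_add (mul_le_mul_of_nonneg_left h3 hE0.le)
                (mul_le_mul_of_nonneg_left (hQ1 t) hε0.le)
          _ = _ := by rw [mul_one]
      · have hIt : t ∉ I := fun h => h2 (abs_le.2 h)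
        have e1 : F t = 0 := Set.indicator_of_notMem hIt _
        have e3 : B3 t = 0 := Set.indicator_of_notMem hIt _
        rw [e1, e3, e4, add_zero]
        exact mul_nonneg hE0.le ((hQ0 t).trans h3)
    · have hSt : τ ≤ |t| := not_lt.1 h1
      have e2 : B2 t = 0 := Set.indicator_of_notMem (fun h : t ∈ Sᶜ => h hSt) _
      rw [e2, mul_zero, sub_zero]
      by_cases h2 : |t| ≤ Real.pi
      · have hIt : t ∈ I := abs_le.1 h2
        have e1 : F t = M t * Q t := Set.indicator_of_mem hIt _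
        have e3 : B3 t = ε := Set.indicator_of_mem hIt _
        rw [e1, e3]
        calc M t * Q t ≤ M t * 1 := mul_le_mul_of_nonneg_left (hQ1 t) (hM0 t)
          _ = M t := mul_one _
          _ ≤ _ := hM1 t h2
      · have hIt : t ∉ I := fun h => h2 (abs_le.2 h)
        have e1 : F t = 0 := Set.indicator_of_notMem hIt _
        have e3 : B3 t = 0 := Set.indicator_of_notMem hIt _
        rw [e1, e3, add_zero]
        exact hE0.le
  have hint : ∫ t, F t ≤ (∫ t, B1 t) - κ * (∫ t, B2 t) + ∫ t, B3 t := by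
    have h1 : Integrable fun t => B1 t - κ * B2 t := hB1i.sub (hB2i.const_mul κ)
    have h2 : ∫ t, F t ≤ ∫ t, (B1 t - κ * B2 t + B3 t) :=
      integral_mono hFi (h1.add hB3i) hdom
    have h3 : ∫ t, (B1 t - κ * B2 t + B3 t) = (∫ t, (B1 t - κ * B2 t)) + ∫ t, B3 t :=
      integral_add h1 hB3i
    have h4 : ∫ t, (B1 t - κ * B2 t) = (∫ t, B1 t) - ∫ t, κ * B2 t :=
      integral_sub hB1i (hB2i.const_mul κ)
    rw [h3, h4, integral_const_mul] at h2
    exact h2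
  have hI1 : ∫ t, B1 t = Real.sqrt (Real.pi / b) := integral_gaussian b
  have hI3 : ∫ t, B3 t = 2 * Real.pi * ε := by
    rw [hB3, integral_indicator measurableSet_Icc, setIntegral_const, Real.volume_real_Icc,
      smul_eq_mul, max_eq_left (by linarith)]
    ring
  obtain ⟨G, hG⟩ : ∃ G, G = Real.sqrt (Real.pi / b) := ⟨_, rfl⟩
  have hG0 : 0 < G := by rw [hG]; positivity
  have hI2 : (1 - η / 4) * (G / (2 * b)) ≤ ∫ t, B2 t := by
    have h1 : ∫ t, B2 t = (∫ t : ℝ, t ^ 2 * Real.exp (-b * t ^ 2)) -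
        ∫ t in S, t ^ 2 * Real.exp (-b * t ^ 2) := by
      rw [hB2, integral_indicator hSm.compl, ← integral_add_compl hSm hgi]
      ring
    have h2 := G1_tail2 b τ hb0 hτ0.le
    have h3 : Real.sqrt (4 * Real.pi / b) = 2 * G := by
      rw [hG, mul_div_assoc, Real.sqrt_mul (by norm_num)]
      congr 1
      rw [show (4 : ℝ) = 2 ^ 2 by norm_num]
      exact Real.sqrt_sq (by norm_num)
    have h4 : Real.exp (-b * τ ^ 2 / 4) ≤ Real.exp (-(T ^ 2 / 20)) := by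
      rw [Real.exp_le_exp, hτ2, hb]
      have h5 : σ / 8 * (T ^ 2 / n) = σ / n * (T ^ 2 / 8) := by field_simp
      have h6 : 19 / 10 ≤ σ / n := by rwa [le_div_iff₀ hn0]
      have h7 : 19 / 10 * (T ^ 2 / 8) ≤ σ / n * (T ^ 2 / 8) :=
        mul_le_mul_of_nonneg_right h6 (by positivity)
      have h8 : 0 < T ^ 2 := by positivity
      linarith
    rw [h1, hgv, ← hG]
    have h9 : 2 / b * (Real.exp (-b * τ ^ 2 / 4) * Real.sqrt (4 * Real.pi / b)) ≤
        η / 4 * (G / (2 * b)) := by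
      rw [h3]
      calc 2 / b * (Real.exp (-b * τ ^ 2 / 4) * (2 * G)) =
            (8 * Real.exp (-b * τ ^ 2 / 4)) * (G / (2 * b)) := by field_simp; try ring
        _ ≤ (8 * Real.exp (-(T ^ 2 / 20))) * (G / (2 * b)) := by gcongr
        _ ≤ _ := mul_le_mul_of_nonneg_right hTe (by positivity)
    have h10 := h2.trans h9
    have h11 : (1 - η / 4) * (G / (2 * b)) = G / (2 * b) - η / 4 * (G / (2 * b)) := by ring
    rw [h11]
    linarith
  have h1 := A3_fourier z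
  have hFeq : ∫ t in (-Real.pi)..Real.pi,
      (|Real.cos (t / 2)| ^ ca z 1 * |Real.cos t| ^ ca z (-2)) *
        (∏ e ∈ Ex z, |Real.cos (t * z e / 2)|) * |Real.cos (t * DD z / 2)| = ∫ t, F t := by
    rw [intervalIntegral.integral_of_le (by linarith), ← integral_Icc_eq_integral_Ioc, hF,
      integral_indicator measurableSet_Icc]
    refine integral_congr_ae (Filter.Eventually.of_forall fun t => ?_)
    show _ = M t * Q t
    rw [hM, hQ]
    ring
  rw [hFeq] at h1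
  refine h1.trans ?_
  rw [hI1, hI3, ← hG] at hint
  have h2 : κ * ((1 - η / 4) * (G / (2 * b))) ≤ κ * ∫ t, B2 t := mul_le_mul_of_nonneg_left hI2 hκ0
  have h3 : (1 - η) * W / (2 * σ) * G ≤ κ * ((1 - η / 4) * (G / (2 * b))) := by
    rw [hκ, hb]
    have e1 : (1 - η / 4) * (W / 8) * ((1 - η / 4) * (G / (2 * (σ / 8)))) =
        (1 - η / 4) ^ 2 * (W / (2 * σ) * G) := by
      field_simp
    have e2 : (1 - η) * W / (2 * σ) * G = (1 - η) * (W / (2 * σ) * G) := by ring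
    rw [e1, e2]
    refine mul_le_mul_of_nonneg_right ?_ (by positivity)
    nlinarith
  have h4 : Real.sqrt (2 / (Real.pi * σ)) = 1 / (2 * Real.pi) * G := by
    rw [hG, ← Real.sqrt_sq (by positivity : 0 ≤ 1 / (2 * Real.pi)), ← Real.sqrt_mul (by positivity)]
    congr 1
    rw [hb]
    field_simp
    ring
  rw [h4]
  have h5 : 1 / (2 * Real.pi) * ∫ t, F t ≤
      1 / (2 * Real.pi) * (G - (1 - η) * W / (2 * σ) * G + 2 * Real.pi * ε) := by
    refine mul_le_mul_of_nonneg_left ?_ (by positivity)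
    linarith
  refine h5.trans (le_of_eq ?_)
  field_simp

end H31Z
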