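import Pool.Agent.Lib.H31Z.Defs

/-!
Definitions for theorem A (exact values).
-/

namespace H31Z

open Finset

/-- number of coordinates equal to `v` -/
def ca {n : ℕ} (z : Fin n → ℤ) (v : ℤ) : ℕ := (Finset.univ.filter (fun i => z i = v)).card

/-- the exceptional coordinates: neither `0` nor `1` nor `-2` -/
def Ex {n : ℕ} (z : Fin n → ℤ) : Finset (Fin n) :=
  Finset.univ.filter (fun i => z i ≠ 0 ∧ z i ≠ 1 ∧ z i ≠ -2)

/-- sum of the squares of the exceptional entries -/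
def sE {n : ℕ} (z : Fin n → ℤ) : ℝ := ∑ i ∈ Ex z, (z i : ℝ) ^ 2

/-- sum of all entries -/
def DD {n : ℕ} (z : Fin n → ℤ) : ℝ := ∑ i, (z i : ℝ)

/-- sum of the squares of the entries `1` and `-2` -/
def sL {n : ℕ} (z : Fin n → ℤ) : ℝ := (ca z 1 : ℝ) + 4 * (ca z (-2) : ℝ)

/-- nearly all entries are `1` and `-2`, nearly balanced -/
def Near {n : ℕ} (η : ℝ) (z : Fin n → ℤ) : Prop :=
  (1 - η) * n ≤ (ca z 1 : ℝ) + (ca z (-2) : ℝ) ∧ |(ca z 1 : ℝ) - 2 * (ca z (-2) : ℝ)| ≤ η * n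

/-- the exponents of the champion -/
def sA (n r : ℕ) : ℕ × ℕ :=
  if r % 3 = 2 then
    if n % 3 = 0 then (2 * (n / 3), n / 3)
    else if n % 3 = 1 then (2 * (n / 3), n / 3)
    else (2 * (n / 3) + 2, n / 3)
  else
    if n % 3 = 0 then (2 * (n / 3) + 2, n / 3 - 1)
    else (2 * (n / 3) + 2, n / 3)

end H31Z
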