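import Pool.Agent.Lib.H31Z.D1
import Pool.Agent.Lib.H31Z.H1
import Pool.Agent.Lib.H31Z.H2

/-!
Chunk D2: no heavy entries, small exceptional part, balanced.
-/

namespace H31Z

open Finset

theorem d2_c : (79 / 100 : ℝ) ≤ Real.sqrt (2 / Real.pi) ∧ Real.sqrt (2 / Real.pi) ≤ 8 / 10 := by
  have h1 : 3.14 < Real.pi := Real.pi_gt_d2
  have h2 : Real.pi < 3.15 := Real.pi_lt_d2
  have hπ : 0 < Real.pi := Real.pi_pos
  constructor
  · apply Real.le_sqrt_of_sq_le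
    rw [le_div_iff₀ hπ]
    nlinarith
  · rw [Real.sqrt_le_left (by norm_num)]
    rw [div_le_iff₀ hπ]
    nlinarith

theorem d2_sq (X : ℝ) : Real.sqrt (2 / (Real.pi * X)) = Real.sqrt (2 / Real.pi) / Real.sqrt X := by
  have hπ : 0 < Real.pi := Real.pi_pos
  rw [← div_div, Real.sqrt_div (by positivity)]

theorem d2_n0 (N η : ℝ) (hN : 1 ≤ N) (hη : 0 < η) :
    (35 / 100) / Real.sqrt N ≤ (1 / 2 + η) * Real.sqrt (2 / (Real.pi * N)) := by
  have hr : 0 < Real.sqrt N := Real.sqrt_pos.2 (by linarith)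
  rw [d2_sq, mul_div_assoc']
  apply div_le_div_of_nonneg_right _ hr.le
  have h1 := d2_c.1
  nlinarith

theorem d2_n1 (N S η ε : ℝ) (hN : 1 ≤ N) (hη : 0 < η) (hη2 : η ≤ 1 / 100) (hε : 0 < ε)
    (hε2 : ε ≤ η / 10) (hS : (1 - ε) * N ≤ S) :
    (Real.sqrt (2 / (Real.pi * S)) + η / 10 / Real.sqrt N + η / 10 / Real.sqrt N) / 2 ≤
      (1 / 2 + η) * Real.sqrt (2 / (Real.pi * N)) := by
  have hr : 0 < Real.sqrt N := Real.sqrt_pos.2 (by linarith)
  have hS0 : 0 < S := by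
    have : 0 < (1 - ε) * N := mul_pos (by linarith) (by linarith)
    linarith
  have hrS : 0 < Real.sqrt S := Real.sqrt_pos.2 hS0
  have h1 : Real.sqrt N ≤ (1 + ε) * Real.sqrt S := by
    rw [Real.sqrt_le_left (by positivity), mul_pow, Real.sq_sqrt hS0.le]
    have h2 : N ≤ (1 + ε) ^ 2 * ((1 - ε) * N) := by
      have h3 : 0 ≤ (1 + ε) ^ 2 * (1 - ε) - 1 := by
        have : (1 + ε) ^ 2 * (1 - ε) - 1 = ε * (1 - ε - ε ^ 2) := by ring
        rw [this]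
        apply mul_nonneg hε.le
        nlinarith
      nlinarith
    exact h2.trans (mul_le_mul_of_nonneg_left hS (by positivity))
  have h2 : 1 / Real.sqrt S ≤ (1 + ε) / Real.sqrt N := by
    rw [div_le_div_iff₀ hrS hr]
    linarith
  have hc := d2_c
  rw [d2_sq, d2_sq]
  set c := Real.sqrt (2 / Real.pi) with hcd
  have h3 : c / Real.sqrt S ≤ c * ((1 + ε) / Real.sqrt N) := by
    calc c / Real.sqrt S = c * (1 / Real.sqrt S) := by ring
      _ ≤ _ := mul_le_mul_of_nonneg_left h2 (by linarith [hc.1])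
  have h4 : (c * ((1 + ε) / Real.sqrt N) + η / 10 / Real.sqrt N + η / 10 / Real.sqrt N) / 2 =
      (c * (1 + ε) / 2 + η / 10) / Real.sqrt N := by ring
  have h5 : (1 / 2 + η) * (c / Real.sqrt N) = ((1 / 2 + η) * c) / Real.sqrt N := by ring
  rw [h5]
  calc _ ≤ (c * ((1 + ε) / Real.sqrt N) + η / 10 / Real.sqrt N + η / 10 / Real.sqrt N) / 2 := by
        linarith
    _ = (c * (1 + ε) / 2 + η / 10) / Real.sqrt N := h4
    _ ≤ _ := by
        apply div_le_div_of_nonneg_right _ hr.le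
        nlinarith [hc.1, hc.2]

theorem d2_n2 (N S η : ℝ) (hN : 1 ≤ N) (hη : 0 < η) (hη2 : η ≤ 1 / 100) (hS : N / 2 ≤ S) :
    Real.sqrt (2 / (Real.pi * S)) + η / 10 / Real.sqrt N ≤ 2 / Real.sqrt N := by
  have hr : 0 < Real.sqrt N := Real.sqrt_pos.2 (by linarith)
  have hS0 : 0 < S := by linarith
  have hrS : 0 < Real.sqrt S := Real.sqrt_pos.2 hS0
  have h1 : Real.sqrt N ≤ 3 / 2 * Real.sqrt S := by
    rw [Real.sqrt_le_left (by positivity), mul_pow, Real.sq_sqrt hS0.le]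
    linarith
  have h2 : 1 / Real.sqrt S ≤ (3 / 2) / Real.sqrt N := by
    rw [div_le_div_iff₀ hrS hr]
    linarith
  have hc := d2_c
  rw [d2_sq]
  set c := Real.sqrt (2 / Real.pi) with hcd
  have h3 : c / Real.sqrt S ≤ c * ((3 / 2) / Real.sqrt N) := by
    calc c / Real.sqrt S = c * (1 / Real.sqrt S) := by ring
      _ ≤ _ := mul_le_mul_of_nonneg_left h2 (by linarith [hc.1])
  calc _ ≤ c * ((3 / 2) / Real.sqrt N) + η / 10 / Real.sqrt N := by linarith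
    _ = (c * (3 / 2) + η / 10) / Real.sqrt N := by ring
    _ ≤ _ := by
        apply div_le_div_of_nonneg_right _ hr.le
        nlinarith [hc.1, hc.2]

theorem d2_sg {ι : Type} (w : ι → ℤ) (L : Finset ι) (h : ∀ j ∈ L, w j ≠ 0) :
    (L.card : ℝ) ≤ sg w L := by
  unfold sg
  have h1 : ∑ _i ∈ L, (1 : ℝ) ≤ ∑ i ∈ L, (w i : ℝ) ^ 2 := by
    refine Finset.sum_le_sum fun i hi => ?_
    have h2 : (1 : ℤ) ≤ w i ^ 2 := by
      have := sq_nonneg (w i)
      have h3 : w i ^ 2 ≠ 0 := pow_ne_zero _ (h i hi)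
      omega
    exact_mod_cast h2
  simpa using h1

/-- Cauchy-Schwarz -/
theorem d2_cs {ι : Type} (x : ι → ℝ) (E B : Finset ι) (hB : B ⊆ E) (a σ : ℝ)
    (ha : (E.card : ℝ) ≤ a) (hσ : ∑ e ∈ E, x e ^ 2 ≤ σ) : |∑ i ∈ B, x i| ≤ Real.sqrt (a * σ) := by
  apply Real.le_sqrt_of_sq_le
  rw [sq_abs]
  have h1 : (∑ i ∈ B, x i) ^ 2 ≤ B.card * ∑ i ∈ B, x i ^ 2 := sq_sum_le_card_mul_sum_sq
  have h2 : (B.card : ℝ) ≤ E.card := by exact_mod_cast Finset.card_le_card hB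
  have h3 : ∑ i ∈ B, x i ^ 2 ≤ ∑ i ∈ E, x i ^ 2 :=
    Finset.sum_le_sum_of_subset_of_nonneg hB fun _ _ _ => sq_nonneg _
  have h4 : 0 ≤ ∑ i ∈ B, x i ^ 2 := Finset.sum_nonneg fun _ _ => sq_nonneg _
  have h5 : (0 : ℝ) ≤ E.card := Nat.cast_nonneg _
  calc (∑ i ∈ B, x i) ^ 2 ≤ B.card * ∑ i ∈ B, x i ^ 2 := h1
    _ ≤ a * σ := mul_le_mul (by linarith) (by linarith) h4 (by linarith)

/-- PROOF. Let `η1 = η/10` (`≤ 1/1000`), `CR` from `D1_data`, `C7 = (100 CR)^2 * 100 + 1` or any constant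
with `6 CR/sqrt C7 * 2 + η1 ≤ 1/10`. Given `ε` (we may assume it as small as `η/10` in the heavy case: use
`ε' = min ε (η/10)` in `D1_data`). Let `N = |I|`, suppose `pz y I 0 > (1/2 + η) sqrt (2/(πN))`, in
particular `≥ 0.39/√N ≥ 0.35/√N` (`sqrt (2/π)/2 = 0.3989`). Take `L, g, w` from `D1_data`, `E = I \ L`,
`x = y/g` (real), `A = sqrt (2/(π sg)) + η1/√N`, `B' = η1/√N`, `R = CR √N`, `M = mn w L`. The bounds
`hA, hB` hold for real `s` by `F2_cast`, `F2_zero`. `pn x I 0 = pz y I 0` (`F2_scale`, `F2_cast`).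
(1) If `|x e| > 2R` for some `e ∈ E`, `H1_heavy`: `pz y I 0 ≤ (1/2) sqrt (2/(π sg)) + η1/√N ≤
(1/2) sqrt (2/(π (1-ε')N)) + η1/√N ≤ (1/2 + η) sqrt (2/(πN))`, since `sg ≥ |L| ≥ (1-ε')N`, a
contradiction.
(2) So `|x e| ≤ 2R` on `E`. Let `σ = ∑_E x^2`. If `σ > C7 N`: `H1_split` and `H2_esseen`:
`pz y I 0 ≤ 6 CR √N/sqrt (C7 N) * A + B' ≤ (6 CR/sqrt C7) (2/√N) + η1/√N < 0.39/√N`, contradiction
(`A ≤ 2/√N`). So `σ ≤ C7 N`.
(3) If `|∑_B x + M| > R` for all `B ⊆ E`, `H1_split` gives `pz y I 0 ≤ B'`, contradiction; so some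
`B ⊆ E` has `|M| ≤ R + |∑_B x| ≤ CR √N + sqrt (|E| σ) ≤ CR √N + sqrt (ε C7) N`, hence
`|∑_L w| = 2 |M| ≤ 3 sqrt (ε C7) N` for `N ≥ N0`.
(4) `pz y I 0 ≤ A` by `F2_le`. -/
theorem D2_data (η : ℝ) (hη : 0 < η) (hη' : η ≤ 1 / 100) :
    ∃ C7 : ℝ, 0 < C7 ∧ ∀ ε : ℝ, 0 < ε → ε ≤ 1 / 2 → ∃ K : ℕ, ∃ N0 : ℕ,
      ∀ (ι : Type) (I : Finset ι) (y : ι → ℤ), N0 ≤ I.card → (∀ j ∈ I, y j ≠ 0) →
      pz y I 0 ≤ (1 / 2 + η) * Real.sqrt (2 / (Real.pi * I.card)) ∨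
      ∃ L ⊆ I, ∃ (g : ℤ) (w : ι → ℤ), g ≠ 0 ∧ (1 - ε) * I.card ≤ (L.card : ℝ) ∧
        (∀ j ∈ L, y j = g * w j ∧ w j ≠ 0 ∧ |w j| ≤ (K : ℤ)) ∧
        sg w L ≤ 6 * I.card ∧
        |∑ i ∈ L, (w i : ℝ)| ≤ 3 * Real.sqrt (ε * C7) * I.card ∧
        pz y I 0 ≤ Real.sqrt (2 / (Real.pi * sg w L)) + η / Real.sqrt I.card := by
  obtain ⟨CR, hCR, hD⟩ := D1_data (η / 10) (by positivity) (by linarith)
  refine ⟨(100 * CR) ^ 2, by positivity, fun ε hε hε2 => ?_⟩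
  obtain ⟨C7, hC7⟩ : ∃ C7, C7 = (100 * CR) ^ 2 := ⟨_, rfl⟩
  rw [← hC7]
  have hC70 : 0 < C7 := by rw [hC7]; positivity
  obtain ⟨ε', hε'd⟩ : ∃ ε', ε' = min ε (η / 10) := ⟨_, rfl⟩
  have he0 : 0 < ε' := by rw [hε'd]; exact lt_min hε (by positivity)
  have he1 : ε' ≤ ε := by rw [hε'd]; exact min_le_left _ _
  have he2 : ε' ≤ η / 10 := by rw [hε'd]; exact min_le_right _ _
  obtain ⟨K, N1, hK⟩ := hD ε' he0 (by linarith)
  refine ⟨K, max N1 (max 1 ⌈4 * CR ^ 2 / (ε * C7)⌉₊), fun ι I y hN hy => ?_⟩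
  classical
  have hN1 : N1 ≤ I.card := (le_max_left _ _).trans hN
  have hN2 : 1 ≤ I.card := ((le_max_left _ _).trans (le_max_right _ _)).trans hN
  have hN3 : 4 * CR ^ 2 / (ε * C7) ≤ (I.card : ℝ) :=
    (Nat.le_ceil _).trans (by
      exact_mod_cast ((le_max_right _ _).trans (le_max_right _ _)).trans hN)
  have hN4 : (1 : ℝ) ≤ I.card := by exact_mod_cast hN2
  obtain ⟨N, hNd⟩ : ∃ N : ℝ, N = (I.card : ℝ) := ⟨_, rfl⟩
  rw [← hNd] at hN3 hN4 ⊢
  by_cases hp : pz y I 0 ≤ (1 / 2 + η) * Real.sqrt (2 / (Real.pi * N))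
  · exact Or.inl hp
  right
  have hp' := not_le.1 hp
  have hlow : (35 / 100) / Real.sqrt N ≤ pz y I 0 := (d2_n0 N η hN4 hη).trans hp'.le
  obtain ⟨L, hLI, g, w, hg, hLc, hw, hsg, hA, hB⟩ := hK ι I y hN1 hy (by rw [← hNd]; exact hlow)
  rw [← hNd] at hLc hsg hA hB
  have hr : 0 < Real.sqrt N := Real.sqrt_pos.2 (by linarith)
  have hrr : Real.sqrt N * Real.sqrt N = N := Real.mul_self_sqrt (by linarith)
  obtain ⟨S, hSd⟩ : ∃ S, S = sg w L := ⟨_, rfl⟩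
  rw [← hSd] at hsg hA
  have hSL : (L.card : ℝ) ≤ S := by rw [hSd]; exact d2_sg w L fun j hj => (hw j hj).2.1
  have hS1 : (1 - ε') * N ≤ S := hLc.trans hSL
  have hS2 : N / 2 ≤ S := by
    refine le_trans ?_ hS1
    nlinarith
  obtain ⟨A, hAd⟩ : ∃ A, A = Real.sqrt (2 / (Real.pi * S)) + η / 10 / Real.sqrt N := ⟨_, rfl⟩
  rw [← hAd] at hA
  have hA0 : 0 ≤ A := by rw [hAd]; positivity
  have hB0 : 0 ≤ η / 10 / Real.sqrt N := by positivity
  have hgR : (g : ℝ) ≠ 0 := by exact_mod_cast hg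
  obtain ⟨x, hx⟩ : ∃ x : ι → ℝ, x = fun j => (y j : ℝ) / g := ⟨_, rfl⟩
  have hxL : ∀ j ∈ L, x j = (w j : ℝ) := fun j hj => by
    rw [hx]
    simp only
    rw [(hw j hj).1, Int.cast_mul]
    field_simp
  have hAr : ∀ s : ℝ, pn x L s ≤ A := by
    intro s
    by_cases hs : ∃ k : ℤ, s = k
    · obtain ⟨k, rfl⟩ := hs
      rw [F2_cast _ w L hxL k]
      exact hA k
    · push Not at hs
      rw [F2_zero _ w L hxL s hs]
      exact hA0
  have hBr : ∀ s : ℝ, CR * Real.sqrt N < |s - mn w L| → pn x L s ≤ η / 10 / Real.sqrt N := by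
    intro s hs1
    by_cases hs : ∃ k : ℤ, s = k
    · obtain ⟨k, rfl⟩ := hs
      rw [F2_cast _ w L hxL k]
      exact hB k hs1
    · push Not at hs
      rw [F2_zero _ w L hxL s hs]
      exact hB0
  obtain ⟨E, hE⟩ : ∃ E, E = I \ L := ⟨_, rfl⟩
  have hd : Disjoint L E := by rw [hE]; exact Finset.disjoint_sdiff
  have hLE : L ∪ E = I := by rw [hE]; exact Finset.union_sdiff_of_subset hLI
  have hpn : pn x (L ∪ E) 0 = pz y I 0 := by
    rw [hLE]
    have h1 : pn (fun j => (y j : ℝ)) I 0 = pn x I 0 := by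
      apply F2_scale x (fun j => (y j : ℝ)) I g hgR
      intro j _
      rw [hx]
      simp only
      field_simp
    rw [← h1]
    have h2 := F2_cast (fun j => (y j : ℝ)) y I (fun _ _ => rfl) 0
    rw [Int.cast_zero] at h2
    exact h2
  have hR0 : 0 < CR * Real.sqrt N := by positivity
  -- (1)
  have hx2 : ∀ e ∈ E, |x e| ≤ 2 * (CR * Real.sqrt N) := by
    intro e he
    by_contra hcon
    have h1 := H1_heavy x L E hd A (η / 10 / Real.sqrt N) (CR * Real.sqrt N) (mn w L) hAr hBr e he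
      (not_le.1 hcon)
    rw [hpn, hAd] at h1
    have h2 := d2_n1 N S η ε' hN4 hη hη' he0 he2 hS1
    linarith
  have hAle : A ≤ 2 / Real.sqrt N := by rw [hAd]; exact d2_n2 N S η hN4 hη hη' hS2
  have hsplit := H1_split x L E hd A (η / 10 / Real.sqrt N) (CR * Real.sqrt N) (mn w L) hAr hBr hA0 hB0
  rw [hpn] at hsplit
  -- (2)
  have hσ : ∑ e ∈ E, x e ^ 2 ≤ C7 * N := by
    by_contra hcon
    have hcon' := not_le.1 hcon
    have hC7N : 0 < C7 * N := by positivity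
    have h1 := H2_esseen E x (CR * Real.sqrt N) (-mn w L) hR0 hx2 (hC7N.trans hcon')
    have h2 : Real.sqrt (C7 * N) ≤ Real.sqrt (∑ e ∈ E, x e ^ 2) := Real.sqrt_le_sqrt hcon'.le
    have h3 : Real.sqrt (C7 * N) = 100 * CR * Real.sqrt N := by
      rw [Real.sqrt_mul hC70.le, hC7, Real.sqrt_sq (by positivity)]
    rw [h3] at h2
    have h4 : 6 * (CR * Real.sqrt N) / Real.sqrt (∑ e ∈ E, x e ^ 2) ≤ 6 / 100 := by
      rw [div_le_iff₀ (lt_of_lt_of_le (by positivity) h2)]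
      linarith
    have h5 : pw x E (-mn w L) (CR * Real.sqrt N) * A ≤ 6 / 100 * (2 / Real.sqrt N) :=
      mul_le_mul (h1.trans h4) hAle hA0 (by norm_num)
    have h6 : (35 / 100) / Real.sqrt N ≤ 6 / 100 * (2 / Real.sqrt N) + η / 10 / Real.sqrt N := by
      linarith
    have h7 : 6 / 100 * (2 / Real.sqrt N) + η / 10 / Real.sqrt N = (12 / 100 + η / 10) / Real.sqrt N := by
      ring
    rw [h7, div_le_div_iff_of_pos_right hr] at h6
    linarith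
  -- (3)
  have hex : ∃ B ⊆ E, |∑ i ∈ B, x i - -mn w L| ≤ CR * Real.sqrt N := by
    by_contra hcon
    push Not at hcon
    have h1 : pw x E (-mn w L) (CR * Real.sqrt N) = 0 := by
      unfold pw
      have h2 : (E.powerset.filter (fun B => |∑ i ∈ B, x i - -mn w L| ≤ CR * Real.sqrt N)) = ∅ := by
        rw [Finset.filter_eq_empty_iff]
        intro B hB
        rw [Finset.mem_powerset] at hB
        exact not_le.2 (hcon B hB)
      rw [h2]
      simp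
    rw [h1, zero_mul, zero_add] at hsplit
    have h6 : (35 / 100) / Real.sqrt N ≤ η / 10 / Real.sqrt N := by linarith
    rw [div_le_div_iff_of_pos_right hr] at h6
    linarith
  obtain ⟨B, hBE, hBs⟩ := hex
  have hEc : (E.card : ℝ) ≤ ε * N := by
    have h1 : E.card + L.card = I.card := by
      rw [hE]; exact Finset.card_sdiff_add_card_eq_card hLI
    have h2 : (E.card : ℝ) + L.card = N := by rw [hNd]; exact_mod_cast h1
    have h3 : ε' * N ≤ ε * N := mul_le_mul_of_nonneg_right he1 (by linarith)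
    linarith
  have hcs := d2_cs x E B hBE (ε * N) (C7 * N) hEc hσ
  have hsq : Real.sqrt (ε * N * (C7 * N)) = Real.sqrt (ε * C7) * N := by
    have h1 : ε * N * (C7 * N) = (ε * C7) * N ^ 2 := by ring
    rw [h1, Real.sqrt_mul (by positivity), Real.sqrt_sq (by linarith)]
  rw [hsq] at hcs
  have hM : |∑ i ∈ L, (w i : ℝ)| ≤ 2 * (CR * Real.sqrt N) + 2 * (Real.sqrt (ε * C7) * N) := by
    have h1 : ∑ i ∈ L, (w i : ℝ) = 2 * mn w L := by
      unfold mn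
      ring
    rw [h1, abs_mul, abs_two]
    have h2 : |mn w L| ≤ |∑ i ∈ B, x i - -mn w L| + |∑ i ∈ B, x i| := by
      have h3 : mn w L = (∑ i ∈ B, x i - -mn w L) - ∑ i ∈ B, x i := by ring
      calc |mn w L| = |(∑ i ∈ B, x i - -mn w L) - ∑ i ∈ B, x i| := by rw [← h3]
        _ ≤ _ := abs_sub _ _
    linarith
  have hbig : 2 * (CR * Real.sqrt N) ≤ Real.sqrt (ε * C7) * N := by
    have h1 : 2 * CR ≤ Real.sqrt (ε * C7) * Real.sqrt N := by
      rw [← Real.sqrt_mul (by positivity)]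
      apply Real.le_sqrt_of_sq_le
      rw [div_le_iff₀ (by positivity)] at hN3
      calc (2 * CR) ^ 2 = 4 * CR ^ 2 := by ring
        _ ≤ N * (ε * C7) := hN3
        _ = ε * C7 * N := by ring
    calc 2 * (CR * Real.sqrt N) = (2 * CR) * Real.sqrt N := by ring
      _ ≤ (Real.sqrt (ε * C7) * Real.sqrt N) * Real.sqrt N := mul_le_mul_of_nonneg_right h1 hr.le
      _ = Real.sqrt (ε * C7) * N := by rw [mul_assoc, hrr]
  refine ⟨L, hLI, g, w, hg, ?_, hw, ?_, ?_, ?_⟩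
  · refine le_trans ?_ hLc
    apply mul_le_mul_of_nonneg_right _ (by linarith)
    linarith
  · rw [← hSd]; exact hsg
  · linarith
  · have h1 := d1_le I L y w g hg hLI (fun j hj => (hw j hj).1) A hA0 hA
    rw [← hSd]
    refine h1.trans ?_
    rw [hAd]
    have h2 : η / 10 / Real.sqrt N ≤ η / Real.sqrt N := div_le_div_of_nonneg_right (by linarith) hr.le
    linarith

end H31Z
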