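import Mathlib

/-!
Definitions for the project H31Z (MP_f5b580_co): zero subset sums when no r-term sum vanishes.
-/

namespace H31Z

open Finset

/-- `x` is `r`-admissible: no sum of `r` entries with distinct indices is zero. -/
def Adm (n r : ℕ) (x : Fin n → ℝ) : Prop :=
  ∀ S : Finset (Fin n), S.card = r → ∑ i ∈ S, x i ≠ 0

/-- `Z(x)`: the number of index sets with sum zero. -/
noncomputable def ZZ (n : ℕ) (x : Fin n → ℝ) : ℕ :=
  Nat.card {B : Finset (Fin n) // ∑ i ∈ B, x i = 0}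

/-- number of subsets of `I` with `x`-sum equal to `s` (real vectors) -/
noncomputable def cn {ι : Type*} (x : ι → ℝ) (I : Finset ι) (s : ℝ) : ℕ :=
  open Classical in (I.powerset.filter (fun B => ∑ i ∈ B, x i = s)).card

/-- number of subsets of `L` with `w`-sum equal to `s` (integer vectors) -/
def cz {ι : Type*} (w : ι → ℤ) (L : Finset ι) (s : ℤ) : ℕ :=
  (L.powerset.filter (fun B => ∑ i ∈ B, w i = s)).card

/-- the probability that a random subset of `I` has sum `s` -/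
noncomputable def pn {ι : Type*} (x : ι → ℝ) (I : Finset ι) (s : ℝ) : ℝ :=
  (cn x I s : ℝ) / 2 ^ I.card

/-- the probability that a random subset of `L` has sum `s` -/
noncomputable def pz {ι : Type*} (w : ι → ℤ) (L : Finset ι) (s : ℤ) : ℝ :=
  (cz w L s : ℝ) / 2 ^ L.card

/-- the probability that a random subset of `E` has sum within `R` of `s` -/
noncomputable def pw {ι : Type*} (x : ι → ℝ) (E : Finset ι) (s R : ℝ) : ℝ :=
  open Classical in
  ((E.powerset.filter (fun B => |∑ i ∈ B, x i - s| ≤ R)).card : ℝ) / 2 ^ E.card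

/-- sum of the squares -/
noncomputable def sg {ι : Type*} (w : ι → ℤ) (L : Finset ι) : ℝ := ∑ i ∈ L, (w i : ℝ) ^ 2

/-- the mean of the random subset sum -/
noncomputable def mn {ι : Type*} (w : ι → ℤ) (L : Finset ι) : ℝ := (∑ i ∈ L, (w i : ℝ)) / 2

/-- distance of `u / p` to the nearest integer -/
noncomputable def nr (p : ℕ) (u : ZMod p) : ℝ := |(u.valMinAbs : ℝ)| / p

/-- `∑ ‖θ y_j / p‖²` -/
noncomputable def ff {ι : Type*} (p : ℕ) (y : ι → ℤ) (I : Finset ι) (θ : ZMod p) : ℝ :=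
  ∑ j ∈ I, nr p (θ * (y j : ZMod p)) ^ 2

/-- the level sets of `ff` -/
noncomputable def TT {ι : Type*} (p : ℕ) [NeZero p] (y : ι → ℤ) (I : Finset ι) (m : ℝ) :
    Finset (ZMod p) :=
  open Classical in Finset.univ.filter (fun θ => ff p y I θ ≤ m)

/-- the condition on the sizes of the zero-sum subsets of the set `I` of nonzero coordinates;
`c` is the number of zero coordinates. -/
def Star {ι : Type*} (y : ι → ℤ) (I : Finset ι) (c r : ℕ) : Prop :=
  ∀ B ⊆ I, ∑ i ∈ B, y i = 0 → B.card + c < r ∨ r < B.card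

/-- the very abundant indices: weight at most `K1` in absolute value, and at least `δ N` indices
of `L` have the same weight. -/
noncomputable def VA {ι : Type*} (w : ι → ℤ) (L : Finset ι) (K1 : ℕ) (δ : ℝ) (N : ℕ) : Finset ι :=
  open Classical in
  L.filter (fun j => |w j| ≤ (K1 : ℤ) ∧ δ * N ≤ ((L.filter (fun i => w i = w j)).card : ℝ))

/-- the balanced structure -/
structure Bal {ι : Type*} (η : ℝ) (K1 : ℕ) (δ : ℝ) (I : Finset ι) (y : ι → ℤ) (L : Finset ι)
    (g : ℤ) (w : ι → ℤ) : Prop where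
  sub : L ⊆ I
  g0 : g ≠ 0
  eqn : ∀ j ∈ L, y j = g * w j ∧ w j ≠ 0
  card : (1 - η) * (I.card : ℝ) ≤ (L.card : ℝ)
  sgle : sg w L ≤ 6 * (I.card : ℝ)
  prob : pz y I 0 ≤ Real.sqrt (2 / (Real.pi * sg w L)) + η / Real.sqrt (I.card : ℝ)
  vacard : (1 - η) * (I.card : ℝ) ≤ ((VA w L K1 δ I.card).card : ℝ)
  vasum : |∑ i ∈ VA w L K1 δ I.card, (w i : ℝ)| ≤ η * (I.card : ℝ)
  real : ∀ i ∈ VA w L K1 δ I.card, ∀ j ∈ VA w L K1 δ I.card, 0 < w i → w j < 0 →
    ∀ m : ℕ, ((w i).natAbs + (w j).natAbs) / Nat.gcd (w i).natAbs (w j).natAbs ∣ m →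
      (m : ℝ) ≤ (1 - η) * (I.card : ℝ) → ∃ B ⊆ L, ∑ k ∈ B, w k = 0 ∧ B.card = m

/-- `(1/2π) ∫ cos(t/2)^α cos(t)^β cos(tD/2) dt` -/
noncomputable def GJ (α β : ℕ) (D : ℤ) : ℝ :=
  1 / (2 * Real.pi) * ∫ t in (-Real.pi)..Real.pi,
    Real.cos (t / 2) ^ α * Real.cos t ^ β * Real.cos (t * D / 2)

/-- number of subsets with sum `s` of the vector with `a` entries `1` and `b` entries `-2`. -/
def lat (a b s : ℕ) : ℕ := ∑ j ∈ Finset.range (b + 1), a.choose (2 * j + s) * b.choose j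

/-- the value of the lattice construction -/
def Aval (n r : ℕ) : ℕ :=
  if r % 3 = 2 then
    if n % 3 = 0 then lat (2 * (n / 3)) (n / 3) 0
    else if n % 3 = 1 then 2 * lat (2 * (n / 3)) (n / 3) 0
    else 2 * lat (2 * (n / 3) + 1) (n / 3) 0
  else if r % 3 = 1 then
    if n % 3 = 0 then lat (2 * (n / 3) + 1) (n / 3 - 1) 1
    else if n % 3 = 1 then lat (2 * (n / 3) + 1) (n / 3) 0
    else lat (2 * (n / 3) + 2) (n / 3) 1
  else 0

/-- the value of the construction with many zeros, `k = n - r + 1` -/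
def Vval (n r : ℕ) : ℕ :=
  if 2 * (n - r + 1) ≤ n then
    2 ^ (n - 2 * (n - r + 1)) * (1 + (2 * (n - r + 1) - 1).choose (n - r + 1))
  else 0

/-- `max (n - r) (min (2r) (2(n-r)))` -/
def Mval (n r : ℕ) : ℕ := max (n - r) (min (2 * r) (2 * (n - r)))

end H31Z
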