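import Pool.Agent.Lib.H31Z.F2
import Pool.Agent.Lib.H31Z.F5

/-!
Chunk LB1: the lattice construction, first order.
-/

namespace H31Z

open Finset

/-- the weights of the lattice construction -/
def LB1_w (n a κ : ℕ) (i : Fin n) : ℤ := if (i : ℕ) < a then 1 else -(κ : ℤ)

theorem LB1_card (n a : ℕ) (ha : a ≤ n) :
    (Finset.univ.filter (fun i : Fin n => (i : ℕ) < a)).card = a := by
  rw [Finset.card_filter, Fin.sum_univ_eq_sum_range (fun i => if i < a then 1 else 0) n,
    ← Finset.card_filter]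
  have h : (Finset.range n).filter (fun i => i < a) = Finset.range a := by
    ext i
    rw [Finset.mem_filter, Finset.mem_range, Finset.mem_range]
    omega
  rw [h, Finset.card_range]

theorem LB1_card' (n a : ℕ) (ha : a ≤ n) :
    (Finset.univ.filter (fun i : Fin n => ¬ (i : ℕ) < a)).card = n - a := by
  have h := Finset.card_filter_add_card_filter_not (s := (Finset.univ : Finset (Fin n)))
    (fun i : Fin n => (i : ℕ) < a)
  rw [LB1_card n a ha, Finset.card_univ, Fintype.card_fin] at h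
  omega

theorem LB1_sum (n a κ : ℕ) (ha : a ≤ n) (g : ℤ → ℝ) :
    ∑ i : Fin n, g (LB1_w n a κ i) = a * g 1 + ((n - a : ℕ) : ℝ) * g (-(κ : ℤ)) := by
  rw [← Finset.sum_filter_add_sum_filter_not Finset.univ (fun i : Fin n => (i : ℕ) < a)]
  congr 1
  · rw [Finset.sum_congr rfl (g := fun _ => g 1), Finset.sum_const, LB1_card n a ha, nsmul_eq_mul]
    intro i hi
    rw [Finset.mem_filter] at hi
    unfold LB1_w
    rw [if_pos hi.2]
  · rw [Finset.sum_congr rfl (g := fun _ => g (-(κ : ℤ))), Finset.sum_const, LB1_card' n a ha,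
      nsmul_eq_mul]
    intro i hi
    rw [Finset.mem_filter] at hi
    unfold LB1_w
    rw [if_neg hi.2]

theorem LB1_adm (n r a κ : ℕ) (h : ¬ (κ + 1 ∣ r)) :
    Adm n r (fun i => (LB1_w n a κ i : ℝ)) := by
  intro S hS h0
  have h1 : ∑ i ∈ S, LB1_w n a κ i = 0 := by
    beta_reduce at h0
    exact_mod_cast h0
  rw [← Finset.sum_filter_add_sum_filter_not S (fun i : Fin n => (i : ℕ) < a)] at h1
  have h2 : ∑ i ∈ S.filter (fun i : Fin n => (i : ℕ) < a), LB1_w n a κ i =
      ((S.filter (fun i : Fin n => (i : ℕ) < a)).card : ℤ) := by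
    rw [Finset.sum_congr rfl (g := fun _ => (1 : ℤ)), Finset.sum_const, nsmul_eq_mul, mul_one]
    intro i hi
    rw [Finset.mem_filter] at hi
    unfold LB1_w
    rw [if_pos hi.2]
  have h3 : ∑ i ∈ S.filter (fun i : Fin n => ¬ (i : ℕ) < a), LB1_w n a κ i =
      ((S.filter (fun i : Fin n => ¬ (i : ℕ) < a)).card : ℤ) * -(κ : ℤ) := by
    rw [Finset.sum_congr rfl (g := fun _ => -(κ : ℤ)), Finset.sum_const, nsmul_eq_mul]
    intro i hi
    rw [Finset.mem_filter] at hi
    unfold LB1_w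
    rw [if_neg hi.2]
  rw [h2, h3] at h1
  have h4 := Finset.card_filter_add_card_filter_not (s := S) (fun i : Fin n => (i : ℕ) < a)
  rw [hS] at h4
  apply h
  refine ⟨(S.filter (fun i : Fin n => ¬ (i : ℕ) < a)).card, ?_⟩
  have h5 : ((S.filter (fun i : Fin n => (i : ℕ) < a)).card : ℤ) =
      ((S.filter (fun i : Fin n => ¬ (i : ℕ) < a)).card : ℤ) * κ := by linarith
  have h6 : (S.filter (fun i : Fin n => (i : ℕ) < a)).card =
      (S.filter (fun i : Fin n => ¬ (i : ℕ) < a)).card * κ := by exact_mod_cast h5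
  rw [← h4, h6]
  ring

/-- PROOF. `b = n/(κ+1)` (floor), `a = n - b`, `x = (1^a, (-κ)^b)`. A zero-sum set with `b'` entries `-κ`
has `κ b'` entries `1`, so its size is `(κ+1) b'`, a multiple of `κ+1`, hence not `r`. Local limit
theorem `F5_llt` for `L = univ`, `N = n`, weights `1` and `-κ` (`K = 3`, `δ = 1/5`: both are taken at
least `n/5` times for large `n`, gcd `1`), `s = 0`: `sg = a + κ^2 b`, `2 mn = a - κ b = n - (κ+1) b ∈
[0, κ]`, so `|s - mn| ≤ 3/2` and `sg = κ n + ... `: `a + κ² b = n + (κ²-1) b ≤ n + (κ-1) n = κ n`. So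
`pz ≥ sqrt (2/(πκn)) exp (-2 (9/4)/n) - η'/√n ≥ (1-η) sqrt (2/(πκn))`. -/
theorem LB1_lattice (η : ℝ) (hη : 0 < η) :
    ∃ n1 : ℕ, ∀ (n r κ : ℕ), n1 ≤ n → 1 ≤ κ → κ ≤ 3 → ¬ (κ + 1 ∣ r) →
      ∃ x : Fin n → ℝ, Adm n r x ∧
        (1 - η) * 2 ^ n * Real.sqrt (2 / (Real.pi * κ * n)) ≤ (ZZ n x : ℝ) := by
  classical
  obtain ⟨N0, hN0⟩ := F5_llt 3 (1 / 5) (η / 5) (by norm_num) (by linarith)
  refine ⟨max N0 (max 20 (⌈9 / η⌉₊ + 1)), ?_⟩
  intro n r κ hn hκ1 hκ3 hdiv
  have hnN0 : N0 ≤ n := le_trans (le_max_left _ _) hn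
  have hn20 : 20 ≤ n := le_trans (le_trans (le_max_left _ _) (le_max_right _ _)) hn
  have hnη : ⌈9 / η⌉₊ + 1 ≤ n := le_trans (le_trans (le_max_right _ _) (le_max_right _ _)) hn
  obtain ⟨b, hb⟩ : ∃ b, b = n / (κ + 1) := ⟨_, rfl⟩
  have hb1 : b * (κ + 1) ≤ n := by rw [hb]; exact Nat.div_mul_le_self _ _
  have hb2 : n < b * (κ + 1) + (κ + 1) := by
    rw [hb]
    have := Nat.lt_div_mul_add (a := n) (b := κ + 1) (by omega)
    exact this
  have hbn : 2 * b ≤ n := by nlinarith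
  obtain ⟨a, ha⟩ : ∃ a, a = n - b := ⟨_, rfl⟩
  have han : a ≤ n := by omega
  have hna : n - a = b := by omega
  have hab : a + b = n := by omega
  have hnR : (20 : ℝ) ≤ n := by exact_mod_cast hn20
  have hn0 : (0 : ℝ) < n := by linarith
  have habR : (a : ℝ) + b = n := by exact_mod_cast hab
  have hκR : (1 : ℝ) ≤ κ := by exact_mod_cast hκ1
  have hκR3 : (κ : ℝ) ≤ 3 := by exact_mod_cast hκ3
  have hb1R : (b : ℝ) * (κ + 1) ≤ n := by exact_mod_cast hb1
  have hb2R : (n : ℝ) < b * (κ + 1) + (κ + 1) := by exact_mod_cast hb2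
  have hbR0 : (0 : ℝ) ≤ b := Nat.cast_nonneg _
  refine ⟨fun i => (LB1_w n a κ i : ℝ), LB1_adm n r a κ hdiv, ?_⟩
  -- parameters
  have hsg : sg (LB1_w n a κ) Finset.univ = a + κ ^ 2 * b := by
    unfold sg
    rw [LB1_sum n a κ han (fun z => (z : ℝ) ^ 2), hna]
    push_cast
    ring
  have hmn : mn (LB1_w n a κ) Finset.univ = (a - κ * b) / 2 := by
    unfold mn
    rw [LB1_sum n a κ han (fun z => (z : ℝ)), hna]
    push_cast
    ring
  have hw1 : ∀ j : Fin n, LB1_w n a κ j = 1 ∨ LB1_w n a κ j = -(κ : ℤ) := by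
    intro j
    unfold LB1_w
    split_ifs
    · exact Or.inl rfl
    · exact Or.inr rfl
  have hcount : ∀ j ∈ (Finset.univ : Finset (Fin n)), (1 / 5 : ℝ) * n ≤
      ((Finset.univ.filter (fun i => LB1_w n a κ i = LB1_w n a κ j)).card : ℝ) := by
    intro j _
    rcases hw1 j with h1 | h1
    · rw [h1]
      have h2 : Finset.univ.filter (fun i : Fin n => (i : ℕ) < a) ⊆
          Finset.univ.filter (fun i => LB1_w n a κ i = 1) := by
        intro i hi
        rw [Finset.mem_filter] at hi ⊢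
        refine ⟨hi.1, ?_⟩
        unfold LB1_w
        rw [if_pos hi.2]
      have h3 := Finset.card_le_card h2
      rw [LB1_card n a han] at h3
      have h4 : (a : ℝ) ≤ ((Finset.univ.filter (fun i => LB1_w n a κ i = 1)).card : ℝ) := by
        exact_mod_cast h3
      have h5 : (2 : ℝ) * b ≤ n := by exact_mod_cast hbn
      linarith
    · rw [h1]
      have h2 : Finset.univ.filter (fun i : Fin n => ¬ (i : ℕ) < a) ⊆
          Finset.univ.filter (fun i => LB1_w n a κ i = -(κ : ℤ)) := by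
        intro i hi
        rw [Finset.mem_filter] at hi ⊢
        refine ⟨hi.1, ?_⟩
        unfold LB1_w
        rw [if_neg hi.2]
      have h3 := Finset.card_le_card h2
      rw [LB1_card' n a han, hna] at h3
      have h4 : (b : ℝ) ≤ ((Finset.univ.filter (fun i => LB1_w n a κ i = -(κ : ℤ))).card : ℝ) := by
        exact_mod_cast h3
      have h5 : (n : ℝ) < b * 4 + 4 := by nlinarith
      linarith
  have hgcd : (Finset.univ : Finset (Fin n)).gcd (LB1_w n a κ) = 1 := by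
    have ha0 : 0 < a := by omega
    have h1 : (Finset.univ : Finset (Fin n)).gcd (LB1_w n a κ) ∣ LB1_w n a κ ⟨0, by omega⟩ :=
      Finset.gcd_dvd (Finset.mem_univ _)
    have h2 : LB1_w n a κ ⟨0, by omega⟩ = 1 := by
      unfold LB1_w
      rw [if_pos ha0]
    rw [h2] at h1
    rw [← Finset.normalize_gcd]
    exact normalize_eq_one.2 (isUnit_of_dvd_one h1)
  have key := hN0 n hnN0 (Fin n) Finset.univ (LB1_w n a κ)
    (by rw [Finset.card_univ, Fintype.card_fin]; linarith)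
    (by rw [Finset.card_univ, Fintype.card_fin])
    (fun j _ => by
      rcases hw1 j with h1 | h1
      · rw [h1]; norm_num
      · rw [h1]
        constructor
        · omega
        · rw [abs_neg, Nat.abs_cast]
          exact_mod_cast hκ3)
    hcount hgcd 0
  rw [hsg, hmn] at key
  set sgv : ℝ := a + κ ^ 2 * b with hsgv
  have hsg1 : (n : ℝ) ≤ sgv := by
    rw [hsgv, ← habR]
    nlinarith
  have hsg2 : sgv ≤ κ * n := by
    rw [hsgv]
    nlinarith
  have hsg0 : 0 < sgv := by linarith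
  have hd : ((a : ℝ) - κ * b) ^ 2 ≤ 9 := by
    have h1 : 0 ≤ (a : ℝ) - κ * b := by nlinarith
    have h2 : (a : ℝ) - κ * b ≤ 3 := by
      have h4 : b * (κ + 1) + κ ≥ n := by omega
      have h5 : (n : ℝ) ≤ b * (κ + 1) + κ := by exact_mod_cast h4
      nlinarith
    nlinarith
  have hpi := Real.pi_pos
  have hexp : 1 - η / 2 ≤ Real.exp (-2 * (((0 : ℤ) : ℝ) - (a - κ * b) / 2) ^ 2 / sgv) := by
    have h1 := Real.add_one_le_exp (-2 * (((0 : ℤ) : ℝ) - (a - κ * b) / 2) ^ 2 / sgv)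
    refine le_trans ?_ h1
    have h2 : 2 * (((0 : ℤ) : ℝ) - (a - κ * b) / 2) ^ 2 / sgv ≤ η / 2 := by
      rw [div_le_iff₀ hsg0]
      have h3 : 9 / η ≤ n := by
        have h4 := Nat.le_ceil (9 / η)
        have h5 : ((⌈9 / η⌉₊ + 1 : ℕ) : ℝ) ≤ n := by exact_mod_cast hnη
        push_cast at h5
        linarith
      have h6 : 9 ≤ η * n := by
        rw [div_le_iff₀ hη] at h3
        linarith
      have h7 : η * n ≤ η * sgv := mul_le_mul_of_nonneg_left hsg1 hη.le
      push_cast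
      nlinarith
    have h3 : -2 * (((0 : ℤ) : ℝ) - (a - κ * b) / 2) ^ 2 / sgv =
        -(2 * (((0 : ℤ) : ℝ) - (a - κ * b) / 2) ^ 2 / sgv) := by ring
    rw [h3]
    linarith
  obtain ⟨c, hc⟩ : ∃ c, c = Real.sqrt (2 / (Real.pi * κ * n)) := ⟨_, rfl⟩
  have hc0 : 0 ≤ c := by rw [hc]; exact Real.sqrt_nonneg _
  have hcs : c ≤ Real.sqrt (2 / (Real.pi * sgv)) := by
    rw [hc]
    apply Real.sqrt_le_sqrt
    apply div_le_div_of_nonneg_left (by norm_num) (by positivity)
    calc Real.pi * sgv ≤ Real.pi * (κ * n) := mul_le_mul_of_nonneg_left hsg2 hpi.le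
      _ = Real.pi * κ * n := by ring
  have hcn : (η / 5) / Real.sqrt n ≤ η / 2 * c := by
    have h1 : 2 / 5 / Real.sqrt n ≤ c := by
      rw [hc]
      apply Real.le_sqrt_of_sq_le
      rw [div_pow, Real.sq_sqrt hn0.le, div_le_div_iff₀ hn0 (by positivity)]
      have h2 : Real.pi < 3.15 := Real.pi_lt_d2
      have h3 : Real.pi * κ ≤ 3.15 * 3 := mul_le_mul h2.le hκR3 (by linarith) (by norm_num)
      have h4 : Real.pi * κ * n ≤ 3.15 * 3 * n := mul_le_mul_of_nonneg_right h3 hn0.le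
      nlinarith
    have h5 : (η / 5) / Real.sqrt n = η / 2 * (2 / 5 / Real.sqrt n) := by ring
    rw [h5]
    exact mul_le_mul_of_nonneg_left h1 (by linarith)
  have hmain : (1 - η) * c ≤ pz (LB1_w n a κ) Finset.univ 0 := by
    have h1 := (abs_le.1 key).1
    have h2 : (1 - η / 2) * c ≤ Real.sqrt (2 / (Real.pi * sgv)) *
        Real.exp (-2 * (((0 : ℤ) : ℝ) - (a - κ * b) / 2) ^ 2 / sgv) := by
      rcases le_or_gt (1 - η / 2) 0 with h3 | h3
      · refine le_trans (mul_nonpos_of_nonpos_of_nonneg h3 hc0) (by positivity)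
      · rw [mul_comm]
        exact mul_le_mul hcs hexp h3.le (Real.sqrt_nonneg _)
    have h4 : (1 - η) * c = (1 - η / 2) * c - η / 2 * c := by ring
    linarith
  rw [F2_ZZ]
  have h0 : pn (fun i => (LB1_w n a κ i : ℝ)) Finset.univ 0 = pz (LB1_w n a κ) Finset.univ 0 := by
    have := F2_cast (fun i => (LB1_w n a κ i : ℝ)) (LB1_w n a κ) Finset.univ (fun _ _ => rfl) 0
    rwa [Int.cast_zero] at this
  rw [h0, ← hc]
  have h2n : (0 : ℝ) < 2 ^ n := by positivity
  calc (1 - η) * 2 ^ n * c = 2 ^ n * ((1 - η) * c) := by ring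
    _ ≤ 2 ^ n * pz (LB1_w n a κ) Finset.univ 0 := mul_le_mul_of_nonneg_left hmain h2n.le

end H31Z
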