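import Pool.Agent.Lib.H31Z.F2
import Pool.Agent.Lib.H31Z.CB
import Pool.Agent.Lib.H31Z.U5

/-!
Chunk LB2: the constructions with one large entry, first order.
-/

namespace H31Z

open Finset

/-- PROOF. `x = (0^z, 1^a, -m)` with `z + a + 1 = n`. A zero-sum set either avoids the last coordinate,
then it consists of zeros and its size is at most `z < r`; or it contains it, and `m` ones and
some zeros: size in `[m+1, m+1+z]`, which avoids `r` by hypothesis. Count: `2^z` times the number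
of subsets of `(1^a, -m)` with sum `0`, at least `C(a, m)` (compare `lower_second` of
`AllOddWeights.lean`). -/
theorem LB2_vec (n r z a m : ℕ) (h : z + a + 1 = n) (hz : z < r) (hm : r < m + 1 ∨ m + 1 + z < r) :
    ∃ x : Fin n → ℝ, Adm n r x ∧ 2 ^ z * a.choose m ≤ ZZ n x := by
  classical
  obtain ⟨R, _, hR⟩ := Finset.exists_subset_card_eq
    (show a + 1 ≤ (Finset.univ : Finset (Fin n)).card by simp; omega)
  obtain ⟨q, hq⟩ : R.Nonempty := Finset.card_pos.mp (by omega)
  set P := R.erase q with hP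
  have hqP : q ∉ P := Finset.notMem_erase _ _
  have hPR : insert q P = R := Finset.insert_erase hq
  have hPc : P.card = a := by rw [hP, Finset.card_erase_of_mem hq, hR]; omega
  set x : Fin n → ℝ := fun i => if i ∈ P then 1 else if i = q then -(m : ℝ) else 0
    with hx
  have hx1 : ∀ i ∈ P, x i = 1 := fun i hi => by simp only [hx]; rw [if_pos hi]
  have hxq : x q = -(m : ℝ) := by simp only [hx]; rw [if_neg hqP]; simp
  have hx0 : ∀ i, i ∉ R → x i = 0 := by
    intro i hi
    simp only [hx]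
    rw [if_neg (fun h => hi (Finset.mem_of_mem_erase h)), if_neg]
    rintro rfl
    exact hi hq
  have hOc : (Finset.univ \ R).card = z := by
    rw [Finset.card_sdiff_of_subset (Finset.subset_univ _), Finset.card_univ, Fintype.card_fin, hR]
    omega
  refine ⟨x, ?_, ?_⟩
  · intro S hS h0
    have hSR : ∑ i ∈ S ∩ R, x i = 0 := by
      have h1 := Finset.sum_inter_add_sum_sdiff S R x
      have h2 : ∑ i ∈ S \ R, x i = 0 :=
        Finset.sum_eq_zero (fun i hi => hx0 i (Finset.mem_sdiff.mp hi).2)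
      linarith
    have hcR : (S ∩ R).card + (S \ R).card = S.card := by
      rw [add_comm]; exact Finset.card_sdiff_add_card_inter S R
    have hcO : (S \ R).card ≤ z := by
      have h1 : S \ R ⊆ Finset.univ \ R := Finset.sdiff_subset_sdiff (Finset.subset_univ _)
        (Finset.Subset.refl _)
      have h2 := Finset.card_le_card h1
      rwa [hOc] at h2
    have hSP : ∑ i ∈ S ∩ P, x i = ((S ∩ P).card : ℝ) := by
      rw [Finset.sum_congr rfl (fun i hi => hx1 i (Finset.mem_inter.mp hi).2), Finset.sum_const,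
        nsmul_eq_mul, mul_one]
    by_cases hqS : q ∈ S
    · have h1 : S ∩ R = insert q (S ∩ P) := by
        rw [← hPR, Finset.inter_insert_of_mem hqS]
      have h2 : q ∉ S ∩ P := fun h => hqP (Finset.mem_inter.mp h).2
      rw [h1, Finset.sum_insert h2, hxq, hSP] at hSR
      rw [h1, Finset.card_insert_of_notMem h2] at hcR
      have h3 : ((S ∩ P).card : ℝ) = (m : ℝ) := by linarith
      have h4 : (S ∩ P).card = m := by exact_mod_cast h3
      omega
    · have h1 : S ∩ R = S ∩ P := by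
        rw [← hPR, Finset.inter_insert_of_notMem hqS]
      rw [h1, hSP] at hSR
      rw [h1] at hcR
      have h4 : (S ∩ P).card = 0 := by exact_mod_cast hSR
      omega
  · have hZ : ZZ n x = ((Finset.univ : Finset (Finset (Fin n))).filter (fun B => ∑ i ∈ B, x i = 0)).card := by
      unfold ZZ
      rw [Nat.card_eq_fintype_card, Fintype.card_subtype]
    have hc : 2 ^ z * a.choose m = ((Finset.univ \ R).powerset ×ˢ P.powersetCard m).card := by
      rw [Finset.card_product, Finset.card_powerset, Finset.card_powersetCard, hOc, hPc]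
    rw [hZ, hc]
    have hPRs : P ⊆ R := Finset.erase_subset _ _
    refine Finset.card_le_card_of_injOn (fun p => insert q (p.1 ∪ p.2)) ?_ ?_
    · rintro ⟨T, U⟩ hp
      simp only [Finset.coe_product, Set.mem_prod, Finset.mem_coe, Finset.mem_powerset,
        Finset.mem_powersetCard] at hp
      obtain ⟨hT, hU, hUc⟩ := hp
      simp only [Finset.coe_filter, Finset.mem_univ, true_and]
      show ∑ i ∈ insert q (T ∪ U), x i = 0
      have h1 : q ∉ T ∪ U := by
        intro h
        rcases Finset.mem_union.1 h with h | h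
        · exact (Finset.mem_sdiff.1 (hT h)).2 hq
        · exact hqP (hU h)
      have h2 : Disjoint T U := by
        rw [Finset.disjoint_left]
        intro i hi hi'
        exact (Finset.mem_sdiff.1 (hT hi)).2 (hPRs (hU hi'))
      rw [Finset.sum_insert h1, hxq, Finset.sum_union h2,
        Finset.sum_eq_zero (fun i hi => hx0 i (Finset.mem_sdiff.1 (hT hi)).2),
        Finset.sum_congr rfl (fun i hi => hx1 i (hU hi)), Finset.sum_const, hUc, nsmul_eq_mul]
      ring
    · rintro ⟨T, U⟩ hp ⟨T', U'⟩ hp' he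
      simp only [Finset.coe_product, Set.mem_prod, Finset.mem_coe, Finset.mem_powerset,
        Finset.mem_powersetCard] at hp hp'
      obtain ⟨hT, hU, hUc⟩ := hp
      obtain ⟨hT', hU', hUc'⟩ := hp'
      simp only at he
      have key : ∀ {T U : Finset (Fin n)}, T ⊆ Finset.univ \ R → U ⊆ P →
          (insert q (T ∪ U)) \ R = T ∧ (insert q (T ∪ U)) ∩ P = U := by
        intro T U hT hU
        constructor
        · ext i
          simp only [Finset.mem_sdiff, Finset.mem_insert, Finset.mem_union]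
          constructor
          · rintro ⟨h1 | h1 | h1, h2⟩
            · exact absurd (h1 ▸ hq) h2
            · exact h1
            · exact absurd (hPRs (hU h1)) h2
          · intro h1
            exact ⟨Or.inr (Or.inl h1), (Finset.mem_sdiff.1 (hT h1)).2⟩
        · ext i
          simp only [Finset.mem_inter, Finset.mem_insert, Finset.mem_union]
          constructor
          · rintro ⟨h1 | h1 | h1, h2⟩
            · exact absurd (h1 ▸ h2) hqP
            · exact absurd (hPRs h2) (Finset.mem_sdiff.1 (hT h1)).2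
            · exact h1
          · intro h1
            exact ⟨Or.inr (Or.inr h1), hU h1⟩
      have k1 := key hT hU
      have k2 := key hT' hU'
      rw [he] at k1
      rw [Prod.mk.injEq]
      exact ⟨k1.1.symm.trans k2.1, k1.2.symm.trans k2.2⟩

theorem LB2_cb (η : ℝ) (hη : 0 < η) : ∃ m0 : ℕ, ∀ m : ℕ, m0 ≤ m →
    (1 - η) * 2 ^ m * Real.sqrt (2 / (Real.pi * m)) ≤ (m.choose (m / 2) : ℝ) := by
  obtain ⟨m0, h0⟩ := CB_asymp η hη
  refine ⟨m0 + 1, fun m hm => ?_⟩
  have hm0 : 0 < (m : ℝ) := by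
    have : 0 < m := by omega
    exact_mod_cast this
  have h1 := (abs_le.1 (h0 m (by omega))).1
  have hpi := Real.pi_pos
  have h2 : Real.sqrt (Real.pi * m / 2) * Real.sqrt (2 / (Real.pi * m)) = 1 := by
    rw [← Real.sqrt_mul (by positivity)]
    have e : Real.pi * m / 2 * (2 / (Real.pi * m)) = 1 := by
      field_simp
    rw [e, Real.sqrt_one]
  have h3 : 0 ≤ Real.sqrt (2 / (Real.pi * m)) := Real.sqrt_nonneg _
  have h4 : (1 - η) * Real.sqrt (2 / (Real.pi * m)) ≤ (m.choose (m / 2) : ℝ) / 2 ^ m := by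
    calc (1 - η) * Real.sqrt (2 / (Real.pi * m)) ≤
        ((m.choose (m / 2) : ℝ) / 2 ^ m * Real.sqrt (Real.pi * m / 2)) * Real.sqrt (2 / (Real.pi * m)) :=
          mul_le_mul_of_nonneg_right (by linarith) h3
      _ = (m.choose (m / 2) : ℝ) / 2 ^ m * (Real.sqrt (Real.pi * m / 2) * Real.sqrt (2 / (Real.pi * m))) := by
          ring
      _ = _ := by rw [h2, mul_one]
  rw [le_div_iff₀ (by positivity)] at h4
  linarith

theorem LB2_sq (η : ℝ) (hη : 0 < η) (hη1 : η ≤ 1) (s : ℕ) (hs : 1 ≤ s) (h : 1 ≤ η * (s + 1)) :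
    (1 - η) * Real.sqrt (2 / (Real.pi * (2 * s : ℕ))) ≤ Real.sqrt (2 / (Real.pi * (2 * (s + 1) : ℕ))) := by
  have hpi := Real.pi_pos
  have hs' : (0 : ℝ) < s := by exact_mod_cast hs
  apply Real.le_sqrt_of_sq_le
  rw [mul_pow, Real.sq_sqrt (by positivity)]
  push_cast
  rw [mul_div_assoc', div_le_div_iff₀ (by positivity) (by positivity)]
  have h1 : (1 - η) ^ 2 * (s + 1) ≤ s := by
    have h2 : (1 - η) ^ 2 * (s + 1) ≤ (1 - η) * (s + 1) := by
      apply mul_le_mul_of_nonneg_right _ (by positivity)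
      nlinarith
    nlinarith
  have h3 : (1 - η) ^ 2 * 2 * (Real.pi * (2 * (s + 1))) = ((1 - η) ^ 2 * (s + 1)) * (4 * Real.pi) := by ring
  have h4 : 2 * (Real.pi * (2 * s)) = (s : ℝ) * (4 * Real.pi) := by ring
  rw [h3, h4]
  exact mul_le_mul_of_nonneg_right h1 (by positivity)

/-- PROOF. Let `s = n - r ≥ s0`, `M = Mval n r`.
CASE `2 r ≤ s`: `M = s`. `LB2_vec` with `z = r - 1`, `a = s`, `m = (s+1)/2 ≥ r` (`s - s/2`):
`C(s, s/2) = C(s, (s+1)/2)`, `2^(r-1) C(s, s/2) ≥ (1-η) 2^(r-1+s) sqrt (2/(πs)) = (1-η) 2^n (1/2) sqrt (2/(πs))`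
by `CB_asymp`.
CASE `s < 2r`, `r ≤ s`: `M = 2r`. `z = n - 2r` (`< r` as `n < 3r`), `a = 2r - 1`, `m = r`:
`2^(n-2r) C(2r-1, r) = 2^(n-2r) C(2r,r)/2 ≥ (1-η) 2^n (1/2) sqrt (2/(π 2r))`; `2r > s ≥ s0` is large.
CASE `r > s`: `M = 2s`, `k = s + 1`. If `2k ≤ n`: `U5_lower`: `Vval ≥ 2^(n-2k) C(2k-1,k)`, and
`C(2k-1,k)/2^(2k) ≥ (1-η) (1/2) sqrt (2/(π 2s))`. If `2k > n`: `n = 2s+1`, `r = s+1`: `z = 0`, `a = 2s`,
`m = s + 1 ≥ r`: `C(2s, s+1) = C(2s,s) s/(s+1) ≥ (1-η) 2^(2s) sqrt (2/(π2s))`. -/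
theorem LB2_heavy (η : ℝ) (hη : 0 < η) :
    ∃ s0 : ℕ, ∀ (n r : ℕ), 1 ≤ r → r + s0 ≤ n →
      ∃ x : Fin n → ℝ, Adm n r x ∧
        (1 - η) * 2 ^ n * (1 / 2 * Real.sqrt (2 / (Real.pi * Mval n r))) ≤ (ZZ n x : ℝ) := by
  have hpi := Real.pi_pos
  obtain ⟨θ, hθ0, hθη, hθ1⟩ : ∃ θ : ℝ, 0 < θ ∧ 2 * θ ≤ η ∧ θ ≤ 1 :=
    ⟨min (η / 2) 1, lt_min (by linarith) one_pos, by linarith [min_le_left (η / 2) 1], min_le_right _ _⟩
  have hθ2 : 1 - η ≤ (1 - θ) * (1 - θ) := by nlinarith
  have hθ3 : 1 - η ≤ 1 - θ := by linarith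
  have hθ4 : 0 ≤ 1 - θ := by linarith
  obtain ⟨m0, hm0⟩ := LB2_cb θ hθ0
  obtain ⟨t, ht⟩ := exists_nat_gt (1 / θ)
  refine ⟨m0 + t + 1, fun n r hr hn => ?_⟩
  obtain ⟨s, hs⟩ : ∃ s, n = r + s := ⟨n - r, by omega⟩
  have hs1 : m0 + t + 1 ≤ s := by omega
  have hst : 1 ≤ θ * s := by
    have h1 : (t : ℝ) ≤ s := by exact_mod_cast (by omega : t ≤ s)
    have h2 : 1 / θ ≤ s := by linarith
    rw [div_le_iff₀ hθ0] at h2
    linarith
  have hst1 : 1 ≤ θ * (s + 1) := by nlinarith
  by_cases c1 : 2 * r ≤ s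
  · have hM : Mval n r = s := by
      unfold Mval
      have e : n - r = s := by omega
      rw [e]
      omega
    obtain ⟨x, hx, hZ⟩ := LB2_vec n r (r - 1) s (s - s / 2) (by omega) (by omega) (Or.inl (by omega))
    refine ⟨x, hx, ?_⟩
    rw [Nat.choose_symm (Nat.div_le_self s 2)] at hZ
    have h1 := hm0 s (by omega)
    have h2 : (1 - η) * 2 ^ s * Real.sqrt (2 / (Real.pi * s)) ≤ (s.choose (s / 2) : ℝ) := by
      refine le_trans ?_ h1
      have : 0 ≤ 2 ^ s * Real.sqrt (2 / (Real.pi * s)) := by positivity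
      nlinarith
    have h3 : (2 : ℝ) ^ n = 2 * (2 ^ (r - 1) * 2 ^ s) := by
      rw [← pow_add, ← pow_succ']
      congr 1
      omega
    rw [hM, h3]
    calc (1 - η) * (2 * (2 ^ (r - 1) * 2 ^ s)) * (1 / 2 * Real.sqrt (2 / (Real.pi * s))) =
        2 ^ (r - 1) * ((1 - η) * 2 ^ s * Real.sqrt (2 / (Real.pi * s))) := by ring
      _ ≤ 2 ^ (r - 1) * (s.choose (s / 2) : ℝ) := mul_le_mul_of_nonneg_left h2 (by positivity)
      _ ≤ (ZZ n x : ℝ) := by exact_mod_cast hZ
  · have hcb : ∀ k : ℕ, 1 ≤ k → ((2 * k).choose (2 * k / 2) : ℝ) = 2 * ((2 * k - 1).choose k : ℝ) := by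
      intro k hk
      rw [CB_two k hk, Nat.mul_div_cancel_left k (by norm_num)]
      unfold CB_u
      rw [Nat.centralBinom_eq_two_mul_choose]
      field_simp
    by_cases c2 : r ≤ s
    · have hM : Mval n r = 2 * r := by
        unfold Mval
        have e : n - r = s := by omega
        rw [e]
        omega
      obtain ⟨x, hx, hZ⟩ := LB2_vec n r (n - 2 * r) (2 * r - 1) r (by omega) (by omega) (Or.inl (by omega))
      refine ⟨x, hx, ?_⟩
      have h1 := hm0 (2 * r) (by omega)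
      rw [hcb r hr] at h1
      have h2 : (1 - η) * 2 ^ (2 * r) * Real.sqrt (2 / (Real.pi * (2 * r : ℕ))) ≤ 2 * ((2 * r - 1).choose r : ℝ) := by
        refine le_trans ?_ h1
        have : 0 ≤ 2 ^ (2 * r) * Real.sqrt (2 / (Real.pi * (2 * r : ℕ))) := by positivity
        nlinarith
      have h3 : (2 : ℝ) ^ n = 2 ^ (n - 2 * r) * 2 ^ (2 * r) := by
        rw [← pow_add]
        congr 1
        omega
      rw [hM, h3]
      calc (1 - η) * (2 ^ (n - 2 * r) * 2 ^ (2 * r)) * (1 / 2 * Real.sqrt (2 / (Real.pi * (2 * r : ℕ)))) =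
          2 ^ (n - 2 * r) * (1 / 2 * ((1 - η) * 2 ^ (2 * r) * Real.sqrt (2 / (Real.pi * (2 * r : ℕ))))) := by ring
        _ ≤ 2 ^ (n - 2 * r) * (1 / 2 * (2 * ((2 * r - 1).choose r : ℝ))) :=
            mul_le_mul_of_nonneg_left (mul_le_mul_of_nonneg_left h2 (by norm_num)) (by positivity)
        _ = 2 ^ (n - 2 * r) * ((2 * r - 1).choose r : ℝ) := by ring
        _ ≤ (ZZ n x : ℝ) := by exact_mod_cast hZ
    · have hM : Mval n r = 2 * s := by
        unfold Mval
        have e : n - r = s := by omega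
        rw [e]
        omega
      have hs0 : 1 ≤ s := by omega
      by_cases c3 : 2 * (s + 1) ≤ n
      · obtain ⟨x, hx, hZ⟩ := LB2_vec n r (n - 2 * (s + 1)) (2 * (s + 1) - 1) s (by omega) (by omega)
          (Or.inr (by omega))
        refine ⟨x, hx, ?_⟩
        have e1 : (2 * (s + 1) - 1).choose s = (2 * (s + 1) - 1).choose (s + 1) := by
          rw [← Nat.choose_symm (show s + 1 ≤ 2 * (s + 1) - 1 by omega)]
          congr 1
          omega
        rw [e1] at hZ
        have h1 := hm0 (2 * (s + 1)) (by omega)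
        rw [hcb (s + 1) (by omega)] at h1
        have h4 := LB2_sq θ hθ0 hθ1 s hs0 hst1
        have h2 : (1 - η) * 2 ^ (2 * (s + 1)) * Real.sqrt (2 / (Real.pi * (2 * s : ℕ))) ≤
            2 * ((2 * (s + 1) - 1).choose (s + 1) : ℝ) := by
          refine le_trans ?_ h1
          have h5 : 0 ≤ 2 ^ (2 * (s + 1)) * Real.sqrt (2 / (Real.pi * (2 * s : ℕ))) := by positivity
          have h6 : 0 ≤ (1 - θ) * 2 ^ (2 * (s + 1)) := by positivity
          calc (1 - η) * 2 ^ (2 * (s + 1)) * Real.sqrt (2 / (Real.pi * (2 * s : ℕ))) =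
              (1 - η) * (2 ^ (2 * (s + 1)) * Real.sqrt (2 / (Real.pi * (2 * s : ℕ)))) := by ring
            _ ≤ ((1 - θ) * (1 - θ)) * (2 ^ (2 * (s + 1)) * Real.sqrt (2 / (Real.pi * (2 * s : ℕ)))) :=
                mul_le_mul_of_nonneg_right hθ2 h5
            _ = (1 - θ) * 2 ^ (2 * (s + 1)) * ((1 - θ) * Real.sqrt (2 / (Real.pi * (2 * s : ℕ)))) := by ring
            _ ≤ _ := mul_le_mul_of_nonneg_left h4 h6
        have h3 : (2 : ℝ) ^ n = 2 ^ (n - 2 * (s + 1)) * 2 ^ (2 * (s + 1)) := by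
          rw [← pow_add]
          congr 1
          omega
        rw [hM, h3]
        calc (1 - η) * (2 ^ (n - 2 * (s + 1)) * 2 ^ (2 * (s + 1))) *
              (1 / 2 * Real.sqrt (2 / (Real.pi * (2 * s : ℕ)))) =
            2 ^ (n - 2 * (s + 1)) * (1 / 2 * ((1 - η) * 2 ^ (2 * (s + 1)) *
              Real.sqrt (2 / (Real.pi * (2 * s : ℕ))))) := by ring
          _ ≤ 2 ^ (n - 2 * (s + 1)) * (1 / 2 * (2 * ((2 * (s + 1) - 1).choose (s + 1) : ℝ))) :=
              mul_le_mul_of_nonneg_left (mul_le_mul_of_nonneg_left h2 (by norm_num)) (by positivity)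
          _ = 2 ^ (n - 2 * (s + 1)) * ((2 * (s + 1) - 1).choose (s + 1) : ℝ) := by ring
          _ ≤ (ZZ n x : ℝ) := by exact_mod_cast hZ
      · have hn1 : n = 2 * s + 1 := by omega
        obtain ⟨x, hx, hZ⟩ := LB2_vec n r 0 (2 * s) (s + 1) (by omega) (by omega) (Or.inl (by omega))
        refine ⟨x, hx, ?_⟩
        have h1 := hm0 (2 * s) (by omega)
        rw [Nat.mul_div_cancel_left s (by norm_num)] at h1
        have e1 : (((2 * s).choose (s + 1) : ℕ) : ℝ) * (s + 1) = ((2 * s).choose s : ℝ) * s := by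
          have e := Nat.choose_succ_right_eq (2 * s) s
          rw [show 2 * s - s = s by omega] at e
          exact_mod_cast e
        have hsr : (0 : ℝ) < s + 1 := by positivity
        have h4 : (1 - θ) * ((2 * s).choose s : ℝ) ≤ ((2 * s).choose (s + 1) : ℝ) := by
          have h5 : (1 - θ) * (s + 1) ≤ (s : ℝ) := by nlinarith
          have h6 : ((1 - θ) * ((2 * s).choose s : ℝ)) * (s + 1) ≤ ((2 * s).choose (s + 1) : ℝ) * (s + 1) := by
            rw [e1]
            calc ((1 - θ) * ((2 * s).choose s : ℝ)) * (s + 1) = ((2 * s).choose s : ℝ) * ((1 - θ) * (s + 1)) := by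
                  ring
              _ ≤ _ := mul_le_mul_of_nonneg_left h5 (by positivity)
          exact le_of_mul_le_mul_right h6 hsr
        have h2 : (1 - η) * 2 ^ (2 * s) * Real.sqrt (2 / (Real.pi * (2 * s : ℕ))) ≤
            ((2 * s).choose (s + 1) : ℝ) := by
          refine le_trans ?_ h4
          have h5 : 0 ≤ 2 ^ (2 * s) * Real.sqrt (2 / (Real.pi * (2 * s : ℕ))) := by positivity
          calc (1 - η) * 2 ^ (2 * s) * Real.sqrt (2 / (Real.pi * (2 * s : ℕ))) =
              (1 - η) * (2 ^ (2 * s) * Real.sqrt (2 / (Real.pi * (2 * s : ℕ)))) := by ring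
            _ ≤ ((1 - θ) * (1 - θ)) * (2 ^ (2 * s) * Real.sqrt (2 / (Real.pi * (2 * s : ℕ)))) :=
                mul_le_mul_of_nonneg_right hθ2 h5
            _ = (1 - θ) * ((1 - θ) * 2 ^ (2 * s) * Real.sqrt (2 / (Real.pi * (2 * s : ℕ)))) := by ring
            _ ≤ _ := mul_le_mul_of_nonneg_left h1 hθ4
        rw [pow_zero, one_mul] at hZ
        have h3 : (2 : ℝ) ^ n = 2 * 2 ^ (2 * s) := by
          rw [hn1, pow_succ]
          ring
        rw [hM, h3]
        calc (1 - η) * (2 * 2 ^ (2 * s)) * (1 / 2 * Real.sqrt (2 / (Real.pi * (2 * s : ℕ)))) =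
            (1 - η) * 2 ^ (2 * s) * Real.sqrt (2 / (Real.pi * (2 * s : ℕ))) := by ring
          _ ≤ ((2 * s).choose (s + 1) : ℝ) := h2
          _ ≤ (ZZ n x : ℝ) := by exact_mod_cast hZ

end H31Z
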