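import Pool.Agent.Lib.H31Z.T1

/-!
Chunk M1: the Fourier bound modulo a prime.
-/

namespace H31Z

open Finset

theorem M1_norm (x : ℝ) : ‖(1 : ℂ) + Complex.exp (2 * Real.pi * Complex.I * x)‖
    = 2 * |Real.cos (Real.pi * x)| := by
  have h : (1 : ℂ) + Complex.exp (2 * Real.pi * Complex.I * x) =
      Complex.exp ((Real.pi * x : ℝ) * Complex.I) * (2 * ((Real.cos (Real.pi * x) : ℝ) : ℂ)) := by
    have h1 : (2 : ℂ) * ((Real.cos (Real.pi * x) : ℝ) : ℂ) =
        Complex.exp ((Real.pi * x : ℝ) * Complex.I) + Complex.exp (-(Real.pi * x : ℝ) * Complex.I) := by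
      rw [Complex.ofReal_cos, Complex.two_cos]
    rw [h1, mul_add, ← Complex.exp_add, ← Complex.exp_add]
    have h2 : ((Real.pi * x : ℝ) : ℂ) * Complex.I + ((Real.pi * x : ℝ) : ℂ) * Complex.I =
        2 * Real.pi * Complex.I * x := by
      push_cast; ring
    have h3 : ((Real.pi * x : ℝ) : ℂ) * Complex.I + -((Real.pi * x : ℝ) : ℂ) * Complex.I = 0 := by
      ring
    rw [h2, h3, Complex.exp_zero, add_comm]
  rw [h, norm_mul, Complex.norm_exp_ofReal_mul_I, one_mul, norm_mul, Complex.norm_real]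
  simp

theorem M1_mapsum {ι : Type*} {A : Type*} [AddCommMonoid A] (ψ : AddChar A ℂ) (B : Finset ι)
    (f : ι → A) : ψ (∑ j ∈ B, f j) = ∏ j ∈ B, ψ (f j) := by
  classical
  induction B using Finset.induction_on with
  | empty => simp
  | insert a s ha ih => rw [Finset.sum_insert ha, Finset.prod_insert ha, AddChar.map_add_eq_mul, ih]

/-- PROOF: since `|∑_B y| < p`, `∑_B y = 0` iff `∑_B y ≡ 0 (mod p)`. With an additive character
(`ZMod.stdAddChar` or `exp (2π i θ a / p)`) `1_{a = 0} = (1/p) ∑_θ e(θ a)`, so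
`cz y I 0 = (1/p) ∑_θ ∏_{j ∈ I} (1 + e(θ y_j))` and `|1 + e(u)| = 2 |cos (π v/p)|` for every integer
representative `v` of `u`, in particular `v = u.valMinAbs`, for which `|v/p| ≤ 1/2`. By `T1_pi`
`|cos (π v/p)| ≤ exp (-4 (v/p)^2)`. Divide by `2^|I|`. -/
theorem M1_bound {ι : Type*} (p : ℕ) [Fact p.Prime] (y : ι → ℤ) (I : Finset ι)
    (h : ∑ i ∈ I, |y i| < (p : ℤ)) :
    pz y I 0 ≤ 1 / (p : ℝ) * ∑ θ : ZMod p, Real.exp (-4 * ff p y I θ) := by
  have hp0 : (0 : ℝ) < p := by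
    have : 0 < p := (Fact.out : p.Prime).pos
    exact_mod_cast this
  have hzero : ∀ B ∈ I.powerset, ((∑ i ∈ B, (y i : ZMod p)) = 0 ↔ ∑ i ∈ B, y i = 0) := by
    intro B hB
    rw [Finset.mem_powerset] at hB
    have hcast : (∑ i ∈ B, (y i : ZMod p)) = ((∑ i ∈ B, y i : ℤ) : ZMod p) := by push_cast; rfl
    rw [hcast, ZMod.intCast_zmod_eq_zero_iff_dvd]
    constructor
    · intro hd
      apply Int.eq_zero_of_abs_lt_dvd hd
      calc |∑ i ∈ B, y i| ≤ ∑ i ∈ B, |y i| := Finset.abs_sum_le_sum_abs _ _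
        _ ≤ ∑ i ∈ I, |y i| := Finset.sum_le_sum_of_subset_of_nonneg hB fun _ _ _ => abs_nonneg _
        _ < p := h
    · intro h0
      rw [h0]; exact dvd_zero _
  have hS : ((p : ℂ) * (cz y I 0 : ℂ)) =
      ∑ θ : ZMod p, ∏ j ∈ I, (1 + (ZMod.stdAddChar (θ * (y j : ZMod p)) : ℂ)) := by
    have h1 : ∀ θ : ZMod p, ∏ j ∈ I, (1 + (ZMod.stdAddChar (θ * (y j : ZMod p)) : ℂ)) =
        ∑ B ∈ I.powerset, ZMod.stdAddChar (θ * ∑ j ∈ B, (y j : ZMod p)) := by
      intro θ
      rw [Finset.prod_one_add]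
      apply Finset.sum_congr rfl
      intro B _
      rw [Finset.mul_sum, M1_mapsum]
    rw [Finset.sum_congr rfl fun θ _ => h1 θ, Finset.sum_comm]
    have h2 : ∀ B ∈ I.powerset, ∑ θ : ZMod p,
        (ZMod.stdAddChar (θ * ∑ j ∈ B, (y j : ZMod p)) : ℂ) =
        if ∑ i ∈ B, y i = 0 then (p : ℂ) else 0 := by
      intro B hB
      rw [AddChar.sum_mulShift _ (ZMod.isPrimitive_stdAddChar p)]
      by_cases hc : ∑ i ∈ B, y i = 0
      · rw [if_pos hc, if_pos ((hzero B hB).2 hc)]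
        simp [ZMod.card]
      · rw [if_neg hc, if_neg (fun hh => hc ((hzero B hB).1 hh))]
        simp
    rw [Finset.sum_congr rfl h2, ← Finset.sum_filter, Finset.sum_const, nsmul_eq_mul, cz, mul_comm]
  have hbound : ∀ θ : ZMod p, ‖∏ j ∈ I, (1 + (ZMod.stdAddChar (θ * (y j : ZMod p)) : ℂ))‖ ≤
      2 ^ I.card * Real.exp (-4 * ff p y I θ) := by
    intro θ
    rw [norm_prod]
    have h1 : ∀ j ∈ I, ‖(1 + (ZMod.stdAddChar (θ * (y j : ZMod p)) : ℂ))‖ ≤
        2 * Real.exp (-4 * nr p (θ * (y j : ZMod p)) ^ 2) := by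
      intro j _
      set u := θ * (y j : ZMod p) with hu
      have h2 : (ZMod.stdAddChar u : ℂ) =
          Complex.exp (2 * Real.pi * Complex.I * ((u.valMinAbs / p : ℝ) : ℂ)) := by
        conv_lhs => rw [← ZMod.coe_valMinAbs u]
        rw [ZMod.stdAddChar_coe]
        congr 1
        push_cast
        ring
      rw [h2, M1_norm]
      have h3 : |((u.valMinAbs : ℝ) / p)| ≤ 1 / 2 := by
        rw [abs_div, abs_of_pos hp0, div_le_div_iff₀ hp0 (by norm_num), one_mul]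
        have := u.valMinAbs_mem_Ioc
        have h4 : |u.valMinAbs| * 2 ≤ (p : ℤ) := by
          rcases abs_cases u.valMinAbs with h | h
          · rw [h.1]; exact this.2
          · rw [h.1]; have := this.1; omega
        exact_mod_cast h4
      have h4 := T1_pi _ h3
      have h5 : ((u.valMinAbs : ℝ) / p) ^ 2 = nr p u ^ 2 := by
        rw [nr, div_pow, div_pow, sq_abs]
      rw [h5] at h4
      linarith
    calc ∏ j ∈ I, ‖(1 + (ZMod.stdAddChar (θ * (y j : ZMod p)) : ℂ))‖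
        ≤ ∏ j ∈ I, (2 * Real.exp (-4 * nr p (θ * (y j : ZMod p)) ^ 2)) :=
          Finset.prod_le_prod (fun _ _ => norm_nonneg _) h1
      _ = 2 ^ I.card * Real.exp (-4 * ff p y I θ) := by
          rw [Finset.prod_mul_distrib, Finset.prod_const, ← Real.exp_sum, ff, Finset.mul_sum]
  have hfin : (p : ℝ) * (cz y I 0 : ℝ) ≤ ∑ θ : ZMod p, 2 ^ I.card * Real.exp (-4 * ff p y I θ) := by
    have h1 : (p : ℝ) * (cz y I 0 : ℝ) = ‖((p : ℂ) * (cz y I 0 : ℂ))‖ := by
      rw [norm_mul, Complex.norm_natCast, Complex.norm_natCast]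
    rw [h1, hS]
    exact (norm_sum_le _ _).trans (Finset.sum_le_sum fun θ _ => hbound θ)
  rw [← Finset.mul_sum] at hfin
  unfold pz
  rw [div_le_iff₀ (by positivity), one_div, mul_assoc, ← div_eq_inv_mul, le_div_iff₀ hp0]
  linarith

end H31Z
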