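import Pool.Agent.Lib.H31Z.Defs

/-!
Chunk M2: mean value and subadditivity of `ff`, Cauchy-Davenport.
-/

namespace H31Z

open Finset
open scoped Pointwise

theorem M2_sumsq (q : ℕ) :
    ∑ k ∈ Finset.Icc (-(q : ℤ)) q, ((k : ℝ)) ^ 2 = q * (q + 1) * (2 * q + 1) / 3 := by
  induction q with
  | zero => simp
  | succ q ih =>
    have h : Finset.Icc (-((q + 1 : ℕ) : ℤ)) ((q + 1 : ℕ) : ℤ)
        = insert (-((q : ℤ) + 1)) (insert ((q : ℤ) + 1) (Finset.Icc (-(q : ℤ)) q)) := by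
      ext x
      simp only [Finset.mem_Icc, Finset.mem_insert]
      push_cast
      omega
    rw [h, Finset.sum_insert, Finset.sum_insert, ih]
    · push_cast
      ring
    · simp
    · simp only [Finset.mem_Icc, Finset.mem_insert]
      omega

/-- PROOF: `θ ↦ θ u` permutes `ZMod p`, so the sum is `(1/p^2) ∑_{v} (valMinAbs v)^2
= (2/p^2) ∑_{k=1}^{(p-1)/2} k^2 = (p^2 - 1)/(12 p)`, and `16 (p^2-1) ≥ 12 p^2` for `p ≥ 3`. -/
theorem M2_mean (p : ℕ) [Fact p.Prime] (hp : 2 < p) (u : ZMod p) (hu : u ≠ 0) :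
    (p : ℝ) / 16 ≤ ∑ θ : ZMod p, nr p (θ * u) ^ 2 := by
  have h1 : ∑ θ : ZMod p, nr p (θ * u) ^ 2 = ∑ v : ZMod p, nr p v ^ 2 :=
    Fintype.sum_equiv (Equiv.mulRight₀ u hu) _ _ (fun θ => rfl)
  rw [h1]
  obtain ⟨q, hq⟩ : ∃ q : ℕ, p = 2 * q + 1 := by
    rcases (Fact.out : p.Prime).eq_two_or_odd' with h | h
    · omega
    · exact h
  have hq1 : 1 ≤ q := by omega
  have hv : ∀ k ∈ Finset.Icc (-(q : ℤ)) q, ((k : ZMod p)).valMinAbs = k := by
    intro k hk
    rw [Finset.mem_Icc] at hk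
    rw [ZMod.valMinAbs_spec]
    refine ⟨rfl, ?_, ?_⟩
    · rw [hq]; push_cast; omega
    · rw [hq]; push_cast; omega
  have h2 : ∑ k ∈ Finset.Icc (-(q : ℤ)) q, ((k : ℝ)) ^ 2 ≤
      ∑ v : ZMod p, ((v.valMinAbs : ℝ)) ^ 2 := by
    calc ∑ k ∈ Finset.Icc (-(q : ℤ)) q, ((k : ℝ)) ^ 2
        = ∑ v ∈ (Finset.Icc (-(q : ℤ)) q).image (fun k : ℤ => (k : ZMod p)),
            ((v.valMinAbs : ℝ)) ^ 2 := by
          rw [Finset.sum_image]
          · apply Finset.sum_congr rfl
            intro k hk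
            rw [hv k hk]
          · intro a ha b hb hab
            have := congrArg ZMod.valMinAbs hab
            simp only at this
            rw [hv a ha, hv b hb] at this
            exact this
      _ ≤ _ := by
          apply Finset.sum_le_sum_of_subset_of_nonneg (Finset.subset_univ _)
          intro i _ _
          positivity
  rw [M2_sumsq] at h2
  have hp0 : (0 : ℝ) < p := by
    have : 0 < p := by omega
    exact_mod_cast this
  have h3 : ∑ v : ZMod p, nr p v ^ 2 = (∑ v : ZMod p, ((v.valMinAbs : ℝ)) ^ 2) / (p : ℝ) ^ 2 := by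
    rw [Finset.sum_div]
    apply Finset.sum_congr rfl
    intro v _
    rw [nr, div_pow, sq_abs]
  rw [h3, le_div_iff₀ (by positivity)]
  refine le_trans ?_ h2
  have hpq : (p : ℝ) = 2 * q + 1 := by rw [hq]; push_cast; ring
  have hq2 : (1 : ℝ) ≤ q := by exact_mod_cast hq1
  rw [hpq]
  have h5 : 0 ≤ (2 * (q : ℝ) + 1) * (4 * q ^ 2 + 4 * q - 3) := by
    apply mul_nonneg (by positivity)
    nlinarith
  nlinarith [h5]

/-- PROOF: interchange the sums and `M2_mean`. -/
theorem M2_sum {ι : Type*} (p : ℕ) [Fact p.Prime] (hp : 2 < p) (y : ι → ℤ) (I : Finset ι)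
    (h : ∀ j ∈ I, (y j : ZMod p) ≠ 0) :
    (p : ℝ) * (I.card : ℝ) / 16 ≤ ∑ θ : ZMod p, ff p y I θ := by
  unfold ff
  rw [Finset.sum_comm]
  calc (p : ℝ) * (I.card : ℝ) / 16 = ∑ j ∈ I, (p : ℝ) / 16 := by
        rw [Finset.sum_const, nsmul_eq_mul]; ring
    _ ≤ _ := Finset.sum_le_sum fun j hj => M2_mean p hp _ (h j hj)

theorem M2_nr_add (p : ℕ) [NeZero p] (u v : ZMod p) : nr p (u + v) ≤ nr p u + nr p v := by
  unfold nr
  rw [← add_div]
  apply div_le_div_of_nonneg_right _ (by positivity)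
  have h := ZMod.natAbs_valMinAbs_add_le u v
  have h2 : |((u + v).valMinAbs : ℝ)| = (((u + v).valMinAbs.natAbs : ℕ) : ℝ) := by
    rw [Nat.cast_natAbs]; push_cast; rfl
  rw [h2]
  refine le_trans (Nat.cast_le.2 h) ?_
  rw [Nat.cast_natAbs]
  push_cast
  exact abs_add_le _ _

theorem M2_nr_nonneg (p : ℕ) (u : ZMod p) : 0 ≤ nr p u := by
  unfold nr
  positivity

/-- PROOF: `nr p (u+v) ≤ nr p u + nr p v` (`ZMod.natAbs_valMinAbs_add_le`) and Minkowski
(Cauchy-Schwarz) for the sum of squares. -/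
theorem M2_add {ι : Type*} (p : ℕ) [NeZero p] (y : ι → ℤ) (I : Finset ι) (θ θ' : ZMod p) :
    Real.sqrt (ff p y I (θ + θ')) ≤ Real.sqrt (ff p y I θ) + Real.sqrt (ff p y I θ') := by
  have hA : 0 ≤ ff p y I θ := Finset.sum_nonneg fun _ _ => sq_nonneg _
  have hB : 0 ≤ ff p y I θ' := Finset.sum_nonneg fun _ _ => sq_nonneg _
  apply Real.sqrt_le_iff.2
  refine ⟨by positivity, ?_⟩
  have h1 : ff p y I (θ + θ') ≤ ∑ j ∈ I, (nr p (θ * (y j : ZMod p)) +
      nr p (θ' * (y j : ZMod p))) ^ 2 := by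
    unfold ff
    apply Finset.sum_le_sum
    intro j _
    apply pow_le_pow_left₀ (M2_nr_nonneg _ _)
    rw [add_mul]
    exact M2_nr_add p _ _
  have h2 : ∑ j ∈ I, (nr p (θ * (y j : ZMod p)) + nr p (θ' * (y j : ZMod p))) ^ 2
      = ff p y I θ + ff p y I θ' + 2 * ∑ j ∈ I, nr p (θ * (y j : ZMod p)) *
        nr p (θ' * (y j : ZMod p)) := by
    unfold ff
    rw [Finset.mul_sum, ← Finset.sum_add_distrib, ← Finset.sum_add_distrib]
    apply Finset.sum_congr rfl
    intro j _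
    ring
  have h3 : ∑ j ∈ I, nr p (θ * (y j : ZMod p)) * nr p (θ' * (y j : ZMod p))
      ≤ Real.sqrt (ff p y I θ) * Real.sqrt (ff p y I θ') :=
    Real.sum_mul_le_sqrt_mul_sqrt _ _ _
  have h4 := Real.sq_sqrt hA
  have h5 := Real.sq_sqrt hB
  nlinarith

theorem M2_ff_zero {ι : Type*} (p : ℕ) [NeZero p] (y : ι → ℤ) (I : Finset ι) :
    ff p y I 0 = 0 := by
  unfold ff nr
  simp

theorem M2_mem {ι : Type*} (p : ℕ) [NeZero p] (y : ι → ℤ) (I : Finset ι) (m : ℝ) (θ : ZMod p) :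
    θ ∈ TT p y I m ↔ ff p y I θ ≤ m := by
  unfold TT
  simp

/-- PROOF: `0 ∈ TT m`. By `M2_add` the sum of an element of `TT (k^2 m)` and one of `TT m` is in
`TT ((k+1)^2 m)`. Induction on `k` with `ZMod.cauchy_davenport`
(`min p (#s + #t - 1) ≤ #(s + t)`): `min p (k (#TT m - 1) + 1) ≤ #TT (k^2 m)`. -/
theorem M2_cd {ι : Type*} (p : ℕ) [Fact p.Prime] (y : ι → ℤ) (I : Finset ι) (m : ℝ) (hm : 0 ≤ m)
    (k : ℕ) (hk : 1 ≤ k) :
    min (p : ℝ) (k * (((TT p y I m).card : ℝ) - 1) + 1) ≤ ((TT p y I (k ^ 2 * m)).card : ℝ) := by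
  induction k, hk using Nat.le_induction with
  | base =>
    refine (min_le_right _ _).trans ?_
    simp
  | succ k hk ih =>
    have h0 : (0 : ZMod p) ∈ TT p y I m := by
      rw [M2_mem, M2_ff_zero]; exact hm
    have h0' : (0 : ZMod p) ∈ TT p y I (k ^ 2 * m) := by
      rw [M2_mem, M2_ff_zero]; positivity
    have hcd := ZMod.cauchy_davenport (Fact.out : p.Prime) ⟨_, h0'⟩ ⟨_, h0⟩
    have hsub : TT p y I (k ^ 2 * m) + TT p y I m ⊆ TT p y I (((k + 1 : ℕ) : ℝ) ^ 2 * m) := by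
      intro θ hθ
      rw [Finset.mem_add] at hθ
      obtain ⟨a, ha, b, hb, rfl⟩ := hθ
      rw [M2_mem] at ha hb ⊢
      have h1 := M2_add p y I a b
      have h2 : Real.sqrt (ff p y I a) ≤ k * Real.sqrt m := by
        have := Real.sqrt_le_sqrt ha
        rwa [Real.sqrt_mul (by positivity), Real.sqrt_sq (by positivity)] at this
      have h3 : Real.sqrt (ff p y I b) ≤ Real.sqrt m := Real.sqrt_le_sqrt hb
      have hA : 0 ≤ ff p y I (a + b) := Finset.sum_nonneg fun _ _ => sq_nonneg _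
      rw [← Real.sq_sqrt hA]
      have h4 : Real.sqrt (ff p y I (a + b)) ≤ (k + 1) * Real.sqrt m := by nlinarith
      have h5 := pow_le_pow_left₀ (Real.sqrt_nonneg _) h4 2
      rw [mul_pow, Real.sq_sqrt hm] at h5
      push_cast
      exact h5
    have hcard := hcd.trans (Finset.card_le_card hsub)
    have hp1 : 1 ≤ (TT p y I m).card := Finset.card_pos.2 ⟨_, h0⟩
    set A := (TT p y I m).card with hAdef
    set B := (TT p y I (k ^ 2 * m)).card with hBdef
    set C := (TT p y I (((k + 1 : ℕ) : ℝ) ^ 2 * m)).card with hCdef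
    have hA1 : (1 : ℝ) ≤ A := by exact_mod_cast hp1
    have hC : min (p : ℝ) (B + A - 1) ≤ C := by
      have : ((min p (B + A - 1) : ℕ) : ℝ) ≤ C := by exact_mod_cast hcard
      rw [Nat.cast_min, Nat.cast_sub (by omega)] at this
      push_cast at this
      exact this
    rcases min_le_iff.1 hC with h | h
    · exact (min_le_left _ _).trans h
    · rcases min_le_iff.1 ih with h' | h'
      · refine (min_le_left _ _).trans ?_
        linarith
      · refine (min_le_right _ _).trans ?_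
        push_cast
        linarith

/-- PROOF: `TT (k^2 m)` is not everything, otherwise `∑_θ ff ≤ p k^2 m < p |I|/16`, against
`M2_sum`; so its card is less than `p` and `M2_cd` gives `k (#TT m - 1) + 1 ≤ p`. -/
theorem M2_upper {ι : Type*} (p : ℕ) [Fact p.Prime] (hp : 2 < p) (y : ι → ℤ) (I : Finset ι)
    (h : ∀ j ∈ I, (y j : ZMod p) ≠ 0) (m : ℝ) (hm : 0 ≤ m) (k : ℕ) (hk : 1 ≤ k)
    (hkm : (k : ℝ) ^ 2 * m < (I.card : ℝ) / 16) :
    (k : ℝ) * ((TT p y I m).card : ℝ) ≤ p + k := by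
  have hp0 : (0 : ℝ) < p := by
    have : 0 < p := by omega
    exact_mod_cast this
  have h1 : ((TT p y I (k ^ 2 * m)).card : ℝ) < p := by
    by_contra hc
    push Not at hc
    have hc' : p ≤ (TT p y I (k ^ 2 * m)).card := by exact_mod_cast hc
    have hu : TT p y I (k ^ 2 * m) = Finset.univ := by
      apply Finset.eq_univ_of_card
      apply le_antisymm (Finset.card_le_univ _)
      rw [ZMod.card]
      exact hc'
    have hs := M2_sum p hp y I h
    have h2 : ∑ θ : ZMod p, ff p y I θ ≤ ∑ θ : ZMod p, (k : ℝ) ^ 2 * m := by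
      apply Finset.sum_le_sum
      intro θ _
      rw [← M2_mem, hu]
      exact Finset.mem_univ _
    rw [Finset.sum_const, nsmul_eq_mul, Finset.card_univ, ZMod.card] at h2
    nlinarith
  have h3 := M2_cd p y I m hm k hk
  rcases min_le_iff.1 h3 with h4 | h4
  · linarith
  · have : (1 : ℝ) ≤ k := by exact_mod_cast hk
    nlinarith

end H31Z
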