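import Pool.Agent.Lib.H31Z.M1
import Pool.Agent.Lib.H31Z.M2

/-!
Chunk M3: a level set of bounded height is large.
-/

namespace H31Z

open Finset

theorem M3_half (m : ℕ) : Real.sqrt ((m : ℝ) + 1) * Real.exp (-4 * m) ≤ (1 / 2) ^ m := by
  have h0 : (0 : ℝ) ≤ m := Nat.cast_nonneg m
  have h1 : Real.sqrt ((m : ℝ) + 1) ≤ (m : ℝ) + 1 := by
    rw [Real.sqrt_le_left (by linarith)]
    nlinarith
  have h2 : (m : ℝ) + 1 ≤ Real.exp m := Real.add_one_le_exp _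
  have h3 : Real.exp (-3) ≤ 1 / 2 := by
    have h4 : (3 : ℝ) + 1 ≤ Real.exp 3 := Real.add_one_le_exp _
    rw [Real.exp_neg, inv_eq_one_div]
    exact one_div_le_one_div_of_le (by norm_num) (by linarith)
  calc Real.sqrt ((m : ℝ) + 1) * Real.exp (-4 * m) ≤ Real.exp m * Real.exp (-4 * m) :=
        mul_le_mul_of_nonneg_right (h1.trans h2) (Real.exp_pos _).le
    _ = Real.exp (-3) ^ m := by
        rw [← Real.exp_add, ← Real.exp_nat_mul]
        congr 1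
        ring
    _ ≤ (1 / 2) ^ m := pow_le_pow_left₀ (Real.exp_pos _).le h3 m

theorem M3_half' (m : ℕ) : Real.exp (-4 * m) ≤ (1 / 2) ^ m := by
  refine le_trans ?_ (M3_half m)
  have h0 : (0 : ℝ) ≤ m := Nat.cast_nonneg m
  have h1 : 1 ≤ Real.sqrt ((m : ℝ) + 1) := by
    rw [Real.one_le_sqrt]
    linarith
  have h2 := Real.exp_pos (-4 * m)
  nlinarith

theorem M3_geom (M R : ℕ) (h : M ≤ R) : ∑ m ∈ Finset.Ico M R, (1 / 2 : ℝ) ^ m ≤ 2 * (1 / 2) ^ M := by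
  have h1 : ∑ m ∈ Finset.Ico M R, (1 / 2 : ℝ) ^ m = 2 * (1 / 2) ^ M - 2 * (1 / 2) ^ R := by
    induction R, h using Nat.le_induction with
    | base => simp
    | succ R hR ih =>
      rw [Finset.sum_Ico_succ_top hR, ih, pow_succ]
      ring
  rw [h1]
  have : (0 : ℝ) < (1 / 2) ^ R := by positivity
  linarith

theorem M3_point (f : ℝ) (hf : 0 ≤ f) (M R : ℕ) :
    Real.exp (-4 * f) ≤ (if f ≤ (M : ℝ) then (1 : ℝ) else 0) +
      ∑ m ∈ Finset.Ico M R, Real.exp (-4 * m) * (if f ≤ (m : ℝ) + 1 then (1 : ℝ) else 0) +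
      Real.exp (-4 * R) := by
  have hs : 0 ≤ ∑ m ∈ Finset.Ico M R, Real.exp (-4 * m) * (if f ≤ (m : ℝ) + 1 then (1 : ℝ) else 0) := by
    refine Finset.sum_nonneg fun m _ => ?_
    split_ifs
    · rw [mul_one]; exact (Real.exp_pos _).le
    · rw [mul_zero]
  have hR := Real.exp_pos (-4 * (R : ℝ))
  by_cases h1 : f ≤ M
  · rw [if_pos h1]
    have h2 : Real.exp (-4 * f) ≤ 1 := Real.exp_le_one_iff.2 (by linarith)
    linarith
  · rw [if_neg h1, zero_add]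
    by_cases h2 : f ≤ R
    · have hc0 : (0 : ℝ) ≤ M := Nat.cast_nonneg M
      have hfp : 0 < f := lt_of_le_of_lt hc0 (not_le.1 h1)
      obtain ⟨c, hc⟩ : ∃ c, c = ⌈f⌉₊ := ⟨_, rfl⟩
      have hc1 : M < c := by
        rw [hc, Nat.lt_ceil]
        exact not_le.1 h1
      have hc2 : c ≤ R := by
        rw [hc, Nat.ceil_le]
        exact h2
      have hc3 : f ≤ c := by rw [hc]; exact Nat.le_ceil f
      have hc4 : (c : ℝ) < f + 1 := by rw [hc]; exact Nat.ceil_lt_add_one hfp.le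
      obtain ⟨m, rfl⟩ : ∃ m, c = m + 1 := ⟨c - 1, by omega⟩
      push_cast at hc3 hc4
      have h3 : Real.exp (-4 * m) * (if f ≤ (m : ℝ) + 1 then (1 : ℝ) else 0) ≤
          ∑ m ∈ Finset.Ico M R, Real.exp (-4 * m) * (if f ≤ (m : ℝ) + 1 then (1 : ℝ) else 0) := by
        apply Finset.single_le_sum (f := fun m : ℕ => Real.exp (-4 * m) * (if f ≤ (m : ℝ) + 1 then (1 : ℝ) else 0))
        · intro i _
          show 0 ≤ Real.exp (-4 * i) * (if f ≤ (i : ℝ) + 1 then (1 : ℝ) else 0)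
          split_ifs
          · rw [mul_one]; exact (Real.exp_pos _).le
          · rw [mul_zero]
        · rw [Finset.mem_Ico]; omega
      rw [if_pos hc3, mul_one] at h3
      have h4 : Real.exp (-4 * f) ≤ Real.exp (-4 * m) := Real.exp_le_exp.2 (by linarith)
      linarith
    · have h4 : Real.exp (-4 * f) ≤ Real.exp (-4 * R) := Real.exp_le_exp.2 (by linarith [not_le.1 h2])
      linarith

theorem M3_TT {ι : Type*} (p : ℕ) [Fact p.Prime] (hp : 2 < p) (y : ι → ℤ) (I : Finset ι)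
    (h : ∀ j ∈ I, (y j : ZMod p) ≠ 0) (hI : 0 < I.card) (m : ℕ) (hm : 17 * (m + 1) ≤ I.card) :
    ((TT p y I ((m : ℝ) + 1)).card : ℝ) ≤ 9 * (p / Real.sqrt I.card) * Real.sqrt ((m : ℝ) + 1) + 1 := by
  obtain ⟨N, hN⟩ : ∃ N : ℝ, N = I.card := ⟨_, rfl⟩
  have hN0 : 0 < N := by rw [hN]; exact_mod_cast hI
  have hm0 : (0 : ℝ) < (m : ℝ) + 1 := by positivity
  have hmN : 17 * ((m : ℝ) + 1) ≤ N := by rw [hN]; exact_mod_cast hm
  obtain ⟨x, hx⟩ : ∃ x, x = Real.sqrt (N / (17 * ((m : ℝ) + 1))) := ⟨_, rfl⟩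
  have hx2 : x ^ 2 = N / (17 * ((m : ℝ) + 1)) := by rw [hx]; exact Real.sq_sqrt (by positivity)
  have hx1 : 1 ≤ x := by
    rw [hx, Real.one_le_sqrt, le_div_iff₀ (by positivity)]
    linarith
  obtain ⟨k, hk⟩ : ∃ k, k = ⌊x⌋₊ := ⟨_, rfl⟩
  have hk1 : 1 ≤ k := by
    rw [hk]
    exact (Nat.one_le_floor_iff x).2 hx1
  have hkx : (k : ℝ) ≤ x := by rw [hk]; exact Nat.floor_le (by linarith)
  have hkx2 : x < k + 1 := by rw [hk]; exact Nat.lt_floor_add_one x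
  have hk1' : (1 : ℝ) ≤ k := by exact_mod_cast hk1
  have hk2 : (k : ℝ) ^ 2 * ((m : ℝ) + 1) < (I.card : ℝ) / 16 := by
    rw [← hN]
    have h1 : (k : ℝ) ^ 2 ≤ N / (17 * ((m : ℝ) + 1)) := by
      rw [← hx2]
      exact pow_le_pow_left₀ (by positivity) hkx 2
    rw [le_div_iff₀ (by positivity)] at h1
    nlinarith
  have h2 := M2_upper p hp y I h ((m : ℝ) + 1) hm0.le k hk1 hk2
  obtain ⟨t, ht⟩ : ∃ t : ℝ, t = ((TT p y I ((m : ℝ) + 1)).card : ℝ) := ⟨_, rfl⟩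
  rw [← ht] at h2 ⊢
  rw [← hN]
  have hs0 : 0 < Real.sqrt N := Real.sqrt_pos.2 hN0
  have hs1 : 0 < Real.sqrt ((m : ℝ) + 1) := Real.sqrt_pos.2 hm0
  obtain ⟨a, ha⟩ : ∃ a, a = Real.sqrt N := ⟨_, rfl⟩
  obtain ⟨b, hb⟩ : ∃ b, b = Real.sqrt ((m : ℝ) + 1) := ⟨_, rfl⟩
  have ha2 : a ^ 2 = N := by rw [ha]; exact Real.sq_sqrt hN0.le
  have hb2 : b ^ 2 = (m : ℝ) + 1 := by rw [hb]; exact Real.sq_sqrt hm0.le
  rw [← ha] at hs0 ⊢
  rw [← hb] at hs1 ⊢
  have hxab : x * (9 * b) ≥ 2 * a := by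
    have h3 : (x * (9 * b)) ^ 2 ≥ (2 * a) ^ 2 := by
      rw [mul_pow, hx2, mul_pow, hb2, mul_pow, ha2]
      have : N / (17 * ((m : ℝ) + 1)) * (9 ^ 2 * ((m : ℝ) + 1)) = 81 / 17 * N := by
        field_simp
        norm_num
      rw [this]
      linarith
    have hx0 : 0 ≤ x := by linarith
    exact (pow_le_pow_iff_left₀ (by positivity) (by positivity) two_ne_zero).1 h3
  have hk3 : x ≤ 2 * k := by linarith
  have hp0 : (0 : ℝ) < p := by exact_mod_cast (by omega : 0 < p)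
  -- t ≤ p/k + 1
  have h4 : (t - 1) * k ≤ p := by linarith
  have h5 : a ≤ k * (9 * b) := by nlinarith
  by_contra hcon
  rw [not_le] at hcon
  have h6 : 9 * (p / a) * b < t - 1 := by linarith
  have h7 : p ≤ 9 * (p / a) * b * k := by
    have : 9 * (p / a) * b * k = p * (k * (9 * b)) / a := by ring
    rw [this, le_div_iff₀ hs0]
    nlinarith
  have h8 : 9 * (p / a) * b * k < (t - 1) * k := mul_lt_mul_of_pos_right h6 (by linarith)
  linarith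

/-- PROOF. Let `N = |I|`. Choose `M ≥ 1` with `9 ∑_{m ≥ M} sqrt (m+1) exp (-4m) ≤ c0/8` (tail of a
convergent series). `p0` is larger than `∑ |y_i|` (so `M1_bound` applies and all `y_j ≢ 0 mod p`),
than `3` and than `C √N`, see below. Sort the `θ` by `m < ff θ ≤ m + 1`, `m ∈ ℕ` :
`∑_θ exp (-4 ff θ) ≤ #TT M + ∑_{m ≥ M} #TT(m+1) exp (-4m)`
(for `ff θ ≤ M` bound the exponential by `1`; the sum is finite as `ff θ ≤ N/4`).
For `m + 1 ≤ N/17` take `k = ⌊sqrt (N/(17(m+1)))⌋ ≥ 1`, so `k ≥ (1/2) sqrt (N/(17(m+1)))` and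
`k^2 (m+1) ≤ N/17 < N/16`: `M2_upper` gives `#TT(m+1) ≤ p/k + 1 ≤ 9 sqrt ((m+1)/N) p + 1`
(`2 sqrt 17 ≤ 9`). For `m + 1 > N/17` use `#TT ≤ p`. Hence
`∑_θ exp (-4 ff θ) ≤ #TT M + (p/√N) c0/8 + 2 + p * 2 exp (-4(N/17 - 1))`
and `2 exp (-4(N/17-1)) ≤ (c0/8)/√N` for `N ≥ N0`, `2 ≤ (c0/8) p/√N` for `p ≥ p0`. By `M1_bound`
the left side is at least `p * c0/√N`. So `#TT M ≥ (5/8) c0 p/√N`. -/
theorem M3_level (c0 : ℝ) (hc0 : 0 < c0) :
    ∃ M : ℕ, 1 ≤ M ∧ ∃ N0 : ℕ, ∀ (ι : Type) (I : Finset ι) (y : ι → ℤ), N0 ≤ I.card →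
      (∀ j ∈ I, y j ≠ 0) → c0 / Real.sqrt I.card ≤ pz y I 0 →
      ∃ p0 : ℕ, ∀ p : ℕ, p0 ≤ p → ∀ [Fact p.Prime],
        c0 / 2 * p / Real.sqrt I.card ≤ ((TT p y I (M : ℝ)).card : ℝ) := by
  obtain ⟨M0, hM0⟩ := exists_pow_lt_of_lt_one (show 0 < c0 / 144 by positivity) (show (1 / 2 : ℝ) < 1 by norm_num)
  obtain ⟨M, hMd⟩ : ∃ M, M = M0 + 1 := ⟨_, rfl⟩
  have hMc : 18 * (1 / 2 : ℝ) ^ M ≤ c0 / 8 := by
    have h1 : (1 / 2 : ℝ) ^ M ≤ (1 / 2) ^ M0 := by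
      rw [hMd, pow_succ]
      have : (0 : ℝ) < (1 / 2) ^ M0 := by positivity
      linarith
    linarith
  refine ⟨M, by omega, ⌈(136 / c0) ^ 2⌉₊ + 17 * (M + 1), fun ι I y hN hy hp => ?_⟩
  obtain ⟨N, hNd⟩ : ∃ N : ℝ, N = I.card := ⟨_, rfl⟩
  have hIc : 0 < I.card := by omega
  have hN0 : 0 < N := by rw [hNd]; exact_mod_cast hIc
  have hN1 : (136 / c0) ^ 2 ≤ N := by
    have h1 := Nat.le_ceil ((136 / c0) ^ 2)
    have h2 : ((⌈(136 / c0) ^ 2⌉₊ + 17 * (M + 1) : ℕ) : ℝ) ≤ N := by rw [hNd]; exact_mod_cast hN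
    push_cast at h2
    have h3 : (0 : ℝ) ≤ M := Nat.cast_nonneg M
    linarith
  obtain ⟨a, ha⟩ : ∃ a, a = Real.sqrt N := ⟨_, rfl⟩
  have ha0 : 0 < a := by rw [ha]; exact Real.sqrt_pos.2 hN0
  have ha2 : a ^ 2 = N := by rw [ha]; exact Real.sq_sqrt hN0.le
  have ha1 : 136 / c0 ≤ a := by rw [ha]; exact Real.le_sqrt_of_sq_le hN1
  rw [← hNd, ← ha] at hp ⊢
  refine ⟨3 + (∑ i ∈ I, (y i).natAbs) + ⌈16 * a / c0⌉₊, fun p hpp _ => ?_⟩
  have hsum : ∑ i ∈ I, |y i| < (p : ℤ) := by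
    have h1 : ∑ i ∈ I, |y i| = ((∑ i ∈ I, (y i).natAbs : ℕ) : ℤ) := by
      push_cast
      rfl
    rw [h1]
    exact_mod_cast (by omega : ∑ i ∈ I, (y i).natAbs < p)
  have hyz : ∀ j ∈ I, (y j : ZMod p) ≠ 0 := by
    intro j hj h0
    rw [ZMod.intCast_zmod_eq_zero_iff_dvd] at h0
    refine hy j hj (Int.eq_zero_of_abs_lt_dvd h0 (lt_of_le_of_lt ?_ hsum))
    exact Finset.single_le_sum (f := fun j => |y j|) (fun i _ => abs_nonneg _) hj
  have hp0 : (0 : ℝ) < p := by exact_mod_cast (by omega : 0 < p)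
  have hpa : 2 ≤ c0 / 8 * (p / a) := by
    have h1 := Nat.le_ceil (16 * a / c0)
    have h2 : (⌈16 * a / c0⌉₊ : ℝ) ≤ p := by exact_mod_cast (by omega : ⌈16 * a / c0⌉₊ ≤ p)
    have h3 : 16 * a / c0 ≤ p := h1.trans h2
    rw [div_le_iff₀ hc0] at h3
    have h4 : c0 / 8 * (p / a) = c0 * p / (8 * a) := by field_simp
    rw [h4, le_div_iff₀ (by positivity)]
    linarith
  have hM1 := M1_bound p y I hsum
  obtain ⟨R, hR⟩ : ∃ R, R = I.card / 17 := ⟨_, rfl⟩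
  have hMR : M ≤ R := by omega
  have hR2 : N / 17 ≤ R + 1 := by
    have h1 : I.card ≤ 17 * (R + 1) := by omega
    have h2 : N ≤ 17 * ((R : ℝ) + 1) := by rw [hNd]; exact_mod_cast h1
    linarith
  have hff : ∀ θ : ZMod p, 0 ≤ ff p y I θ := fun θ => Finset.sum_nonneg fun j _ => sq_nonneg _
  have hS : ∑ θ : ZMod p, Real.exp (-4 * ff p y I θ) ≤ ((TT p y I (M : ℝ)).card : ℝ) +
      ∑ m ∈ Finset.Ico M R, Real.exp (-4 * m) * ((TT p y I ((m : ℝ) + 1)).card : ℝ) +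
      Real.exp (-4 * R) * p := by
    have hcardTT : ∀ m : ℝ, ∑ θ : ZMod p, (if ff p y I θ ≤ m then (1 : ℝ) else 0) = ((TT p y I m).card : ℝ) := by
      intro m
      rw [TT, Finset.sum_ite, Finset.sum_const_zero, add_zero, Finset.sum_const, nsmul_eq_mul, mul_one]
    calc ∑ θ : ZMod p, Real.exp (-4 * ff p y I θ) ≤ ∑ θ : ZMod p, ((if ff p y I θ ≤ (M : ℝ) then (1 : ℝ) else 0) +
      ∑ m ∈ Finset.Ico M R, Real.exp (-4 * m) * (if ff p y I θ ≤ (m : ℝ) + 1 then (1 : ℝ) else 0) +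
      Real.exp (-4 * R)) := Finset.sum_le_sum fun θ _ => M3_point _ (hff θ) M R
      _ = _ := by
        rw [Finset.sum_add_distrib, Finset.sum_add_distrib, hcardTT, Finset.sum_comm, Finset.sum_const,
          nsmul_eq_mul, Finset.card_univ, ZMod.card, mul_comm (p : ℝ)]
        congr 2
        refine Finset.sum_congr rfl fun m _ => ?_
        rw [← Finset.mul_sum, hcardTT]
  have hmid : ∑ m ∈ Finset.Ico M R, Real.exp (-4 * m) * ((TT p y I ((m : ℝ) + 1)).card : ℝ) ≤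
      c0 / 8 * (p / a) + 2 := by
    calc ∑ m ∈ Finset.Ico M R, Real.exp (-4 * m) * ((TT p y I ((m : ℝ) + 1)).card : ℝ)
        ≤ ∑ m ∈ Finset.Ico M R, (9 * (p / a) * (1 / 2) ^ m + (1 / 2) ^ m) := by
          refine Finset.sum_le_sum fun m hm => ?_
          rw [Finset.mem_Ico] at hm
          have h1 := M3_TT p (by omega) y I hyz hIc m (by omega)
          rw [← hNd, ← ha] at h1
          have h2 := M3_half m
          have h3 := M3_half' m
          have h4 := Real.exp_pos (-4 * m)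
          calc Real.exp (-4 * m) * ((TT p y I ((m : ℝ) + 1)).card : ℝ) ≤
              Real.exp (-4 * m) * (9 * (p / a) * Real.sqrt ((m : ℝ) + 1) + 1) :=
                mul_le_mul_of_nonneg_left h1 h4.le
            _ = 9 * (p / a) * (Real.sqrt ((m : ℝ) + 1) * Real.exp (-4 * m)) + Real.exp (-4 * m) := by ring
            _ ≤ _ := add_le_add (mul_le_mul_of_nonneg_left h2 (by positivity)) h3
      _ = (9 * (p / a) + 1) * ∑ m ∈ Finset.Ico M R, (1 / 2 : ℝ) ^ m := by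
          rw [Finset.mul_sum]
          exact Finset.sum_congr rfl fun m _ => by ring
      _ ≤ (9 * (p / a) + 1) * (2 * (1 / 2) ^ M) :=
          mul_le_mul_of_nonneg_left (M3_geom M R hMR) (by positivity)
      _ ≤ _ := by
          have h1 : (1 / 2 : ℝ) ^ M ≤ 1 := pow_le_one₀ (by norm_num) (by norm_num)
          have h2 : 0 < p / a := by positivity
          nlinarith
  have htail : Real.exp (-4 * R) * p ≤ c0 / 8 * (p / a) := by
    have h1 : (4 : ℝ) * R + 1 ≤ Real.exp (4 * R) := Real.add_one_le_exp _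
    have hR1 : (1 : ℝ) ≤ R := by exact_mod_cast (by omega : 1 ≤ R)
    have h2 : N / 17 ≤ Real.exp (4 * R) := by linarith
    have h3 : Real.exp (-4 * R) ≤ 17 / N := by
      rw [neg_mul, Real.exp_neg, inv_eq_one_div, div_le_div_iff₀ (Real.exp_pos _) hN0]
      linarith
    have h4 : 17 / N ≤ c0 / 8 / a := by
      rw [div_le_div_iff₀ hN0 ha0, ← ha2]
      rw [div_le_iff₀ hc0] at ha1
      nlinarith
    calc Real.exp (-4 * R) * p ≤ c0 / 8 / a * p := mul_le_mul_of_nonneg_right (h3.trans h4) hp0.le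
      _ = _ := by ring
  have hfin : c0 * (p / a) ≤ ∑ θ : ZMod p, Real.exp (-4 * ff p y I θ) := by
    have h1 := hp.trans hM1
    rw [one_div, ← div_eq_inv_mul, le_div_iff₀ hp0] at h1
    calc c0 * (p / a) = c0 / a * p := by ring
      _ ≤ _ := h1
  have hg : c0 / 2 * p / a = c0 / 2 * (p / a) := by ring
  rw [hg]
  have : 0 < c0 * (p / a) := by positivity
  linarith

end H31Z
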