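import Pool.Agent.Lib.H31Z.M3

/-!
Chunk M4: level sets of height `ε1 N` have positive density.
-/

namespace H31Z

open Finset

theorem M4_TT_mono {ι : Type*} (p : ℕ) [NeZero p] (y : ι → ℤ) (I : Finset ι) {m m' : ℝ} (h : m ≤ m') :
    TT p y I m ⊆ TT p y I m' := by
  intro θ hθ
  unfold TT at hθ ⊢
  rw [Finset.mem_filter] at hθ ⊢
  exact ⟨hθ.1, hθ.2.trans h⟩

/-- The arithmetic of M4. -/
theorem M4_arith (c0 c2 ε1 N M p k T s : ℝ) (hc0 : 0 < c0) (hM : 1 ≤ M) (hN : 0 < N) (hε : 0 < ε1)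
    (hs : s = Real.sqrt (ε1 * N / M)) (hk1 : s / 2 ≤ k) (hk2 : k ≤ s)
    (hc2 : c2 ≤ c0 / (8 * Real.sqrt M)) (hp : 8 * Real.sqrt N / c0 ≤ p)
    (hT : c0 / 2 * p / Real.sqrt N ≤ T) : c2 * Real.sqrt ε1 * p ≤ k * (T - 1) + 1 := by
  have hM0 : 0 < M := by linarith
  have hsM : 0 < Real.sqrt M := Real.sqrt_pos.2 hM0
  have hsN : 0 < Real.sqrt N := Real.sqrt_pos.2 hN
  have hsε : 0 < Real.sqrt ε1 := Real.sqrt_pos.2 hε
  have hs' : s = Real.sqrt ε1 * Real.sqrt N / Real.sqrt M := by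
    rw [hs, Real.sqrt_div (by positivity), Real.sqrt_mul hε.le]
  have hp1 : 8 * Real.sqrt N ≤ p * c0 := (div_le_iff₀ hc0).1 hp
  have hp0 : 0 < p := by
    by_contra hcon
    push Not at hcon
    have := mul_nonpos_of_nonpos_of_nonneg hcon hc0.le
    linarith
  have hs0 : 0 < s := by
    rw [hs']
    positivity
  have hk0 : 0 ≤ k := by linarith
  have h1 : s / 2 * (c0 / 2 * p / Real.sqrt N) ≤ k * T :=
    mul_le_mul hk1 hT (by positivity) hk0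
  have h2 : s / 2 * (c0 / 2 * p / Real.sqrt N) = c0 / 4 * Real.sqrt ε1 / Real.sqrt M * p := by
    rw [hs']
    field_simp
    ring
  have h3 : s ≤ c0 / 8 * Real.sqrt ε1 / Real.sqrt M * p := by
    rw [hs', div_mul_eq_mul_div, div_le_div_iff_of_pos_right hsM]
    nlinarith
  have h4 : c2 * Real.sqrt ε1 * p ≤ c0 / (8 * Real.sqrt M) * Real.sqrt ε1 * p := by
    gcongr
  have h5 : c0 / (8 * Real.sqrt M) * Real.sqrt ε1 * p = c0 / 8 * Real.sqrt ε1 / Real.sqrt M * p := by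
    field_simp
  have h6 : c0 / 4 * Real.sqrt ε1 / Real.sqrt M * p =
      2 * (c0 / 8 * Real.sqrt ε1 / Real.sqrt M * p) := by ring
  nlinarith

/-- PROOF. Take `M` from `M3_level` and `c2 = c0/(16 sqrt M)`. Let `N = |I|`,
`k = ⌊sqrt (ε1 N/M)⌋`, `N` so large that `k ≥ 1` and `k ≥ (1/2) sqrt (ε1 N/M)`; `k^2 M ≤ ε1 N`, so
`TT (k^2 M) ⊆ TT (ε1 N)` and `M2_cd` gives
`#TT(ε1 N) ≥ min p (k #TT M - k) ≥ min p ((1/2) sqrt (ε1 N/M) (c0/2) p/√N - k)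
= min p ((c0/4) sqrt(ε1/M) p - k) ≥ c2 sqrt ε1 p`, if `c2 ≤ 1` (decrease `c2` if necessary) and
`p0` is so large that `k ≤ (c0/8) sqrt(ε1/M) p`. -/
theorem M4_density (c0 : ℝ) (hc0 : 0 < c0) :
    ∃ c2 : ℝ, 0 < c2 ∧ ∀ ε1 : ℝ, 0 < ε1 → ε1 ≤ 1 → ∃ N0 : ℕ, ∀ (ι : Type) (I : Finset ι) (y : ι → ℤ),
      N0 ≤ I.card → (∀ j ∈ I, y j ≠ 0) → c0 / Real.sqrt I.card ≤ pz y I 0 →
      ∃ p0 : ℕ, ∀ p : ℕ, p0 ≤ p → ∀ [Fact p.Prime],
        c2 * Real.sqrt ε1 * p ≤ ((TT p y I (ε1 * I.card)).card : ℝ) := by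
  obtain ⟨M, hM1, N1, hM3⟩ := M3_level c0 hc0
  have hMr : (1 : ℝ) ≤ (M : ℝ) := by exact_mod_cast hM1
  have hsM : 0 < Real.sqrt (M : ℝ) := Real.sqrt_pos.2 (by linarith)
  refine ⟨min 1 (c0 / (8 * Real.sqrt M)), lt_min one_pos (by positivity), ?_⟩
  intro ε1 hε hε1
  refine ⟨max N1 ⌈(M : ℝ) / ε1⌉₊, ?_⟩
  intro ι I y hN hy hc
  obtain ⟨p0, hp0⟩ := hM3 ι I y ((le_max_left _ _).trans hN) hy hc
  refine ⟨max p0 ⌈8 * Real.sqrt (I.card : ℝ) / c0⌉₊, ?_⟩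
  intro p hp hprime
  have hT := hp0 p ((le_max_left _ _).trans hp)
  have hNr : (M : ℝ) / ε1 ≤ (I.card : ℝ) :=
    (Nat.le_ceil _).trans (by exact_mod_cast (le_max_right _ _).trans hN)
  have hpr : 8 * Real.sqrt (I.card : ℝ) / c0 ≤ (p : ℝ) :=
    (Nat.le_ceil _).trans (by exact_mod_cast (le_max_right _ _).trans hp)
  have hMN : (M : ℝ) ≤ ε1 * (I.card : ℝ) := by
    rw [div_le_iff₀ hε] at hNr
    linarith
  have hN0 : (0 : ℝ) < (I.card : ℝ) := by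
    by_contra hcon
    push Not at hcon
    have := mul_nonpos_of_nonneg_of_nonpos hε.le hcon
    linarith
  set s : ℝ := Real.sqrt (ε1 * (I.card : ℝ) / (M : ℝ)) with hs
  have hs1 : 1 ≤ s := by
    rw [hs, Real.one_le_sqrt, le_div_iff₀ (by linarith)]
    linarith
  set k : ℕ := ⌊s⌋₊ with hk
  have hk1 : 1 ≤ k := Nat.one_le_floor_iff s |>.2 hs1
  have hks : (k : ℝ) ≤ s := Nat.floor_le (by linarith)
  have hks2 : s / 2 ≤ (k : ℝ) := by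
    have h1 : s < (k : ℝ) + 1 := Nat.lt_floor_add_one s
    have h2 : (1 : ℝ) ≤ (k : ℝ) := by exact_mod_cast hk1
    linarith
  have hk2 : (k : ℝ) ^ 2 * (M : ℝ) ≤ ε1 * (I.card : ℝ) := by
    have h1 : (k : ℝ) ^ 2 ≤ s ^ 2 := pow_le_pow_left₀ (Nat.cast_nonneg k) hks 2
    have h2 : s ^ 2 = ε1 * (I.card : ℝ) / (M : ℝ) := Real.sq_sqrt (by positivity)
    rw [h2] at h1
    have h3 : (0 : ℝ) < (M : ℝ) := by linarith
    calc (k : ℝ) ^ 2 * (M : ℝ) ≤ ε1 * (I.card : ℝ) / (M : ℝ) * (M : ℝ) :=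
          mul_le_mul_of_nonneg_right h1 h3.le
      _ = ε1 * (I.card : ℝ) := div_mul_cancel₀ _ h3.ne'
  have hcd := M2_cd p y I (M : ℝ) (by linarith) k hk1
  have hsub : ((TT p y I ((k : ℝ) ^ 2 * (M : ℝ))).card : ℝ) ≤
      ((TT p y I (ε1 * (I.card : ℝ))).card : ℝ) := by
    exact_mod_cast Finset.card_le_card (M4_TT_mono p y I hk2)
  refine le_trans (le_trans (le_min ?_ ?_) hcd) hsub
  · have h1 : min 1 (c0 / (8 * Real.sqrt M)) ≤ 1 := min_le_left _ _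
    have h2 : Real.sqrt ε1 ≤ 1 := Real.sqrt_le_one.2 hε1
    have h0 : 0 ≤ Real.sqrt ε1 := Real.sqrt_nonneg _
    have h3 : min 1 (c0 / (8 * Real.sqrt M)) * Real.sqrt ε1 ≤ 1 :=
      mul_le_one₀ h1 h0 h2
    calc min 1 (c0 / (8 * Real.sqrt M)) * Real.sqrt ε1 * (p : ℝ) ≤ 1 * (p : ℝ) :=
          mul_le_mul_of_nonneg_right h3 (Nat.cast_nonneg p)
      _ = p := one_mul _
  · exact M4_arith c0 _ ε1 (I.card : ℝ) (M : ℝ) (p : ℝ) (k : ℝ) _ s hc0 hMr hN0 hε hs hks2 hks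
      (min_le_right _ _) hpr hT

end H31Z
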