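import Pool.Agent.Lib.H31Z.Defs

/-!
Chunk M5: the gap lemma (pure arithmetic modulo a prime).
-/

namespace H31Z

open Finset

/-- first step: two elements in one block -/
theorem M5_block (c4 κ : ℝ) (hc : 0 < c4) (hκ : 0 < κ) (D : ℕ) (hD : 4 * κ ≤ c4 * D) (hD0 : 0 < D)
    (p : ℕ) (hp : 4 / c4 < p) [Fact p.Prime] (Ω : Finset (ZMod p)) (hΩ : c4 * p ≤ (Ω.card : ℝ))
    (h : ∀ ω ∈ Ω, |(ω.valMinAbs : ℝ)| ≤ κ * p) :
    ∃ ω1 ∈ Ω, ∃ ω2 ∈ Ω, 1 ≤ ω2.valMinAbs - ω1.valMinAbs ∧ ω2.valMinAbs - ω1.valMinAbs < D := by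
  have hp0 : (0 : ℝ) < p := by
    have : 0 < p := (Fact.out : p.Prime).pos
    exact_mod_cast this
  have hDr : (0 : ℝ) < D := by exact_mod_cast hD0
  have hDz : (0 : ℤ) < D := by exact_mod_cast hD0
  set f : ZMod p → ℤ := fun ω => ω.valMinAbs / (D : ℤ) with hf
  have hfr : ∀ ω : ZMod p, ((f ω : ℤ) : ℝ) ≤ (ω.valMinAbs : ℝ) / D ∧
      (ω.valMinAbs : ℝ) / D < (f ω : ℝ) + 1 := by
    intro ω
    have h1 := Int.mul_ediv_add_emod ω.valMinAbs (D : ℤ)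
    have h2 := Int.emod_nonneg ω.valMinAbs (ne_of_gt hDz)
    have h3 := Int.emod_lt_of_pos ω.valMinAbs hDz
    have h4 : (D : ℤ) * f ω ≤ ω.valMinAbs := by
      simp only [hf]; omega
    have h5 : ω.valMinAbs < (D : ℤ) * (f ω + 1) := by
      simp only [hf]
      rw [mul_add, mul_one]; omega
    have h4' : (D : ℝ) * f ω ≤ ω.valMinAbs := by exact_mod_cast h4
    have h5' : (ω.valMinAbs : ℝ) < (D : ℝ) * (f ω + 1) := by exact_mod_cast h5
    constructor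
    · rw [le_div_iff₀ hDr]; linarith
    · rw [div_lt_iff₀ hDr]; linarith
  set A : ℤ := ⌊-(κ * p / D)⌋ with hA
  set C : ℤ := ⌊κ * p / D⌋ with hC
  have hmaps : ∀ ω ∈ Ω, f ω ∈ Finset.Icc A C := by
    intro ω hω
    have h1 := abs_le.1 (h ω hω)
    have h2 := hfr ω
    rw [Finset.mem_Icc]
    constructor
    · -- floor (-(κ p/D)) ≤ f ω
      have h3 : -(κ * p / D) ≤ (ω.valMinAbs : ℝ) / D := by
        rw [← neg_div]
        exact div_le_div_of_nonneg_right h1.1 hDr.le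
      have h4 : (A : ℝ) ≤ -(κ * p / D) := Int.floor_le _
      have h5 : (A : ℝ) < f ω + 1 := by linarith [h2.2]
      have h6 : A < f ω + 1 := by exact_mod_cast h5
      omega
    · rw [hC, Int.le_floor]
      have h3 : (ω.valMinAbs : ℝ) / D ≤ κ * p / D := div_le_div_of_nonneg_right h1.2 hDr.le
      linarith [h2.1]
  have hcard : ((Finset.Icc A C).card : ℝ) ≤ 2 * (κ * p / D) + 2 := by
    have hAC : A ≤ C + 1 := by
      have : A ≤ C := by
        rw [hA, hC]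
        apply Int.floor_le_floor
        have : 0 ≤ κ * p / D := by positivity
        linarith
      omega
    rw [Int.card_Icc]
    have h1 : (((C + 1 - A).toNat : ℕ) : ℤ) = C + 1 - A := Int.toNat_of_nonneg (by omega)
    have h2 : (((C + 1 - A).toNat : ℕ) : ℝ) = C + 1 - A := by exact_mod_cast h1
    rw [h2]
    have h3 : (C : ℝ) ≤ κ * p / D := Int.floor_le _
    have h4 : -(κ * p / D) < (A : ℝ) + 1 := Int.lt_floor_add_one _
    linarith
  have hlt : (Finset.Icc A C).card < Ω.card := by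
    have h1 : 2 * (κ * p / D) ≤ c4 * p / 2 := by
      have : κ / D ≤ c4 / 4 := by
        rw [div_le_div_iff₀ hDr (by norm_num)]
        linarith
      have h2 : 2 * (κ * p / D) = 2 * p * (κ / D) := by ring
      rw [h2]
      calc 2 * p * (κ / D) ≤ 2 * p * (c4 / 4) := by gcongr
        _ = c4 * p / 2 := by ring
    have h2 : 4 < c4 * p := by
      rw [div_lt_iff₀ hc] at hp
      linarith
    have h3 : ((Finset.Icc A C).card : ℝ) < Ω.card := by linarith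
    exact_mod_cast h3
  obtain ⟨ω1, h1, ω2, h2, hne, heq⟩ := Finset.exists_ne_map_eq_of_card_lt_of_maps_to hlt hmaps
  have hne' : ω1.valMinAbs ≠ ω2.valMinAbs := fun hh => hne (ZMod.injective_valMinAbs hh)
  have k1 := Int.mul_ediv_add_emod ω1.valMinAbs (D : ℤ)
  have k2 := Int.emod_nonneg ω1.valMinAbs (ne_of_gt hDz)
  have k3 := Int.emod_lt_of_pos ω1.valMinAbs hDz
  have l1 := Int.mul_ediv_add_emod ω2.valMinAbs (D : ℤ)
  have l2 := Int.emod_nonneg ω2.valMinAbs (ne_of_gt hDz)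
  have l3 := Int.emod_lt_of_pos ω2.valMinAbs hDz
  have heq' : ω1.valMinAbs / (D : ℤ) = ω2.valMinAbs / (D : ℤ) := heq
  rw [heq'] at k1
  rcases lt_or_gt_of_ne hne' with hlt' | hgt'
  · exact ⟨ω1, h1, ω2, h2, by omega, by omega⟩
  · exact ⟨ω2, h2, ω1, h1, by omega, by omega⟩

/-- the final inequality -/
theorem M5_ineq (c4 κ D B p β : ℝ) (hc : 0 < c4) (hκ : 0 < κ) (h1 : κ ^ 3 ≤ c4 ^ 2 / 256)
    (h2 : κ ^ 2 ≤ c4 / 128) (hD1 : 1 ≤ D) (hD : D ≤ 4 * κ / c4 + 2) (hB : 16 * D * κ / c4 ≤ B)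
    (hDB : D ≤ B) (hB0 : 0 < B) (hβ : B < β) (hβp : β ≤ 2 * κ * p) (hp : 0 < p)
    (hp2 : 4 * (2 * D * κ + 1) / c4 ≤ p) :
    (2 * ((D + β) * κ) + 1) * (2 * D * κ * p / β + 1) < c4 * p := by
  have hβ0 : 0 < β := hB0.trans hβ
  have hD0 : 0 < D := by linarith
  have e1 : (2 * ((D + β) * κ) + 1) * (2 * D * κ * p / β + 1) =
      4 * D * κ ^ 2 * p * (D / β) + 4 * D * κ ^ 2 * p + 2 * D * κ + 2 * β * κ
        + 2 * D * κ * p / β + 1 := by
    field_simp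
    ring
  rw [e1]
  have a1 : 4 * D * κ ^ 2 * p * (D / β) ≤ 4 * D * κ ^ 2 * p := by
    have : D / β ≤ 1 := by
      rw [div_le_one hβ0]; linarith
    have h0 : 0 ≤ 4 * D * κ ^ 2 * p := by positivity
    nlinarith
  have a2 : 8 * D * κ ^ 2 ≤ c4 / 4 := by
    have : 8 * D * κ ^ 2 ≤ 8 * (4 * κ / c4 + 2) * κ ^ 2 := by gcongr
    have h3 : 8 * (4 * κ / c4 + 2) * κ ^ 2 = 32 * κ ^ 3 / c4 + 16 * κ ^ 2 := by
      field_simp
      ring
    have h4 : 32 * κ ^ 3 / c4 ≤ c4 / 8 := by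
      rw [div_le_iff₀ hc]
      nlinarith
    linarith
  have a2' : 8 * D * κ ^ 2 * p ≤ c4 / 4 * p := by gcongr
  have a3 : 2 * β * κ ≤ c4 / 32 * p := by
    have h5 : 2 * β * κ ≤ 2 * (2 * κ * p) * κ := by gcongr
    have h6 : 2 * (2 * κ * p) * κ = 4 * κ ^ 2 * p := by ring
    have h7 : 4 * κ ^ 2 * p ≤ 4 * (c4 / 128) * p := by gcongr
    linarith
  have a4 : 2 * D * κ * p / β ≤ c4 / 8 * p := by
    rw [div_le_iff₀ hβ0]
    rw [div_le_iff₀ hc] at hB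
    have h5 : c4 * B ≤ c4 * β := by
      apply mul_le_mul_of_nonneg_left hβ.le hc.le
    have h6 : 2 * D * κ ≤ c4 / 8 * β := by nlinarith
    nlinarith
  have a5 : 2 * D * κ + 1 ≤ c4 / 4 * p := by
    rw [div_le_iff₀ hc] at hp2
    linarith
  have a6 : 0 < c4 * p := by positivity
  linarith

/-- counting over the lines -/
theorem M5_count (κ : ℝ) (hκ : 0 < κ) (p : ℕ) [Fact p.Prime] (τ : ZMod p) (Ω : Finset (ZMod p))
    (h : ∀ ω ∈ Ω, |(ω.valMinAbs : ℝ)| ≤ κ * p ∧ |((τ * ω).valMinAbs : ℝ)| ≤ κ * p)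
    (D : ℕ) (d b : ℤ) (hd1 : 1 ≤ d) (hdD : d < D) (hb : 0 < |b|)
    (hdb : (d : ZMod p) * τ = (b : ZMod p)) :
    (Ω.card : ℝ) ≤ (2 * (((D : ℝ) + |(b : ℝ)|) * κ) + 1) * (2 * D * κ * p / |(b : ℝ)| + 1) := by
  classical
  have hp0 : (0 : ℝ) < p := by
    have : 0 < p := (Fact.out : p.Prime).pos
    exact_mod_cast this
  have hpz : (0 : ℤ) < p := by exact_mod_cast (Fact.out : p.Prime).pos
  have hbr : (0 : ℝ) < |(b : ℝ)| := by exact_mod_cast hb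
  have hdr : (0 : ℝ) < d := by
    have : (0 : ℤ) < d := by omega
    exact_mod_cast this
  have hdDr : (d : ℝ) ≤ D := by
    have : d ≤ (D : ℤ) := by omega
    exact_mod_cast this
  have hdvd : ∀ ω : ZMod p, (p : ℤ) ∣ d * (τ * ω).valMinAbs - b * ω.valMinAbs := by
    intro ω
    rw [← ZMod.intCast_zmod_eq_zero_iff_dvd]
    push_cast
    rw [← mul_assoc, hdb]
    ring
  set l : ZMod p → ℤ := fun ω => (d * (τ * ω).valMinAbs - b * ω.valMinAbs) / p with hl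
  have hlr : ∀ ω : ZMod p, (d : ℝ) * (τ * ω).valMinAbs - b * ω.valMinAbs = p * l ω := by
    intro ω
    have := Int.mul_ediv_cancel' (hdvd ω)
    have h2 : d * (τ * ω).valMinAbs - b * ω.valMinAbs = p * l ω := this.symm
    exact_mod_cast h2
  set X : ℤ := ⌊((D : ℝ) + |(b : ℝ)|) * κ⌋ with hX
  have hX0 : 0 ≤ X := Int.floor_nonneg.2 (by positivity)
  have hmaps : ∀ ω ∈ Ω, l ω ∈ Finset.Icc (-X) X := by
    intro ω hω
    have h1 := (h ω hω).1
    have h2 := (h ω hω).2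
    have h3 : |(l ω : ℝ)| ≤ ((D : ℝ) + |(b : ℝ)|) * κ := by
      have h4 : (p : ℝ) * |(l ω : ℝ)| ≤ p * (((D : ℝ) + |(b : ℝ)|) * κ) := by
        calc (p : ℝ) * |(l ω : ℝ)| = |(p : ℝ) * l ω| := by rw [abs_mul, abs_of_pos hp0]
          _ = |(d : ℝ) * (τ * ω).valMinAbs - b * ω.valMinAbs| := by rw [hlr]
          _ ≤ |(d : ℝ) * (τ * ω).valMinAbs| + |(b : ℝ) * ω.valMinAbs| := abs_sub _ _
          _ = d * |((τ * ω).valMinAbs : ℝ)| + |(b : ℝ)| * |(ω.valMinAbs : ℝ)| := by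
              rw [abs_mul, abs_mul, abs_of_pos hdr]
          _ ≤ D * (κ * p) + |(b : ℝ)| * (κ * p) := by gcongr
          _ = _ := by ring
      exact le_of_mul_le_mul_left h4 hp0
    rw [Finset.mem_Icc, ← abs_le, hX, Int.le_floor]
    exact_mod_cast h3
  set n : ℕ := ⌊2 * D * κ * p / |(b : ℝ)|⌋₊ + 1 with hn
  have hfib : ∀ c ∈ Finset.Icc (-X) X, (Ω.filter (fun ω => l ω = c)).card ≤ n := by
    intro c _
    rcases (Ω.filter (fun ω => l ω = c)).eq_empty_or_nonempty with he | hne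
    · rw [he]; simp
    obtain ⟨ω0, hω0, hmin⟩ := Finset.exists_min_image _ (fun ω : ZMod p => ω.valMinAbs) hne
    have hsub : (Ω.filter (fun ω => l ω = c)).image (fun ω : ZMod p => ω.valMinAbs) ⊆
        Finset.Icc ω0.valMinAbs (ω0.valMinAbs + ⌊2 * D * κ * p / |(b : ℝ)|⌋₊) := by
      intro a ha
      rw [Finset.mem_image] at ha
      obtain ⟨ω, hω, rfl⟩ := ha
      rw [Finset.mem_Icc]
      refine ⟨hmin ω hω, ?_⟩
      rw [Finset.mem_filter] at hω hω0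
      have e1 := hlr ω
      have e0 := hlr ω0
      rw [hω.2] at e1
      rw [hω0.2] at e0
      have e2 : (b : ℝ) * (ω.valMinAbs - ω0.valMinAbs) =
          d * ((τ * ω).valMinAbs - (τ * ω0).valMinAbs) := by linarith
      have e3 : |(b : ℝ)| * |(ω.valMinAbs : ℝ) - ω0.valMinAbs| ≤ 2 * D * κ * p := by
        rw [← abs_mul, e2, abs_mul, abs_of_pos hdr]
        calc (d : ℝ) * |((τ * ω).valMinAbs : ℝ) - (τ * ω0).valMinAbs|
            ≤ d * (|((τ * ω).valMinAbs : ℝ)| + |((τ * ω0).valMinAbs : ℝ)|) := by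
              gcongr
              exact abs_sub _ _
          _ ≤ D * (κ * p + κ * p) := by
              gcongr
              · exact (h ω hω.1).2
              · exact (h ω0 hω0.1).2
          _ = _ := by ring
      have e4 : (ω.valMinAbs : ℝ) - ω0.valMinAbs ≤ 2 * D * κ * p / |(b : ℝ)| := by
        rw [le_div_iff₀ hbr]
        have := le_abs_self ((ω.valMinAbs : ℝ) - ω0.valMinAbs)
        nlinarith
      have e5 : 0 ≤ ω.valMinAbs - ω0.valMinAbs := by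
        have := hmin ω (Finset.mem_filter.2 hω)
        omega
      have e6 : (ω.valMinAbs - ω0.valMinAbs).toNat ≤ ⌊2 * D * κ * p / |(b : ℝ)|⌋₊ := by
        apply Nat.le_floor
        have e7 : (((ω.valMinAbs - ω0.valMinAbs).toNat : ℕ) : ℤ) = ω.valMinAbs - ω0.valMinAbs :=
          Int.toNat_of_nonneg e5
        have e8 : (((ω.valMinAbs - ω0.valMinAbs).toNat : ℕ) : ℝ) =
            ω.valMinAbs - ω0.valMinAbs := by exact_mod_cast e7
        rw [e8]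
        exact e4
      omega
    have h1 := Finset.card_le_card hsub
    rw [Finset.card_image_of_injective _ ZMod.injective_valMinAbs, Int.card_Icc] at h1
    omega
  have hcard := Finset.card_le_mul_card_image_of_maps_to hmaps n hfib
  rw [Int.card_Icc] at hcard
  have h1 : (((X + 1 - -X).toNat : ℕ) : ℤ) = X + 1 - -X := Int.toNat_of_nonneg (by omega)
  have h2 : (((X + 1 - -X).toNat : ℕ) : ℝ) = 2 * X + 1 := by
    have : (((X + 1 - -X).toNat : ℕ) : ℝ) = X + 1 - -X := by exact_mod_cast h1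
    rw [this]; ring
  have h3 : (X : ℝ) ≤ ((D : ℝ) + |(b : ℝ)|) * κ := Int.floor_le _
  have h4 : (n : ℝ) ≤ 2 * D * κ * p / |(b : ℝ)| + 1 := by
    rw [hn]
    push_cast
    have := Nat.floor_le (by positivity : 0 ≤ 2 * D * κ * p / |(b : ℝ)|)
    linarith
  have hXr : (0 : ℝ) ≤ X := by exact_mod_cast hX0
  calc (Ω.card : ℝ) ≤ ((n * (X + 1 - -X).toNat : ℕ) : ℝ) := by exact_mod_cast hcard
    _ = n * (2 * X + 1) := by rw [Nat.cast_mul, h2]
    _ ≤ (2 * D * κ * p / |(b : ℝ)| + 1) * (2 * (((D : ℝ) + |(b : ℝ)|) * κ) + 1) := by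
        gcongr
    _ = _ := by ring

/-- PROOF. Let `D = ⌈4κ/c4⌉ + 1`, `B = ⌈16 D κ/c4⌉ + D`, `K = max D B`, `p0` large.
For `ω ∈ Ω` let `a(ω) = ω.valMinAbs`, `t(ω) = (τ ω).valMinAbs`, both of absolute value `≤ κ p`.
(1) Blocks `[D j, D (j+1))`: the number of `j = ⌊a(ω)/D⌋` is at most `2κp/D + 2 ≤ c4 p/2 + 2 < c4 p
≤ #Ω` (as `D ≥ 4κ/c4`, `p > 4/c4`), so two different elements are in one block: there are
`ω1, ω2 ∈ Ω` with `d := a(ω2) - a(ω1)`, `1 ≤ d < D`. Put `b = t(ω2) - t(ω1)`, `|b| ≤ 2κp`, and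
`d τ = b` in `ZMod p`. If `|b| ≤ B` we are done.
(2) Suppose `|b| > B`. For every `ω ∈ Ω`: `d t(ω) - b a(ω) = (d τ - b) ω = 0` in `ZMod p`, so it is
`p l` with an integer `l = l(ω)` and `|l| ≤ (D + |b|) κ`. For a given `l`, the numbers `a(ω)`
satisfy `|b a + p l| ≤ D κ p`, so they are in an interval of length `2Dκp/|b|` and there are at
most `2Dκp/|b| + 1` of them. Hence
`#Ω ≤ (2 (D+|b|) κ + 1) (2 D κ p/|b| + 1)`
`= 4 D κ^2 p (D/|b| + 1) + 2 (D+|b|) κ + 2 D κ p/|b| + 1`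
`≤ 8 D κ^2 p + 4 κ^2 p + 2 D κ + 2 D κ p/B + 1` (as `D ≤ B < |b| ≤ 2κp`).
Here `8 D κ^2 ≤ 8 (4κ/c4 + 2) κ^2 = 32 κ^3/c4 + 16 κ^2 ≤ c4/8 + c4/8`, `4κ^2 ≤ c4/32`,
`2Dκ/B ≤ c4/8`, `2Dκ + 1 ≤ c4 p/4` for `p ≥ p0`: total less than `c4 p`, a contradiction. -/
theorem M5_gap (c4 κ : ℝ) (hc : 0 < c4) (hκ : 0 < κ) (h1 : κ ^ 3 ≤ c4 ^ 2 / 256)
    (h2 : κ ^ 2 ≤ c4 / 128) :
    ∃ K p0 : ℕ, ∀ p : ℕ, p0 ≤ p → ∀ [Fact p.Prime], ∀ (τ : ZMod p) (Ω : Finset (ZMod p)),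
      c4 * p ≤ (Ω.card : ℝ) → (∀ ω ∈ Ω, nr p ω ≤ κ ∧ nr p (τ * ω) ≤ κ) →
      ∃ (d b : ℤ), 1 ≤ d ∧ d ≤ K ∧ |b| ≤ K ∧ (d : ZMod p) * τ = (b : ZMod p) := by
  set D : ℕ := ⌈4 * κ / c4⌉₊ + 1 with hDdef
  set B : ℕ := ⌈16 * D * κ / c4⌉₊ + D with hBdef
  have hD1 : 1 ≤ D := by omega
  have hDr1 : (1 : ℝ) ≤ D := by exact_mod_cast hD1
  have hDlo : 4 * κ / c4 ≤ D := by
    rw [hDdef]; push_cast
    have := Nat.le_ceil (4 * κ / c4)
    linarith
  have hDhi : (D : ℝ) ≤ 4 * κ / c4 + 2 := by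
    rw [hDdef]; push_cast
    have := Nat.ceil_lt_add_one (by positivity : 0 ≤ 4 * κ / c4)
    linarith
  have hBlo : 16 * D * κ / c4 ≤ B := by
    rw [hBdef]; push_cast
    have := Nat.le_ceil (16 * D * κ / c4)
    linarith
  have hDB : D ≤ B := by omega
  refine ⟨max D B, max (⌊4 / c4⌋₊ + 1) (⌈4 * (2 * D * κ + 1) / c4⌉₊), ?_⟩
  intro p hp _ τ Ω hΩ hω
  have hp0 : (0 : ℝ) < p := by
    have : 0 < p := (Fact.out : p.Prime).pos
    exact_mod_cast this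
  have hpa : 4 / c4 < p := by
    have h3 : ⌊4 / c4⌋₊ + 1 ≤ p := (le_max_left _ _).trans hp
    have h4 := Nat.lt_floor_add_one (4 / c4)
    have h5 : ((⌊4 / c4⌋₊ + 1 : ℕ) : ℝ) ≤ p := by exact_mod_cast h3
    push_cast at h5
    linarith
  have hpb : 4 * (2 * D * κ + 1) / c4 ≤ p := by
    have h3 : ⌈4 * (2 * D * κ + 1) / c4⌉₊ ≤ p := (le_max_right _ _).trans hp
    exact Nat.ceil_le.1 h3
  have hω' : ∀ ω ∈ Ω, |(ω.valMinAbs : ℝ)| ≤ κ * p ∧ |((τ * ω).valMinAbs : ℝ)| ≤ κ * p := by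
    intro ω hω1
    have := hω ω hω1
    unfold nr at this
    rw [div_le_iff₀ hp0, div_le_iff₀ hp0] at this
    exact this
  obtain ⟨ω1, m1, ω2, m2, hd1, hdD⟩ := M5_block c4 κ hc hκ D (by
    rw [div_le_iff₀ hc] at hDlo; linarith) hD1 p hpa Ω hΩ (fun ω hω1 => (hω' ω hω1).1)
  set d := ω2.valMinAbs - ω1.valMinAbs with hd
  set b := (τ * ω2).valMinAbs - (τ * ω1).valMinAbs with hb
  have hdb : (d : ZMod p) * τ = (b : ZMod p) := by
    rw [hd, hb]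
    push_cast
    ring
  by_cases hbB : |b| ≤ (B : ℤ)
  · refine ⟨d, b, hd1, ?_, ?_, hdb⟩
    · have : (D : ℤ) ≤ ((max D B : ℕ) : ℤ) := by exact_mod_cast le_max_left _ _
      omega
    · have : (B : ℤ) ≤ ((max D B : ℕ) : ℤ) := by exact_mod_cast le_max_right _ _
      omega
  · exfalso
    push Not at hbB
    have hbr : (B : ℝ) < |(b : ℝ)| := by exact_mod_cast hbB
    have hb0 : 0 < |b| := by omega
    have hcount := M5_count κ hκ p τ Ω hω' D d b hd1 hdD hb0 hdb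
    have hb2 : |(b : ℝ)| ≤ 2 * κ * p := by
      have e1 : (b : ℝ) = ((τ * ω2).valMinAbs : ℝ) - (τ * ω1).valMinAbs := by
        rw [hb]; push_cast; rfl
      rw [e1]
      refine (abs_sub _ _).trans ?_
      have := (hω' ω2 m2).2
      have := (hω' ω1 m1).2
      linarith
    have hDBr : (D : ℝ) ≤ B := by exact_mod_cast hDB
    have hineq := M5_ineq c4 κ D B p |(b : ℝ)| hc hκ h1 h2 hDr1 hDhi hBlo hDBr (by linarith) hbr hb2
      hp0 hpb
    linarith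

end H31Z
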