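import Pool.Agent.Lib.H31Z.M4
import Pool.Agent.Lib.H31Z.M5

/-!
Chunk M6: the good indices.
-/

namespace H31Z

open Finset

/-- PROOF. `c2` from `M4_density`. Choose `ε1 ≤ 1` positive with
`sqrt ε1 ≤ c2^2 ε^(3/2)/8192` and `sqrt ε1 ≤ c2 ε/1024`; `κ = 2 sqrt (ε1/ε)`,
`c4 = (c2/2) sqrt ε1`. Then `κ^3 = 8 (ε1/ε)^(3/2) ≤ c4^2/256` and `κ^2 = 4 ε1/ε ≤ c4/128`, so
`M5_gap` gives `K, p0`. Let `N = |I|`, `T = TT p y I (ε1 N)`, `#T ≥ c2 sqrt ε1 p`, `p` a prime larger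
than all the `p0` and than `2 K |y_j|` for all `j ∈ I` (and `p > |y_j|`, so `y_j ≢ 0`).
`j ∈ I` is good if `∑_{θ ∈ T} nr(θ y_j)^2 ≤ (ε1/ε) #T`. As `∑_j ∑_{θ ∈ T} nr(θ y_j)^2 ≤ ε1 N #T`, the
number of bad `j` is at most `ε N`. Let `j0` be a good index (exists, as `ε < 1`, `N ≥ 1`) and
`j` any good index. By Markov `nr(θ y_j)^2 > 4 ε1/ε` for at most `#T/4` of the `θ ∈ T`, and the same
for `j0`; so `W = {θ ∈ T : nr(θ y_j) ≤ κ, nr(θ y_{j0}) ≤ κ}` has `#W ≥ #T/2 ≥ c4 p`. Put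
`Ω = {θ y_{j0} : θ ∈ W}` (injective image), `τ = y_j / y_{j0}` in `ZMod p`. `M5_gap` gives
`d τ = b`, so `d y_j = b y_{j0}` in `ZMod p`; since both sides are integers of absolute value
less than `p/2`, equality holds in `ℤ`. -/
theorem M6_good (c0 ε : ℝ) (hc0 : 0 < c0) (hε : 0 < ε) (hε1 : ε < 1) :
    ∃ K N0 : ℕ, ∀ (ι : Type) (I : Finset ι) (y : ι → ℤ), N0 ≤ I.card → (∀ j ∈ I, y j ≠ 0) →
      c0 / Real.sqrt I.card ≤ pz y I 0 →
      ∃ G ⊆ I, (1 - ε) * I.card ≤ (G.card : ℝ) ∧ ∃ j0 ∈ G, ∀ j ∈ G,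
        ∃ d b : ℤ, 1 ≤ d ∧ d ≤ K ∧ |b| ≤ K ∧ d * y j = b * y j0 := by
  obtain ⟨c2, hc2, H4⟩ := M4_density c0 hc0
  have hsε : 0 < Real.sqrt ε := Real.sqrt_pos.2 hε
  have hsε2 : Real.sqrt ε ^ 2 = ε := Real.sq_sqrt hε.le
  obtain ⟨e, he⟩ : ∃ e, e = Real.sqrt ε := ⟨_, rfl⟩
  rw [← he] at hsε hsε2
  obtain ⟨s, hs0, hs1, hs2, hs3⟩ : ∃ s : ℝ, 0 < s ∧ s ≤ 1 ∧ s ≤ c2 ^ 2 * e ^ 3 / 8192 ∧
      s ≤ c2 * e ^ 2 / 1024 := by
    refine ⟨min 1 (min (c2 ^ 2 * e ^ 3 / 8192) (c2 * e ^ 2 / 1024)), ?_, min_le_left _ _, ?_, ?_⟩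
    · refine lt_min one_pos (lt_min (by positivity) (by positivity))
    · exact (min_le_right _ _).trans (min_le_left _ _)
    · exact (min_le_right _ _).trans (min_le_right _ _)
  obtain ⟨κ, hκ⟩ : ∃ κ : ℝ, κ = 2 * s / e := ⟨_, rfl⟩
  have hκ0 : 0 < κ := by rw [hκ]; positivity
  have hκe : κ * e = 2 * s := by rw [hκ]; field_simp
  have hκ3 : κ ^ 3 ≤ (c2 / 2 * s) ^ 2 / 256 := by
    have h1 : κ ^ 3 * e ^ 3 = 8 * s ^ 3 := by
      rw [← mul_pow, hκe]; ring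
    have h2 : 0 < e ^ 3 := by positivity
    refine le_of_mul_le_mul_right ?_ h2
    rw [h1]
    nlinarith [mul_le_mul_of_nonneg_left hs2 (by positivity : 0 ≤ s ^ 2)]
  have hκ2 : κ ^ 2 ≤ (c2 / 2 * s) / 128 := by
    have h1 : κ ^ 2 * e ^ 2 = 4 * s ^ 2 := by
      rw [← mul_pow, hκe]; ring
    have h2 : 0 < e ^ 2 := by positivity
    refine le_of_mul_le_mul_right ?_ h2
    rw [h1]
    nlinarith [mul_le_mul_of_nonneg_left hs3 hs0.le]
  obtain ⟨K, p0, H5⟩ := M5_gap (c2 / 2 * s) κ (by positivity) hκ0 hκ3 hκ2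
  obtain ⟨N0, H⟩ := H4 (s ^ 2) (by positivity) (by nlinarith)
  refine ⟨K, N0 + 1, fun ι I y hN hy hp => ?_⟩
  obtain ⟨p1, H6⟩ := H ι I y (by omega) hy hp
  have hNpos : (0 : ℝ) < I.card := by exact_mod_cast (by omega : 0 < I.card)
  obtain ⟨Y, hY⟩ : ∃ Y : ℕ, ∀ j ∈ I, |y j| ≤ (Y : ℤ) := by
    refine ⟨∑ j ∈ I, (y j).natAbs, fun j hj => ?_⟩
    have h1 : (y j).natAbs ≤ ∑ j ∈ I, (y j).natAbs :=
      Finset.single_le_sum (f := fun j => (y j).natAbs) (fun i _ => Nat.zero_le _) hj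
    have h2 : ((y j).natAbs : ℤ) ≤ ((∑ j ∈ I, (y j).natAbs : ℕ) : ℤ) := by exact_mod_cast h1
    rwa [Int.natCast_natAbs] at h2
  obtain ⟨p, hpge, hpp⟩ := Nat.exists_infinite_primes (p0 + p1 + (2 * K * Y + Y) + 1)
  have : Fact p.Prime := ⟨hpp⟩
  have hT := H6 p (by omega)
  rw [Real.sqrt_sq hs0.le] at hT
  obtain ⟨T, hTd⟩ : ∃ T, T = TT p y I (s ^ 2 * I.card) := ⟨_, rfl⟩
  rw [← hTd] at hT
  have hpp0 : (0 : ℝ) < p := by exact_mod_cast hpp.pos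
  have hTpos : (0 : ℝ) < T.card := lt_of_lt_of_le (by positivity) hT
  have hTmem : ∀ θ ∈ T, ff p y I θ ≤ s ^ 2 * I.card := by
    intro θ hθ
    rw [hTd, TT, Finset.mem_filter] at hθ
    exact hθ.2
  classical
  obtain ⟨G, hG⟩ : ∃ G, G = I.filter (fun j => ∑ θ ∈ T, nr p (θ * (y j : ZMod p)) ^ 2 ≤ s ^ 2 / ε * T.card) := ⟨_, rfl⟩
  have hGI : G ⊆ I := by rw [hG]; exact Finset.filter_subset _ _
  have hbad : ((I \ G).card : ℝ) ≤ ε * I.card := by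
    have h1 : ∑ j ∈ I, ∑ θ ∈ T, nr p (θ * (y j : ZMod p)) ^ 2 ≤ s ^ 2 * I.card * T.card := by
      rw [Finset.sum_comm]
      calc ∑ θ ∈ T, ∑ j ∈ I, nr p (θ * (y j : ZMod p)) ^ 2 ≤ ∑ θ ∈ T, s ^ 2 * (I.card : ℝ) :=
            Finset.sum_le_sum fun θ hθ => hTmem θ hθ
        _ = s ^ 2 * I.card * T.card := by rw [Finset.sum_const, nsmul_eq_mul]; ring
    have h2 : ((I \ G).card : ℝ) * (s ^ 2 / ε * T.card) ≤ ∑ j ∈ I \ G, ∑ θ ∈ T, nr p (θ * (y j : ZMod p)) ^ 2 := by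
      rw [← nsmul_eq_mul, ← Finset.sum_const]
      refine Finset.sum_le_sum fun j hj => ?_
      rw [Finset.mem_sdiff, hG, Finset.mem_filter] at hj
      by_contra hcon
      exact hj.2 ⟨hj.1, (not_le.1 hcon).le⟩
    have h3 : ∑ j ∈ I \ G, ∑ θ ∈ T, nr p (θ * (y j : ZMod p)) ^ 2 ≤ ∑ j ∈ I, ∑ θ ∈ T, nr p (θ * (y j : ZMod p)) ^ 2 := by
      apply Finset.sum_le_sum_of_subset_of_nonneg Finset.sdiff_subset
      intro j _ _
      exact Finset.sum_nonneg fun θ _ => sq_nonneg _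
    have h4 : ((I \ G).card : ℝ) * (s ^ 2 / ε * T.card) ≤ (ε * I.card) * (s ^ 2 / ε * T.card) := by
      refine (h2.trans (h3.trans h1)).trans (le_of_eq ?_)
      have h5 : ε * (s ^ 2 / ε) = s ^ 2 := by field_simp
      linear_combination (-(I.card : ℝ) * T.card) * h5
    exact le_of_mul_le_mul_right h4 (mul_pos (div_pos (pow_pos hs0 2) hε) hTpos)
  have hGc : (1 - ε) * I.card ≤ (G.card : ℝ) := by
    have h1 := Finset.card_sdiff_add_card_eq_card hGI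
    have h2 : ((I \ G).card : ℝ) + G.card = I.card := by exact_mod_cast h1
    nlinarith
  have hGne : G.Nonempty := by
    rw [← Finset.card_pos]
    have h1 : (0 : ℝ) < G.card := lt_of_lt_of_le (mul_pos (by linarith) hNpos) hGc
    exact_mod_cast h1
  obtain ⟨j0, hj0⟩ := hGne
  refine ⟨G, hGI, hGc, j0, hj0, fun j hj => ?_⟩
  -- exceptional sets
  have hE : ∀ j ∈ G, ((T.filter (fun θ => ¬ nr p (θ * (y j : ZMod p)) ≤ κ)).card : ℝ) ≤ T.card / 4 := by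
    intro j hj
    rw [hG, Finset.mem_filter] at hj
    have h1 : ((T.filter (fun θ => ¬ nr p (θ * (y j : ZMod p)) ≤ κ)).card : ℝ) * κ ^ 2 ≤
        ∑ θ ∈ T.filter (fun θ => ¬ nr p (θ * (y j : ZMod p)) ≤ κ), nr p (θ * (y j : ZMod p)) ^ 2 := by
      rw [← nsmul_eq_mul, ← Finset.sum_const]
      refine Finset.sum_le_sum fun θ hθ => ?_
      rw [Finset.mem_filter] at hθ
      have h2 := not_le.1 hθ.2
      nlinarith
    have h2 : ∑ θ ∈ T.filter (fun θ => ¬ nr p (θ * (y j : ZMod p)) ≤ κ), nr p (θ * (y j : ZMod p)) ^ 2 ≤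
        ∑ θ ∈ T, nr p (θ * (y j : ZMod p)) ^ 2 :=
      Finset.sum_le_sum_of_subset_of_nonneg (Finset.filter_subset _ _) fun θ _ _ => sq_nonneg _
    have h3 : s ^ 2 / ε = κ ^ 2 / 4 := by
      have : κ ^ 2 * ε = 4 * s ^ 2 := by rw [← hsε2, ← mul_pow, hκe]; ring
      field_simp
      linarith
    have h4 := h1.trans (h2.trans hj.2)
    rw [h3] at h4
    have h5 : 0 < κ ^ 2 := by positivity
    refine le_of_mul_le_mul_right ?_ h5
    linarith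
  have hjz : ∀ j ∈ I, (y j : ZMod p) ≠ 0 := by
    intro j hj h0
    rw [ZMod.intCast_zmod_eq_zero_iff_dvd] at h0
    refine hy j hj (Int.eq_zero_of_abs_lt_dvd h0 ?_)
    have h1 := hY j hj
    have h2 : (Y : ℤ) < p := by exact_mod_cast (by omega : Y < p)
    omega
  obtain ⟨W, hW⟩ : ∃ W, W = T \ (T.filter (fun θ => ¬ nr p (θ * (y j : ZMod p)) ≤ κ) ∪
    T.filter (fun θ => ¬ nr p (θ * (y j0 : ZMod p)) ≤ κ)) := ⟨_, rfl⟩
  have hWc : c2 / 2 * s * p ≤ (W.card : ℝ) := by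
    have h1 := Finset.le_card_sdiff (T.filter (fun θ => ¬ nr p (θ * (y j : ZMod p)) ≤ κ) ∪
      T.filter (fun θ => ¬ nr p (θ * (y j0 : ZMod p)) ≤ κ)) T
    rw [← hW] at h1
    have h2 := Finset.card_union_le (T.filter (fun θ => ¬ nr p (θ * (y j : ZMod p)) ≤ κ))
      (T.filter (fun θ => ¬ nr p (θ * (y j0 : ZMod p)) ≤ κ))
    have h3 : T.card ≤ W.card + (T.filter (fun θ => ¬ nr p (θ * (y j : ZMod p)) ≤ κ)).card +
      (T.filter (fun θ => ¬ nr p (θ * (y j0 : ZMod p)) ≤ κ)).card := by omega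
    have h4 : (T.card : ℝ) ≤ W.card + (T.filter (fun θ => ¬ nr p (θ * (y j : ZMod p)) ≤ κ)).card +
      (T.filter (fun θ => ¬ nr p (θ * (y j0 : ZMod p)) ≤ κ)).card := by exact_mod_cast h3
    have h5 := hE j hj
    have h6 := hE j0 hj0
    linarith
  have hWm : ∀ θ ∈ W, nr p (θ * (y j : ZMod p)) ≤ κ ∧ nr p (θ * (y j0 : ZMod p)) ≤ κ := by
    intro θ hθ
    rw [hW, Finset.mem_sdiff, Finset.mem_union, Finset.mem_filter, Finset.mem_filter] at hθ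
    constructor
    · by_contra hcon
      exact hθ.2 (Or.inl ⟨hθ.1, hcon⟩)
    · by_contra hcon
      exact hθ.2 (Or.inr ⟨hθ.1, hcon⟩)
  have hy0 := hjz j0 (hGI hj0)
  have hinj : Function.Injective (fun θ : ZMod p => θ * (y j0 : ZMod p)) := fun a b hab =>
    mul_right_cancel₀ hy0 hab
  obtain ⟨d, b, hd1, hd2, hb, hdb⟩ := H5 p (by omega) ((y j : ZMod p) * (y j0 : ZMod p)⁻¹)
    (W.image (fun θ : ZMod p => θ * (y j0 : ZMod p)))
    (by rw [Finset.card_image_of_injective _ hinj]; exact hWc)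
    (by
      intro ω hω
      rw [Finset.mem_image] at hω
      obtain ⟨θ, hθ, rfl⟩ := hω
      refine ⟨(hWm θ hθ).2, ?_⟩
      have : (y j : ZMod p) * (y j0 : ZMod p)⁻¹ * (θ * (y j0 : ZMod p)) = θ * (y j : ZMod p) := by
        field_simp
      rw [this]
      exact (hWm θ hθ).1)
  refine ⟨d, b, hd1, hd2, hb, ?_⟩
  have h1 : ((d * y j - b * y j0 : ℤ) : ZMod p) = 0 := by
    push_cast
    rw [← hdb]
    field_simp
    ring
  rw [ZMod.intCast_zmod_eq_zero_iff_dvd] at h1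
  have h2 : |d * y j - b * y j0| < (p : ℤ) := by
    have h3 := abs_sub (d * y j) (b * y j0)
    rw [abs_mul, abs_mul, abs_of_pos (by omega : 0 < d)] at h3
    have h4 : d * |y j| ≤ K * Y := mul_le_mul hd2 (hY j (hGI hj)) (abs_nonneg _) (by positivity)
    have h5 : |b| * |y j0| ≤ K * Y := mul_le_mul hb (hY j0 (hGI hj0)) (abs_nonneg _) (by positivity)
    have h6 : (2 * (K * Y) : ℤ) < p := by
      have : 2 * (K * Y) < p := by
        have : 2 * K * Y = 2 * (K * Y) := by ring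
        omega
      exact_mod_cast this
    linarith
  have h3 := Int.eq_zero_of_abs_lt_dvd h1 h2
  linarith

end H31Z
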