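import Pool.Agent.Lib.H31Z.Defs

/-!
Chunk R1a.
-/

namespace H31Z

open Finset

/-- PROOF. Let `V = span_ℚ {x_i : i ∈ I}` in `ℝ`, a finite dimensional space over `ℚ`. The set `P`
of the nonzero sums `∑_{i ∈ B} x_i`, `B ⊆ I`, is finite. There is a `ℚ`-linear `φ : V → ℚ` with
`φ(v) ≠ 0` for all `v ∈ P`: the dual space over the infinite field `ℚ` is not a finite union of the
proper subspaces `{φ : φ(v) = 0}` (Mathlib: `Subspace.biUnion_ne_univ_of_top_notMem` or
`Module.exists_dual_forall_apply_ne_zero`-like lemmas; or directly: take a basis `e_1..e_m` of `V`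
and `φ(e_i) = q^i` with an integer `q` that is not a root of finitely many nonzero polynomials).
Multiply `φ(x_i)` by a common denominator to get integers `y_i` (`y_i = 0` outside `I`). -/
theorem R1_int {ι : Type*} (I : Finset ι) (x : ι → ℝ) :
    ∃ y : ι → ℤ, ∀ B ⊆ I, (∑ i ∈ B, x i = 0 ↔ ∑ i ∈ B, y i = 0) := by
  classical
  obtain ⟨f, hf⟩ := Module.exists_dual_forall_apply_ne_zero (K := ℚ) (M := ℝ)
    (ι := {B : Finset ι // B ∈ I.powerset.filter fun B => ∑ i ∈ B, x i ≠ 0}) (fun B => ∑ i ∈ B.1, x i)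
    (fun B => (Finset.mem_filter.1 B.2).2)
  obtain ⟨b, hb⟩ := IsLocalization.exist_integer_multiples (nonZeroDivisors ℤ) I (fun i => f (x i))
  have hb0 : ((b : ℤ) : ℚ) ≠ 0 := by exact_mod_cast nonZeroDivisors.coe_ne_zero b
  have hy : ∀ i, ∃ z : ℤ, i ∈ I → (z : ℚ) = (b : ℤ) * f (x i) := by
    intro i
    by_cases hi : i ∈ I
    · obtain ⟨z, hz⟩ := hb i hi
      refine ⟨z, fun _ => ?_⟩
      rw [zsmul_eq_mul] at hz
      exact hz
    · exact ⟨0, fun h => absurd h hi⟩
  choose y hy using hy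
  refine ⟨y, fun B hB => ?_⟩
  have h1 : ((∑ i ∈ B, y i : ℤ) : ℚ) = (b : ℤ) * f (∑ i ∈ B, x i) := by
    push_cast
    rw [map_sum, Finset.mul_sum]
    exact Finset.sum_congr rfl fun i hi => hy i (hB hi)
  constructor
  · intro h
    rw [h, map_zero, mul_zero] at h1
    exact_mod_cast h1
  · intro h
    by_contra h0
    rw [h, Int.cast_zero] at h1
    have h2 := (mul_eq_zero.1 h1.symm).resolve_left hb0
    exact hf ⟨B, Finset.mem_filter.2 ⟨Finset.mem_powerset.2 hB, h0⟩⟩ h2

end H31Z
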