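import Pool.Agent.Lib.H31Z.U3
import Pool.Agent.Lib.H31Z.U5
import Pool.Agent.Lib.H31Z.CB
import Pool.Agent.Lib.H31Z.A1
import Pool.Agent.Lib.H31Z.A2
import Pool.Agent.Lib.H31Z.A9
import Pool.Agent.Lib.H31Z.A10

/-!
Chunk TA1.
-/

namespace H31Z

open Finset

/-- `a sqrt X ≤ b / sqrt Y` from the squares -/
theorem ta1_root {a b X Y : ℝ} (ha : 0 ≤ a) (hb : 0 ≤ b) (hX : 0 ≤ X) (hY : 0 < Y)
    (h : a ^ 2 * X * Y ≤ b ^ 2) : a * Real.sqrt X ≤ b / Real.sqrt Y := by
  rw [le_div_iff₀ (Real.sqrt_pos.2 hY)]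
  have h1 : a * Real.sqrt X * Real.sqrt Y = Real.sqrt (a ^ 2 * X * Y) := by
    rw [Real.sqrt_mul (by positivity), Real.sqrt_mul (by positivity), Real.sqrt_sq ha]
  rw [h1]
  calc Real.sqrt (a ^ 2 * X * Y) ≤ Real.sqrt (b ^ 2) := Real.sqrt_le_sqrt h
    _ = b := Real.sqrt_sq hb

/-- The crossing case for even `r` prime to `3`. PROOF. Let `ηS, n0` be from `A10_final`, `η ≤ 1/1000` with
`50 η ≤ ηS`, `K1, δ, n1` from `U3_dich η`, `κ = 2`. `U3_prep` gives `I, y` with `ZZ n x = 2^n P`,
`P = pz y I 0`. Let `G = GJ (sA n r).1 (sA n r).2 0`; by `A9_val` it is enough to show `P ≤ G`; suppose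
`P > G ≥ (1 - 0.4/n)/sqrt(πn)` (`A7_val`). `r < |B| ≤ |I|` and `n < |I| + r`, so `N = |I| > n/2`.
FIRST alternative of `U3_dich`: `P < (1/4)/√N < 0.36/√n < G` is impossible; so
`N ≥ (1-η) min (2r) (2(n-r))`, together with `N > r`, `N > n - r`: `N ≥ (1-η)(2/3) n` (if `2r ≤ n`: either
`n - r ≥ 2n/3` or `2r ≥ 2n/3`; if `2r > n`: `r ≥ 2n/3` or `2(n-r) ≥ 2n/3`). So
`P ≤ (1/2+η) sqrt (3/(π(1-η)n)) ≤ 0.88/sqrt(πn) < G`. Contradiction.
SECOND alternative: `A1_struct` (`|I| ≤ n`) gives `ς`. Let `h = ς g ≠ 0`, `x' i = y i/h` for `i ∈ I` and `0`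
outside `I`. Then `x'` has the same zero-sum sets as `x`: for `B ⊆ univ`, `∑_B x' = 0` iff
`∑_{B ∩ I} y = 0` iff `∑_{B ∩ I} x = 0` iff `∑_B x = 0`. So `pn x' univ 0 = P` and `x'` is `r`-admissible.
`A2_int` (`50η ≤ 1/100`): `x' = z` integral, `Near ηS z`, and `A10_final` gives `P ≤ G`. -/
theorem TA_cross : ∃ n0 : ℕ, ∀ (n r : ℕ), n0 ≤ n → 1 ≤ r → Even r → ¬ 3 ∣ r → 9 * r ≤ 8 * n →
    ∀ x : Fin n → ℝ, Adm n r x →
      (∃ B : Finset (Fin n), (∀ i ∈ B, x i ≠ 0) ∧ ∑ i ∈ B, x i = 0 ∧ r < B.card) →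
      ZZ n x ≤ Aval n r := by
  classical
  obtain ⟨ηS, hηS, nA, hA⟩ := A10_final
  obtain ⟨nI, hI2⟩ := A2_int
  obtain ⟨n7, h7⟩ := A7_val
  obtain ⟨η, hη, hη4, hηS'⟩ : ∃ η : ℝ, 0 < η ∧ η ≤ 1 / 10000 ∧ 50 * η ≤ ηS := by
    refine ⟨min (1 / 10000) (ηS / 100), lt_min (by norm_num) (by positivity), min_le_left _ _, ?_⟩
    have := min_le_right (1 / 10000 : ℝ) (ηS / 100)
    linarith
  obtain ⟨K1, δ, nU, hK1, hδ, hU⟩ := U3_dich η hη (by linarith)
  obtain ⟨n2, hn2⟩ := exists_nat_ge ((2 * (K1 : ℝ) + 1) / η)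
  refine ⟨nA + nI + n7 + nU + n2 + 100, ?_⟩
  intro n r hn hr hev h3 hr9 x0 hx0 hcross
  have hpi := Real.pi_pos
  have hpi3 := Real.pi_gt_three
  obtain ⟨I, y, hImem, hiff, hy, hS, hZ, hIr⟩ := U3_prep n r hr (by omega) x0 hx0
  have hrI : r < I.card := by
    obtain ⟨B, hB0, -, hBr⟩ := hcross
    exact lt_of_lt_of_le hBr (Finset.card_le_card (fun i hi => (hImem i).2 (hB0 i hi)))
  have hIn : I.card ≤ n := by simpa using Finset.card_le_univ I
  obtain ⟨-, hAv⟩ := A9_val n r (by omega) h3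
  obtain ⟨g1, -⟩ := h7 n r (by omega) h3
  have hn0 : 1 ≤ n := by omega
  have hn1R : (0 : ℝ) < (n : ℝ) := by exact_mod_cast hn0
  have hn100 : (100 : ℝ) ≤ (n : ℝ) := by exact_mod_cast (by omega : 100 ≤ n)
  have hbig : 2 * (K1 : ℝ) + 1 ≤ η * n := by
    have h1 : (n2 : ℝ) ≤ (n : ℝ) := by exact_mod_cast (by omega : n2 ≤ n)
    have h2 := hn2.trans h1
    rw [div_le_iff₀ hη] at h2
    linarith
  suffices hfin : pz y I 0 ≤ GJ (sA n r).1 (sA n r).2 0 by
    have h1 : (ZZ n x0 : ℝ) ≤ (Aval n r : ℝ) := by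
      rw [hZ, hAv]
      exact mul_le_mul_of_nonneg_left hfin (by positivity)
    exact_mod_cast h1
  by_contra hcon
  have hPG := not_le.1 hcon
  have hP1 : 1 / Real.sqrt (Real.pi * n) * (1 - (4 / 10) / n) < pz y I 0 := lt_of_le_of_lt g1 hPG
  have hsn : 0 < Real.sqrt (Real.pi * n) := Real.sqrt_pos.2 (by positivity)
  have hP9 : (9 / 10) / Real.sqrt (Real.pi * n) < pz y I 0 := by
    refine lt_of_le_of_lt ?_ hP1
    have h1 : (4 / 10 : ℝ) / n ≤ 1 / 10 := by
      rw [div_le_iff₀ hn1R]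
      linarith
    have h2 : (9 / 10 : ℝ) / Real.sqrt (Real.pi * n) = 1 / Real.sqrt (Real.pi * n) * (9 / 10) := by
      ring
    rw [h2]
    exact mul_le_mul_of_nonneg_left (by linarith) (by positivity)
  have hNR : (n : ℝ) < (I.card : ℝ) + r := by exact_mod_cast hIr
  have hrR : (r : ℝ) < (I.card : ℝ) := by exact_mod_cast hrI
  have hN2 : (n : ℝ) / 2 < (I.card : ℝ) := by linarith
  have hN0 : (0 : ℝ) < (I.card : ℝ) := by linarith
  rcases hU n r 2 (by omega) hr hr9 (by norm_num) (fun h h1 h2 => by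
      have : h = 2 := by omega
      rw [this]
      exact hev.two_dvd) I y hy hS hIr with ⟨hhalf, halt⟩ | ⟨hKI, L, g, w, hB, hpr⟩
  · -- first alternative
    rcases halt with h1 | h1
    · have h2 : (1 / 4) / Real.sqrt (I.card : ℝ) ≤ (9 / 10) / Real.sqrt (Real.pi * n) := by
        rw [div_le_div_iff₀ (Real.sqrt_pos.2 hN0) hsn]
        have h3 : Real.sqrt (Real.pi * n) ≤ Real.sqrt (12 * (I.card : ℝ)) := by
          apply Real.sqrt_le_sqrt
          nlinarith [Real.pi_lt_four]
        have h4 : Real.sqrt (12 * (I.card : ℝ)) ≤ (36 / 10) * Real.sqrt (I.card : ℝ) := by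
          rw [Real.sqrt_mul (by norm_num)]
          apply mul_le_mul_of_nonneg_right _ (Real.sqrt_nonneg _)
          rw [Real.sqrt_le_left (by norm_num)]
          norm_num
        linarith
      linarith
    · have h23 : (1 - η) * (2 / 3 * (n : ℝ)) ≤ (I.card : ℝ) := by
        by_cases c1 : 2 / 3 * (n : ℝ) ≤ (I.card : ℝ)
        · nlinarith
        · refine le_trans (mul_le_mul_of_nonneg_left ?_ (by linarith)) h1
          have c2 : (I.card : ℝ) < 2 / 3 * (n : ℝ) := not_le.1 c1
          exact le_min (by linarith) (by linarith)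
      have h2 : (1 / 2 + η) * Real.sqrt (2 / (Real.pi * I.card)) ≤
          (9 / 10) / Real.sqrt (Real.pi * n) := by
        apply ta1_root (by positivity) (by norm_num) (by positivity) (by positivity)
        have h3 : (1 / 2 + η) ^ 2 * (2 / (Real.pi * I.card)) * (Real.pi * n) =
            (1 / 2 + η) ^ 2 * 2 * (n / I.card) := by
          field_simp
        rw [h3]
        have h4 : (n : ℝ) / I.card ≤ 1501 / 1000 := by
          rw [div_le_iff₀ hN0]
          nlinarith
        have h5 : (1 / 2 + η) ^ 2 ≤ 26 / 100 := by nlinarith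
        have h6 : (0 : ℝ) ≤ (n : ℝ) / I.card := by positivity
        nlinarith
      linarith
  · -- second alternative
    have hKn : 2 * (K1 : ℝ) ≤ η * (n : ℝ) := by linarith
    have hP : (1 - η) / Real.sqrt (Real.pi * n) ≤ pz y I 0 := by
      refine le_trans ?_ hP1.le
      have h1 : (4 / 10 : ℝ) / n ≤ η := by
        rw [div_le_iff₀ hn1R]
        have : (0 : ℝ) ≤ (K1 : ℝ) := Nat.cast_nonneg _
        linarith
      have h2 : (1 - η) / Real.sqrt (Real.pi * n) = 1 / Real.sqrt (Real.pi * n) * (1 - η) := by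
        ring
      rw [h2]
      exact mul_le_mul_of_nonneg_left (by linarith) (by positivity)
    obtain ⟨ς, hς, hc1, hc2⟩ := A1_struct η hη (by linarith) K1 δ n I y L g w hB hIn hKI hKn hn0 hP
      (fun i hi j hj h1 h2 => by exact_mod_cast hpr i hi j hj h1 h2)
    have hς0 : ς ≠ 0 := by rcases hς with h | h <;> rw [h] <;> norm_num
    have hh0 : ς * g ≠ 0 := mul_ne_zero hς0 hB.g0
    obtain ⟨h, hhd⟩ : ∃ h, h = ς * g := ⟨_, rfl⟩
    rw [← hhd] at hc1 hc2 hh0
    have hhR : (h : ℝ) ≠ 0 := by exact_mod_cast hh0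
    let x : Fin n → ℝ := fun i => if i ∈ I then (y i : ℝ) / h else 0
    have hxI : ∀ i ∈ I, x i = (y i : ℝ) / h := by
      intro i hi; simp [x, hi]
    have hxO : ∀ i, i ∉ I → x i = 0 := by
      intro i hi; simp [x, hi]
    have hyx : ∀ i ∈ I, (y i : ℝ) = (h : ℝ) * x i := by
      intro i hi; rw [hxI i hi]; field_simp
    have hkey : ∀ (a : ℤ), a ≠ 0 → ∀ i, x i = (a : ℝ) ↔ i ∈ I ∧ y i = a * h := by
      intro a ha i
      by_cases hi : i ∈ I
      · rw [hxI i hi, div_eq_iff hhR]
        constructor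
        · intro h1
          exact ⟨hi, by exact_mod_cast h1⟩
        · rintro ⟨_, h1⟩
          rw [h1]; push_cast; ring
      · rw [hxO i hi]
        constructor
        · intro h1
          exact absurd h1.symm (by exact_mod_cast ha)
        · rintro ⟨h1, _⟩
          exact absurd h1 hi
    have hf1 : Finset.univ.filter (fun i => x i = 1) = I.filter (fun j => (y j : ℤ) = h) := by
      ext i
      simp only [Finset.mem_filter, Finset.mem_univ, true_and]
      have h1 := hkey 1 one_ne_zero i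
      push_cast at h1
      rw [one_mul] at h1
      exact h1
    have hfp : Finset.univ.filter (fun i => x i = -2) =
        I.filter (fun j => (y j : ℤ) = -2 * h) := by
      ext i
      simp only [Finset.mem_filter, Finset.mem_univ, true_and]
      have h1 := hkey (-2) (by norm_num) i
      push_cast at h1
      exact h1
    have hpn : pn x Finset.univ 0 = pz y I 0 := by
      have h1 : pn x (I ∪ (Finset.univ \ I)) 0 = pn x I 0 :=
        F2_zeros x I (Finset.univ \ I) Finset.disjoint_sdiff (fun j hj =>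
          hxO j (Finset.mem_sdiff.mp hj).2) 0
      rw [Finset.union_sdiff_of_subset (Finset.subset_univ I)] at h1
      rw [h1, ← F2_scale x (fun i => (y i : ℝ)) I h hhR hyx]
      have h2 := F2_cast (fun i => (y i : ℝ)) y I (fun _ _ => rfl) 0
      rw [Int.cast_zero] at h2
      exact h2
    have hηn : 0 < η * n := by positivity
    have hηS1 : 50 * η * n ≤ ηS * n := mul_le_mul_of_nonneg_right hηS' hn1R.le
    have hηS2 : 50 * η * n ≤ 1 / 100 * n := by
      have : 50 * η ≤ 1 / 100 := by linarith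
      exact mul_le_mul_of_nonneg_right this hn1R.le
    obtain ⟨z, hz⟩ := hI2 n (by omega) x
      (by rw [hf1, hfp]; linarith)
      (by rw [hf1, hfp]; linarith)
      (by
        rw [hpn]
        exact hP9.le)
    have hca : ∀ a : ℤ, a ≠ 0 → ca z a = (I.filter (fun j => (y j : ℤ) = a * h)).card := by
      intro a ha
      unfold ca
      congr 1
      ext i
      simp only [Finset.mem_filter, Finset.mem_univ, true_and]
      rw [← hkey a ha i, hz i]
      constructor
      · intro h1; rw [h1]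
      · intro h1; exact_mod_cast h1
    have hca1 := hca 1 one_ne_zero
    rw [one_mul] at hca1
    have hcap := hca (-2) (by norm_num)
    have hnear : Near ηS z := by
      refine ⟨?_, ?_⟩
      · rw [hca1, hcap]; linarith
      · rw [hca1, hcap]; linarith
    have hadm : ∀ S : Finset (Fin n), S.card = r → ∑ i ∈ S, z i ≠ 0 := by
      intro S hSr hS0
      have h1 : ∑ i ∈ S, x i = 0 := by
        have h2 : ∑ i ∈ S, x i = ((∑ i ∈ S, z i : ℤ) : ℝ) := by
          rw [Int.cast_sum]
          exact Finset.sum_congr rfl fun i _ => hz i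
        rw [h2, hS0, Int.cast_zero]
      have h3 : ∑ i ∈ S ∩ I, x i = 0 := by
        rw [← h1]
        apply Finset.sum_subset Finset.inter_subset_left
        intro i hi hni
        apply hxO
        intro hI
        exact hni (Finset.mem_inter.mpr ⟨hi, hI⟩)
      have h4 : ∑ i ∈ S ∩ I, y i = 0 := by
        have h5 : ((∑ i ∈ S ∩ I, y i : ℤ) : ℝ) = h * ∑ i ∈ S ∩ I, x i := by
          rw [Int.cast_sum, Finset.mul_sum]
          exact Finset.sum_congr rfl fun i hi => hyx i (Finset.mem_inter.mp hi).2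
        rw [h3, mul_zero] at h5
        exact_mod_cast h5
      have h6 : (S ∩ I).card ≤ r := by
        rw [← hSr]; exact Finset.card_le_card Finset.inter_subset_left
      have h7 : r ≤ (S ∩ I).card + (n - I.card) := by
        have h8 : (S \ I).card ≤ n - I.card := by
          have h9 : (S \ I).card ≤ (Finset.univ \ I).card :=
            Finset.card_le_card (Finset.sdiff_subset_sdiff (Finset.subset_univ S) (Finset.Subset.refl I))
          rw [Finset.card_sdiff_of_subset (Finset.subset_univ I), Finset.card_univ, Fintype.card_fin] at h9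
          exact h9
        have h10 := Finset.card_inter_add_card_sdiff S I
        omega
      rcases hS (S ∩ I) Finset.inter_subset_right h4 with h11 | h11 <;> omega
    have hfin := hA n r (by omega) hev h3 hr9 z hnear hadm
    have hpz : pz z Finset.univ 0 = pz y I 0 := by
      rw [← hpn]
      have h2 := F2_cast x z Finset.univ (fun i _ => hz i) 0
      rw [Int.cast_zero] at h2
      exact h2.symm
    rw [hpz] at hfin
    linarith

end H31Z
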