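import Pool.Agent.Lib.H31Z.U3
import Pool.Agent.Lib.H31Z.U5
import Pool.Agent.Lib.H31Z.LB1
import Pool.Agent.Lib.H31Z.LB2

/-!
Chunk TB: theorem B, the asymptotic formula for all `r`.
-/

namespace H31Z

open Finset

/-- `1` if `r` is odd, `2` if `r` is even and not divisible by `3`, `3` if `6 ∣ r` and `4 ∤ r`, `4` if
`12 ∣ r`. -/
def kap (r : ℕ) : ℕ := if ¬ 2 ∣ r then 1 else if ¬ 3 ∣ r then 2 else if ¬ 4 ∣ r then 3 else 4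

/-- the main term -/
noncomputable def Fmain (n r : ℕ) : ℝ :=
  2 ^ n * max (Real.sqrt (2 / (Real.pi * kap r * n)))
    (1 / 2 * Real.sqrt (2 / (Real.pi * Mval n r)))

/-- PROOF. If `9 r ≤ 8 n`: `U3_upper` with `κ = kap r` (`2 ≤ h ≤ κ` implies `h ∣ r`: `κ = 2`: `2 ∣ r`; `κ = 3`:
`2, 3 ∣ r`; `κ = 4`: `2, 3, 4 ∣ r`) and `n ≥ s0 ≥ n1`. Otherwise `9 r > 8 n`, `k = n - r + 1`,
`n ≥ 9k - 8` and for `k ≥ 9` (as `n - r ≥ s0`) `8 k + 1 ≤ n`: `U5_near` gives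
`ZZ ≤ Vval = 2^(n-2k) (1 + C(2k-1,k)) ≤ 2^n (4^(-k) + 1/(2 sqrt (π k))) ≤ (1+η) 2^n (1/2) sqrt (2/(π 2(n-r)))`
by `CB_upper`, and here `Mval n r = 2 (n - r)`. -/
theorem TB_upper (η : ℝ) (hη : 0 < η) :
    ∃ s0 : ℕ, ∀ (n r : ℕ), 1 ≤ r → r + s0 ≤ n → ∀ x : Fin n → ℝ, Adm n r x →
      (ZZ n x : ℝ) ≤ (1 + η) * Fmain n r := by
  sorry

/-- PROOF. Both lower bounds: `LB2_heavy` for the second term. For the first one, if `kap r ≤ 3`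
`LB1_lattice` with `κ = kap r` (`κ + 1 ∤ r`); if `kap r = 4` then
`sqrt (2/(π 4 n)) = (1/2) sqrt (2/(πn)) ≤ (1/2) sqrt (2/(π Mval))` because `Mval n r ≤ n`
(`n - r ≤ n`, and `min (2r) (2(n-r)) ≤ n`), so the second term is the maximum. -/
theorem TB_lower (η : ℝ) (hη : 0 < η) :
    ∃ s0 : ℕ, ∀ (n r : ℕ), 1 ≤ r → r + s0 ≤ n → ∃ x : Fin n → ℝ, Adm n r x ∧
      (1 - η) * Fmain n r ≤ (ZZ n x : ℝ) := by
  sorry

end H31Z
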