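import Pool.Agent.Lib.H31Z.U1a

set_option autoImplicit false

/-!
Chunk U1b.
-/

namespace H31Z

open Finset

theorem U1b_star {ι : Type*} (η : ℝ) (K1 : ℕ) (δ : ℝ)
    (I : Finset ι) (y : ι → ℤ) (L : Finset ι) (g : ℤ) (w : ι → ℤ) (hB : Bal η K1 δ I y L g w)
    (c r : ℕ) (hS : Star y I c r) {i j : ι} (hi : i ∈ VA w L K1 δ I.card)
    (hj : j ∈ VA w L K1 δ I.card) (hip : 0 < w i) (hjn : w j < 0) (m : ℕ)
    (hm : ((w i).natAbs + (w j).natAbs) / Nat.gcd (w i).natAbs (w j).natAbs ∣ m)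
    (hm1 : (m : ℝ) ≤ (1 - η) * (I.card : ℝ)) : m + c < r ∨ r < m := by
  obtain ⟨B, hBL, hBs, hBc⟩ := hB.real i hi j hj hip hjn m hm hm1
  have h1 : ∑ k ∈ B, y k = 0 := by
    calc ∑ k ∈ B, y k = ∑ k ∈ B, g * w k :=
          Finset.sum_congr rfl fun k hk => (hB.eqn k (hBL hk)).1
      _ = g * ∑ k ∈ B, w k := by rw [Finset.mul_sum]
      _ = 0 := by rw [hBs, mul_zero]
  have h2 := hS B (hBL.trans hB.sub) h1
  rw [hBc] at h2
  exact h2

/-- the case of large r -/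
theorem U1b_large {η : ℝ} (hη : 0 < η) (hη1 : η ≤ 1 / 100) {N c r h : ℕ} (hh : 0 < h)
    (hhN : (h : ℝ) ≤ η * N) (hr : 9 * r ≤ 8 * (N + c)) (hrN : (1 - η) * (N : ℝ) < r)
    (hst : ∀ m : ℕ, h ∣ m → (m : ℝ) ≤ (1 - η) * (N : ℝ) → m + c < r ∨ r < m) : False := by
  have hh' : (0 : ℝ) < h := by exact_mod_cast hh
  have hN0 : (0 : ℝ) ≤ N := Nat.cast_nonneg N
  set t : ℕ := ⌊(1 - η) * (N : ℝ) / h⌋₊ with ht
  have hq : 0 ≤ (1 - η) * (N : ℝ) / h := by
    have : 0 ≤ 1 - η := by linarith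
    positivity
  have h1 : (t : ℝ) ≤ (1 - η) * (N : ℝ) / h := Nat.floor_le hq
  have h2 : (1 - η) * (N : ℝ) / h < t + 1 := Nat.lt_floor_add_one _
  have h3 : ((h * t : ℕ) : ℝ) ≤ (1 - η) * (N : ℝ) := by
    push_cast
    rw [le_div_iff₀ hh'] at h1
    linarith
  have h4 : (1 - η) * (N : ℝ) < ((h * t : ℕ) : ℝ) + h := by
    push_cast
    rw [div_lt_iff₀ hh'] at h2
    linarith
  rcases hst (h * t) (Dvd.intro t rfl) h3 with h5 | h5
  · have h6 : ((h * t : ℕ) : ℝ) + c < r := by exact_mod_cast h5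
    have h7 : 9 * (r : ℝ) ≤ 8 * ((N : ℝ) + c) := by exact_mod_cast hr
    have h8 : (0 : ℝ) ≤ c := Nat.cast_nonneg c
    have hNpos : (0 : ℝ) < N := by
      rcases hN0.lt_or_eq with h | h
      · exact h
      · rw [← h] at hhN
        linarith
    nlinarith
  · have h6 : (r : ℝ) < ((h * t : ℕ) : ℝ) := by exact_mod_cast h5
    linarith

theorem U1_pairs {ι : Type*} (η : ℝ) (hη : 0 < η) (hη1 : η ≤ 1 / 100) (K1 : ℕ) (δ : ℝ)
    (I : Finset ι) (y : ι → ℤ) (L : Finset ι) (g : ℤ) (w : ι → ℤ) (hB : Bal η K1 δ I y L g w)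
    (hI : 4 ≤ η * I.card) (c r κ : ℕ) (hS : Star y I c r) (hr : 9 * r ≤ 8 * (I.card + c))
    (hκ4 : κ ≤ 4) (hκ : ∀ h : ℕ, 2 ≤ h → h ≤ κ → h ∣ r) :
    ∀ i ∈ VA w L K1 δ I.card, ∀ j ∈ VA w L K1 δ I.card, 0 < w i → w j < 0 →
      (κ : ℤ) ≤ w i * (-w j) := by
  intro i hi j hj hip hjn
  by_contra hcon
  push Not at hcon
  have hst := U1b_star η K1 δ I y L g w hB c r hS hi hj hip hjn
  set a : ℕ := (w i).natAbs with ha
  set b : ℕ := (w j).natAbs with hb
  have ha1 : 0 < a := by omega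
  have hb1 : 0 < b := by omega
  have hab : a * b < κ := by
    have h1 : ((a * b : ℕ) : ℤ) = w i * (-w j) := by
      push_cast
      rw [ha, hb]
      have h2 : ((w i).natAbs : ℤ) = w i := by omega
      have h3 : ((w j).natAbs : ℤ) = -w j := by omega
      rw [h2, h3]
    have h2 : ((a * b : ℕ) : ℤ) < (κ : ℤ) := by rw [h1]; exact hcon
    exact_mod_cast h2
  obtain ⟨a', ha'⟩ := Nat.gcd_dvd_left a b
  obtain ⟨b', hb'⟩ := Nat.gcd_dvd_right a b
  have he : 0 < Nat.gcd a b := Nat.gcd_pos_of_pos_left b ha1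
  set e := Nat.gcd a b with hedef
  have ha'1 : 0 < a' := by
    rcases Nat.eq_zero_or_pos a' with h | h
    · rw [h, mul_zero] at ha'
      omega
    · exact h
  have hb'1 : 0 < b' := by
    rcases Nat.eq_zero_or_pos b' with h | h
    · rw [h, mul_zero] at hb'
      omega
    · exact h
  have hh : (a + b) / e = a' + b' := by
    rw [ha', hb', ← Nat.mul_add]
    exact Nat.mul_div_cancel_left _ he
  rw [hh] at hst
  have h1 : a' + b' ≤ a' * b' + 1 := by
    obtain ⟨s, rfl⟩ := Nat.exists_eq_add_of_lt ha'1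
    obtain ⟨t, rfl⟩ := Nat.exists_eq_add_of_lt hb'1
    nlinarith [Nat.zero_le (s * t)]
  have h2 : a' * b' ≤ a * b := by
    have h3 : a' ≤ a := by
      rw [ha']
      exact Nat.le_mul_of_pos_left _ he
    have h4 : b' ≤ b := by
      rw [hb']
      exact Nat.le_mul_of_pos_left _ he
    exact Nat.mul_le_mul h3 h4
  have h3 : 2 ≤ a' + b' := by omega
  have h4 : a' + b' ≤ κ := by omega
  have h5 := hκ (a' + b') h3 h4
  by_cases hrN : (r : ℝ) ≤ (1 - η) * (I.card : ℝ)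
  · rcases hst r h5 hrN with h6 | h6 <;> omega
  · push Not at hrN
    refine U1b_large hη hη1 (N := I.card) (c := c) (r := r) (h := a' + b') (by omega) ?_ hr hrN hst
    have h6 : ((a' + b' : ℕ) : ℝ) ≤ 4 := by
      have : a' + b' ≤ 4 := by omega
      exact_mod_cast this
    linarith

theorem U1_zeros {ι : Type*} (η : ℝ) (hη : 0 < η) (hη1 : η ≤ 1 / 100) (K1 : ℕ) (δ : ℝ)
    (I : Finset ι) (y : ι → ℤ) (L : Finset ι) (g : ℤ) (w : ι → ℤ) (hB : Bal η K1 δ I y L g w)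
    (hI0 : 0 < I.card) (hI : 2 * (K1 : ℝ) ≤ η * I.card) (c r : ℕ) (hS : Star y I c r)
    (hr : 9 * r ≤ 8 * (I.card + c)) : c < 2 * K1 := by
  classical
  by_contra hcon
  push Not at hcon
  obtain ⟨⟨i, hi, hip⟩, ⟨j, hj, hjn⟩⟩ := U1_signs η hη (by linarith) K1 δ I y L g w hB hI0
  have hst := U1b_star η K1 δ I y L g w hB c r hS hi hj hip hjn
  have hK : ∀ k ∈ VA w L K1 δ I.card, (w k).natAbs ≤ K1 := by
    intro k hk
    unfold VA at hk
    rw [Finset.mem_filter] at hk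
    have := hk.2.1
    rw [abs_le] at this
    omega
  have hKi := hK i hi
  have hKj := hK j hj
  set a : ℕ := (w i).natAbs with ha
  set b : ℕ := (w j).natAbs with hb
  have ha1 : 0 < a := by omega
  have hb1 : 0 < b := by omega
  set h := (a + b) / Nat.gcd a b with hh
  have he : 0 < Nat.gcd a b := Nat.gcd_pos_of_pos_left b ha1
  have hhpos : 0 < h := by
    rw [hh]
    refine Nat.div_pos ?_ he
    have := Nat.gcd_le_left b ha1
    omega
  have hhle : h ≤ 2 * K1 := by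
    have : h ≤ a + b := Nat.div_le_self _ _
    omega
  have hcr : c < r := by
    have h1 := hS ∅ (Finset.empty_subset _) (by simp)
    rw [Finset.card_empty] at h1
    omega
  by_cases hrN : (r : ℝ) ≤ (1 - η) * (I.card : ℝ)
  · have h1 : h * (r / h) ≤ r := Nat.mul_div_le r h
    have h2 : r < h * (r / h) + h := by
      have := Nat.lt_mul_div_succ r hhpos
      rw [Nat.mul_add, mul_one] at this
      exact this
    have h3 : ((h * (r / h) : ℕ) : ℝ) ≤ (1 - η) * (I.card : ℝ) := by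
      have : ((h * (r / h) : ℕ) : ℝ) ≤ r := by exact_mod_cast h1
      linarith
    rcases hst (h * (r / h)) (Dvd.intro _ rfl) h3 with h4 | h4 <;> omega
  · push Not at hrN
    refine U1b_large hη hη1 (N := I.card) (c := c) (r := r) (h := h) hhpos ?_ hr hrN hst
    have h1 : (h : ℝ) ≤ 2 * K1 := by exact_mod_cast hhle
    linarith

end H31Z
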