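import Pool.Agent.Lib.H31Z.Defs

set_option autoImplicit false

/-!
Chunk U1a.
-/

namespace H31Z

open Finset

theorem U1a_sub {ι : Type*} (w : ι → ℤ) (L : Finset ι) (K1 : ℕ) (δ : ℝ) (N : ℕ) :
    VA w L K1 δ N ⊆ L := by
  classical
  unfold VA
  exact Finset.filter_subset _ _

theorem U1_signs {ι : Type*} (η : ℝ) (hη : 0 < η) (hη1 : η ≤ 1 / 10) (K1 : ℕ) (δ : ℝ)
    (I : Finset ι) (y : ι → ℤ) (L : Finset ι) (g : ℤ) (w : ι → ℤ) (hB : Bal η K1 δ I y L g w)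
    (hI : 0 < I.card) :
    (∃ i ∈ VA w L K1 δ I.card, 0 < w i) ∧ (∃ j ∈ VA w L K1 δ I.card, w j < 0) := by
  set V := VA w L K1 δ I.card with hV
  have hVL : V ⊆ L := U1a_sub w L K1 δ I.card
  have hne : ∀ i ∈ V, w i ≠ 0 := fun i hi => (hB.eqn i (hVL hi)).2
  have hN : (0 : ℝ) < I.card := by exact_mod_cast hI
  have hc : (1 - η) * (I.card : ℝ) ≤ (V.card : ℝ) := hB.vacard
  have hs : |∑ i ∈ V, (w i : ℝ)| ≤ η * (I.card : ℝ) := hB.vasum
  have hlt : η * (I.card : ℝ) < (1 - η) * (I.card : ℝ) := by nlinarith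
  constructor
  · by_contra hcon
    push Not at hcon
    have h1 : ∀ i ∈ V, (w i : ℝ) ≤ -1 := by
      intro i hi
      have h2 : w i ≤ -1 := by
        have := hcon i hi
        have := hne i hi
        omega
      exact_mod_cast h2
    have h3 : ∑ i ∈ V, (w i : ℝ) ≤ -(V.card : ℝ) := by
      calc ∑ i ∈ V, (w i : ℝ) ≤ ∑ _i ∈ V, (-1 : ℝ) := Finset.sum_le_sum h1
        _ = -(V.card : ℝ) := by simp
    have h4 := (abs_le.1 hs).1
    linarith
  · by_contra hcon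
    push Not at hcon
    have h1 : ∀ i ∈ V, (1 : ℝ) ≤ (w i : ℝ) := by
      intro i hi
      have h2 : 1 ≤ w i := by
        have := hcon i hi
        have := hne i hi
        omega
      exact_mod_cast h2
    have h3 : (V.card : ℝ) ≤ ∑ i ∈ V, (w i : ℝ) := by
      calc (V.card : ℝ) = ∑ _i ∈ V, (1 : ℝ) := by simp
        _ ≤ _ := Finset.sum_le_sum h1
    have h4 := (abs_le.1 hs).2
    linarith

/-- the least positive value is at most 15 -/
theorem U1a_small {ι : Type*} (V : Finset ι) (v : ι → ℝ) (a N η Q : ℝ) (hN : 0 < N)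
    (hη1 : η ≤ 1 / 10) (ha : 0 < a) (h1 : ∀ i ∈ V, 1 ≤ |v i|) (h2 : ∀ i ∈ V, 0 < v i → a ≤ v i)
    (hc : (1 - η) * N ≤ (V.card : ℝ)) (hs : |∑ i ∈ V, v i| ≤ η * N)
    (hQ : ∑ i ∈ V, v i ^ 2 ≤ Q) (hQ6 : Q ≤ 6 * N) : a ≤ 15 := by
  -- `|v| + v` is twice the positive part
  have h3 : 2 * (2 / 5 * N) ≤ ∑ i ∈ V, (|v i| + v i) := by
    rw [Finset.sum_add_distrib]
    have h4 : (V.card : ℝ) ≤ ∑ i ∈ V, |v i| := by
      calc (V.card : ℝ) = ∑ _i ∈ V, (1 : ℝ) := by simp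
        _ ≤ _ := Finset.sum_le_sum h1
    have h5 := (abs_le.1 hs).1
    nlinarith
  have h6 : a * ∑ i ∈ V, (|v i| + v i) ≤ 2 * Q := by
    calc a * ∑ i ∈ V, (|v i| + v i) = ∑ i ∈ V, a * (|v i| + v i) := Finset.mul_sum _ _ _
      _ ≤ ∑ i ∈ V, 2 * v i ^ 2 := by
          refine Finset.sum_le_sum fun i hi => ?_
          rcases le_or_gt (v i) 0 with h | h
          · rw [abs_of_nonpos h]
            nlinarith [sq_nonneg (v i)]
          · rw [abs_of_pos h]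
            have := h2 i hi h
            nlinarith
      _ = 2 * ∑ i ∈ V, v i ^ 2 := by rw [Finset.mul_sum]
      _ ≤ 2 * Q := by linarith
  by_contra hcon
  push Not at hcon
  have h7 : 15 * (2 * (2 / 5 * N)) ≤ a * ∑ i ∈ V, (|v i| + v i) := by
    refine mul_le_mul hcon.le h3 (by positivity) ha.le
  have h8 : 15 * (2 * (2 / 5 * N)) < a * ∑ i ∈ V, (|v i| + v i) := by
    calc 15 * (2 * (2 / 5 * N)) < a * (2 * (2 / 5 * N)) := by
          apply mul_lt_mul_of_pos_right hcon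
          positivity
      _ ≤ _ := mul_le_mul_of_nonneg_left h3 ha.le
  linarith

theorem U1_core {ι : Type*} (η : ℝ) (hη : 0 < η) (hη1 : η ≤ 1 / 10) (K1 : ℕ) (δ : ℝ)
    (I : Finset ι) (y : ι → ℤ) (L : Finset ι) (g : ℤ) (w : ι → ℤ) (hB : Bal η K1 δ I y L g w)
    (hI : 0 < I.card) (κ : ℕ) (hκ : 1 ≤ κ)
    (hp : ∀ i ∈ VA w L K1 δ I.card, ∀ j ∈ VA w L K1 δ I.card, 0 < w i → w j < 0 →
      (κ : ℤ) ≤ w i * (-w j)) :
    (κ : ℝ) * (1 - 20 * η) * I.card ≤ sg w L := by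
  classical
  obtain ⟨⟨i0, hi0, hi0p⟩, ⟨j0, hj0, hj0n⟩⟩ := U1_signs η hη hη1 K1 δ I y L g w hB hI
  set V := VA w L K1 δ I.card with hV
  have hVL : V ⊆ L := U1a_sub w L K1 δ I.card
  have hne : ∀ i ∈ V, w i ≠ 0 := fun i hi => (hB.eqn i (hVL hi)).2
  have hN : (0 : ℝ) < I.card := by exact_mod_cast hI
  have hc : (1 - η) * (I.card : ℝ) ≤ (V.card : ℝ) := hB.vacard
  have hs : |∑ i ∈ V, (w i : ℝ)| ≤ η * (I.card : ℝ) := hB.vasum
  have hQ : ∑ i ∈ V, (w i : ℝ) ^ 2 ≤ sg w L := by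
    unfold sg
    exact Finset.sum_le_sum_of_subset_of_nonneg hVL fun _ _ _ => sq_nonneg _
  obtain ⟨i1, hi1, hmin⟩ := Finset.exists_min_image (V.filter fun i => 0 < w i) w
    ⟨i0, Finset.mem_filter.2 ⟨hi0, hi0p⟩⟩
  obtain ⟨j1, hj1, hmax⟩ := Finset.exists_max_image (V.filter fun i => w i < 0) w
    ⟨j0, Finset.mem_filter.2 ⟨hj0, hj0n⟩⟩
  rw [Finset.mem_filter] at hi1 hj1
  have hpos : ∀ i ∈ V, 0 < w i → w i1 ≤ w i := fun i hi h => hmin i (Finset.mem_filter.2 ⟨hi, h⟩)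
  have hneg : ∀ i ∈ V, w i < 0 → w i ≤ w j1 := fun i hi h => hmax i (Finset.mem_filter.2 ⟨hi, h⟩)
  set a : ℝ := (w i1 : ℝ) with ha
  set b : ℝ := -(w j1 : ℝ) with hb
  have ha1 : 1 ≤ a := by
    have : 1 ≤ w i1 := hi1.2
    rw [ha]
    exact_mod_cast this
  have hb1 : 1 ≤ b := by
    have : w j1 ≤ -1 := by
      have := hj1.2
      omega
    rw [hb]
    have h2 : (w j1 : ℝ) ≤ -1 := by exact_mod_cast this
    linarith
  have habs : ∀ i ∈ V, (1 : ℝ) ≤ |(w i : ℝ)| := by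
    intro i hi
    have h1 : 1 ≤ |w i| := Int.one_le_abs (hne i hi)
    exact_mod_cast h1
  have ha15 : a ≤ 15 := by
    refine U1a_small V (fun i => (w i : ℝ)) a I.card η (sg w L) hN hη1 (by linarith) habs ?_ hc hs
      hQ hB.sgle
    intro i hi h
    have h1 : 0 < w i := by exact_mod_cast h
    rw [ha]
    exact_mod_cast hpos i hi h1
  have hb15 : b ≤ 15 := by
    refine U1a_small V (fun i => -(w i : ℝ)) b I.card η (sg w L) hN hη1 (by linarith) ?_ ?_ hc ?_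
      ?_ hB.sgle
    · intro i hi
      rw [abs_neg]
      exact habs i hi
    · intro i hi h
      have h0 : (w i : ℝ) < 0 := by linarith
      have h1 : w i < 0 := by exact_mod_cast h0
      have h2 : (w i : ℝ) ≤ (w j1 : ℝ) := by exact_mod_cast hneg i hi h1
      rw [hb]
      linarith
    · rw [Finset.sum_neg_distrib, abs_neg]
      exact hs
    · calc ∑ i ∈ V, (-(w i : ℝ)) ^ 2 = ∑ i ∈ V, (w i : ℝ) ^ 2 :=
            Finset.sum_congr rfl fun i _ => by ring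
        _ ≤ _ := hQ
  have hab : (κ : ℝ) ≤ a * b := by
    have h1 := hp i1 hi1.1 j1 hj1.1 hi1.2 hj1.2
    have h2 : ((κ : ℤ) : ℝ) ≤ ((w i1 * (-w j1) : ℤ) : ℝ) := by exact_mod_cast h1
    push_cast at h2
    rw [ha, hb]
    linarith
  have hκ' : (1 : ℝ) ≤ κ := by exact_mod_cast hκ
  -- the pointwise inequality
  have hpt : ∀ i ∈ V, a * b - (b - a) * (w i : ℝ) ≤ (w i : ℝ) ^ 2 := by
    intro i hi
    rcases lt_or_gt_of_ne (hne i hi) with h | h
    · have h2 : (w i : ℝ) ≤ -b := by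
        have : (w i : ℝ) ≤ (w j1 : ℝ) := by exact_mod_cast hneg i hi h
        rw [hb]
        linarith
      nlinarith [mul_nonneg (by linarith : (0 : ℝ) ≤ a - w i) (by linarith : (0 : ℝ) ≤ -b - w i)]
    · have h2 : a ≤ (w i : ℝ) := by
        rw [ha]
        exact_mod_cast hpos i hi h
      nlinarith [mul_nonneg (by linarith : (0 : ℝ) ≤ w i - a) (by linarith : (0 : ℝ) ≤ w i + b)]
  have hsum : a * b * V.card - (b - a) * ∑ i ∈ V, (w i : ℝ) ≤ ∑ i ∈ V, (w i : ℝ) ^ 2 := by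
    calc a * b * V.card - (b - a) * ∑ i ∈ V, (w i : ℝ) =
          ∑ i ∈ V, (a * b - (b - a) * (w i : ℝ)) := by
          rw [Finset.sum_sub_distrib, Finset.sum_const, nsmul_eq_mul, Finset.mul_sum]
          ring
      _ ≤ _ := Finset.sum_le_sum hpt
  have h1 : (b - a) * ∑ i ∈ V, (w i : ℝ) ≤ 15 * (η * (I.card : ℝ)) := by
    calc (b - a) * ∑ i ∈ V, (w i : ℝ) ≤ |(b - a) * ∑ i ∈ V, (w i : ℝ)| := le_abs_self _
      _ = |b - a| * |∑ i ∈ V, (w i : ℝ)| := abs_mul _ _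
      _ ≤ 15 * (η * (I.card : ℝ)) := by
          refine mul_le_mul ?_ hs (abs_nonneg _) (by norm_num)
          rw [abs_le]
          constructor <;> linarith
  have h2 : (κ : ℝ) * ((1 - η) * I.card) ≤ a * b * V.card := by
    refine mul_le_mul hab hc ?_ (by positivity)
    have : 0 ≤ 1 - η := by linarith
    positivity
  have h3 : 15 * (η * (I.card : ℝ)) ≤ 15 * (κ * (η * (I.card : ℝ))) := by
    have h4 : 0 ≤ η * (I.card : ℝ) := by positivity
    nlinarith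
  have h5 : 0 ≤ (κ : ℝ) * (η * I.card) := by positivity
  nlinarith

end H31Z
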