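import Pool.Agent.Lib.H31Z.F2
import Pool.Agent.Lib.H31Z.R1
import Pool.Agent.Lib.H31Z.D3
import Pool.Agent.Lib.H31Z.U1

/-!
Chunk U3a.
-/

namespace H31Z

open Finset

/-- PROOF. `I = {i : x i ≠ 0}`, `y` from `R1_int` (applied to `I`); `y j ≠ 0` for `j ∈ I` by the
equivalence for `B = {j}`. `ZZ`: `F2_ZZ`, `F2_zeros` (`univ = I ∪ Iᶜ`) and `pn x I 0 = pz y I 0` by the
equivalence. `Star`: if `B ⊆ I` has sum `0`, `|B| ≤ r ≤ |B| + c`, `c = n - |I|`, add `r - |B|` zero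
coordinates to `B` to get a zero sum of size `r` (compare `hadm` in `upper_dichotomy` of
`Pool.Agent.Results.MP_f5b580_co.AllOddWeights`). With `B = ∅`: `c < r`. -/
theorem U3_prep (n r : ℕ) (hr : 1 ≤ r) (hrn : r ≤ n) (x : Fin n → ℝ) (hx : Adm n r x) :
    ∃ (I : Finset (Fin n)) (y : Fin n → ℤ), (∀ i, i ∈ I ↔ x i ≠ 0) ∧
      (∀ B ⊆ I, (∑ i ∈ B, x i = 0 ↔ ∑ i ∈ B, y i = 0)) ∧ (∀ j ∈ I, y j ≠ 0) ∧
      Star y I (n - I.card) r ∧ (ZZ n x : ℝ) = 2 ^ n * pz y I 0 ∧ n < I.card + r := by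
  classical
  set I : Finset (Fin n) := Finset.univ.filter (fun i => x i ≠ 0) with hI
  have hmem : ∀ i, i ∈ I ↔ x i ≠ 0 := by
    intro i
    rw [hI, Finset.mem_filter]
    exact and_iff_right (Finset.mem_univ i)
  obtain ⟨y, hy⟩ := R1_int I x
  have hcI : I.card ≤ n := by
    have h1 := Finset.card_le_univ I
    rwa [Fintype.card_fin] at h1
  have hdis : Disjoint I Iᶜ := disjoint_compl_right
  have hun : I ∪ Iᶜ = Finset.univ := Finset.union_compl I
  have hO : ∀ i ∈ Iᶜ, x i = 0 := by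
    intro i hi
    rw [Finset.mem_compl, hmem] at hi
    exact not_not.1 hi
  have hcO : (Iᶜ).card = n - I.card := by
    rw [Finset.card_compl, Fintype.card_fin]
  have hstar : Star y I (n - I.card) r := by
    intro B hB hsB
    by_contra hcon
    push Not at hcon
    obtain ⟨T, hTO, hTc⟩ := Finset.exists_subset_card_eq
      (show r - B.card ≤ (Iᶜ).card by omega)
    have hBT : Disjoint B T :=
      Finset.disjoint_of_subset_left hB (Finset.disjoint_of_subset_right hTO hdis)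
    apply hx (B ∪ T)
    · rw [Finset.card_union_of_disjoint hBT, hTc]; omega
    · rw [Finset.sum_union hBT, (hy B hB).2 hsB, zero_add]
      exact Finset.sum_eq_zero fun i hi => hO i (hTO hi)
  refine ⟨I, y, hmem, hy, ?_, hstar, ?_, ?_⟩
  · intro j hj h0
    have h1 := (hy {j} (Finset.singleton_subset_iff.2 hj)).2 (by rw [Finset.sum_singleton]; exact h0)
    rw [Finset.sum_singleton] at h1
    exact (hmem j).1 hj h1
  · rw [F2_ZZ, ← hun, F2_zeros x I Iᶜ hdis hO]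
    congr 1
    have h1 : cn x I 0 = cz y I 0 := by
      unfold cn cz
      congr 1
      ext B
      simp only [Finset.mem_filter, Finset.mem_powerset, and_congr_right_iff]
      intro hB
      exact hy B hB
    unfold pn pz
    rw [h1]
  · have h1 := hstar ∅ (Finset.empty_subset _) (by simp)
    rw [Finset.card_empty] at h1
    omega

/-- PROOF. `D3_dich η` gives `K1, δ, N0`; `n1` large. As `n < |I| + r` and `9 r ≤ 8 n`, `|I| ≥ n/9` is
large. Apply `D3_dich` to `y, I`. First alternative: if `pz y I 0 ≥ (1/4)/√|I|` use `R1_conc η` with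
`c = n - |I|`. Second alternative: `U1_zeros`, `U1_pairs` with `c = n - |I|`. -/
theorem U3_dich (η : ℝ) (hη : 0 < η) (hη' : η ≤ 1 / 100) :
    ∃ (K1 : ℕ) (δ : ℝ) (n1 : ℕ), 1 ≤ K1 ∧ 0 < δ ∧ ∀ (n r κ : ℕ), n1 ≤ n → 1 ≤ r → 9 * r ≤ 8 * n →
      κ ≤ 4 → (∀ h : ℕ, 2 ≤ h → h ≤ κ → h ∣ r) →
      ∀ (I : Finset (Fin n)) (y : Fin n → ℤ), (∀ j ∈ I, y j ≠ 0) →
      Star y I (n - I.card) r → n < I.card + r →
      (pz y I 0 ≤ (1 / 2 + η) * Real.sqrt (2 / (Real.pi * I.card)) ∧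
        (pz y I 0 < (1 / 4) / Real.sqrt I.card ∨
          (1 - η) * min (2 * (r : ℝ)) (2 * ((n : ℝ) - r)) ≤ I.card)) ∨
      (n < I.card + 2 * K1 ∧ ∃ (L : Finset (Fin n)) (g : ℤ) (w : Fin n → ℤ),
        Bal η K1 δ I y L g w ∧
        ∀ i ∈ VA w L K1 δ I.card, ∀ j ∈ VA w L K1 δ I.card, 0 < w i → w j < 0 →
          (κ : ℤ) ≤ w i * (-w j)) := by
  obtain ⟨K1, δ, N0, hK1, hδ, hD⟩ := D3_dich η hη hη'
  obtain ⟨N1, hR⟩ := R1_conc η hη (by linarith)
  refine ⟨K1, δ, 9 * (N0 + N1 + ⌈4 / η⌉₊ + ⌈2 * (K1 : ℝ) / η⌉₊ + 1), hK1, hδ, ?_⟩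
  intro n r κ hn hr hrn hκ4 hκ I y hy hS hI
  have hcI : I.card ≤ n := by
    have h1 := Finset.card_le_univ I
    rwa [Fintype.card_fin] at h1
  have hN : N0 + N1 + ⌈4 / η⌉₊ + ⌈2 * (K1 : ℝ) / η⌉₊ + 1 ≤ I.card := by omega
  have h4 : 4 ≤ η * (I.card : ℝ) := by
    have h1 : 4 / η ≤ (I.card : ℝ) :=
      (Nat.le_ceil _).trans (by exact_mod_cast (by omega : ⌈4 / η⌉₊ ≤ I.card))
    rw [div_le_iff₀ hη] at h1
    linarith
  have hK : 2 * (K1 : ℝ) ≤ η * (I.card : ℝ) := by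
    have h1 : 2 * (K1 : ℝ) / η ≤ (I.card : ℝ) :=
      (Nat.le_ceil _).trans (by exact_mod_cast (by omega : ⌈2 * (K1 : ℝ) / η⌉₊ ≤ I.card))
    rw [div_le_iff₀ hη] at h1
    linarith
  have hnc : I.card + (n - I.card) = n := by omega
  rcases hD (Fin n) I y (by omega) hy with h | ⟨L, g, w, hB⟩
  · left
    refine ⟨h, ?_⟩
    by_cases hp : (1 / 4) / Real.sqrt I.card ≤ pz y I 0
    · right
      have h1 := hR (Fin n) I y (n - I.card) r (by omega) hS (by omega) hp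
      have h2 : (I.card : ℝ) + ((n - I.card : ℕ) : ℝ) = (n : ℝ) := by exact_mod_cast hnc
      rwa [h2] at h1
    · left
      exact not_le.1 hp
  · right
    have hz := U1_zeros η hη hη' K1 δ I y L g w hB (by omega) hK (n - I.card) r hS (by omega)
    refine ⟨by omega, L, g, w, hB, ?_⟩
    exact U1_pairs η hη hη' K1 δ I y L g w hB h4 (n - I.card) r κ hS (by omega) hκ4 hκ

end H31Z
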